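import Pool.Agent.K6.H83.HX.Corn

/-! Absorption of large points at the two ends of a stack of rows. -/

set_option autoImplicit false

namespace Pool.Agent.K6.H83.HN

open Finset Pool.Agent.TH176.Nag Pool.Agent.TH603.Sur Pool.Agent.TH641.UM Pool.Agent.K6.H83.QH
  Pool.Agent.Y205.AV Pool.Agent.K6.H83.HX

/-- the rows `0, …, N - 1`, the row `y` from `A y` to `C y` -/
def Gr (A C : ℤ → ℤ) (N : ℤ) : Set (ℤ × ℤ) :=
  {p | 0 ≤ p.2 ∧ p.2 < N ∧ A p.2 ≤ p.1 ∧ p.1 ≤ C p.2}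

/-- the positive part -/
def ps (z : ℤ) : ℤ := max z 0

theorem ps_nonneg (z : ℤ) : 0 ≤ ps z := le_max_right _ _

theorem ps_ge (z : ℤ) : z ≤ ps z := le_max_left _ _

theorem ps_of_nonneg {z : ℤ} (h : 0 ≤ z) : ps z = z := max_eq_left h

theorem ps_of_nonpos {z : ℤ} (h : z ≤ 0) : ps z = 0 := max_eq_right h

theorem ps_le {z w : ℤ} (h1 : z ≤ w) (h2 : 0 ≤ w) : ps z ≤ w := max_le h1 h2

theorem Gr_finite {A C : ℤ → ℤ} {N : ℤ} (lo hi : ℤ) (hA : ∀ y, 0 ≤ y → y < N → lo ≤ A y)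
    (hC : ∀ y, 0 ≤ y → y < N → C y ≤ hi) : (Gr A C N).Finite := by
  refine Set.Finite.subset ((Set.finite_Icc lo hi).prod (Set.finite_Icc 0 N)) ?_
  rintro ⟨x, y⟩ ⟨g1, g2, g3, g4⟩
  simp only at g1 g2 g3 g4
  exact ⟨⟨(hA y g1 g2).trans g3, g4.trans (hC y g1 g2)⟩, ⟨g1, g2.le⟩⟩

theorem SM_absL {M : Multiset ℕ} (v : ℕ) (A C : ℤ → ℤ) (N : ℤ) (hv : (v : ℤ) ≤ N)
    (hrow : ∀ y : ℤ, 0 ≤ y → y < v → A y + (v - y) ≤ C y + 1)
    (h : SM M (Gr (fun y => A y + ps ((v : ℤ) - y)) C N)) :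
    SM ({v} + M) (Gr A C N) := by
  obtain ⟨C', hC'⟩ : ∃ C' : ℤ → ℤ, C' = fun y => if y < N then C y else A y - 1 := ⟨_, rfl⟩
  have s0 : SM M (Pool.Agent.TH151.N13.Rg (fun y => (A y - 1) + max ((v : ℤ) - y) 0) C') := by
    refine SM_monoS h ?_
    rintro ⟨x, y⟩ ⟨g1, g2, g3, g4⟩
    simp only [ps] at g1 g2 g3 g4
    refine ⟨g1, ?_, ?_⟩
    · simp only; omega
    · simp only [hC']
      rw [if_pos g2]
      exact g4
  have s1 := SM_abs v (fun y => A y - 1) C' (by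
    intro y h0 h1
    simp only [hC']
    rw [if_pos (by omega)]
    have := hrow y h0 h1
    omega) s0
  refine SM_monoS s1 ?_
  rintro ⟨x, y⟩ ⟨g1, g2, g3⟩
  simp only [hC'] at g1 g2 g3
  by_cases hy : y < N
  · rw [if_pos hy] at g3
    exact ⟨g1, hy, by simp only; omega, g3⟩
  · rw [if_neg hy] at g3
    omega

theorem EM_absL {M : Multiset ℕ} (v : ℕ) (A C : ℤ → ℤ) (N : ℤ) (hfin : (Gr A C N).Finite)
    (h : EM M (Gr (fun y => A y + ps ((v : ℤ) - y)) C N)) :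
    EM ({v} + M) (Gr A C N) := by
  refine EM_abs v hfin (fun p hp => hp.1) A (fun p hp => hp.2.2.1) ?_ h
  rintro ⟨x, y⟩ ⟨g1, g2, g3, g4⟩ g5
  simp only at g1 g2 g3 g4 g5
  refine ⟨g1, g2, ?_, g4⟩
  simp only [ps]
  rcases max_cases ((v : ℤ) - y) 0 with ⟨c3, c4⟩ | ⟨c3, c4⟩ <;> rw [c3] <;> omega

theorem SM_flip {M : Multiset ℕ} {A C A' C' : ℤ → ℤ} {N : ℤ}
    (hA : ∀ y, A' y = A (N - 1 - y)) (hC : ∀ y, C' y = C (N - 1 - y))
    (h : SM M (Gr A' C' N)) : SM M (Gr A C N) := by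
  refine SM_comap h 1 0 0 (-1) 0 (N - 1) (by norm_num) ?_
  rintro ⟨x, y⟩ ⟨g1, g2, g3, g4⟩
  simp only at g1 g2 g3 g4
  rw [hA] at g3
  rw [hC] at g4
  refine ⟨(x, N - 1 - y), ⟨by simp only; omega, by simp only; omega, g3, g4⟩, ?_⟩
  ext
  · simp only; ring
  · simp only; ring

theorem EM_flip {M : Multiset ℕ} {A C A' C' : ℤ → ℤ} {N : ℤ}
    (hA : ∀ y, A' (N - 1 - y) = A y) (hC : ∀ y, C' (N - 1 - y) = C y)
    (h : EM M (Gr A' C' N)) : EM M (Gr A C N) := by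
  refine EM_comap h 1 0 0 (-1) 0 (N - 1) (by norm_num) ?_
  rintro ⟨x, y⟩ ⟨g1, g2, g3, g4⟩
  simp only at g1 g2 g3 g4
  have e1 : 0 * x + -1 * y + (N - 1) = N - 1 - y := by ring
  have e2 : 1 * x + 0 * y + 0 = x := by ring
  simp only [e1, e2]
  refine ⟨by simp only; omega, by simp only; omega, ?_, ?_⟩
  · simp only
    rw [hA]
    exact g3
  · simp only
    rw [hC]
    exact g4

theorem SM_absR {M : Multiset ℕ} (v : ℕ) (A C : ℤ → ℤ) (N : ℤ) (hv : (v : ℤ) ≤ N)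
    (hrow : ∀ y : ℤ, 0 ≤ y → y < v → A (N - 1 - y) + (v - y) ≤ C (N - 1 - y) + 1)
    (h : SM M (Gr (fun y => A y + ps ((v : ℤ) - (N - 1 - y))) C N)) :
    SM ({v} + M) (Gr A C N) := by
  refine SM_flip (A' := fun y => A (N - 1 - y)) (C' := fun y => C (N - 1 - y)) (fun _ => rfl)
    (fun _ => rfl) ?_
  refine SM_absL v _ _ N hv hrow ?_
  refine SM_flip (A' := fun y => A y + ps ((v : ℤ) - (N - 1 - y))) (C' := C) ?_ ?_ h
  · intro y
    have e : N - 1 - (N - 1 - y) = y := by ring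
    simp only [e]
  · intro y
    have e : N - 1 - (N - 1 - y) = y := by ring
    simp only [e]

theorem EM_absR {M : Multiset ℕ} (v : ℕ) (A C : ℤ → ℤ) (N : ℤ) (hfin : (Gr A C N).Finite)
    (h : EM M (Gr (fun y => A y + ps ((v : ℤ) - (N - 1 - y))) C N)) :
    EM ({v} + M) (Gr A C N) := by
  have e : ∀ y : ℤ, N - 1 - (N - 1 - y) = y := fun y => by ring
  refine EM_flip (A' := fun y => A (N - 1 - y)) (C' := fun y => C (N - 1 - y))
    (fun y => by simp only [e]) (fun y => by simp only [e]) ?_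
  refine EM_absL v _ _ N ?_ ?_
  · refine (hfin.image (fun p : ℤ × ℤ => (p.1, N - 1 - p.2))).subset ?_
    rintro ⟨x, y⟩ ⟨g1, g2, g3, g4⟩
    simp only at g1 g2 g3 g4
    exact ⟨(x, N - 1 - y), ⟨by simp only; omega, by simp only; omega, g3, g4⟩, by simp only [e]⟩
  · refine EM_flip (A' := fun y => A y + ps ((v : ℤ) - (N - 1 - y))) (C' := C) ?_ ?_ h
    · intro y
      simp only [e]
    · intro y
      rfl

/-- the width removed by the five points -/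
def A5 (b1 b2 b3 t1 t2 N y : ℤ) : ℤ :=
  ps (b1 - y) + ps (b2 - y) + ps (b3 - y) + ps (t1 - (N - 1 - y)) + ps (t2 - (N - 1 - y))

/-- the profile left by the five points -/
def pr (c b1 b2 b3 t1 t2 N y : ℤ) : ℤ := c - y - A5 b1 b2 b3 t1 t2 N y

/-- **independence** with five large points on a stack of rows -/
theorem SM5 {M : Multiset ℕ} {d N : ℤ} {b1 b2 b3 t1 t2 : ℕ} (h1 : (b1 : ℤ) ≤ N)
    (h2 : (b2 : ℤ) ≤ N) (h3 : (b3 : ℤ) ≤ N) (h4 : (t1 : ℤ) ≤ N) (h5 : (t2 : ℤ) ≤ N)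
    (hp : ∀ y, 0 ≤ y → y < N → 0 ≤ pr (d + 1) b1 b2 b3 t1 t2 N y)
    (h : SM M {p : ℤ × ℤ | 0 ≤ p.1 ∧ 0 ≤ p.2 ∧ p.2 < N ∧
      p.1 < pr (d + 1) b1 b2 b3 t1 t2 N p.2}) :
    SM ({b1} + ({b2} + ({b3} + ({t1} + ({t2} + M))))) (Gr (fun _ => 0) (fun y => d - y) N) := by
  have s0 : SM M (Gr (fun y => A5 b1 b2 b3 t1 t2 N y) (fun y => d - y) N) := by
    refine SM_comap h (-1) (-1) 0 1 d 0 (by norm_num) ?_
    rintro ⟨x, y⟩ ⟨g1, g2, g3, g4⟩
    simp only [pr] at g1 g2 g3 g4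
    refine ⟨(d - y - x, y), ⟨g2, g3, by simp only; omega, by simp only; omega⟩, ?_⟩
    ext
    · simp only; ring
    · simp only; ring
  refine SM_absL b1 _ _ N h1 ?_ ?_
  · intro y y0 y1
    have g := hp y y0 (by omega)
    unfold pr A5 at g
    rw [ps_of_nonneg (z := (b1 : ℤ) - y) (by omega)] at g
    have p2 := ps_nonneg ((b2 : ℤ) - y)
    have p3 := ps_nonneg ((b3 : ℤ) - y)
    have p4 := ps_nonneg ((t1 : ℤ) - (N - 1 - y))
    have p5 := ps_nonneg ((t2 : ℤ) - (N - 1 - y))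
    omega
  refine SM_absL b2 _ _ N h2 ?_ ?_
  · intro y y0 y1
    have g := hp y y0 (by omega)
    unfold pr A5 at g
    rw [ps_of_nonneg (z := (b2 : ℤ) - y) (by omega)] at g
    have p3 := ps_nonneg ((b3 : ℤ) - y)
    have p4 := ps_nonneg ((t1 : ℤ) - (N - 1 - y))
    have p5 := ps_nonneg ((t2 : ℤ) - (N - 1 - y))
    omega
  refine SM_absL b3 _ _ N h3 ?_ ?_
  · intro y y0 y1
    have g := hp y y0 (by omega)
    unfold pr A5 at g
    rw [ps_of_nonneg (z := (b3 : ℤ) - y) (by omega)] at g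
    have p4 := ps_nonneg ((t1 : ℤ) - (N - 1 - y))
    have p5 := ps_nonneg ((t2 : ℤ) - (N - 1 - y))
    omega
  refine SM_absR t1 _ _ N h4 ?_ ?_
  · intro y y0 y1
    have g := hp (N - 1 - y) (by omega) (by omega)
    unfold pr A5 at g
    have e : N - 1 - (N - 1 - y) = y := by ring
    rw [e, ps_of_nonneg (z := (t1 : ℤ) - y) (by omega)] at g
    have p5 := ps_nonneg ((t2 : ℤ) - y)
    omega
  refine SM_absR t2 _ _ N h5 ?_ ?_
  · intro y y0 y1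
    have g := hp (N - 1 - y) (by omega) (by omega)
    unfold pr A5 at g
    have e : N - 1 - (N - 1 - y) = y := by ring
    rw [e, ps_of_nonneg (z := (t2 : ℤ) - y) (by omega)] at g
    rw [e]
    omega
  refine SM_monoS s0 ?_
  rintro ⟨x, y⟩ ⟨g1, g2, g3, g4⟩
  simp only [A5] at g1 g2 g3 g4
  exact ⟨g1, g2, by simp only; omega, g4⟩

/-- **emptiness** with five large points on a stack of rows -/
theorem EM5 {M : Multiset ℕ} {d N : ℤ} {b1 b2 b3 t1 t2 : ℕ}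
    (h : EM M {p : ℤ × ℤ | 0 ≤ p.1 ∧ 0 ≤ p.2 ∧ p.2 < N ∧
      p.1 < pr (d + 1) b1 b2 b3 t1 t2 N p.2}) :
    EM ({b1} + ({b2} + ({b3} + ({t1} + ({t2} + M))))) (Gr (fun _ => 0) (fun y => d - y) N) := by
  have s0 : EM M (Gr (fun y => A5 b1 b2 b3 t1 t2 N y) (fun y => d - y) N) := by
    refine EM_comap h (-1) (-1) 0 1 d 0 (by norm_num) ?_
    rintro ⟨x, y⟩ ⟨g1, g2, g3, g4⟩
    simp only at g1 g2 g3 g4
    have e1 : 0 * x + 1 * y + 0 = y := by ring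
    refine ⟨by simp only; omega, by simp only; omega, by simp only; omega, ?_⟩
    simp only [e1, pr]
    omega
  have hfin : ∀ A : ℤ → ℤ, (∀ y, 0 ≤ A y) → (Gr A (fun y => d - y) N).Finite := fun A hA =>
    Gr_finite 0 d (fun y _ _ => hA y) (fun y hy _ => by omega)
  refine EM_absL b1 _ _ N (hfin _ fun y => le_rfl) ?_
  refine EM_absL b2 _ _ N (hfin _ fun y => ?_) ?_
  · have p1 := ps_nonneg ((b1 : ℤ) - y)
    omega
  refine EM_absL b3 _ _ N (hfin _ fun y => ?_) ?_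
  · have p1 := ps_nonneg ((b1 : ℤ) - y)
    have p2 := ps_nonneg ((b2 : ℤ) - y)
    omega
  refine EM_absR t1 _ _ N (hfin _ fun y => ?_) ?_
  · have p1 := ps_nonneg ((b1 : ℤ) - y)
    have p2 := ps_nonneg ((b2 : ℤ) - y)
    have p3 := ps_nonneg ((b3 : ℤ) - y)
    omega
  refine EM_absR t2 _ _ N (hfin _ fun y => ?_) ?_
  · have p1 := ps_nonneg ((b1 : ℤ) - y)
    have p2 := ps_nonneg ((b2 : ℤ) - y)
    have p3 := ps_nonneg ((b3 : ℤ) - y)
    have p4 := ps_nonneg ((t1 : ℤ) - (N - 1 - y))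
    omega
  refine Emp.mono s0 ?_
  rintro ⟨x, y⟩ ⟨g1, g2, g3, g4⟩
  simp only at g1 g2 g3 g4
  refine ⟨g1, g2, ?_, g4⟩
  simp only [A5]
  omega

/-- the top corner, independence -/
theorem SM_top {M : Multiset ℕ} {d v : ℕ} (hv : v ≤ d)
    (h : SM M (Gr (fun _ => 0) (fun y => (d : ℤ) - y) ((d : ℤ) - v + 1))) :
    SM ({v} + M) (TZ d) := by
  have s3 : SM M (Pool.Agent.TH151.N13.Rg (fun z => -1 + max ((v : ℤ) - z) 0)
      (fun z => (d : ℤ) - z)) := by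
    refine SM_comap h 1 0 (-1) (-1) 0 d (by norm_num) ?_
    rintro ⟨x, y⟩ ⟨g1, g2, g3, g4⟩
    simp only at g1 g2 g3 g4
    refine ⟨(x, (d : ℤ) - x - y), ⟨by simp only; omega, ?_, by simp only; omega⟩, ?_⟩
    · simp only
      rcases max_cases ((v : ℤ) - (d - x - y)) 0 with ⟨c3, c4⟩ | ⟨c3, c4⟩ <;> rw [c3] <;> omega
    · ext
      · simp only; ring
      · simp only; ring
  have s4 : SM ({v} + M) (Pool.Agent.TH151.N13.Rg (fun _ => -1) (fun z => (d : ℤ) - z)) := by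
    refine SM_abs v _ _ ?_ s3
    intro y h0 h1
    omega
  refine SM_monoS s4 ?_
  rintro p ⟨g1, g2, g3⟩
  simp only at g2 g3
  exact ⟨by omega, g1, by omega⟩

/-- the top corner, emptiness -/
theorem EM_top {M : Multiset ℕ} {d v : ℕ}
    (h : EM M (Gr (fun _ => 0) (fun y => (d : ℤ) - y) ((d : ℤ) - v + 1))) :
    EM ({v} + M) (TZ d) := by
  have s3 : EM M {p : ℤ × ℤ | 0 ≤ p.1 ∧ 0 ≤ p.2 ∧ p.1 + p.2 ≤ d ∧ (v : ℤ) ≤ p.1 + p.2} := by
    refine EM_comap h 1 0 (-1) (-1) 0 d (by norm_num) ?_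
    rintro ⟨x, y⟩ ⟨g1, g2, g3, g4⟩
    simp only at g1 g2 g3 g4
    refine ⟨by simp only; omega, by simp only; omega, by simp only; omega, by simp only; omega⟩
  refine EM_abs v (TZ_finite d) (fun p hp => hp.2.1) (fun _ => 0) (fun p hp => hp.1) ?_ s3
  rintro p ⟨g1, g2, g3⟩ g5
  exact ⟨g1, g2, g3, by omega⟩

end Pool.Agent.K6.H83.HN
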