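import Pool.Agent.K6.H83.HN.MainW

/-! Greedy shelves: any number of points with some room. -/

set_option autoImplicit false

namespace Pool.Agent.K6.H83.HN.W

open Finset

/-- the number of points on the shelves -/
theorem Sh.count {v p s D : ℕ → ℕ} {K m : ℕ} (h : Sh v K m p s D) :
    s K = 9 + 2 * (∑ k ∈ Finset.range K, (p k + 1)) + 3 * K := by
  have key : ∀ j, j ≤ K → s j = 9 + 2 * (∑ k ∈ Finset.range j, (p k + 1)) + 3 * j := by
    intro j
    induction j with
    | zero => intro _; rw [h.s0]; rfl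
    | succ j ih =>
      intro hj
      rw [h.ss j (by omega), ih (by omega), Finset.sum_range_succ]
      ring
  exact key K le_rfl

theorem sum_ge {p : ℕ → ℕ} (K : ℕ) : K ≤ ∑ k ∈ Finset.range K, (p k + 1) := by
  induction K with
  | zero => exact Nat.zero_le _
  | succ K ih => rw [Finset.sum_range_succ]; omega

/-- one more shelf -/
theorem Sh.ext {v p s D : ℕ → ℕ} {K m : ℕ} (h : Sh v K m p s D) (q : ℕ)
    (hq : (q + 2) * (v (s K) + 2 ^ 13 * m) ≤ D K) :
    ∃ p' s' D' : ℕ → ℕ, Sh v (K + 1) m p' s' D' ∧ s' (K + 1) = s K + 5 + 2 * q ∧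
      D' (K + 1) = D K + v (s K) + 2 ^ 13 * m ∧ D' 0 = D 0 := by
  refine ⟨fun k => if k < K then p k else q, fun k => if k ≤ K then s k else s K + 5 + 2 * q,
    fun k => if k ≤ K then D k else D K + v (s K) + 2 ^ 13 * m, ?_, ?_, ?_, ?_⟩
  · refine ⟨?_, ?_, ?_, ?_, ?_, ?_, ?_⟩
    · show (if 0 ≤ K then s 0 else _) = 9
      rw [if_pos (Nat.zero_le _)]
      exact h.s0
    · intro k hk
      show (if k + 1 ≤ K then s (k + 1) else _) = (if k ≤ K then s k else _) + 5 +
        2 * (if k < K then p k else q)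
      rcases Nat.lt_or_ge k K with hkK | hkK
      · rw [if_pos (show k + 1 ≤ K from hkK), if_pos hkK.le, if_pos hkK]
        exact h.ss k hkK
      · have e : k = K := by omega
        subst e
        rw [if_neg (by omega), if_pos le_rfl, if_neg (by omega)]
    · show v 0 + v 1 + v 2 ≤ (if 0 ≤ K then D 0 else _)
      rw [if_pos (Nat.zero_le _)]
      exact h.d1
    · show v 0 + 2 ^ 16 * m ≤ (if 0 ≤ K then D 0 else _)
      rw [if_pos (Nat.zero_le _)]
      exact h.d2
    · show v 1 + v 2 + v 7 + 2 ^ 16 * m ≤ (if 0 ≤ K then D 0 else _)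
      rw [if_pos (Nat.zero_le _)]
      exact h.d3
    · intro k hk
      show (if k + 1 ≤ K then D (k + 1) else _) = (if k ≤ K then D k else _) +
        v (if k ≤ K then s k else _) + 2 ^ 13 * m
      rcases Nat.lt_or_ge k K with hkK | hkK
      · rw [if_pos (show k + 1 ≤ K from hkK), if_pos hkK.le, if_pos hkK.le]
        exact h.dd k hkK
      · have e : k = K := by omega
        subst e
        rw [if_neg (by omega), if_pos le_rfl, if_pos le_rfl]
    · intro k hk
      show ((if k < K then p k else q) + 2) * (v (if k ≤ K then s k else _) + 2 ^ 13 * m) ≤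
        (if k ≤ K then D k else _)
      rcases Nat.lt_or_ge k K with hkK | hkK
      · rw [if_pos hkK, if_pos hkK.le, if_pos hkK.le]
        exact h.dp k hkK
      · have e : k = K := by omega
        subst e
        rw [if_neg (by omega), if_pos le_rfl, if_pos le_rfl]
        exact hq
  · show (if K + 1 ≤ K then _ else _) = _
    rw [if_neg (by omega)]
  · show (if K + 1 ≤ K then _ else _) = _
    rw [if_neg (by omega)]
  · show (if 0 ≤ K then D 0 else _) = _
    rw [if_pos (Nat.zero_le _)]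

/-- the waste of a full shelf -/
theorem waste {D N w q : ℤ} (hw0 : 0 ≤ w) (hw : w ≤ N) (hN : 2 * N ≤ D) (hq : 0 ≤ q)
    (h1 : q * N ≤ D) (h2 : D ≤ q * N + N) :
    2 * D * N ≤ (2 * q + 1) * w ^ 2 + N ^ 2 + 6 * D * (N - w) := by
  obtain ⟨x, hx⟩ : ∃ x, x = N - w := ⟨_, rfl⟩
  have hx0 : 0 ≤ x := by omega
  have e : w = N - x := by omega
  have hN0 : 0 ≤ N := by omega
  have a1 : 0 ≤ (2 * q + 1) * x ^ 2 := by positivity
  have a2 : D * N ≤ (q * N + N) * N := mul_le_mul_of_nonneg_right h2 hN0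
  have a3 : q * N * x ≤ D * x := mul_le_mul_of_nonneg_right h1 hx0
  have a4 : 2 * N * x ≤ D * x := mul_le_mul_of_nonneg_right hN hx0
  have a5 : 0 ≤ D * x := mul_nonneg (by omega) hx0
  rw [← hx, e]
  nlinarith

theorem sq_sum_le {v : ℕ → ℕ} {a b : ℕ} (h : a ≤ b) :
    ∑ i ∈ Finset.range a, v i ^ 2 ≤ ∑ i ∈ Finset.range b, v i ^ 2 :=
  Finset.sum_le_sum_of_subset (Finset.range_subset_range.2 h)

theorem sq_sum_add {v : ℕ → ℕ} (hv : Antitone v) (a c : ℕ) :
    ∑ i ∈ Finset.range a, v i ^ 2 + c * v (a + c) ^ 2 ≤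
      ∑ i ∈ Finset.range (a + c), v i ^ 2 := by
  rw [Finset.sum_range_add]
  refine Nat.add_le_add_left ?_ _
  calc c * v (a + c) ^ 2 = ∑ _i ∈ Finset.range c, v (a + c) ^ 2 := by
        rw [sum_const, card_range, smul_eq_mul]
    _ ≤ _ := sum_le_sum fun i hi => Nat.pow_le_pow_left
        (hv (by have := Finset.mem_range.1 hi; omega)) 2

theorem area {v : ℕ → ℕ} (hv : Antitone v) {s0 m d : ℕ} (hs : 9 ≤ s0) (hm : 1 ≤ m) (hd : 1 ≤ d)
    (h : (∑ i ∈ Finset.range s0, v i ^ 2) + (14 * v 0 + 2 ^ 15 * s0 * m) * d ≤ d ^ 2) :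
    ∃ (K : ℕ) (p s D : ℕ → ℕ), Sh v K m p s D ∧ s0 ≤ s K ∧ s K ≤ s0 + 4 ∧ D K ≤ d ∧
      2 * ((∑ k ∈ Finset.range K, (p k + 1)) + 1) ≤ s0 := by
  obtain ⟨V, hV⟩ : ∃ V, V = v 0 := ⟨_, rfl⟩
  obtain ⟨η, hη⟩ : ∃ η, η = 2 ^ 13 * m := ⟨_, rfl⟩
  obtain ⟨A, hA⟩ : ∃ A : ℕ → ℕ, A = fun a => ∑ i ∈ Finset.range a, v i ^ 2 := ⟨_, rfl⟩
  have hAa : ∀ a, A a = ∑ i ∈ Finset.range a, v i ^ 2 := fun a => by rw [hA]
  have e15 : 2 ^ 15 * s0 * m = 4 * (s0 * η) := by rw [hη]; ring
  rw [← hV, e15, ← hAa] at h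
  have hvV : ∀ i, v i ≤ V := fun i => by rw [hV]; exact hv (Nat.zero_le _)
  have hη1 : 1 ≤ η := by rw [hη]; omega
  -- `d` is large
  have hdd : 14 * V + 4 * (s0 * η) ≤ d := by
    by_contra hc
    push Not at hc
    have c1 : (d + 1) * d ≤ (14 * V + 4 * (s0 * η)) * d := Nat.mul_le_mul_right _ hc
    have c2 : (d + 1) * d = d ^ 2 + d := by ring
    omega
  have hsη : 9 * η ≤ s0 * η := Nat.mul_le_mul_right _ hs
  obtain ⟨D0, hD0⟩ : ∃ D0, D0 = 3 * V + 8 * η := ⟨_, rfl⟩
  have hD0d : D0 ≤ d := by omega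
  have h016 : 2 ^ 16 * m = 8 * η := by rw [hη]; ring
  -- the start
  have hSh0 : Sh v 0 m (fun _ => 0) (fun _ => 9) (fun _ => D0) := by
    have g0 := hvV 0
    have g1 := hvV 1
    have g2 := hvV 2
    have g7 := hvV 7
    refine ⟨rfl, fun k hk => absurd hk (by omega), ?_, ?_, ?_, fun k hk => absurd hk (by omega),
      fun k hk => absurd hk (by omega)⟩
    · show v 0 + v 1 + v 2 ≤ D0
      omega
    · show v 0 + 2 ^ 16 * m ≤ D0
      omega
    · show v 1 + v 2 + v 7 + 2 ^ 16 * m ≤ D0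
      omega
  by_cases h9 : s0 = 9
  · refine ⟨0, fun _ => 0, fun _ => 9, fun _ => D0, hSh0, h9.le, by
      show 9 ≤ s0 + 4
      omega, hD0d, ?_⟩
    rw [Finset.sum_range_zero]
    omega
  -- chains
  have main : ∀ K : ℕ, (∃ (K : ℕ) (p s D : ℕ → ℕ), Sh v K m p s D ∧ s0 ≤ s K ∧ s K ≤ s0 + 4 ∧
      D K ≤ d ∧ 2 * ((∑ k ∈ Finset.range K, (p k + 1)) + 1) ≤ s0) ∨
      ∃ p s D : ℕ → ℕ, Sh v K m p s D ∧ s K < s0 ∧ D K ≤ d ∧ D0 ≤ D K ∧
        D K ^ 2 + 6 * (d * v (s K)) + 2 * ((V + η) * D0) ≤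
          A (s K) + D0 * d + 6 * (d * V) + 6 * (d * (K * η)) + 2 * ((V + η) * D K) := by
    intro K
    induction K with
    | zero =>
      right
      refine ⟨fun _ => 0, fun _ => 9, fun _ => D0, hSh0, by
        show 9 < s0
        omega, hD0d, le_rfl, ?_⟩
      have c1 : D0 ^ 2 ≤ D0 * d := by rw [sq]; exact Nat.mul_le_mul_left _ hD0d
      have c2 : d * v 9 ≤ d * V := Nat.mul_le_mul_left _ (hvV 9)
      simp only
      omega
    | succ K ih =>
      rcases ih with ih | ⟨p, s, D, hSh, hsK, hDd, hD0K, hI⟩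
      · exact Or.inl ih
      obtain ⟨N, hN⟩ : ∃ N, N = v (s K) + η := ⟨_, rfl⟩
      obtain ⟨q, hq⟩ : ∃ q, q = D K / N := ⟨_, rfl⟩
      have hwV := hvV (s K)
      have hN1 : 1 ≤ N := by omega
      have hNV : N ≤ V + η := by omega
      have h2N : 2 * N ≤ D K := by omega
      have hq2 : 2 ≤ q := by
        rw [hq]
        exact (Nat.le_div_iff_mul_le (by omega)).2 h2N
      have hqN : q * N ≤ D K := by rw [hq]; exact Nat.div_mul_le_self _ _
      have hqN2 : D K ≤ q * N + N := by
        have := Nat.lt_div_mul_add (a := D K) (b := N) (by omega)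
        rw [← hq] at this
        exact this.le
      have hcnt := hSh.count
      have hsg := sum_ge (p := p) K
      have hK : 5 * K + 9 ≤ s K := by omega
      have hNη : v (s K) + 2 ^ 13 * m = N := by rw [hN, hη]
      -- products
      have m1 : (V + η) * D0 ≤ (V + η) * D K := Nat.mul_le_mul_left _ hD0K
      have m2 : (V + η) * D K ≤ (V + η) * d := Nat.mul_le_mul_left _ hDd
      have m3 : D0 * d = 3 * (d * V) + 8 * (d * η) := by rw [hD0]; ring
      have m4 : (V + η) * d = d * V + d * η := by ring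
      have m5 : (14 * V + 4 * (s0 * η)) * d = 14 * (d * V) + 4 * (s0 * (d * η)) := by ring
      have m6 : d * (K * η) = K * (d * η) := by ring
      have m7 : (5 * K + 10) * (d * η) ≤ s0 * (d * η) := Nat.mul_le_mul_right _ (by omega)
      have m8 : (5 * K + 10) * (d * η) = 5 * (K * (d * η)) + 10 * (d * η) := by ring
      have hAs : A (s K) ≤ A s0 := by rw [hAa, hAa]; exact sq_sum_le hsK.le
      rcases Nat.lt_or_ge (s K + (2 * q + 1)) s0 with hfull | hlast
      · -- a full shelf
        right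
        obtain ⟨r, hr⟩ : ∃ r, q = r + 2 := ⟨q - 2, by omega⟩
        obtain ⟨p', s', D', g1, g2, g3, g4⟩ := hSh.ext r (by rw [hNη, ← hr]; exact hqN)
        have e2 : s' (K + 1) = s K + (2 * q + 1) := by rw [g2, hr]; ring
        have e3 : D' (K + 1) = D K + N := by rw [g3, add_assoc, hNη]
        have hw' : v (s' (K + 1)) ≤ v (s K) := by
          rw [e2]
          exact hv (Nat.le_add_right _ _)
        obtain ⟨w', hw'd⟩ : ∃ w', w' = v (s' (K + 1)) := ⟨_, rfl⟩
        have hA' : A (s K) + (2 * q + 1) * w' ^ 2 ≤ A (s' (K + 1)) := by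
          rw [hAa, hAa, hw'd, e2]
          exact sq_sum_add hv _ _
        rw [← hw'd] at hw'
        have hA0 : A (s' (K + 1)) ≤ A s0 := by
          rw [hAa, hAa, e2]
          exact sq_sum_le hfull.le
        have hW := waste (D := D K) (N := N) (w := w') (q := q) (by positivity) (by omega)
          (by exact_mod_cast h2N) (by positivity) (by exact_mod_cast hqN)
          (by exact_mod_cast hqN2)
        -- back to natural numbers
        obtain ⟨x, hx⟩ : ∃ x, N = w' + x := ⟨N - w', by omega⟩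
        have hW2 : 2 * (D K * N) ≤ (2 * q + 1) * w' ^ 2 + N * N + 6 * (D K * x) := by
          have e : (N : ℤ) - w' = x := by omega
          rw [e] at hW
          have : (2 * ((D K : ℤ) * N)) ≤ (2 * q + 1) * w' ^ 2 + N * N + 6 * (D K * x) := by
            linarith
          exact_mod_cast this
        have k1 : D K * x ≤ d * x := Nat.mul_le_mul_right _ hDd
        have k2 : N * N ≤ (V + η) * N := Nat.mul_le_mul_right _ hNV
        have k3 : d * x + d * w' = d * v (s K) + d * η := by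
          rw [← mul_add, ← mul_add, add_comm x, ← hx, hN]
        have k4 : (V + η) * (D K + N) = (V + η) * D K + (V + η) * N := by ring
        have k5 : (D K + N) ^ 2 = D K ^ 2 + 2 * (D K * N) + N * N := by ring
        have k6 : d * ((K + 1 : ℕ) * η) = d * (K * η) + d * η := by ring
        have inv : (D K + N) ^ 2 + 6 * (d * w') + 2 * ((V + η) * D0) ≤
            A (s' (K + 1)) + D0 * d + 6 * (d * V) + 6 * (d * ((K + 1 : ℕ) * η)) +
              2 * ((V + η) * (D K + N)) := by
          rw [k4, k5, k6]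
          omega
        have hle : D K + N ≤ d := by
          have j1 : (V + η) * N ≤ (V + η) * d := Nat.mul_le_mul_left _ (by omega)
          have j2 : (D K + N) ^ 2 ≤ d ^ 2 := by
            rw [k4] at inv
            rw [k6] at inv
            omega
          exact (Nat.pow_le_pow_iff_left (by norm_num)).1 j2
        refine ⟨p', s', D', g1, by omega, by rw [e3]; exact hle, by omega, ?_⟩
        rw [e3, ← hw'd]
        exact inv
      · -- the last shelf
        left
        obtain ⟨r, hr⟩ : ∃ r, r = (s0 - s K - 4) / 2 := ⟨_, rfl⟩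
        have hrq : r + 2 ≤ q := by omega
        obtain ⟨p', s', D', g1, g2, g3, g4⟩ := hSh.ext r (by
          rw [hNη]
          exact (Nat.mul_le_mul_right _ hrq).trans hqN)
        have e3 : D' (K + 1) = D K + N := by rw [g3, add_assoc, hNη]
        have hcnt' := g1.count
        refine ⟨K + 1, p', s', D', g1, by omega, by omega, ?_, by omega⟩
        rw [e3]
        have k5 : (D K + N) ^ 2 = D K ^ 2 + 2 * (D K * N) + N * N := by ring
        have k7 : D K * N ≤ d * (V + η) := Nat.mul_le_mul hDd hNV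
        have k8 : N * N ≤ d * (V + η) := Nat.mul_le_mul (by omega) hNV
        have k9 : d * (V + η) = d * V + d * η := by ring
        have j2 : (D K + N) ^ 2 ≤ d ^ 2 := by
          rw [k5]
          omega
        exact (Nat.pow_le_pow_iff_left (by norm_num)).1 j2
  rcases main s0 with hdone | ⟨p, s, D, hSh, hsK, -⟩
  · exact hdone
  · exfalso
    have hcnt := hSh.count
    have hsg := sum_ge (p := p) s0
    omega

end Pool.Agent.K6.H83.HN.W
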