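import Pool.Agent.K6.H83.HN.Area

/-! Greedy shelves: nine points and any number of further points with some room. -/

set_option autoImplicit false

namespace Pool.Agent.K6.H83.HN.W

open Finset

theorem sq_Ico_le {v : ℕ → ℕ} {a b : ℕ} (h : a ≤ b) :
    ∑ i ∈ Finset.Ico 9 a, v i ^ 2 ≤ ∑ i ∈ Finset.Ico 9 b, v i ^ 2 :=
  Finset.sum_le_sum_of_subset (Finset.Ico_subset_Ico_right h)

theorem sq_Ico_add {v : ℕ → ℕ} (hv : Antitone v) {a : ℕ} (ha : 9 ≤ a) (c : ℕ) :
    ∑ i ∈ Finset.Ico 9 a, v i ^ 2 + c * v (a + c) ^ 2 ≤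
      ∑ i ∈ Finset.Ico 9 (a + c), v i ^ 2 := by
  rw [← Finset.sum_Ico_consecutive _ ha (Nat.le_add_right a c)]
  refine Nat.add_le_add_left ?_ _
  calc c * v (a + c) ^ 2 = ∑ _i ∈ Finset.Ico a (a + c), v (a + c) ^ 2 := by
        rw [sum_const, Nat.card_Ico, smul_eq_mul, Nat.add_sub_cancel_left]
    _ ≤ _ := sum_le_sum fun i hi => Nat.pow_le_pow_left
        (hv (by have := (Finset.mem_Ico.1 hi).2; omega)) 2

theorem area3 {v : ℕ → ℕ} (hv : Antitone v) {s0 m d t R D0 : ℕ} (hs : 9 ≤ s0) (hm : 1 ≤ m)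
    (hd : 1 ≤ d) (ht : s0 ≤ t ^ 2) (hR : 2 ^ 16 * t * m ≤ R) (hb1 : v 0 + v 1 + v 2 ≤ D0)
    (hb2 : v 0 + 2 ^ 16 * m ≤ D0) (hb3 : v 1 + v 2 + v 7 + 2 ^ 16 * m ≤ D0)
    (hR2 : D0 ^ 2 + (∑ i ∈ Finset.Ico 9 s0, v i ^ 2) + (11 * v 9 + R) * d ≤ d ^ 2) :
    ∃ (K : ℕ) (p s D : ℕ → ℕ), Sh v K m p s D ∧ s0 ≤ s K ∧ s K ≤ s0 + 4 ∧ D K ≤ d ∧
      2 * ((∑ k ∈ Finset.range K, (p k + 1)) + 1) ≤ s0 := by
  obtain ⟨V, hV⟩ : ∃ V, V = v 9 := ⟨_, rfl⟩
  obtain ⟨η, hη⟩ : ∃ η, η = 2 ^ 13 * m := ⟨_, rfl⟩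
  obtain ⟨A, hA⟩ : ∃ A : ℕ → ℕ, A = fun a => ∑ i ∈ Finset.Ico 9 a, v i ^ 2 := ⟨_, rfl⟩
  have hAa : ∀ a, A a = ∑ i ∈ Finset.Ico 9 a, v i ^ 2 := fun a => by rw [hA]
  have e15 : 2 ^ 16 * t * m = 8 * (t * η) := by rw [hη]; ring
  have h : D0 ^ 2 + A s0 + (11 * V + 8 * (t * η)) * d ≤ d ^ 2 := by
    rw [hAa, hV, ← e15]
    exact (Nat.add_le_add_left (Nat.mul_le_mul_right _ (Nat.add_le_add_left hR _)) _).trans hR2
  have ht3 : 3 ≤ t := by
    by_contra hc
    push Not at hc
    have : t ^ 2 ≤ 2 ^ 2 := Nat.pow_le_pow_left (by omega) 2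
    omega
  have hvV : ∀ i, 9 ≤ i → v i ≤ V := fun i hi => by rw [hV]; exact hv hi
  have hη1 : 1 ≤ η := by rw [hη]; omega
  -- `d` is large
  have hdd : 11 * V + 8 * (t * η) ≤ d := by
    by_contra hc
    push Not at hc
    have c1 : (d + 1) * d ≤ (11 * V + 8 * (t * η)) * d := Nat.mul_le_mul_right _ hc
    have c2 : (d + 1) * d = d ^ 2 + d := by ring
    omega
  have hsη : 3 * η ≤ t * η := Nat.mul_le_mul_right _ ht3
  have hD0d : D0 ≤ d := by
    have c1 : D0 ^ 2 ≤ d ^ 2 := by omega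
    exact (Nat.pow_le_pow_iff_left (by norm_num)).1 c1
  have h016 : 2 ^ 16 * m = 8 * η := by rw [hη]; ring
  have hD03 : 3 * (V + η) ≤ D0 := by
    have g1 : V ≤ v 1 := by rw [hV]; exact hv (by norm_num)
    have g2 : V ≤ v 2 := by rw [hV]; exact hv (by norm_num)
    have g7 : V ≤ v 7 := by rw [hV]; exact hv (by norm_num)
    omega
  -- the start
  have hSh0 : Sh v 0 m (fun _ => 0) (fun _ => 9) (fun _ => D0) := by
    refine ⟨rfl, fun k hk => absurd hk (by omega), ?_, ?_, ?_, fun k hk => absurd hk (by omega),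
      fun k hk => absurd hk (by omega)⟩
    · exact hb1
    · exact hb2
    · exact hb3
  by_cases h9 : s0 = 9
  · refine ⟨0, fun _ => 0, fun _ => 9, fun _ => D0, hSh0, h9.le, by
      show 9 ≤ s0 + 4
      omega, hD0d, ?_⟩
    rw [Finset.sum_range_zero]
    omega
  -- chains
  have main : ∀ K : ℕ, (∃ (K : ℕ) (p s D : ℕ → ℕ), Sh v K m p s D ∧ s0 ≤ s K ∧ s K ≤ s0 + 4 ∧
      D K ≤ d ∧ 2 * ((∑ k ∈ Finset.range K, (p k + 1)) + 1) ≤ s0) ∨
      ∃ p s D : ℕ → ℕ, Sh v K m p s D ∧ s K < s0 ∧ D K ≤ d ∧ D0 ≤ D K ∧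
        (K + 3) ^ 2 ≤ s K ∧ (K + 3) * (v (s K) + η) ≤ D K ∧
        D K ^ 2 + 6 * (d * v (s K)) + 2 * ((V + η) * D0) ≤
          A (s K) + D0 ^ 2 + 6 * (d * V) + 6 * (d * (K * η)) + 2 * ((V + η) * D K) := by
    intro K
    induction K with
    | zero =>
      right
      refine ⟨fun _ => 0, fun _ => 9, fun _ => D0, hSh0, by
        show 9 < s0
        omega, hD0d, le_rfl, by norm_num, by
        show (0 + 3) * (v 9 + η) ≤ D0
        rw [← hV]
        omega, ?_⟩
      have c2 : d * v 9 ≤ d * V := Nat.mul_le_mul_left _ (hvV 9 le_rfl)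
      simp only
      omega
    | succ K ih =>
      rcases ih with ih | ⟨p, s, D, hSh, hsK, hDd, hD0K, hsq, hDN, hI⟩
      · exact Or.inl ih
      obtain ⟨N, hN⟩ : ∃ N, N = v (s K) + η := ⟨_, rfl⟩
      obtain ⟨q, hq⟩ : ∃ q, q = D K / N := ⟨_, rfl⟩
      have hs9 : 9 ≤ s K := by
        have : 3 ^ 2 ≤ (K + 3) ^ 2 := Nat.pow_le_pow_left (by omega) 2
        omega
      have hwV := hvV (s K) hs9
      have hN1 : 1 ≤ N := by omega
      have hNV : N ≤ V + η := by omega
      have h2N : 2 * N ≤ D K := by omega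
      have hq2 : 2 ≤ q := by
        rw [hq]
        exact (Nat.le_div_iff_mul_le (by omega)).2 h2N
      have hqN : q * N ≤ D K := by rw [hq]; exact Nat.div_mul_le_self _ _
      have hqN2 : D K ≤ q * N + N := by
        have := Nat.lt_div_mul_add (a := D K) (b := N) (by omega)
        rw [← hq] at this
        exact this.le
      have hcnt := hSh.count
      have hsg := sum_ge (p := p) K
      have hK : K + 4 ≤ t := by
        by_contra hc
        push Not at hc
        have : t ^ 2 ≤ (K + 3) ^ 2 := Nat.pow_le_pow_left (by omega) 2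
        omega
      rw [← hN] at hDN
      have hqK : K + 3 ≤ q := by
        rw [hq]
        exact (Nat.le_div_iff_mul_le (by omega)).2 hDN
      have hNη : v (s K) + 2 ^ 13 * m = N := by rw [hN, hη]
      -- products
      have m1 : (V + η) * D0 ≤ (V + η) * D K := Nat.mul_le_mul_left _ hD0K
      have m2 : (V + η) * D K ≤ (V + η) * d := Nat.mul_le_mul_left _ hDd
      have m4 : (V + η) * d = d * V + d * η := by ring
      have m5 : (11 * V + 8 * (t * η)) * d = 11 * (d * V) + 8 * (t * (d * η)) := by ring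
      have m6 : d * (K * η) = K * (d * η) := by ring
      have m7 : (K + 4) * (d * η) ≤ t * (d * η) := Nat.mul_le_mul_right _ hK
      have m8 : (K + 4) * (d * η) = K * (d * η) + 4 * (d * η) := by ring
      have hAs : A (s K) ≤ A s0 := by rw [hAa, hAa]; exact sq_Ico_le hsK.le
      rcases Nat.lt_or_ge (s K + (2 * q + 1)) s0 with hfull | hlast
      · -- a full shelf
        right
        obtain ⟨r, hr⟩ : ∃ r, q = r + 2 := ⟨q - 2, by omega⟩
        obtain ⟨p', s', D', g1, g2, g3, g4⟩ := hSh.ext r (by rw [hNη, ← hr]; exact hqN)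
        have e2 : s' (K + 1) = s K + (2 * q + 1) := by rw [g2, hr]; ring
        have e3 : D' (K + 1) = D K + N := by rw [g3, add_assoc, hNη]
        have hw' : v (s' (K + 1)) ≤ v (s K) := by
          rw [e2]
          exact hv (Nat.le_add_right _ _)
        obtain ⟨w', hw'd⟩ : ∃ w', w' = v (s' (K + 1)) := ⟨_, rfl⟩
        have hA' : A (s K) + (2 * q + 1) * w' ^ 2 ≤ A (s' (K + 1)) := by
          rw [hAa, hAa, hw'd, e2]
          exact sq_Ico_add hv hs9 _
        rw [← hw'd] at hw'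
        have hA0 : A (s' (K + 1)) ≤ A s0 := by
          rw [hAa, hAa, e2]
          exact sq_Ico_le hfull.le
        have hW := waste (D := D K) (N := N) (w := w') (q := q) (by positivity) (by omega)
          (by exact_mod_cast h2N) (by positivity) (by exact_mod_cast hqN)
          (by exact_mod_cast hqN2)
        -- back to natural numbers
        obtain ⟨x, hx⟩ : ∃ x, N = w' + x := ⟨N - w', by omega⟩
        have hW2 : 2 * (D K * N) ≤ (2 * q + 1) * w' ^ 2 + N * N + 6 * (D K * x) := by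
          have e : (N : ℤ) - w' = x := by omega
          rw [e] at hW
          have : (2 * ((D K : ℤ) * N)) ≤ (2 * q + 1) * w' ^ 2 + N * N + 6 * (D K * x) := by
            linarith
          exact_mod_cast this
        have k1 : D K * x ≤ d * x := Nat.mul_le_mul_right _ hDd
        have k2 : N * N ≤ (V + η) * N := Nat.mul_le_mul_right _ hNV
        have k3 : d * x + d * w' = d * v (s K) + d * η := by
          rw [← mul_add, ← mul_add, add_comm x, ← hx, hN]
        have k4 : (V + η) * (D K + N) = (V + η) * D K + (V + η) * N := by ring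
        have k5 : (D K + N) ^ 2 = D K ^ 2 + 2 * (D K * N) + N * N := by ring
        have k6 : d * ((K + 1 : ℕ) * η) = d * (K * η) + d * η := by ring
        have inv : (D K + N) ^ 2 + 6 * (d * w') + 2 * ((V + η) * D0) ≤
            A (s' (K + 1)) + D0 ^ 2 + 6 * (d * V) + 6 * (d * ((K + 1 : ℕ) * η)) +
              2 * ((V + η) * (D K + N)) := by
          rw [k4, k5, k6]
          omega
        have hle : D K + N ≤ d := by
          have j1 : (V + η) * N ≤ (V + η) * d := Nat.mul_le_mul_left _ (by omega)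
          have j2 : (D K + N) ^ 2 ≤ d ^ 2 := by
            rw [k4] at inv
            rw [k6] at inv
            omega
          exact (Nat.pow_le_pow_iff_left (by norm_num)).1 j2
        have j3 : (K + 1 + 3) ^ 2 ≤ s' (K + 1) := by
          have : (K + 1 + 3) ^ 2 = (K + 3) ^ 2 + (2 * (K + 3) + 1) := by ring
          rw [this, e2]
          omega
        have j4 : (K + 1 + 3) * (w' + η) ≤ D K + N := by
          have j5 : (K + 1 + 3) * (w' + η) ≤ (K + 1 + 3) * N := Nat.mul_le_mul_left _ (by omega)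
          have j6 : (K + 1 + 3) * N = (K + 3) * N + N := by ring
          omega
        refine ⟨p', s', D', g1, by omega, by rw [e3]; exact hle, by omega, j3, by
          rw [e3, ← hw'd]; exact j4, ?_⟩
        rw [e3, ← hw'd]
        exact inv
      · -- the last shelf
        left
        obtain ⟨r, hr⟩ : ∃ r, r = (s0 - s K - 4) / 2 := ⟨_, rfl⟩
        have hrq : r + 2 ≤ q := by omega
        obtain ⟨p', s', D', g1, g2, g3, g4⟩ := hSh.ext r (by
          rw [hNη]
          exact (Nat.mul_le_mul_right _ hrq).trans hqN)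
        have e3 : D' (K + 1) = D K + N := by rw [g3, add_assoc, hNη]
        have hcnt' := g1.count
        refine ⟨K + 1, p', s', D', g1, by omega, by omega, ?_, by omega⟩
        rw [e3]
        have k5 : (D K + N) ^ 2 = D K ^ 2 + 2 * (D K * N) + N * N := by ring
        have k7 : D K * N ≤ d * (V + η) := Nat.mul_le_mul hDd hNV
        have k8 : N * N ≤ d * (V + η) := Nat.mul_le_mul (by omega) hNV
        have k9 : d * (V + η) = d * V + d * η := by ring
        have j2 : (D K + N) ^ 2 ≤ d ^ 2 := by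
          rw [k5]
          omega
        exact (Nat.pow_le_pow_iff_left (by norm_num)).1 j2
  rcases main s0 with hdone | ⟨p, s, D, hSh, hsK, -⟩
  · exact hdone
  · exfalso
    have hcnt := hSh.count
    have hsg := sum_ge (p := p) s0
    omega

end Pool.Agent.K6.H83.HN.W
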