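import Pool.Agent.K6.H83.HN.Prof

/-! Independence and emptiness below a concave profile with thin ends. -/

set_option autoImplicit false

namespace Pool.Agent.K6.H83.HN

open Finset Pool.Agent.TH176.Nag Pool.Agent.TH603.Sur Pool.Agent.TH641.UM Pool.Agent.K6.H83.QH
  Pool.Agent.Y205.AV Pool.Agent.K6.H83.HX

theorem Pf.low' {n F : ℤ → ℤ} {P : Finset ℤ} {a b q q' : ℤ} (h : Pf n F P a b q)
    (h0 : q' ≤ n a) (h1 : q' ≤ n (b - 1)) : Pf n F P a b q' where
  conc := h.conc
  aff := h.aff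
  up := h.up
  dn := h.dn
  sum := h.sum
  low := conc_min h.conc h0 h1

/-- the area of a thin lower end -/
theorem F_end0 {n F : ℤ → ℤ} {P : Finset ℤ} {N q c : ℤ} (h : Pf n F P 0 N q) (hc : n 0 ≤ c) :
    ∀ y, 0 ≤ y → y ≤ N → F y - F 0 ≤ 2 * c * y + 3 * y * (y - 1) := by
  intro y hy
  induction y, hy using Int.le_induction with
  | base => intro _; simp
  | succ y hy ih =>
    intro hyN
    have e1 := ih (by omega)
    have e2 := h.sum y hy (by omega)
    have e3 := (h.slope le_rfl y hy (by omega)).2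
    rw [e2]
    nlinarith

/-- the area of a thin upper end -/
theorem F_end1 {n F : ℤ → ℤ} {P : Finset ℤ} {N q c : ℤ} (h : Pf n F P 0 N q)
    (hc : n (N - 1) ≤ c) :
    ∀ y, 0 ≤ y → y ≤ N → F N - F (N - y) ≤ 2 * c * y + 3 * y * (y - 1) := by
  intro y hy
  induction y, hy using Int.le_induction with
  | base => intro _; simp
  | succ y hy ih =>
    intro hyN
    have e1 := ih (by omega)
    have e2 := h.sum (N - (y + 1)) (by omega) (by omega)
    have e3 := (h.slope (y := N - (y + 1)) (by omega) (N - 1) (by omega) (by omega)).1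
    have e4 : N - (y + 1) + 1 = N - y := by ring
    rw [e4] at e2
    rw [e2] at e1
    nlinarith

theorem F_mono0 {n F : ℤ → ℤ} {P : Finset ℤ} {N : ℤ} (h : Pf n F P 0 N 0) {a b : ℤ}
    (ha : 0 ≤ a) (hab : a ≤ b) (hb : b ≤ N) : (0 : ℝ) ≤ (F b : ℝ) - F a := by
  have h' := h.restr ha hb
  have h1 := F_lo h'.sum h'.low b hab le_rfl
  have h2 : 0 ≤ F b - F a := by linarith
  have : ((0 : ℤ) : ℝ) ≤ ((F b - F a : ℤ) : ℝ) := by exact_mod_cast h2
  push_cast at this
  exact this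

theorem FS_ends {m : ℕ} {n F : ℤ → ℤ} {P : Finset ℤ} {Q N : ℤ} (hm : 1 ≤ m) (hQ : Q = 1280 * m)
    (hpf : Pf n F P 0 N 0) (hc : P.card ≤ 5) (hN : 3 * Q + 8 ≤ N) (h0 : Q + 2 ≤ n (Q + 4))
    (h1 : Q + 2 ≤ n (N - 1 - (Q + 4))) :
    FS m 7346304 (Rp n 0 N) (κ m * ((F N : ℝ) - F 0 - 66 * Q ^ 2)) := by
  have hQ0 : 1280 ≤ Q := by rw [hQ]; omega
  have hQR : (1280 : ℝ) ≤ Q := by exact_mod_cast hQ0
  obtain ⟨a, ha0, haQ, hna, hFa⟩ : ∃ a, 0 ≤ a ∧ a ≤ Q + 4 ∧ Q + 2 ≤ n a ∧
      F a - F 0 ≤ 6 * Q ^ 2 := by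
    rcases le_or_gt (Q + 2) (n 0) with e | e
    · exact ⟨0, le_rfl, by omega, e, by nlinarith⟩
    · refine ⟨Q + 4, by omega, le_rfl, h0, ?_⟩
      have := F_end0 hpf (c := Q + 1) (by omega) (Q + 4) (by omega) (by omega)
      nlinarith
  obtain ⟨b, hbN, hbQ, hnb, hFb⟩ : ∃ b, b ≤ N ∧ N - (Q + 4) ≤ b ∧ Q + 2 ≤ n (b - 1) ∧
      F N - F b ≤ 6 * Q ^ 2 := by
    rcases le_or_gt (Q + 2) (n (N - 1)) with e | e
    · exact ⟨N, le_rfl, by omega, e, by nlinarith⟩
    · refine ⟨N - (Q + 4), by omega, le_rfl, ?_, ?_⟩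
      · have e4 : N - (Q + 4) - 1 = N - 1 - (Q + 4) := by ring
        rw [e4]; exact h1
      · have := F_end1 hpf (c := Q + 1) (by omega) (Q + 4) (by omega) (by omega)
        nlinarith
  have hpf' : Pf n F P a b (Q + 2) := (hpf.restr ha0 hbN).low' hna hnb
  have key := FS_prof hm hQ 5 ha0 (by omega) hpf'
    (le_trans (Finset.card_filter_le _ _) hc)
  refine FS.mono_l (FS.mono key ?_ ?_) (by norm_num)
  · intro p hp
    exact ⟨hp.1, ha0.trans hp.2.1, lt_of_lt_of_le hp.2.2.1 hbN, hp.2.2.2⟩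
  · refine mul_le_mul_of_nonneg_left ?_ (κ_nonneg m)
    have g1 : ((F a - F 0 : ℤ) : ℝ) ≤ ((6 * Q ^ 2 : ℤ) : ℝ) := by exact_mod_cast hFa
    have g2 : ((F N - F b : ℤ) : ℝ) ≤ ((6 * Q ^ 2 : ℤ) : ℝ) := by exact_mod_cast hFb
    push_cast at g1 g2 ⊢
    linarith

theorem FE_ends {B : ℕ} {n F : ℤ → ℤ} {P : Finset ℤ} {q N : ℤ} (hB : 1 ≤ B)
    (hq : q = 12 * B + 1) (hpf : Pf n F P 0 N 0) (hc : P.card ≤ 5) (hN : 3 * q + 8 ≤ N)
    (h0 : q + 3 ≤ n (q + 4)) (h1 : q + 3 ≤ n (N - 1 - (q + 4))) :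
    FE B 306 (Rp n 0 N) ((F N : ℝ) - F 0 + 108 * q ^ 2 + 4 * (4 * q + 14) * (q + 4)) := by
  have hq0 : 13 ≤ q := by rw [hq]; omega
  have hqR : (13 : ℝ) ≤ q := by exact_mod_cast hq0
  -- the upper part
  have hup : ∀ a, 0 ≤ a → a ≤ q + 4 → q + 3 ≤ n a →
      FE B 272 (Rp n a N) ((F N : ℝ) - F a + 108 * q ^ 2 + 2 * (4 * q + 14) * (q + 4)) := by
    intro a ha0 haq hna
    rcases le_or_gt (q + 3) (n (N - 1)) with e | e
    · have hpf' : Pf n F P a N (q + 3) := (hpf.restr ha0 le_rfl).low' hna e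
      have key := FE_prof hB hq 5 ha0 (by omega) hpf' (le_trans (Finset.card_filter_le _ _) hc)
      refine FE.mono_k (FE.mono key subset_rfl ?_) (by norm_num)
      push_cast
      have : (0 : ℝ) ≤ 2 * (4 * q + 14) * (q + 4) := by positivity
      nlinarith
    · obtain ⟨b, hb⟩ : ∃ b, b = N - (q + 4) := ⟨_, rfl⟩
      have hnb : q + 3 ≤ n (b - 1) := by
        have e4 : b - 1 = N - 1 - (q + 4) := by rw [hb]; ring
        rw [e4]; exact h1
      have hpf' : Pf n F P a b (q + 3) := (hpf.restr ha0 (by omega)).low' hna hnb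
      have key := FE_prof hB hq 5 ha0 (by omega) hpf' (le_trans (Finset.card_filter_le _ _) hc)
      have thin := FE_thin (n := n) (a := b) (b := N) (U := 4 * q + 14) hB (by omega) (by omega)
        (by omega) (by
          intro y hy hyN
          have e3 := (hpf.slope (y := y) (by omega) (N - 1) (by omega) (by omega)).1
          omega)
      have p1 := F_mono0 hpf ha0 (b := b) (by omega) (by omega)
      have p2 := F_mono0 hpf (a := b) (by omega) (b := N) (by omega) le_rfl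
      have ebR : (N : ℝ) - b = q + 4 := by rw [hb]; push_cast; ring
      rw [ebR] at thin
      have key2 := FE.glue key thin (Rp_finite n a b) (Rp_finite n b N) (Rp_nonneg ha0)
        (Rp_nonneg (by omega)) (by positivity) (by push_cast; positivity) 0 1 Rp_sep
      rw [Rp_union (by omega) (by omega)] at key2
      refine FE.mono_k (FE.mono key2 subset_rfl ?_) (by norm_num)
      push_cast
      nlinarith
  rcases le_or_gt (q + 3) (n 0) with e | e
  · refine FE.mono_k (FE.mono (hup 0 le_rfl (by omega) e) subset_rfl ?_) (by norm_num)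
    nlinarith
  · obtain ⟨a, ha⟩ : ∃ a, a = q + 4 := ⟨_, rfl⟩
    have up := hup a (by omega) (by omega) (by rw [ha]; exact h0)
    have thin := FE_thin (n := n) (a := 0) (b := a) (U := 4 * q + 14) hB le_rfl (by omega)
      (by omega) (by
        intro y hy hya
        have e3 := (hpf.slope (y := 0) le_rfl y hy (by omega)).2
        omega)
    have p1 := F_mono0 hpf (a := 0) le_rfl (b := a) (by omega) (by omega)
    have p2 := F_mono0 hpf (a := a) (by omega) (b := N) (by omega) le_rfl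
    have eaR : (a : ℝ) - ((0 : ℤ) : ℝ) = q + 4 := by rw [ha]; push_cast; ring
    rw [eaR] at thin
    have key2 := FE.glue thin up (Rp_finite n 0 a) (Rp_finite n a N) (Rp_nonneg le_rfl)
      (Rp_nonneg (by omega)) (by push_cast; positivity) (by positivity) 0 1 Rp_sep
    rw [Rp_union (by omega) (by omega)] at key2
    refine FE.mono_k (FE.mono key2 subset_rfl ?_) (by norm_num)
    push_cast
    nlinarith

end Pool.Agent.K6.H83.HN
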