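import Mathlib

/-! No window: the difference is large for classes with room. -/

set_option autoImplicit false

namespace Pool.Agent.K6.H83.HN.W

open Finset

theorem two_ch (x : ℕ) : 2 * (x + 1).choose 2 = x * (x + 1) := by
  rw [Nat.choose_two_right]
  have h : 2 ∣ (x + 1) * (x + 1 - 1) := by
    rw [Nat.add_sub_cancel, mul_comm]
    exact (Nat.even_mul_succ_self x).two_dvd
  rw [Nat.mul_div_cancel' h, Nat.add_sub_cancel, mul_comm]

theorem nowin {n s0 σ m d : ℕ} {v : ℕ → ℕ} (hv : Antitone v) (hs : 9 ≤ s0) (h1 : s0 ≤ σ)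
    (h2 : σ ≤ s0 + 4) (hn : σ < n) (hm : v s0 + 1 ≤ m)
    (hA : (∑ i ∈ Finset.range s0, v i ^ 2) + (14 * v 0 + 2 ^ 15 * s0 * m) * d ≤ d ^ 2)
    (hd : 2 ^ 18 * m ^ 2 ≤ d) :
    2 ^ 31 * s0 * m ^ 2 ≤ (∑ i ∈ Finset.Ico σ n, v i) +
      2 * (((d + 2).choose 2 - ∑ i ∈ Finset.range n, (v i + 1).choose 2) +
        ((∑ i ∈ Finset.range n, (v i + 1).choose 2) - (d + 2).choose 2)) := by
  by_contra hcon
  push Not at hcon
  have hm1 : 1 ≤ m := by omega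
  obtain ⟨A, hAd⟩ : ∃ A, A = ∑ i ∈ Finset.range s0, v i ^ 2 := ⟨_, rfl⟩
  obtain ⟨L, hL⟩ : ∃ L, L = ∑ i ∈ Finset.Ico σ n, v i := ⟨_, rfl⟩
  obtain ⟨T, hT⟩ : ∃ T, T = ∑ i ∈ Finset.range n, (v i + 1).choose 2 := ⟨_, rfl⟩
  obtain ⟨N, hN⟩ : ∃ N, N = (d + 2).choose 2 := ⟨_, rfl⟩
  have hN2 : 2 * N = (d + 1) * (d + 2) := by
    rw [hN]
    exact two_ch (d + 1)
  rw [← hAd] at hA
  rw [← hL, ← hT, ← hN] at hcon
  have hT2 : 2 * T = ∑ i ∈ Finset.range n, v i * (v i + 1) := by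
    rw [hT, mul_sum]
    exact sum_congr rfl fun i _ => two_ch _
  have hsplit : ∑ i ∈ Finset.range n, v i * (v i + 1) =
      ∑ i ∈ Finset.range s0, v i * (v i + 1) + ∑ i ∈ Finset.Ico s0 σ, v i * (v i + 1) +
        ∑ i ∈ Finset.Ico σ n, v i * (v i + 1) := by
    rw [Finset.sum_range_add_sum_Ico (fun i => v i * (v i + 1)) h1,
      Finset.sum_range_add_sum_Ico (fun i => v i * (v i + 1)) hn.le]
  have b1 : ∑ i ∈ Finset.range s0, v i * (v i + 1) ≤ A + s0 * v 0 := by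
    have e : ∑ i ∈ Finset.range s0, v i * (v i + 1) =
        A + ∑ i ∈ Finset.range s0, v i := by
      rw [hAd, ← sum_add_distrib]
      exact sum_congr rfl fun i _ => by ring
    rw [e]
    refine Nat.add_le_add_left ?_ _
    calc ∑ i ∈ Finset.range s0, v i ≤ ∑ _i ∈ Finset.range s0, v 0 :=
          sum_le_sum fun i _ => hv (Nat.zero_le i)
      _ = s0 * v 0 := by rw [sum_const, card_range, smul_eq_mul]
  have b2 : ∑ i ∈ Finset.Ico s0 σ, v i * (v i + 1) ≤ 4 * m ^ 2 := by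
    calc ∑ i ∈ Finset.Ico s0 σ, v i * (v i + 1) ≤ ∑ _i ∈ Finset.Ico s0 σ, m ^ 2 := by
          refine sum_le_sum fun i hi => ?_
          have h3 : v i ≤ v s0 := hv (Finset.mem_Ico.1 hi).1
          rw [sq]
          exact Nat.mul_le_mul (by omega) (by omega)
      _ = (σ - s0) * m ^ 2 := by rw [sum_const, Nat.card_Ico, smul_eq_mul]
      _ ≤ 4 * m ^ 2 := Nat.mul_le_mul_right _ (by omega)
  have b3 : ∑ i ∈ Finset.Ico σ n, v i * (v i + 1) ≤ m * L := by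
    rw [hL, mul_sum]
    refine sum_le_sum fun i hi => ?_
    have h3 : v i ≤ v s0 := hv (h1.trans (Finset.mem_Ico.1 hi).1)
    rw [mul_comm m]
    exact Nat.mul_le_mul_left _ (by omega)
  have hT3 : 2 * T ≤ A + s0 * v 0 + 4 * m ^ 2 + m * L := by
    rw [hT2, hsplit]
    omega
  obtain ⟨W, hW⟩ : ∃ W, W = 2 ^ 31 * s0 * m ^ 2 := ⟨_, rfl⟩
  rw [← hW] at hcon
  have hmL : m * L ≤ m * W := Nat.mul_le_mul_left _ (by omega)
  have key : 2 * N ≤ A + s0 * v 0 + 4 * m ^ 2 + m * W + W := by omega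
  rw [hN2] at key
  have hd1 : 1 ≤ d := by
    have : 1 ≤ m ^ 2 := Nat.one_le_pow _ _ hm1
    omega
  have hv0 : v 0 ≤ d := by
    by_contra hc
    push Not at hc
    have c1 : d * d ≤ v 0 * d := Nat.mul_le_mul_right _ hc.le
    have c2 : v 0 * d ≤ (14 * v 0 + 2 ^ 15 * s0 * m) * d := Nat.mul_le_mul_right _ (by omega)
    have c3 : (v 0 + 1) * d ≤ (14 * v 0 + 2 ^ 15 * s0 * m) * d :=
      Nat.mul_le_mul_right _ (by omega)
    have c4 : (v 0 + 1) * d = v 0 * d + d := by ring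
    have c5 : d ^ 2 = d * d := sq d
    omega
  have k1 : 2 ^ 14 * s0 * m * (2 ^ 18 * m ^ 2) ≤ 2 ^ 14 * s0 * m * d := Nat.mul_le_mul_left _ hd
  have k2 : 2 ^ 14 * s0 * m * (2 ^ 18 * m ^ 2) = 2 * (m * W) := by rw [hW]; ring
  have k3 : W ≤ m * W := Nat.le_mul_of_pos_left _ (by omega)
  have k4 : s0 * v 0 ≤ s0 * d := Nat.mul_le_mul_left _ hv0
  have k5 : s0 * d ≤ s0 * m * d := Nat.mul_le_mul_right _ (Nat.le_mul_of_pos_right _ (by omega))
  have k6 : 4 * m ^ 2 ≤ d := by omega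
  have k7 : d ≤ s0 * d := Nat.le_mul_of_pos_left _ (by omega)
  have k8 : (14 * v 0 + 2 ^ 15 * s0 * m) * d = 14 * (v 0 * d) + 2 ^ 14 * s0 * m * d +
      2 ^ 14 * (s0 * m * d) := by ring
  have k9 : (d + 1) * (d + 2) = d ^ 2 + 3 * d + 2 := by ring
  rw [k2] at k1
  rw [k8] at hA
  rw [k9] at key
  have k10 : 2 ^ 14 * s0 * m * d = 2 ^ 14 * (s0 * m * d) := by ring
  rw [k10] at k1 hA
  generalize s0 * m * d = R at *
  generalize m * W = U at *
  generalize v 0 * d = Y at *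
  generalize s0 * d = Z at *
  generalize s0 * v 0 = X at *
  generalize d ^ 2 = DD at *
  generalize m ^ 2 = MM at *
  omega

end Pool.Agent.K6.H83.HN.W
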