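import Pool.Agent.K6.H83.HN.MainW

set_option autoImplicit false

namespace Pool.Agent.K6.H83.HN.W

/-- the square number of points -/
theorem squares {v : ℕ → ℕ} (hv : Antitone v) {K m e : ℕ} (h1 : v 0 + v 1 + v 2 ≤ e)
    (h2 : v 0 + 2 ^ 16 * m ≤ e) (h3 : v 1 + v 2 + v 7 + 2 ^ 16 * m ≤ e) :
    Sh v K m (fun k => k + 1) (fun k => (k + 3) ^ 2)
      (fun k => e + ∑ j ∈ Finset.range k, (v ((j + 3) ^ 2) + 2 ^ 13 * m)) where
  s0 := by norm_num
  ss := fun k _ => by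
    show (k + 1 + 3) ^ 2 = (k + 3) ^ 2 + 5 + 2 * (k + 1)
    ring
  d1 := by simpa using h1
  d2 := by simpa using h2
  d3 := by simpa using h3
  dd := fun k _ => by
    rw [Finset.sum_range_succ]
    ring
  dp := fun k _ => by
    have e1 : ∀ j ∈ Finset.range k, v ((k + 3) ^ 2) + 2 ^ 13 * m ≤
        v ((j + 3) ^ 2) + 2 ^ 13 * m := fun j hj => by
      refine Nat.add_le_add_right (hv ?_) _
      exact Nat.pow_le_pow_left (by have := Finset.mem_range.1 hj; omega) 2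
    have e2 := Finset.sum_le_sum e1
    rw [Finset.sum_const, Finset.card_range, smul_eq_mul] at e2
    have e9 : 9 ≤ (k + 3) ^ 2 := by nlinarith
    have f1 : v ((k + 3) ^ 2) ≤ v 1 := hv (by omega)
    have f2 : v ((k + 3) ^ 2) ≤ v 2 := hv (by omega)
    have f7 : v ((k + 3) ^ 2) ≤ v 7 := hv (by omega)
    have e3 : (k + 1 + 2) * (v ((k + 3) ^ 2) + 2 ^ 13 * m) =
        3 * (v ((k + 3) ^ 2) + 2 ^ 13 * m) + k * (v ((k + 3) ^ 2) + 2 ^ 13 * m) := by ring
    rw [e3]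
    refine Nat.add_le_add ?_ e2
    omega

theorem squares_J (K : ℕ) :
    2 * ((∑ k ∈ Finset.range K, ((k + 1) + 1)) + 1) = (K + 2) * (K + 1) := by
  induction K with
  | zero => rfl
  | succ K ih =>
    rw [Finset.sum_range_succ]
    have : 2 * ((∑ k ∈ Finset.range K, ((k + 1) + 1)) + (K + 1 + 1) + 1) =
        2 * ((∑ k ∈ Finset.range K, ((k + 1) + 1)) + 1) + 2 * (K + 2) := by ring
    rw [this, ih]
    ring

end Pool.Agent.K6.H83.HN.W
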