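import Pool.Agent.K6.H83.HN.MainX
import Pool.Agent.K6.H83.HN.NoWin
import Pool.Agent.K6.H83.HN.Area
import Pool.Agent.K6.H83.HN.Squares

/-! The final statement: any number of arbitrary multiplicities. -/

set_option autoImplicit false

namespace Pool.Agent.K6.H83.HN.W

open Pool.Agent

theorem absw {Q L N C : ℕ} (h : (Q : ℤ) ≤ L + 2 * |(N : ℤ) - C|) :
    Q ≤ L + 2 * ((N - C) + (C - N)) := by
  rcases abs_cases ((N : ℤ) - C) with ⟨h3, h4⟩ | ⟨h3, h4⟩ <;> rw [h3] at h <;> omega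

theorem final (n : ℕ) (v : ℕ → ℕ) (hv : Antitone v) :
    ∃ F : MvPolynomial (Fin n × Fin 2) ℂ, F ≠ 0 ∧
      ∀ P : Fin n → Fin 2 → ℂ,
        MvPolynomial.eval (fun ij : Fin n × Fin 2 => P ij.1 ij.2) F ≠ 0 →
        ∀ d : ℕ,
        -- (A) shelves of `2 p k + 5` points
        ((∃ (K m J : ℕ) (p s D : ℕ → ℕ), s 0 = 9 ∧ (∀ k, k < K → s (k + 1) = s k + 5 + 2 * p k) ∧
            s K < n ∧ v (s K) + 1 ≤ m ∧ v 0 + v 1 + v 2 ≤ D 0 ∧ v 0 + 2 ^ 16 * m ≤ D 0 ∧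
            v 1 + v 2 + v 7 + 2 ^ 16 * m ≤ D 0 ∧
            (∀ k, k < K → D (k + 1) = D k + v (s k) + 2 ^ 13 * m) ∧
            (∀ k, k < K → (p k + 2) * (v (s k) + 2 ^ 13 * m) ≤ D k) ∧
            J = (∑ k ∈ Finset.range K, (p k + 1)) + 1 ∧
            ((D K ≤ d ∧ (2 ^ 19 * J * m ^ 2 + D K ≤ d + D 0 ∨
                2 ^ 32 * (J : ℤ) * m ^ 2 ≤ (∑ i ∈ Finset.Ico (s K) n, (v i : ℤ)) +
                  2 * |((d + 2).choose 2 : ℤ) - ∑ i : Fin n, ((v i + 1).choose 2 : ℤ)|)) ∨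
              (2 ^ 32 * J * m ^ 2 ≤ (∑ i ∈ Finset.Ico (s K) n, v i) ∧
                (D K + 2).choose 2 ≤ ∑ i : Fin n, (v i + 1).choose 2))) ∨
        -- (B) `K ^ 2` arbitrary multiplicities
          (∃ K m S J : ℕ, 3 ≤ K ∧ K ^ 2 < n ∧ m = v (K ^ 2) + 1 ∧
            S = ∑ k ∈ Finset.Ico 3 K, (v (k ^ 2) + 2 ^ 13 * m) ∧ 2 * J = (K - 1) * (K - 2) ∧
            ((max (v 0 + v 1 + v 2) (max (v 0) (v 1 + v 2 + v 7) + 2 ^ 16 * m) + S ≤ d ∧
              (S + 2 ^ 19 * J * m ^ 2 ≤ d ∨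
                2 ^ 32 * (J : ℤ) * m ^ 2 ≤ (∑ i ∈ Finset.Ico (K ^ 2) n, (v i : ℤ)) +
                  2 * |((d + 2).choose 2 : ℤ) - ∑ i : Fin n, ((v i + 1).choose 2 : ℤ)|)) ∨
              (2 ^ 32 * J * m ^ 2 ≤ (∑ i ∈ Finset.Ico (K ^ 2) n, v i) ∧
                (max (v 0 + v 1 + v 2) (max (v 0) (v 1 + v 2 + v 7) + 2 ^ 16 * m) + S +
                  2).choose 2 ≤ ∑ i : Fin n, (v i + 1).choose 2))) ∨
        -- (C) `s` arbitrary multiplicities with some room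
          (∃ s m : ℕ, 9 ≤ s ∧ s + 4 < n ∧ m = v s + 1 ∧
            (∑ i ∈ Finset.range s, v i ^ 2) + (14 * v 0 + 2 ^ 15 * s * m) * d ≤ d ^ 2 ∧
            (2 ^ 18 * m ^ 2 ≤ d ∨ (1 ≤ d ∧
              2 ^ 31 * (s : ℤ) * m ^ 2 ≤ (∑ i ∈ Finset.Ico (s + 4) n, (v i : ℤ)) +
                2 * |((d + 2).choose 2 : ℤ) - ∑ i : Fin n, ((v i + 1).choose 2 : ℤ)|)))) →
          Module.finrank ℂ
            ↥(MvPolynomial.homogeneousSubmodule (Fin 3) ℂ d ⊓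
              Submodule.restrictScalars ℂ
                (⨅ i : Fin n,
                  (Ideal.span
                    ({MvPolynomial.X 0 - MvPolynomial.C (P i 0) * MvPolynomial.X 2,
                      MvPolynomial.X 1 - MvPolynomial.C (P i 1) * MvPolynomial.X 2} :
                      Set (MvPolynomial (Fin 3) ℂ))) ^ (v i)))
          = Nat.choose (d + 2) 2 - ∑ i : Fin n, Nat.choose (v i + 1) 2 := by
  obtain ⟨F, hF, hF'⟩ := mainX (n := n) hv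
  refine ⟨F.map (algebraMap ℚ ℂ), H932R3.map_ne_zero_of hF, fun P hP d hd => ?_⟩
  rw [MvPolynomial.eval_map] at hP
  have key := hF' P hP
  have hC : ∑ i ∈ Finset.range n, (v i + 1).choose 2 = ∑ i : Fin n, (v i + 1).choose 2 :=
    (Fin.sum_univ_eq_sum_range (fun i => (v i + 1).choose 2) n).symm
  obtain ⟨T, hT⟩ : ∃ T, T = ∑ i : Fin n, (v i + 1).choose 2 := ⟨_, rfl⟩
  have eT : ∑ i : Fin n, ((v i + 1).choose 2 : ℤ) = (T : ℤ) := by
    rw [hT]; push_cast; rfl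
  rw [eT, ← hT] at hd
  rw [← hT] at key
  have conv : ∀ (c j m a d : ℕ), ((c : ℤ) * (j : ℤ) * (m : ℤ) ^ 2 ≤
      (∑ i ∈ Finset.Ico a n, (v i : ℤ)) + 2 * |((d + 2).choose 2 : ℤ) - (T : ℤ)|) →
      c * j * m ^ 2 ≤ (∑ i ∈ Finset.Ico a n, v i) +
        2 * (((d + 2).choose 2 - T) + (T - (d + 2).choose 2)) := by
    intro c j m a d h
    refine absw ?_
    push_cast
    exact h
  rcases hd with ⟨K, m, J, p, s, D, a1, a2, a3, a4, a5, a6, a7, a8, a9, a10, a11⟩ |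
      ⟨K, m, S, J, b1, b2, b3, b4, b5, b6⟩ | ⟨s, m, c1, c2, c3, c4, c5⟩
  · refine key K m J p s D a3 a4 ⟨a1, a2, a5, a6, a7, a8, a9⟩ a10 d ?_
    rcases a11 with ⟨g1, g2 | g2⟩ | g
    · exact Or.inl ⟨g1, Or.inl g2⟩
    · exact Or.inl ⟨g1, Or.inr (conv (2 ^ 32) J m (s K) d (by push_cast; exact g2))⟩
    · exact Or.inr g
  · obtain ⟨L, rfl⟩ : ∃ L, K = L + 3 := ⟨K - 3, by omega⟩
    obtain ⟨e, he⟩ : ∃ e, e = max (v 0 + v 1 + v 2) (max (v 0) (v 1 + v 2 + v 7) + 2 ^ 16 * m) :=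
      ⟨_, rfl⟩
    rw [← he] at b6
    have h1 : v 0 + v 1 + v 2 ≤ e := by rw [he]; exact le_max_left _ _
    have h2 : v 0 + 2 ^ 16 * m ≤ e := by
      rw [he]
      exact (Nat.add_le_add_right (le_max_left _ _) _).trans (le_max_right _ _)
    have h3 : v 1 + v 2 + v 7 + 2 ^ 16 * m ≤ e := by
      rw [he]
      exact (Nat.add_le_add_right (le_max_right _ _) _).trans (le_max_right _ _)
    have hSh := squares hv (K := L) h1 h2 h3
    have hS : ∑ j ∈ Finset.range L, (v ((j + 3) ^ 2) + 2 ^ 13 * m) = S := by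
      rw [b4, Finset.sum_Ico_eq_sum_range]
      refine Finset.sum_congr rfl fun j _ => ?_
      rw [add_comm 3 j]
    have hJ : J = (∑ k ∈ Finset.range L, ((k + 1) + 1)) + 1 := by
      have h4 := squares_J L
      have h5 : L + 3 - 1 = L + 2 := rfl
      have h6 : L + 3 - 2 = L + 1 := rfl
      rw [h5, h6] at b5
      omega
    refine key L m J (fun k => k + 1) (fun k => (k + 3) ^ 2)
      (fun k => e + ∑ j ∈ Finset.range k, (v ((j + 3) ^ 2) + 2 ^ 13 * m)) b2 b3.ge hSh hJ d ?_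
    simp only [Finset.sum_range_zero, add_zero]
    rw [hS]
    rcases b6 with ⟨g1, g2 | g2⟩ | g
    · exact Or.inl ⟨g1, Or.inl (by omega)⟩
    · exact Or.inl ⟨g1, Or.inr (conv (2 ^ 32) J m ((L + 3) ^ 2) d (by push_cast; exact g2))⟩
    · exact Or.inr g
  · have hm : 1 ≤ m := by omega
    have hd1 : 1 ≤ d := by
      rcases c5 with c5 | c5
      · have : 1 ≤ m ^ 2 := Nat.one_le_pow _ _ hm
        omega
      · exact c5.1
    obtain ⟨K, p, s', D, g1, g2, g3, g4, g5⟩ := area hv c1 hm hd1 c4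
    refine key K m _ p s' D (by omega) (by
      rw [c3]
      exact Nat.succ_le_succ (hv g2)) g1 rfl d (Or.inl ⟨g4, Or.inr ?_⟩)
    have g6 : 2 ^ 32 * ((∑ k ∈ Finset.range K, (p k + 1)) + 1) * m ^ 2 ≤
        2 ^ 31 * s * m ^ 2 := Nat.mul_le_mul_right _ (by omega)
    refine g6.trans ?_
    rcases c5 with c5 | ⟨-, c5⟩
    · have := nowin (n := n) hv c1 g2 g3 (by omega) c3.ge c4 c5
      rw [hC, ← hT] at this
      exact this
    · have g7 := conv (2 ^ 31) s m (s + 4) d (by push_cast; exact c5)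
      refine g7.trans (Nat.add_le_add_right ?_ _)
      exact Finset.sum_le_sum_of_subset (Finset.Ico_subset_Ico_left g3)

end Pool.Agent.K6.H83.HN.W
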