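import Pool.Agent.K6.H83.HN.Nine
import Pool.Agent.K6.H83.HN.CoreN
import Pool.Agent.K6.H83.QH.MainD

/-! The expected dimension: nine arbitrary multiplicities, arbitrary bounded multiplicities. -/

set_option autoImplicit false

namespace Pool.Agent.K6.H83.HN

open Finset Pool.Agent.TH176.Nag Pool.Agent.TH603.Sur Pool.Agent.TH641.UM Pool.Agent.TH2.NU
  Pool.Agent.H932R3 Pool.Agent.Y205.FW Pool.Agent.K6.H83.QH Pool.Agent.K6.H83.HX

/-- the nine large multiplicities fit -/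
theorem nine_ineq {a0 a1 a2 a3 a4 a5 a6 a7 a8 N : ℤ} (h01 : a1 ≤ a0) (h12 : a2 ≤ a1)
    (h23 : a3 ≤ a2) (h34 : a4 ≤ a3) (h45 : a5 ≤ a4) (h56 : a6 ≤ a5) (h67 : a7 ≤ a6)
    (h78 : a8 ≤ a7) (h8 : 0 ≤ a8) (h1 : a0 + a1 + a6 + 8 ≤ N) (h2 : a1 + a2 + a3 + 8 ≤ N) :
    a0 * (a0 + 1) + a1 * (a1 + 1) + a2 * (a2 + 1) + a3 * (a3 + 1) + a4 * (a4 + 1) +
      a5 * (a5 + 1) + a6 * (a6 + 1) + a7 * (a7 + 1) + a8 * (a8 + 1) ≤ N * (N + 1) := by
  have s1 : (N - (a1 + a6 + 8)) ^ 2 ≥ a0 ^ 2 := by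
    have : 0 ≤ a0 := by linarith
    nlinarith
  have s4 : a4 ^ 2 ≤ a3 ^ 2 := by nlinarith
  have s5 : a5 ^ 2 ≤ a3 ^ 2 := by nlinarith
  have s7 : a7 ^ 2 ≤ a6 ^ 2 := by nlinarith
  have s8 : a8 ^ 2 ≤ a6 ^ 2 := by nlinarith
  have hA : 0 ≤ a1 + a6 + 8 := by linarith
  have s2 : (a1 + a6 + 8) * (a1 + 2 * a2 + 2 * a3 - a6 + 8) ≤
      (a1 + a6 + 8) * (2 * N - (a1 + a6 + 8)) := mul_le_mul_of_nonneg_left (by linarith) hA
  have q : a1 ^ 2 + a2 ^ 2 + 3 * a3 ^ 2 + 3 * a6 ^ 2 ≤ (a1 + a6) * (a1 + 2 * a2 + 2 * a3 - a6) := by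
    nlinarith [mul_nonneg (sub_nonneg.2 h12) (show 0 ≤ a2 + a3 by linarith),
      mul_nonneg (sub_nonneg.2 h23) (show 0 ≤ a2 + a3 + a6 by linarith),
      mul_nonneg (show 0 ≤ a6 by linarith) (show 0 ≤ a3 - a6 by linarith)]
  nlinarith

theorem nine_le {u : Fin 9 → ℕ} {d : ℕ} (hu : Antitone u) (h1 : u 0 + u 1 + u 6 + 7 ≤ d)
    (h2 : u 1 + u 2 + u 3 + 7 ≤ d) : ∑ i, u i * (u i + 1) ≤ (d + 1) * (d + 2) := by
  have g01 : u 1 ≤ u 0 := hu (by decide)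
  have g12 : u 2 ≤ u 1 := hu (by decide)
  have g23 : u 3 ≤ u 2 := hu (by decide)
  have g34 : u 4 ≤ u 3 := hu (by decide)
  have g45 : u 5 ≤ u 4 := hu (by decide)
  have g56 : u 6 ≤ u 5 := hu (by decide)
  have g67 : u 7 ≤ u 6 := hu (by decide)
  have g78 : u 8 ≤ u 7 := hu (by decide)
  have h := nine_ineq (a0 := u 0) (a1 := u 1) (a2 := u 2) (a3 := u 3) (a4 := u 4) (a5 := u 5)
    (a6 := u 6) (a7 := u 7) (a8 := u 8) (N := (d : ℤ) + 1) (by exact_mod_cast g01)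
    (by exact_mod_cast g12) (by exact_mod_cast g23) (by exact_mod_cast g34)
    (by exact_mod_cast g45) (by exact_mod_cast g56) (by exact_mod_cast g67)
    (by exact_mod_cast g78) (by positivity)
    (by
      have : ((u 0 + u 1 + u 6 + 7 : ℕ) : ℤ) ≤ d := by exact_mod_cast h1
      push_cast at this
      linarith)
    (by
      have : ((u 1 + u 2 + u 3 + 7 : ℕ) : ℤ) ≤ d := by exact_mod_cast h2
      push_cast at this
      linarith)
  have e : ∑ i, u i * (u i + 1) = u 0 * (u 0 + 1) + u 1 * (u 1 + 1) + u 2 * (u 2 + 1) +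
      u 3 * (u 3 + 1) + u 4 * (u 4 + 1) + u 5 * (u 5 + 1) + u 6 * (u 6 + 1) + u 7 * (u 7 + 1) +
      u 8 * (u 8 + 1) := by
    rw [Fin.sum_univ_castSucc, Fin.sum_univ_eight]
    rfl
  rw [e]
  zify
  refine h.trans (le_of_eq ?_)
  ring

/-- exactness for nine arbitrary multiplicities and bounded multiplicities -/
theorem XM_nine {G : Multiset ℕ} {u : Fin 9 → ℕ} {d μ : ℕ} (hG1 : ∀ x ∈ G, 1 ≤ x)
    (hGμ : ∀ x ∈ G, x ≤ μ) (hu : Antitone u) (h1 : u 0 + u 1 + u 6 + 2 ^ 13 * (μ + 1) ≤ d)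
    (h2 : u 1 + u 2 + u 3 + 2 ^ 13 * (μ + 1) ≤ d)
    (h3 : 2 ^ 31 * (μ + 1) ^ 2 ≤ G.sum + 2 * (((d + 2).choose 2 - cM (ms u + G)) +
      (cM (ms u + G) - (d + 2).choose 2))) : XM (TF d) (ms u + G) := by
  have e13 : (2 : ℕ) ^ 13 = 8192 := by norm_num
  rw [e13] at h1 h2
  have hcE : 2 * cM (ms u) = ∑ i, u i * (u i + 1) := by
    rw [← cond_eq]
    unfold Pool.Agent.TH603.Sur.cond
    rw [mul_sum]
    exact sum_congr rfl fun i _ => Pool.Agent.TH2.NU.two_choose _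
  have hle : 2 * cM (ms u) ≤ (d + 1) * (d + 2) := by
    rw [hcE]
    exact nine_le hu (by omega) (by omega)
  obtain ⟨Δ, hΔ⟩ : ∃ Δ, Δ + 2 * cM (ms u) = (d + 1) * (d + 2) :=
    ⟨(d + 1) * (d + 2) - 2 * cM (ms u), by omega⟩
  have hΔ' : Δ + ∑ i, u i * (u i + 1) = (d + 1) * (d + 2) := by
    rw [← hcE]; exact hΔ
  have hcomm : cM (ms u + G) = cM (G + ms u) := by rw [add_comm]
  obtain ⟨C, hC⟩ : ∃ C, C = cM (ms u + G) := ⟨_, rfl⟩
  obtain ⟨N, hN⟩ : ∃ N, N = (d + 2).choose 2 := ⟨_, rfl⟩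
  rw [← hC, ← hN] at h3
  have key := coreN (G := G) (E := ms u) (m := μ + 1) (d := d) (Δ := Δ)
    (δ := 2 * ((N - C) + (C - N))) (by omega) hΔ
    (fun x hx => ⟨hG1 x hx, by have := hGμ x hx; omega⟩)
    (fun M' hM' hs => SM9 (m := μ + 1) (Nat.succ_pos μ) hM' hu h1 h2 hΔ' hs)
    (fun M' hM' hs => by
      refine EM9 (m := μ + 1) (Nat.succ_pos μ) hM' hu h1 h2 hΔ' ?_
      rw [sq (μ + 1)]
      exact hs)
    (by rw [card_TF, ← hcomm, ← hC, ← hN]; clear h2 h1 h3; omega) h3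
  rw [← hcomm] at key
  have hEx : Ex (TF d) (fam (ms u + G)) := by
    unfold Ex
    rw [cond_eq, ms_fam]
    exact key
  exact ⟨fun hc => Emp_of_Ex hEx (by rw [cond_eq, ms_fam]; exact hc),
    fun hc => Sur_of_Ex hEx (by rw [cond_eq, ms_fam]; exact hc)⟩

/-- the first nine and the others -/
theorem sum_nine {A : Type} [AddCommMonoid A] {r : ℕ} (f : Fin (r + 10) → A) :
    ∑ i, f i = (∑ i : Fin 9, f ⟨i, by omega⟩) + ∑ i : Fin (r + 1), f ⟨i + 9, by omega⟩ := by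
  have h : 9 + (r + 1) = r + 10 := by omega
  rw [← Equiv.sum_comp (finCongr h) f, Fin.sum_univ_add]
  congr 1
  refine sum_congr rfl fun i _ => ?_
  congr 1
  ext
  simp

/-- **Nine arbitrary multiplicities, arbitrary bounded multiplicities.** -/
theorem mainN {r : ℕ} {v : Fin (r + 10) → ℕ} (hv : Antitone v) :
    ∃ F : MvPolynomial (Fin (r + 10) × Fin 2) ℚ, F ≠ 0 ∧ ∀ P : Fin (r + 10) → Fin 2 → ℂ,
      MvPolynomial.aeval (fun ij : Fin (r + 10) × Fin 2 => P ij.1 ij.2) F ≠ 0 →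
        ∀ d : ℕ, ((v 0 + v 1 + v 6 + 2 ^ 13 * (v 9 + 1) ≤ d ∧
            v 1 + v 2 + v 3 + 2 ^ 13 * (v 9 + 1) ≤ d ∧
            2 ^ 31 * (v 9 + 1) ^ 2 ≤ (∑ i : Fin (r + 1), v ⟨i + 9, by omega⟩) +
              2 * (((d + 2).choose 2 - ∑ i, (v i + 1).choose 2) +
              ((∑ i, (v i + 1).choose 2) - (d + 2).choose 2))) ∨
            (2 ^ 31 * (v 9 + 1) ^ 2 ≤ (∑ i : Fin (r + 1), v ⟨i + 9, by omega⟩) ∧
              (max (v 0 + v 1 + v 6) (v 1 + v 2 + v 3) + 2 ^ 13 * (v 9 + 1) + 2).choose 2 ≤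
                ∑ i, (v i + 1).choose 2)) →
          Pool.Agent.H932R3.ExpDim ℂ v P d := by
  classical
  obtain ⟨w, hw⟩ : ∃ w : Fin (r + 1) → ℕ, w = fun i : Fin (r + 1) => v ⟨i + 9, by omega⟩ := ⟨_, rfl⟩
  obtain ⟨u, hu'⟩ : ∃ u : Fin 9 → ℕ, u = fun i : Fin 9 => v ⟨i, by omega⟩ := ⟨_, rfl⟩
  have hwi : ∀ i, w i = v ⟨i + 9, by omega⟩ := fun i => by rw [hw]
  have hui : ∀ i, u i = v ⟨i, by omega⟩ := fun i => by rw [hu']
  have hs1 : (∑ i : Fin (r + 1), v ⟨i + 9, by omega⟩) = ∑ i, w i := by rw [hw]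
  rw [hs1]
  have hu : Antitone u := fun i j hij => by
    rw [hui, hui]
    exact hv (Fin.mk_le_mk.2 hij)
  have hv0 : v 0 = u 0 := by
    rw [hui]; rfl
  have hv1 : v 1 = u 1 := by
    rw [hui]; rfl
  have hv2 : v 2 = u 2 := by
    rw [hui]; rfl
  have hv3 : v 3 = u 3 := by
    rw [hui]; rfl
  have hv6 : v 6 = u 6 := by
    rw [hui]; rfl
  rw [hv0, hv1, hv2, hv3, hv6]
  obtain ⟨μ, hμ⟩ : ∃ μ, μ = v 9 := ⟨_, rfl⟩
  rw [← hμ]
  have hwμ : ∀ i, w i ≤ μ := fun i => by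
    rw [hwi, hμ]
    refine hv ?_
    show (9 : Fin (r + 10)) ≤ _
    rw [Fin.le_def]
    have : ((9 : Fin (r + 10)) : ℕ) = 9 := rfl
    rw [this]
    exact Nat.le_add_left _ _
  obtain ⟨G, hG⟩ : ∃ G : Multiset ℕ, G = (ms w).filter fun x => 1 ≤ x := ⟨_, rfl⟩
  have hG1 : ∀ x ∈ G, 1 ≤ x ∧ ∃ i, w i = x := by
    intro x hx
    rw [hG] at hx
    obtain ⟨h1, h2⟩ := Multiset.mem_filter.1 hx
    exact ⟨h2, mem_ms h1⟩
  obtain ⟨t, ht⟩ : ∃ t : ℕ, (ms w).filter (fun x => ¬ 1 ≤ x) = t • ({0} : Multiset ℕ) := by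
    refine ⟨((ms w).filter (fun x => ¬ 1 ≤ x)).card, ?_⟩
    rw [Multiset.nsmul_singleton]
    refine Multiset.eq_replicate_card.2 fun x hx => ?_
    have := (Multiset.mem_filter.1 hx).2
    omega
  have hmw : ms w = G + t • {0} := by
    rw [hG, ← ht]
    exact (Multiset.filter_add_not _ _).symm
  have hmv : ms v = ms u + ms w := by
    unfold ms
    rw [sum_nine, hw, hu']
  have hms : ms v = (ms u + G) + 0 • {1} + t • {0} := by
    rw [hmv, hmw, zero_smul]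
    abel
  have hsumG : ∑ i, w i = G.sum := by
    have h1 : (ms w).sum = ∑ i, w i := by
      unfold ms
      rw [Multiset.sum_sum]
      simp
    rw [← h1, hmw, Multiset.sum_add, Multiset.sum_nsmul]
    simp
  obtain ⟨C, hC⟩ : ∃ C, C = cond v := ⟨_, rfl⟩
  have hC' : ∑ i, (v i + 1).choose 2 = C := by rw [hC]; rfl
  have hCG : C = cM (ms u + G) := by
    rw [hC, cond_eq, hms, cM_add, cM_add, cM_smul, cM_smul]
    simp
  rw [hC', hsumG]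
  obtain ⟨S, hS⟩ : ∃ S, S = 2 ^ 13 * (μ + 1) := ⟨_, rfl⟩
  obtain ⟨D, hD⟩ : ∃ D, D = max (u 0 + u 1 + u 6) (u 1 + u 2 + u 3) + 2 ^ 13 * (μ + 1) := ⟨_, rfl⟩
  obtain ⟨Q, hQ⟩ : ∃ Q, Q = 2 ^ 31 * (μ + 1) ^ 2 := ⟨_, rfl⟩
  have hDiff : ∀ d, (u 0 + u 1 + u 6 + 2 ^ 13 * (μ + 1) ≤ d ∧
      u 1 + u 2 + u 3 + 2 ^ 13 * (μ + 1) ≤ d) ↔ D ≤ d := by
    intro d
    rw [hD, ← hS]
    omega
  have key : ∀ d, D ≤ d → Q ≤ G.sum + 2 * (((d + 2).choose 2 - C) + (C - (d + 2).choose 2)) →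
      ((d + 2).choose 2 ≤ C → Emp v (TZ d)) ∧ (C ≤ (d + 2).choose 2 → Sur v (TZ d)) := by
    intro d hd hq
    have hd' := (hDiff d).2 hd
    have h1 : XM (TF d) ((ms u + G) + 0 • {1} + t • {0}) :=
      XM_ones (XM_nine (μ := μ) (fun x hx => (hG1 x hx).1) (fun x hx => by
        obtain ⟨-, i, hi⟩ := hG1 x hx
        rw [← hi]
        exact hwμ i) hu hd'.1 hd'.2
        (by rw [← hQ, ← hCG]; exact hq))
    unfold XM at h1
    rw [coe_TF, card_TF, ← hms, ← cond_eq, EM_iff rfl, SM_iff rfl, ← hC] at h1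
    exact h1
  rw [← hD, ← hQ]
  obtain ⟨F, hF, h⟩ := expDim_two (w := v)
    (A := fun d => (D ≤ d ∧ Q ≤ G.sum + 2 * (((d + 2).choose 2 - C) + (C - (d + 2).choose 2)) ∧
      (d + 2).choose 2 ≤ C) ∨ (d ≤ D ∧ Q ≤ G.sum ∧ (D + 2).choose 2 ≤ C))
    (B := fun d => D ≤ d ∧ Q ≤ G.sum + 2 * (((d + 2).choose 2 - C) + (C - (d + 2).choose 2)) ∧
      C ≤ (d + 2).choose 2) (C + D) (fun d hd => by
      rcases hd with hd | hd
      · have h1 : (d + 2).choose 2 = (d + 1) * (d + 2) / 2 := by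
          rw [Nat.choose_two_right]
          congr 1
          rw [mul_comm]
          rfl
        have h2 : d ≤ (d + 1) * (d + 2) / 2 := by
          rw [Nat.le_div_iff_mul_le (by norm_num)]
          nlinarith
        have h3 := hd.2.2
        omega
      · omega)
    (fun d hd => by
      rcases hd with hd | hd
      · exact (key d hd.1 hd.2.1).1 hd.2.2
      · exact Emp.mono ((key D le_rfl (by omega)).1 hd.2.2)
          (Pool.Agent.TH745.MN.TZ_mono hd.1))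
    (fun d hd => (key d hd.1 hd.2.1).2 hd.2.2)
  refine ⟨F, hF, fun P hP d hd => h P hP d ?_⟩
  rw [← and_assoc, hDiff d] at hd
  rcases Nat.lt_or_ge d D with h5 | h5
  · rcases hd with hd | hd
    · omega
    · exact Or.inl (Or.inr ⟨h5.le, hd⟩)
  · have h6 : Q ≤ G.sum + 2 * (((d + 2).choose 2 - C) + (C - (d + 2).choose 2)) := by
      rcases hd with hd | hd
      · exact hd.2
      · omega
    rcases le_total ((d + 2).choose 2) C with h4 | h4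
    · exact Or.inl (Or.inl ⟨h5, h6, h4⟩)
    · exact Or.inr ⟨h5, h6, h4⟩

end Pool.Agent.K6.H83.HN
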