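import Pool.Agent.K6.H83.HN.Star9
import Pool.Agent.K6.H83.HN.CoreS
import Pool.Agent.K6.H83.HN.MainN

/-! The expected dimension: nine arbitrary multiplicities, Cremona reduced, arbitrary bounded
multiplicities. -/

set_option autoImplicit false

namespace Pool.Agent.K6.H83.HN

open Finset Pool.Agent.TH176.Nag Pool.Agent.TH603.Sur Pool.Agent.TH641.UM Pool.Agent.TH2.NU
  Pool.Agent.H932R3 Pool.Agent.Y205.FW Pool.Agent.K6.H83.QH Pool.Agent.K6.H83.HX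

/-- the nine large multiplicities fit -/
theorem nine_ineqS {a0 a1 a2 a3 a4 a5 a6 a7 a8 N : ℤ} (h01 : a1 ≤ a0) (h12 : a2 ≤ a1)
    (h23 : a3 ≤ a2) (h34 : a4 ≤ a3) (h45 : a5 ≤ a4) (h56 : a6 ≤ a5) (h67 : a7 ≤ a6)
    (h78 : a8 ≤ a7) (h8 : 0 ≤ a8) (h1 : a0 + a1 + a2 + 1 ≤ N) :
    a0 * (a0 + 1) + a1 * (a1 + 1) + a2 * (a2 + 1) + a3 * (a3 + 1) + a4 * (a4 + 1) +
      a5 * (a5 + 1) + a6 * (a6 + 1) + a7 * (a7 + 1) + a8 * (a8 + 1) ≤ N * (N + 1) := by
  have p : ∀ x : ℤ, 0 ≤ x → x ≤ a2 → x * (x + 1) ≤ a2 * (a2 + 1) := fun x h0 hx => by nlinarith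
  have s3 := p a3 (by linarith) (by linarith)
  have s4 := p a4 (by linarith) (by linarith)
  have s5 := p a5 (by linarith) (by linarith)
  have s6 := p a6 (by linarith) (by linarith)
  have s7 := p a7 (by linarith) (by linarith)
  have s8 := p a8 (by linarith) (by linarith)
  have h2 : (a0 + a1 + a2 + 1) * (a0 + a1 + a2 + 1 + 1) ≤ N * (N + 1) := by nlinarith
  have q1 : a2 * a2 ≤ a0 * a1 := mul_le_mul (by linarith) h12 (by linarith) (by linarith)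
  have q2 : a2 * a2 ≤ a0 * a2 := mul_le_mul (by linarith) le_rfl (by linarith) (by linarith)
  have q3 : a2 * a2 ≤ a1 * a2 := mul_le_mul h12 le_rfl (by linarith) (by linarith)
  nlinarith

theorem nine_leS {u : Fin 9 → ℕ} {d : ℕ} (hu : Antitone u) (h1 : u 0 + u 1 + u 2 ≤ d) :
    ∑ i, u i * (u i + 1) ≤ (d + 1) * (d + 2) := by
  have g01 : u 1 ≤ u 0 := hu (by decide)
  have g12 : u 2 ≤ u 1 := hu (by decide)
  have g23 : u 3 ≤ u 2 := hu (by decide)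
  have g34 : u 4 ≤ u 3 := hu (by decide)
  have g45 : u 5 ≤ u 4 := hu (by decide)
  have g56 : u 6 ≤ u 5 := hu (by decide)
  have g67 : u 7 ≤ u 6 := hu (by decide)
  have g78 : u 8 ≤ u 7 := hu (by decide)
  have h := nine_ineqS (a0 := u 0) (a1 := u 1) (a2 := u 2) (a3 := u 3) (a4 := u 4) (a5 := u 5)
    (a6 := u 6) (a7 := u 7) (a8 := u 8) (N := (d : ℤ) + 1) (by exact_mod_cast g01)
    (by exact_mod_cast g12) (by exact_mod_cast g23) (by exact_mod_cast g34)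
    (by exact_mod_cast g45) (by exact_mod_cast g56) (by exact_mod_cast g67)
    (by exact_mod_cast g78) (by positivity)
    (by
      have : ((u 0 + u 1 + u 2 : ℕ) : ℤ) ≤ d := by exact_mod_cast h1
      push_cast at this
      linarith)
  have e : ∑ i, u i * (u i + 1) = u 0 * (u 0 + 1) + u 1 * (u 1 + 1) + u 2 * (u 2 + 1) +
      u 3 * (u 3 + 1) + u 4 * (u 4 + 1) + u 5 * (u 5 + 1) + u 6 * (u 6 + 1) + u 7 * (u 7 + 1) +
      u 8 * (u 8 + 1) := by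
    rw [Fin.sum_univ_castSucc, Fin.sum_univ_eight]
    rfl
  rw [e]
  zify
  refine h.trans (le_of_eq ?_)
  ring

/-- exactness for nine arbitrary multiplicities, Cremona reduced, and bounded multiplicities -/
theorem XM_nineS {G : Multiset ℕ} {u : Fin 9 → ℕ} {d μ : ℕ} (hG1 : ∀ x ∈ G, 1 ≤ x)
    (hGμ : ∀ x ∈ G, x ≤ μ) (hu : Antitone u) (h1 : u 0 + u 1 + u 2 ≤ d)
    (h2 : u 0 + 2 ^ 16 * (μ + 1) ≤ d) (h3 : u 1 + u 2 + u 7 + 2 ^ 16 * (μ + 1) ≤ d)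
    (h4 : 2 ^ 32 * (μ + 1) ^ 2 ≤ G.sum + 2 * (((d + 2).choose 2 - cM (ms u + G)) +
      (cM (ms u + G) - (d + 2).choose 2))) : XM (TF d) (ms u + G) := by
  have e16 : (2 : ℕ) ^ 16 = 65536 := by norm_num
  rw [e16] at h2 h3
  have hcE : 2 * cM (ms u) = ∑ i, u i * (u i + 1) := by
    rw [← cond_eq]
    unfold Pool.Agent.TH603.Sur.cond
    rw [mul_sum]
    exact sum_congr rfl fun i _ => Pool.Agent.TH2.NU.two_choose _
  have hle : 2 * cM (ms u) ≤ (d + 1) * (d + 2) := by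
    rw [hcE]
    exact nine_leS hu h1
  obtain ⟨Δ, hΔ⟩ : ∃ Δ, Δ + 2 * cM (ms u) = (d + 1) * (d + 2) :=
    ⟨(d + 1) * (d + 2) - 2 * cM (ms u), by omega⟩
  have hΔ' : Δ + ∑ i, u i * (u i + 1) = (d + 1) * (d + 2) := by
    rw [← hcE]; exact hΔ
  have hcomm : cM (ms u + G) = cM (G + ms u) := by rw [add_comm]
  obtain ⟨C, hC⟩ : ∃ C, C = cM (ms u + G) := ⟨_, rfl⟩
  obtain ⟨N, hN⟩ : ∃ N, N = (d + 2).choose 2 := ⟨_, rfl⟩
  rw [← hC, ← hN] at h4
  have key := coreS (G := G) (E := ms u) (m := μ + 1) (d := d) (Δ := Δ)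
    (δ := 2 * ((N - C) + (C - N))) (by omega) hΔ
    (fun x hx => ⟨hG1 x hx, by have := hGμ x hx; omega⟩)
    (fun M' hM' hs => SM9s (m := μ + 1) (Nat.succ_pos μ) hM' hu h1 h2 h3 hΔ' hs)
    (fun M' hM' hs => by
      refine EM9s (m := μ + 1) (Nat.succ_pos μ) hM' hu h1 h2 h3 hΔ' ?_
      rw [sq (μ + 1)]
      exact hs)
    (by rw [card_TF, ← hcomm, ← hC, ← hN]; clear h2 h1 h3 h4; omega) h4
  rw [← hcomm] at key
  have hEx : Ex (TF d) (fam (ms u + G)) := by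
    unfold Ex
    rw [cond_eq, ms_fam]
    exact key
  exact ⟨fun hc => Emp_of_Ex hEx (by rw [cond_eq, ms_fam]; exact hc),
    fun hc => Sur_of_Ex hEx (by rw [cond_eq, ms_fam]; exact hc)⟩

/-- the first nine -/
def fst9 {r : ℕ} (v : Fin (r + 10) → ℕ) : Fin 9 → ℕ := fun i => v ⟨i, by omega⟩

theorem fst9_anti {r : ℕ} {v : Fin (r + 10) → ℕ} (hv : Antitone v) : Antitone (fst9 v) :=
  fun _ _ hij => hv (Fin.mk_le_mk.2 hij)

/-- the decomposition of the multiplicities: the first nine, the other positive ones, zeros -/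
theorem decomp {r : ℕ} {v : Fin (r + 10) → ℕ} (hv : Antitone v) :
    ∃ (G : Multiset ℕ) (t : ℕ), (∀ x ∈ G, 1 ≤ x) ∧ (∀ x ∈ G, x ≤ v 9) ∧
      ms v = (ms (fst9 v) + G) + 0 • {1} + t • {0} ∧
      (∑ i : Fin (r + 1), v ⟨i + 9, by omega⟩) = G.sum ∧
      Pool.Agent.TH603.Sur.cond v = cM (ms (fst9 v) + G) := by
  classical
  obtain ⟨w, hw⟩ : ∃ w : Fin (r + 1) → ℕ, w = fun i : Fin (r + 1) => v ⟨i + 9, by omega⟩ :=
    ⟨_, rfl⟩
  have hwi : ∀ i, w i = v ⟨i + 9, by omega⟩ := fun i => by rw [hw]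
  have hwμ : ∀ i, w i ≤ v 9 := fun i => by
    rw [hwi]
    refine hv ?_
    show (9 : Fin (r + 10)) ≤ _
    rw [Fin.le_def]
    have : ((9 : Fin (r + 10)) : ℕ) = 9 := rfl
    rw [this]
    exact Nat.le_add_left _ _
  obtain ⟨G, hG⟩ : ∃ G : Multiset ℕ, G = (ms w).filter fun x => 1 ≤ x := ⟨_, rfl⟩
  have hG1 : ∀ x ∈ G, 1 ≤ x ∧ ∃ i, w i = x := by
    intro x hx
    rw [hG] at hx
    obtain ⟨h1, h2⟩ := Multiset.mem_filter.1 hx
    exact ⟨h2, mem_ms h1⟩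
  obtain ⟨t, ht⟩ : ∃ t : ℕ, (ms w).filter (fun x => ¬ 1 ≤ x) = t • ({0} : Multiset ℕ) := by
    refine ⟨((ms w).filter (fun x => ¬ 1 ≤ x)).card, ?_⟩
    rw [Multiset.nsmul_singleton]
    refine Multiset.eq_replicate_card.2 fun x hx => ?_
    have := (Multiset.mem_filter.1 hx).2
    omega
  have hmw : ms w = G + t • {0} := by
    rw [hG, ← ht]
    exact (Multiset.filter_add_not _ _).symm
  have hmv : ms v = ms (fst9 v) + ms w := by
    unfold ms fst9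
    rw [sum_nine, hw]
  have hms : ms v = (ms (fst9 v) + G) + 0 • {1} + t • {0} := by
    rw [hmv, hmw, zero_smul]
    abel
  refine ⟨G, t, fun x hx => (hG1 x hx).1, fun x hx => ?_, hms, ?_, ?_⟩
  · obtain ⟨-, i, hi⟩ := hG1 x hx
    rw [← hi]
    exact hwμ i
  · have h1 : (ms w).sum = ∑ i, w i := by
      unfold ms
      rw [Multiset.sum_sum]
      simp
    have h2 : (∑ i : Fin (r + 1), v ⟨i + 9, by omega⟩) = ∑ i, w i := by rw [hw]
    rw [h2, ← h1, hmw, Multiset.sum_add, Multiset.sum_nsmul]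
    simp
  · rw [cond_eq, hms, cM_add, cM_add, cM_smul, cM_smul]
    simp

/-- exactness of the multiset without zeros gives emptiness and independence -/
theorem of_XM {r : ℕ} {v : Fin (r + 10) → ℕ} {G : Multiset ℕ} {t d : ℕ}
    (hms : ms v = (ms (fst9 v) + G) + 0 • {1} + t • {0}) (h : XM (TF d) (ms (fst9 v) + G)) :
    ((d + 2).choose 2 ≤ Pool.Agent.TH603.Sur.cond v → Emp v (TZ d)) ∧
      (Pool.Agent.TH603.Sur.cond v ≤ (d + 2).choose 2 → Sur v (TZ d)) := by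
  have h1 : XM (TF d) ((ms (fst9 v) + G) + 0 • {1} + t • {0}) := XM_ones h
  unfold XM at h1
  rw [coe_TF, card_TF, ← hms, ← cond_eq, EM_iff rfl, SM_iff rfl] at h1
  exact h1

/-- **From exactness to the expected dimension, one degree.** -/
theorem expDim_of_XM {r : ℕ} {v : Fin (r + 10) → ℕ} {G : Multiset ℕ} {t d : ℕ}
    (hms : ms v = (ms (fst9 v) + G) + 0 • {1} + t • {0}) (h : XM (TF d) (ms (fst9 v) + G)) :
    ∃ F : MvPolynomial (Fin (r + 10) × Fin 2) ℚ, F ≠ 0 ∧ ∀ P : Fin (r + 10) → Fin 2 → ℂ,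
      MvPolynomial.aeval (fun ij : Fin (r + 10) × Fin 2 => P ij.1 ij.2) F ≠ 0 →
        Pool.Agent.H932R3.ExpDim ℂ v P d := by
  have h1 := of_XM hms h
  obtain ⟨F, hF, h⟩ := expDim_two (w := v)
    (A := fun e => e = d ∧ (d + 2).choose 2 ≤ Pool.Agent.TH603.Sur.cond v)
    (B := fun e => e = d ∧ Pool.Agent.TH603.Sur.cond v ≤ (d + 2).choose 2) d
    (fun e he => he.1.le)
    (fun e he => by rw [he.1]; exact h1.1 he.2)
    (fun e he => by rw [he.1]; exact h1.2 he.2)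
  refine ⟨F, hF, fun P hP => h P hP d ?_⟩
  rcases le_total ((d + 2).choose 2) (Pool.Agent.TH603.Sur.cond v) with h4 | h4
  · exact Or.inl ⟨rfl, h4⟩
  · exact Or.inr ⟨rfl, h4⟩

/-- **From exactness to the expected dimension, all degrees.** -/
theorem engine {r : ℕ} {v : Fin (r + 10) → ℕ} (hv : Antitone v) (D Q : ℕ)
    (hX : ∀ G : Multiset ℕ, (∀ x ∈ G, 1 ≤ x) → (∀ x ∈ G, x ≤ v 9) → ∀ d, D ≤ d →
      Q ≤ G.sum + 2 * (((d + 2).choose 2 - cM (ms (fst9 v) + G)) +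
        (cM (ms (fst9 v) + G) - (d + 2).choose 2)) → XM (TF d) (ms (fst9 v) + G)) :
    ∃ F : MvPolynomial (Fin (r + 10) × Fin 2) ℚ, F ≠ 0 ∧ ∀ P : Fin (r + 10) → Fin 2 → ℂ,
      MvPolynomial.aeval (fun ij : Fin (r + 10) × Fin 2 => P ij.1 ij.2) F ≠ 0 →
        ∀ d : ℕ, ((D ≤ d ∧ Q ≤ (∑ i : Fin (r + 1), v ⟨i + 9, by omega⟩) +
              2 * (((d + 2).choose 2 - ∑ i, (v i + 1).choose 2) +
              ((∑ i, (v i + 1).choose 2) - (d + 2).choose 2))) ∨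
            (Q ≤ (∑ i : Fin (r + 1), v ⟨i + 9, by omega⟩) ∧
              (D + 2).choose 2 ≤ ∑ i, (v i + 1).choose 2)) →
          Pool.Agent.H932R3.ExpDim ℂ v P d := by
  obtain ⟨G, t, hG1, hGμ, hms, hsum, hcond⟩ := decomp hv
  obtain ⟨C, hC⟩ : ∃ C, C = Pool.Agent.TH603.Sur.cond v := ⟨_, rfl⟩
  have hC' : ∑ i, (v i + 1).choose 2 = C := by rw [hC]; rfl
  have hCG : C = cM (ms (fst9 v) + G) := by rw [hC, hcond]
  rw [hC', hsum]
  have key : ∀ d, D ≤ d → Q ≤ G.sum + 2 * (((d + 2).choose 2 - C) + (C - (d + 2).choose 2)) →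
      ((d + 2).choose 2 ≤ C → Emp v (TZ d)) ∧ (C ≤ (d + 2).choose 2 → Sur v (TZ d)) := by
    intro d hd hq
    rw [hC]
    exact of_XM hms (hX G hG1 hGμ d hd (by rw [← hCG]; exact hq))
  obtain ⟨F, hF, h⟩ := expDim_two (w := v)
    (A := fun d => (D ≤ d ∧ Q ≤ G.sum + 2 * (((d + 2).choose 2 - C) + (C - (d + 2).choose 2)) ∧
      (d + 2).choose 2 ≤ C) ∨ (d ≤ D ∧ Q ≤ G.sum ∧ (D + 2).choose 2 ≤ C))
    (B := fun d => D ≤ d ∧ Q ≤ G.sum + 2 * (((d + 2).choose 2 - C) + (C - (d + 2).choose 2)) ∧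
      C ≤ (d + 2).choose 2) (C + D) (fun d hd => by
      rcases hd with hd | hd
      · have h1 : (d + 2).choose 2 = (d + 1) * (d + 2) / 2 := by
          rw [Nat.choose_two_right]
          congr 1
          rw [mul_comm]
          rfl
        have h2 : d ≤ (d + 1) * (d + 2) / 2 := by
          rw [Nat.le_div_iff_mul_le (by norm_num)]
          nlinarith
        have h3 := hd.2.2
        omega
      · omega)
    (fun d hd => by
      rcases hd with hd | hd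
      · exact (key d hd.1 hd.2.1).1 hd.2.2
      · exact Emp.mono ((key D le_rfl (by omega)).1 hd.2.2)
          (Pool.Agent.TH745.MN.TZ_mono hd.1))
    (fun d hd => (key d hd.1 hd.2.1).2 hd.2.2)
  refine ⟨F, hF, fun P hP d hd => h P hP d ?_⟩
  rcases Nat.lt_or_ge d D with h5 | h5
  · rcases hd with hd | hd
    · omega
    · exact Or.inl (Or.inr ⟨h5.le, hd⟩)
  · have h6 : Q ≤ G.sum + 2 * (((d + 2).choose 2 - C) + (C - (d + 2).choose 2)) := by
      rcases hd with hd | hd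
      · exact hd.2
      · omega
    rcases le_total ((d + 2).choose 2) C with h4 | h4
    · exact Or.inl (Or.inl ⟨h5, h6, h4⟩)
    · exact Or.inr ⟨h5, h6, h4⟩

/-- the values of the first nine -/
theorem fst9_val {r : ℕ} (v : Fin (r + 10) → ℕ) :
    fst9 v 0 = v 0 ∧ fst9 v 1 = v 1 ∧ fst9 v 2 = v 2 ∧ fst9 v 3 = v 3 ∧ fst9 v 4 = v 4 ∧
      fst9 v 5 = v 5 ∧ fst9 v 6 = v 6 ∧ fst9 v 7 = v 7 ∧ fst9 v 8 = v 8 :=
  ⟨rfl, rfl, rfl, rfl, rfl, rfl, rfl, rfl, rfl⟩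

/-- **Nine arbitrary multiplicities, Cremona reduced, arbitrary bounded multiplicities.** -/
theorem mainS {r : ℕ} {v : Fin (r + 10) → ℕ} (hv : Antitone v) :
    ∃ F : MvPolynomial (Fin (r + 10) × Fin 2) ℚ, F ≠ 0 ∧ ∀ P : Fin (r + 10) → Fin 2 → ℂ,
      MvPolynomial.aeval (fun ij : Fin (r + 10) × Fin 2 => P ij.1 ij.2) F ≠ 0 →
        ∀ d : ℕ, ((max (v 0 + v 1 + v 2) (max (v 0) (v 1 + v 2 + v 7) + 2 ^ 16 * (v 9 + 1)) ≤ d ∧
            2 ^ 32 * (v 9 + 1) ^ 2 ≤ (∑ i : Fin (r + 1), v ⟨i + 9, by omega⟩) +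
              2 * (((d + 2).choose 2 - ∑ i, (v i + 1).choose 2) +
              ((∑ i, (v i + 1).choose 2) - (d + 2).choose 2))) ∨
            (2 ^ 32 * (v 9 + 1) ^ 2 ≤ (∑ i : Fin (r + 1), v ⟨i + 9, by omega⟩) ∧
              (max (v 0 + v 1 + v 2) (max (v 0) (v 1 + v 2 + v 7) + 2 ^ 16 * (v 9 + 1)) +
                2).choose 2 ≤ ∑ i, (v i + 1).choose 2)) →
          Pool.Agent.H932R3.ExpDim ℂ v P d := by
  refine engine hv _ _ fun G hG1 hGμ d hd hq => ?_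
  have h1 := (le_max_left _ _).trans hd
  have h2 := (le_max_right _ _).trans hd
  exact XM_nineS hG1 hGμ (fst9_anti hv) h1
    ((Nat.add_le_add_right (le_max_left _ _) _).trans h2)
    ((Nat.add_le_add_right (le_max_right _ _) _).trans h2) hq

end Pool.Agent.K6.H83.HN
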