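import Pool.Agent.K6.H83.HN.NoWin
import Pool.Agent.K6.H83.HN.MainS

/-! No window, with nine arbitrary points. -/

set_option autoImplicit false

namespace Pool.Agent.K6.H83.HN.W

open Finset

theorem nowin3 {n s0 σ m d t R D0 : ℕ} {v : ℕ → ℕ} (hv : Antitone v) (hs : 9 ≤ s0) (h1 : s0 ≤ σ)
    (h2 : σ ≤ s0 + 4) (hn : σ < n) (hm : v s0 + 1 ≤ m) (ht : s0 ≤ t ^ 2)
    (hR : 2 ^ 16 * t * m ≤ R) (hb1 : v 0 + v 1 + v 2 ≤ D0)
    (hA : D0 ^ 2 + (∑ i ∈ Finset.Ico 9 s0, v i ^ 2) + (11 * v 9 + R) * d ≤ d ^ 2)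
    (hd : 2 ^ 34 * s0 * m ^ 3 ≤ R * d) :
    2 ^ 31 * s0 * m ^ 2 ≤ (∑ i ∈ Finset.Ico σ n, v i) +
      2 * (((d + 2).choose 2 - ∑ i ∈ Finset.range n, (v i + 1).choose 2) +
        ((∑ i ∈ Finset.range n, (v i + 1).choose 2) - (d + 2).choose 2)) := by
  by_contra hcon
  push Not at hcon
  have hm1 : 1 ≤ m := by omega
  obtain ⟨A, hAd⟩ : ∃ A, A = ∑ i ∈ Finset.Ico 9 s0, v i ^ 2 := ⟨_, rfl⟩
  obtain ⟨L, hL⟩ : ∃ L, L = ∑ i ∈ Finset.Ico σ n, v i := ⟨_, rfl⟩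
  obtain ⟨T, hT⟩ : ∃ T, T = ∑ i ∈ Finset.range n, (v i + 1).choose 2 := ⟨_, rfl⟩
  obtain ⟨N, hN⟩ : ∃ N, N = (d + 2).choose 2 := ⟨_, rfl⟩
  have hN2 : 2 * N = (d + 1) * (d + 2) := by
    rw [hN]
    exact two_ch (d + 1)
  rw [← hAd] at hA
  rw [← hL, ← hT, ← hN] at hcon
  have hT2 : 2 * T = ∑ i ∈ Finset.range n, v i * (v i + 1) := by
    rw [hT, mul_sum]
    exact sum_congr rfl fun i _ => two_ch _
  have hsplit : ∑ i ∈ Finset.range n, v i * (v i + 1) =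
      ∑ i ∈ Finset.range 9, v i * (v i + 1) + ∑ i ∈ Finset.Ico 9 s0, v i * (v i + 1) +
        ∑ i ∈ Finset.Ico s0 σ, v i * (v i + 1) + ∑ i ∈ Finset.Ico σ n, v i * (v i + 1) := by
    rw [Finset.sum_range_add_sum_Ico (fun i => v i * (v i + 1)) hs,
      Finset.sum_range_add_sum_Ico (fun i => v i * (v i + 1)) h1,
      Finset.sum_range_add_sum_Ico (fun i => v i * (v i + 1)) hn.le]
  have b0 : ∑ i ∈ Finset.range 9, v i * (v i + 1) ≤ D0 ^ 2 + 3 * D0 + 2 := by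
    have hu : Antitone (fun i : Fin 9 => v i) := fun i j hij => hv (by exact_mod_cast hij)
    have g := nine_leS (u := fun i : Fin 9 => v i) (d := D0) hu hb1
    rw [← Fin.sum_univ_eq_sum_range (fun i => v i * (v i + 1)) 9]
    refine g.trans (le_of_eq ?_)
    ring
  have hD0d : D0 ≤ d := by
    have c1 : D0 ^ 2 ≤ d ^ 2 := by omega
    exact (Nat.pow_le_pow_iff_left (by norm_num)).1 c1
  have hAd2 : A ≤ d ^ 2 := by omega
  have cs : ∑ i ∈ Finset.Ico 9 s0, v i ≤ t * d := by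
    have h3 : (∑ i ∈ Finset.Ico 9 s0, v i) ^ 2 ≤ s0 * A := by
      have := sq_sum_le_card_mul_sum_sq (s := Finset.Ico 9 s0) (f := v)
      rw [Nat.card_Ico, ← hAd] at this
      exact this.trans (Nat.mul_le_mul_right _ (Nat.sub_le _ _))
    have h4 : s0 * A ≤ t ^ 2 * d ^ 2 := Nat.mul_le_mul ht hAd2
    have h5 : (∑ i ∈ Finset.Ico 9 s0, v i) ^ 2 ≤ (t * d) ^ 2 := by
      rw [mul_pow]
      exact h3.trans h4
    exact (Nat.pow_le_pow_iff_left (by norm_num)).1 h5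
  have b1 : ∑ i ∈ Finset.Ico 9 s0, v i * (v i + 1) ≤ A + t * d := by
    have e : ∑ i ∈ Finset.Ico 9 s0, v i * (v i + 1) =
        A + ∑ i ∈ Finset.Ico 9 s0, v i := by
      rw [hAd, ← sum_add_distrib]
      exact sum_congr rfl fun i _ => by ring
    rw [e]
    exact Nat.add_le_add_left cs _
  have b2 : ∑ i ∈ Finset.Ico s0 σ, v i * (v i + 1) ≤ 4 * m ^ 2 := by
    calc ∑ i ∈ Finset.Ico s0 σ, v i * (v i + 1) ≤ ∑ _i ∈ Finset.Ico s0 σ, m ^ 2 := by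
          refine sum_le_sum fun i hi => ?_
          have h3 : v i ≤ v s0 := hv (Finset.mem_Ico.1 hi).1
          rw [sq]
          exact Nat.mul_le_mul (by omega) (by omega)
      _ = (σ - s0) * m ^ 2 := by rw [sum_const, Nat.card_Ico, smul_eq_mul]
      _ ≤ 4 * m ^ 2 := Nat.mul_le_mul_right _ (by omega)
  have b3 : ∑ i ∈ Finset.Ico σ n, v i * (v i + 1) ≤ m * L := by
    rw [hL, mul_sum]
    refine sum_le_sum fun i hi => ?_
    have h3 : v i ≤ v s0 := hv (h1.trans (Finset.mem_Ico.1 hi).1)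
    rw [mul_comm m]
    exact Nat.mul_le_mul_left _ (by omega)
  have hT3 : 2 * T ≤ D0 ^ 2 + 3 * D0 + 2 + A + t * d + 4 * m ^ 2 + m * L := by
    rw [hT2, hsplit]
    omega
  obtain ⟨W, hW⟩ : ∃ W, W = 2 ^ 31 * s0 * m ^ 2 := ⟨_, rfl⟩
  rw [← hW] at hcon
  have hmL : m * L ≤ m * W := Nat.mul_le_mul_left _ (by omega)
  have key : 2 * N ≤ D0 ^ 2 + 3 * D0 + 2 + A + t * d + 4 * m ^ 2 + m * W + W := by omega
  rw [hN2] at key
  have k2 : 2 ^ 34 * s0 * m ^ 3 = 8 * (m * W) := by rw [hW]; ring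
  have k3 : W ≤ m * W := Nat.le_mul_of_pos_left _ (by omega)
  have k4 : m ^ 2 ≤ W := by
    rw [hW]
    exact Nat.le_mul_of_pos_left _ (by positivity)
  have k5 : t * d ≤ t * m * d := Nat.mul_le_mul_right _ (Nat.le_mul_of_pos_right _ (by omega))
  have k6 : 2 ^ 16 * t * m * d ≤ R * d := Nat.mul_le_mul_right _ hR
  have k7 : 2 ^ 16 * t * m * d = 65536 * (t * m * d) := by ring
  have k8 : (11 * v 9 + R) * d = 11 * (v 9 * d) + R * d := by ring
  have k10 : 1 ≤ W := by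
    rw [hW]
    have : 0 < 2 ^ 31 * s0 * m ^ 2 := by positivity
    exact this
  have k9 : (d + 1) * (d + 2) = d ^ 2 + 3 * d + 2 := by ring
  rw [k2] at hd
  rw [k8] at hA
  rw [k9] at key
  rw [k7] at k6
  generalize t * m * d = Z at *
  generalize t * d = X at *
  generalize R * d = Y at *
  generalize m * W = U at *
  generalize v 9 * d = X2 at *
  generalize D0 ^ 2 = D2 at *
  generalize d ^ 2 = DD at *
  generalize m ^ 2 = MM at *
  omega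

end Pool.Agent.K6.H83.HN.W
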