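import Pool.Agent.K6.H83.HN.Pieces

/-! The numbers of the pieces. -/

set_option autoImplicit false

namespace Pool.Agent.K6.H83.HN

/-- a profile which is thick away from its ends -/
def Good (c b1 b2 b3 t1 t2 N Q : ℤ) : Prop :=
  3 * Q + 8 ≤ N ∧ 0 ≤ pr c b1 b2 b3 t1 t2 N 0 ∧ 0 ≤ pr c b1 b2 b3 t1 t2 N (N - 1) ∧
    Q + 3 ≤ pr c b1 b2 b3 t1 t2 N (Q + 4) ∧ Q + 3 ≤ pr c b1 b2 b3 t1 t2 N (N - 1 - (Q + 4))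

theorem geo_low {d v0 v1 v2 v3 v4 v7 v8 Q h : ℤ} (hQ : 64 ≤ Q) (o1 : v1 ≤ v0) (o2 : v2 ≤ v1)
    (o3 : v3 ≤ v2) (o4 : v4 ≤ v3) (o7 : v7 ≤ v4) (o8 : v8 ≤ v7) (o9 : 0 ≤ v8)
    (e1 : v0 + v1 + v2 ≤ d) (e2 : v0 + 32 * Q ≤ d) (e3 : v1 + v2 + v7 + 4 * Q ≤ d)
    (hh : (h = v1 ∧ 4 * Q ≤ v1) ∨ (h = 4 * Q ∧ v1 ≤ 4 * Q)) :
    Good (d + 1) v1 v2 v3 v4 v8 h Q := by
  unfold Good pr A5 ps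
  refine ⟨by omega, ?_, ?_, ?_, ?_⟩
  · omega
  · omega
  · omega
  · omega

theorem geo_up {d v0 v1 v2 v5 v6 v7 Q h N : ℤ} (hQ : 64 ≤ Q) (o1 : v1 ≤ v0) (o2 : v2 ≤ v1)
    (o5 : v5 ≤ v2) (o6 : v6 ≤ v5) (o7 : v7 ≤ v6) (o8 : 0 ≤ v7)
    (e1 : v0 + v1 + v2 ≤ d) (e2 : v0 + 32 * Q ≤ d) (e3 : v1 + v2 + v7 + 4 * Q ≤ d)
    (hh : (h = v1 ∧ 4 * Q ≤ v1 ∧ v0 + v1 + 4 * Q ≤ d + 1) ∨ (h = 4 * Q ∧ v1 ≤ 4 * Q))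
    (hN : N = d - v0 + 1 - h) :
    Good (d - h + 1) 0 v5 v6 v7 0 N Q := by
  unfold Good pr A5 ps
  refine ⟨by omega, ?_, ?_, ?_, ?_⟩
  · omega
  · omega
  · omega
  · omega

theorem geoB_low {d v0 v1 v2 v3 v4 v5 Q h : ℤ} (hQ : 64 ≤ Q) (o1 : v1 ≤ v0) (o2 : v2 ≤ v1)
    (o3 : v3 ≤ v2) (o4 : v4 ≤ v3) (o5 : v5 ≤ v4) (o6 : 0 ≤ v5)
    (e1 : v0 + v1 + v2 ≤ d) (e2 : v0 + 32 * Q ≤ d) (e3 : d + 1 < v0 + v1 + 4 * Q)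
    (hh : h = 4 * Q) :
    Good (d + 1) v1 v2 v3 v4 v5 h Q := by
  unfold Good pr A5 ps
  refine ⟨by omega, ?_, ?_, ?_, ?_⟩
  · omega
  · omega
  · omega
  · omega

theorem geoB_up {d v0 v1 v2 v6 v7 v8 Q h N : ℤ} (hQ : 64 ≤ Q) (o1 : v1 ≤ v0) (o2 : v2 ≤ v1)
    (o6 : v6 ≤ v2) (o7 : v7 ≤ v6) (o8 : v8 ≤ v7) (o9 : 0 ≤ v8)
    (e1 : v0 + v1 + v2 ≤ d) (e2 : v0 + 32 * Q ≤ d) (e3 : d + 1 < v0 + v1 + 4 * Q)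
    (hh : h = 4 * Q) (hN : N = d - v0 + 1 - h) :
    Good (d - h + 1) (v1 - h) v6 v7 v8 0 N Q := by
  unfold Good pr A5 ps
  refine ⟨by omega, ?_, ?_, ?_, ?_⟩
  · omega
  · omega
  · omega
  · omega

end Pool.Agent.K6.H83.HN
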