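import Pool.Agent.K6.H83.HN.Thin

/-! Near the multiples of the anticanonical class: the dimension. -/

set_option autoImplicit false

namespace Pool.Agent.K6.H83.HN

open Finset Pool.Agent.TH176.Nag Pool.Agent.TH603.Sur Pool.Agent.TH641.UM Pool.Agent.TH2.NU
  Pool.Agent.H932R3 Pool.Agent.Y205.FW Pool.Agent.K6.H83.QH Pool.Agent.K6.H83.HX
  Pool.Agent.Y205.AV

theorem anti_num {d v0 v1 v2 v3 v4 v5 v6 v7 v8 A : ℤ} (o1 : v1 ≤ v0) (o2 : v2 ≤ v1)
    (o3 : v3 ≤ v2) (o4 : v4 ≤ v3) (o5 : v5 ≤ v4) (o6 : v6 ≤ v5) (o7 : v7 ≤ v6) (o9 : 0 ≤ v8)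
    (hA : v8 + A ≤ v7) (hA0 : 0 ≤ A) (h1 : v0 + v1 + v2 ≤ d)
    (_h3 : v0 + v1 + v2 + v3 + v4 + v5 + v6 + v7 + v8 ≤ 3 * d) :
    A * v7 + (v0 * (v0 + 1) + v1 * (v1 + 1) + v2 * (v2 + 1) + v3 * (v3 + 1) + v4 * (v4 + 1) +
      v5 * (v5 + 1) + v6 * (v6 + 1) + v7 * (v7 + 1) + v8 * (v8 + 1)) ≤ (d + 1) * (d + 2) := by
  have z7 : 0 ≤ v7 := by linarith
  have z3 : 0 ≤ v3 := by linarith
  have s1 : (v0 + v1 + v2) * (v0 + v1 + v2) ≤ d * d :=
    mul_le_mul h1 h1 (by linarith) (by linarith)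
  have p1 : v3 * v3 ≤ v0 * v1 := mul_le_mul (by linarith) (by linarith) z3 (by linarith)
  have p2 : v3 * v3 ≤ v0 * v2 := mul_le_mul (by linarith) (by linarith) z3 (by linarith)
  have p3 : v3 * v3 ≤ v1 * v2 := mul_le_mul (by linarith) (by linarith) z3 (by linarith)
  have q4 : v4 * v4 ≤ v3 * v3 := mul_le_mul (by linarith) (by linarith) (by linarith) z3
  have q5 : v5 * v5 ≤ v3 * v3 := mul_le_mul (by linarith) (by linarith) (by linarith) z3
  have q6 : v6 * v6 ≤ v3 * v3 := mul_le_mul (by linarith) (by linarith) (by linarith) z3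
  have q7 : v7 * v7 ≤ v3 * v3 := mul_le_mul (by linarith) (by linarith) (by linarith) z3
  have q8 : v8 * v8 + A * v7 ≤ v7 * v7 := by
    have e1 : A * v7 ≤ (v7 - v8) * v7 := mul_le_mul_of_nonneg_right (by linarith) z7
    have e2 : v8 * v8 ≤ v8 * v7 := mul_le_mul_of_nonneg_left (by linarith) o9
    linarith
  linarith

theorem twoc_le {m : ℕ} {G : Multiset ℕ} : (∀ x ∈ G, x + 1 ≤ m) → 2 * cM G ≤ m * G.sum := by
  induction G using Multiset.induction_on with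
  | empty => intro _; simp [cM]
  | cons a G ih =>
    intro h
    have h1 := ih fun x hx => h x (Multiset.mem_cons_of_mem hx)
    have h2 := h a (Multiset.mem_cons_self a G)
    have h3 := Pool.Agent.TH2.NU.two_choose a
    have h4 : cM (a ::ₘ G) = (a + 1).choose 2 + cM G := by
      unfold cM
      rw [Multiset.map_cons, Multiset.sum_cons]
    have h5 : a * (a + 1) ≤ a * m := Nat.mul_le_mul_left _ h2
    rw [h4, Multiset.sum_cons]
    nlinarith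

/-- exactness near the multiples of the anticanonical class -/
theorem XM_thin {G : Multiset ℕ} {u : Fin 9 → ℕ} {d μ : ℕ} (hG1 : ∀ x ∈ G, 1 ≤ x)
    (hGμ : ∀ x ∈ G, x ≤ μ) (hu : Antitone u) (h1 : u 0 + u 1 + u 2 ≤ d)
    (h2 : d < u 1 + u 2 + u 7 + 2 ^ 16 * (μ + 1))
    (h3 : ∑ i, u i + 2 ^ 27 * (μ + 1) ^ 2 ≤ 3 * d) (h4 : 2 ^ 40 * (μ + 1) ≤ d) :
    XM (TF d) (ms u + G) := by
  obtain ⟨m, hm⟩ : ∃ m, m = μ + 1 := ⟨_, rfl⟩
  have hm1 : 1 ≤ m := by omega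
  rw [← hm] at h2 h3 h4
  obtain ⟨P, hP⟩ : ∃ P, P = m ^ 2 := ⟨_, rfl⟩
  have hmP : m ≤ P := by rw [hP]; nlinarith
  rw [← hP] at h3
  have e16 : (2 : ℕ) ^ 16 = 65536 := by norm_num
  have e27 : (2 : ℕ) ^ 27 = 134217728 := by norm_num
  have e40 : (2 : ℕ) ^ 40 = 1099511627776 := by norm_num
  rw [e16] at h2
  rw [e27] at h3
  rw [e40] at h4
  obtain ⟨o1, o2, o3, o4, o5, o6, o7, o8⟩ := anti9 hu
  rw [sum9] at h3
  have hcE : 2 * cM (ms u) = ∑ i, u i * (u i + 1) := by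
    rw [← cond_eq]
    unfold Pool.Agent.TH603.Sur.cond
    rw [mul_sum]
    exact sum_congr rfl fun i _ => Pool.Agent.TH2.NU.two_choose _
  have hA : u 8 + 67108864 * P ≤ u 7 := by omega
  have h7 : d ≤ 4 * u 7 := by omega
  have hnum : (67108864 * P * u 7 + (u 0 * (u 0 + 1) + u 1 * (u 1 + 1) + u 2 * (u 2 + 1) +
      u 3 * (u 3 + 1) + u 4 * (u 4 + 1) + u 5 * (u 5 + 1) + u 6 * (u 6 + 1) + u 7 * (u 7 + 1) +
      u 8 * (u 8 + 1)) : ℕ) ≤ (d + 1) * (d + 2) := by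
    have := anti_num (d := d) (v0 := u 0) (v1 := u 1) (v2 := u 2) (v3 := u 3) (v4 := u 4)
      (v5 := u 5) (v6 := u 6) (v7 := u 7) (v8 := u 8) (A := ((67108864 * P : ℕ) : ℤ))
      (by exact_mod_cast o1) (by exact_mod_cast o2) (by exact_mod_cast o3)
      (by exact_mod_cast o4) (by exact_mod_cast o5) (by exact_mod_cast o6)
      (by exact_mod_cast o7) (by positivity) (by exact_mod_cast hA) (by positivity)
      (by exact_mod_cast h1) (by
        have : u 0 + u 1 + u 2 + u 3 + u 4 + u 5 + u 6 + u 7 + u 8 ≤ 3 * d := by omega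
        exact_mod_cast this)
    exact_mod_cast this
  rw [← sum9 fun i => u i * (u i + 1), ← hcE] at hnum
  obtain ⟨Δ, hΔ⟩ : ∃ Δ, Δ + 2 * cM (ms u) = (d + 1) * (d + 2) :=
    ⟨(d + 1) * (d + 2) - 2 * cM (ms u), by omega⟩
  have hΔ' : Δ + ∑ i, u i * (u i + 1) = (d + 1) * (d + 2) := by
    rw [← hcE]; exact hΔ
  have hΔlow : 67108864 * P * u 7 ≤ Δ := by omega
  have hcomm : cM (ms u + G) = cM (G + ms u) := by rw [add_comm]
  obtain ⟨C, hC⟩ : ∃ C, C = cM (ms u + G) := ⟨_, rfl⟩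
  obtain ⟨N, hN⟩ : ∃ N, N = (d + 2).choose 2 := ⟨_, rfl⟩
  have hN2 : 2 * N = (d + 1) * (d + 2) := by
    rw [hN]
    exact Pool.Agent.TH2.NU.two_choose (d + 1)
  have hGm := twoc_le (m := m) (G := G) fun x hx => by
    have := hGμ x hx
    omega
  have hCG : C = cM (ms u) + cM G := by rw [hC, cM_add]
  obtain ⟨δ, hδ⟩ : ∃ δ, δ = 2 * ((N - C) + (C - N)) := ⟨_, rfl⟩
  have hΔδ : Δ ≤ m * (G.sum + δ) := by
    have g1 : δ ≤ m * δ := Nat.le_mul_of_pos_left _ hm1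
    rw [mul_add]
    omega
  have hbig : 16 * (1048576 * m * d) ≤ G.sum + δ := by
    have hb : m * (16 * (1048576 * m * d)) ≤ m * (G.sum + δ) := by
      refine le_trans ?_ hΔδ
      refine le_trans ?_ hΔlow
      calc m * (16 * (1048576 * m * d)) = 16777216 * P * d := by rw [hP]; ring
        _ ≤ 16777216 * P * (4 * u 7) := Nat.mul_le_mul_left _ h7
        _ = 67108864 * P * u 7 := by ring
    exact Nat.le_of_mul_le_mul_left hb hm1
  have h7m : 1000000 * m ≤ u 7 := by omega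
  have h8m : u 8 + 5120 * m ≤ u 7 := by omega
  have key := coreG (G := G) (E := ms u) (m := m) (d := d) (Δ := Δ) (Λ := 1048576 * m * d)
    (δ := δ) hm1 hΔ
    (fun x hx => ⟨hG1 x hx, by have := hGμ x hx; omega⟩)
    (fun M' hM' hs => by
      rw [sum9] at hΔ'
      rw [ms9']
      exact SMc hm1 hM' o1 o2 o3 o4 o5 o6 o7 o8 h1 h2 h8m h7m hΔ' hs)
    (fun M' hM' hs => by
      rw [sum9] at hΔ'
      rw [ms9']
      exact EMc hm1 hM' o1 o2 o3 o4 o5 o6 o7 o8 h1 h2 h8m h7m hΔ' hs)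
    (by rw [card_TF, ← hcomm, ← hC, ← hN]; omega)
    (by
      have g1 : 16 * m ≤ d := by omega
      calc 2 ^ 24 * m ^ 2 = 1048576 * m * (16 * m) := by ring
        _ ≤ 1048576 * m * d := Nat.mul_le_mul_left _ g1) hbig
  rw [← hcomm] at key
  have hEx : Ex (TF d) (fam (ms u + G)) := by
    unfold Ex
    rw [cond_eq, ms_fam]
    exact key
  exact ⟨fun hc => Emp_of_Ex hEx (by rw [cond_eq, ms_fam]; exact hc),
    fun hc => Sur_of_Ex hEx (by rw [cond_eq, ms_fam]; exact hc)⟩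

end Pool.Agent.K6.H83.HN
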