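import Pool.Agent.K6.H83.HN.MainS
import Pool.Agent.K6.H83.HN.ThinX
import Pool.Agent.W609.T.Five
import Pool.Agent.Results.MP_6b2d39_ag.NineArbitraryMultiplicities

/-! The expected dimension: nine arbitrary multiplicities, Cremona reduced, arbitrary bounded
multiplicities, large degree. -/

set_option autoImplicit false

namespace Pool.Agent.K6.H83.HN

open Finset Pool.Agent.TH176.Nag Pool.Agent.TH603.Sur Pool.Agent.TH641.UM Pool.Agent.TH2.NU
  Pool.Agent.H932R3 Pool.Agent.Y205.FW Pool.Agent.K6.H83.QH Pool.Agent.K6.H83.HX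

/-- the expected dimension for the points outside a hypersurface with complex coefficients -/
def GenExp {n : ℕ} (v : Fin n → ℕ) (d : ℕ) : Prop :=
  ∃ F : MvPolynomial (Fin n × Fin 2) ℂ, F ≠ 0 ∧ ∀ P : Fin n → Fin 2 → ℂ,
    MvPolynomial.eval (fun ij : Fin n × Fin 2 => P ij.1 ij.2) F ≠ 0 →
      Pool.Agent.H932R3.ExpDim ℂ v P d

theorem genExp_of_rat {n : ℕ} {v : Fin n → ℕ} {d : ℕ}
    (h : ∃ F : MvPolynomial (Fin n × Fin 2) ℚ, F ≠ 0 ∧ ∀ P : Fin n → Fin 2 → ℂ,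
      MvPolynomial.aeval (fun ij : Fin n × Fin 2 => P ij.1 ij.2) F ≠ 0 →
        Pool.Agent.H932R3.ExpDim ℂ v P d) : GenExp v d := by
  obtain ⟨F, hF, h⟩ := h
  refine ⟨F.map (algebraMap ℚ ℂ), map_ne_zero_of hF, fun P hP => ?_⟩
  rw [MvPolynomial.eval_map] at hP
  exact h P hP

open Pool.Agent.Results.MP_6b2d39_ag.NineArbitraryMultiplicities in
theorem genExp_of_nonspecial {n : ℕ} {v : Fin n → ℕ} {d : ℕ} (h : Nonspecial d v) :
    GenExp v d := by
  obtain ⟨F, hF, h⟩ := h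
  refine ⟨F, hF, fun P hP => ?_⟩
  have h1 : ¬ Pool.Agent.TH167.SHDefs.Special P d v := h P hP
  unfold Pool.Agent.TH167.SHDefs.Special Pool.Agent.TH167.SHDefs.dimL
    Pool.Agent.TH167.SHDefs.virtdim at h1
  rw [not_not] at h1
  show Module.finrank ℂ ↥(Pool.Agent.TH167.SHDefs.sys P d v) =
    Nat.choose (d + 2) 2 - ∑ i, Nat.choose (v i + 1) 2
  have h2 : (∑ i, ((v i + 1).choose 2 : ℤ)) = ((∑ i, (v i + 1).choose 2 : ℕ) : ℤ) := by
    push_cast; rfl
  rw [h2] at h1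
  generalize Module.finrank ℂ ↥(Pool.Agent.TH167.SHDefs.sys P d v) = f at h1 ⊢
  generalize (∑ i, (v i + 1).choose 2 : ℕ) = C at h1 ⊢
  generalize (d + 2).choose 2 = N at h1 ⊢
  rcases max_cases ((N : ℤ) - 1 - C) (-1) with ⟨h3, h4⟩ | ⟨h3, h4⟩ <;> rw [h3] at h1 <;> omega

/-- the first point is very large -/
theorem five_num {d m v0 v1 v2 : ℕ} (hm : 1 ≤ m) (h1 : v0 + v1 + v2 ≤ d)
    (h3 : 2 ^ 156 * m ^ 8 ≤ d) :
    131072 * (4 * (2 ^ 16 * m) ^ 2 + 8 * (2 ^ 16 * m) + 5) ^ 4 +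
      (v0 * (v0 + 1) + v1 * (v1 + 1) + v2 * (v2 + 1)) ≤ (d + 1) * (d + 2) := by
  have hM : 65536 ≤ 2 ^ 16 * m := by
    have : (2 : ℕ) ^ 16 = 65536 := by norm_num
    rw [this]
    omega
  have e1 : (2 ^ 16 * m) ^ 8 = 2 ^ 128 * m ^ 8 := by ring
  obtain ⟨M, hM'⟩ : ∃ M, M = 2 ^ 16 * m := ⟨_, rfl⟩
  rw [← hM'] at hM e1 ⊢
  have a1 : 4 * M ^ 2 + 8 * M + 5 ≤ 5 * M ^ 2 := by nlinarith
  have a2 : (4 * M ^ 2 + 8 * M + 5) ^ 4 ≤ (5 * M ^ 2) ^ 4 := Nat.pow_le_pow_left a1 4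
  have a3 : (5 * M ^ 2) ^ 4 = 625 * (2 ^ 128 * m ^ 8) := by rw [← e1]; ring
  have a4 : 131072 * (4 * M ^ 2 + 8 * M + 5) ^ 4 ≤ 2 * d := by
    calc 131072 * (4 * M ^ 2 + 8 * M + 5) ^ 4 ≤ 131072 * (625 * (2 ^ 128 * m ^ 8)) := by
          rw [← a3]; exact Nat.mul_le_mul_left _ a2
      _ = (131072 * 625 * 2 ^ 128) * m ^ 8 := by ring
      _ ≤ 2 ^ 156 * m ^ 8 := Nat.mul_le_mul_right _ (by norm_num)
      _ ≤ 2 * d := by omega
  obtain ⟨k, hk⟩ : ∃ k, d = v0 + v1 + v2 + k := ⟨d - (v0 + v1 + v2), by omega⟩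
  have a5 : 2 * d + (v0 * (v0 + 1) + v1 * (v1 + 1) + v2 * (v2 + 1)) ≤ (d + 1) * (d + 2) := by
    rw [hk]
    have e : (v0 + v1 + v2 + k + 1) * (v0 + v1 + v2 + k + 2) =
        2 * (v0 + v1 + v2 + k) + (v0 * (v0 + 1) + v1 * (v1 + 1) + v2 * (v2 + 1)) +
          (2 * v0 * v1 + 2 * v0 * v2 + 2 * v1 * v2 + 2 * (v0 + v1 + v2) * k + k * k + k + 2) := by
      ring
    rw [e]
    exact Nat.le_add_right _ _
  omega

/-- **Nine arbitrary multiplicities, Cremona reduced.** -/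
theorem mainT {r : ℕ} {v : Fin (r + 10) → ℕ} (hv : Antitone v) {d : ℕ}
    (h1 : v 0 + v 1 + v 2 ≤ d)
    (h2 : v 1 + v 2 + v 7 + 2 ^ 16 * (v 9 + 1) ≤ d ∨
      (∑ i : Fin (r + 10), if (i : ℕ) < 9 then v i else 0) + 2 ^ 27 * (v 9 + 1) ^ 2 ≤ 3 * d)
    (h3 : 2 ^ 156 * (v 9 + 1) ^ 8 ≤ d) : GenExp v d := by
  classical
  have hm1 : 1 ≤ v 9 + 1 := Nat.le_add_left _ _
  have n9 : ((9 : Fin (r + 10)) : ℕ) = 9 := rfl
  have n1 : ((1 : Fin (r + 10)) : ℕ) = 1 := rfl
  have n2 : ((2 : Fin (r + 10)) : ℕ) = 2 := rfl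
  have hfst : (∑ i : Fin (r + 10), if (i : ℕ) < 9 then v i else 0) = ∑ i, fst9 v i := by
    rw [sum_nine, add_comm, Finset.sum_eq_zero, zero_add]
    · refine Finset.sum_congr rfl fun i _ => if_pos ?_
      exact i.2
    · intro i _
      refine if_neg ?_
      show ¬ (i : ℕ) + 9 < 9
      omega
  have hpow : ∀ k : ℕ, k ≤ 8 → (v 9 + 1) ^ k ≤ (v 9 + 1) ^ 8 := fun k hk =>
    Nat.pow_le_pow_right hm1 hk
  by_cases hS : (∑ i : Fin (r + 1), v ⟨i + 9, by omega⟩) ≤ 2 ^ 32 * (v 9 + 1) ^ 2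
  · -- few other conditions
    refine genExp_of_nonspecial
      (Pool.Agent.Results.MP_6b2d39_ag.NineArbitraryMultiplicities.result.1 (r + 10)
        (univ.filter fun i : Fin (r + 10) => (i : ℕ) < 9) ?_ d v (2 ^ 32 * (v 9 + 1) ^ 2) ?_ ?_ ?_)
    · rw [Finset.card_filter, sum_nine]
      rw [Finset.sum_eq_card_nsmul (b := 1) (s := (univ : Finset (Fin 9))) (fun i _ => if_pos i.2),
        Finset.sum_eq_zero (s := (univ : Finset (Fin (r + 1))))]
      · simp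
      · intro i _
        refine if_neg ?_
        show ¬ (i : ℕ) + 9 < 9
        omega
    · intro i j l hij hil hjl
      have hval : ∀ a : Fin (r + 10), v a ≤ v 0 := fun a => hv (Fin.zero_le _)
      have hval1 : ∀ a : Fin (r + 10), 1 ≤ (a : ℕ) → v a ≤ v 1 := fun a ha => hv (by
        rw [Fin.le_def, n1]; exact ha)
      have hval2 : ∀ a : Fin (r + 10), 2 ≤ (a : ℕ) → v a ≤ v 2 := fun a ha => hv (by
        rw [Fin.le_def, n2]; exact ha)
      have d1 : (i : ℕ) ≠ j := fun h => hij (Fin.ext h)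
      have d2 : (i : ℕ) ≠ l := fun h => hil (Fin.ext h)
      have d3 : (j : ℕ) ≠ l := fun h => hjl (Fin.ext h)
      have b0 := hval i
      have b1 := hval j
      have b2 := hval l
      rcases lt_or_ge (i : ℕ) j with c1 | c1 <;> rcases lt_or_ge (i : ℕ) l with c2 | c2 <;>
        rcases lt_or_ge (j : ℕ) l with c3 | c3
      · have := hval1 j (by omega); have := hval2 l (by omega); omega
      · have := hval1 l (by omega); have := hval2 j (by omega); omega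
      · omega
      · have := hval1 i (by omega); have := hval2 j (by omega); omega
      · have := hval1 i (by omega); have := hval2 l (by omega); omega
      · omega
      · have := hval1 l (by omega); have := hval2 i (by omega); omega
      · have := hval1 j (by omega); have := hval2 i (by omega); omega
    · refine le_trans (le_of_eq ?_) hS
      have : (univ.filter fun i : Fin (r + 10) => (i : ℕ) < 9)ᶜ =
          univ.filter fun i : Fin (r + 10) => ¬ (i : ℕ) < 9 := by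
        ext i; simp
      rw [this, Finset.sum_filter, sum_nine, Finset.sum_eq_zero, zero_add]
      · refine Finset.sum_congr rfl fun i _ => if_pos ?_
        show ¬ (i : ℕ) + 9 < 9
        omega
      · intro i _
        exact if_neg (not_not.2 i.2)
    · have p4 := hpow 4 (by norm_num)
      have p2 := hpow 2 (by norm_num)
      have p0 := hpow 0 (by norm_num)
      rw [pow_zero] at p0
      have e : (2 ^ 32 * (v 9 + 1) ^ 2) ^ 2 = 2 ^ 64 * (v 9 + 1) ^ 4 := by ring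
      rw [e]
      generalize (v 9 + 1) ^ 8 = A8 at *
      generalize (v 9 + 1) ^ 4 = A4 at *
      generalize (v 9 + 1) ^ 2 = A2 at *
      clear h2 hS
      have c1 : 15 * (2 ^ 64 * A4) ≤ 15 * (2 ^ 64 * A8) := by
        exact Nat.mul_le_mul_left _ (Nat.mul_le_mul_left _ p4)
      have c2 : 27 * (2 ^ 32 * A2) ≤ 27 * (2 ^ 32 * A8) := by
        exact Nat.mul_le_mul_left _ (Nat.mul_le_mul_left _ p2)
      have c3 : 15 * 1 ≤ 15 * A8 := Nat.mul_le_mul_left _ p0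
      calc 15 * (2 ^ 64 * A4) + 27 * (2 ^ 32 * A2) + 15 ≤
          15 * (2 ^ 64 * A8) + 27 * (2 ^ 32 * A8) + 15 * A8 := by omega
        _ = (15 * 2 ^ 64 + 27 * 2 ^ 32 + 15) * A8 := by ring
        _ < (2 * 2 ^ 156) * A8 := Nat.mul_lt_mul_of_pos_right (by norm_num) (by omega)
        _ = 2 * (2 ^ 156 * A8) := by ring
        _ ≤ 2 * d := Nat.mul_le_mul_left _ h3
  · push Not at hS
    by_cases ha : d < v 0 + 2 ^ 16 * (v 9 + 1)
    · -- the first point is very large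
      refine genExp_of_rat ?_
      obtain ⟨F, hF, h⟩ := Pool.Agent.W609.T.big5 ℂ (r := r + 6) (m := 2 ^ 16 * (v 9 + 1))
        (by positivity) (v := v) hv (fun i hi => by
          have h4 : v i ≤ v 1 := hv (by
            rw [Fin.le_def, n1]; omega)
          omega)
      exact ⟨F, hF, fun P hP => h P hP d h1 (Or.inl (five_num hm1 h1 h3))⟩
    · push Not at ha
      obtain ⟨G, t, hG1, hGμ, hms, hsum, hcond⟩ := decomp hv
      refine genExp_of_rat (expDim_of_XM hms ?_)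
      by_cases hb : d < v 1 + v 2 + v 7 + 2 ^ 16 * (v 9 + 1)
      · replace h2 := h2.resolve_left (not_le.2 hb)
        refine XM_thin hG1 hGμ (fst9_anti hv) h1 hb (by rw [← hfst]; exact h2) ?_
        have p1 := hpow 1 (by norm_num)
        rw [pow_one] at p1
        calc 2 ^ 40 * (v 9 + 1) ≤ 2 ^ 40 * (v 9 + 1) ^ 8 := Nat.mul_le_mul_left _ p1
          _ ≤ 2 ^ 156 * (v 9 + 1) ^ 8 := Nat.mul_le_mul_right _ (by norm_num)
          _ ≤ d := h3
      · push Not at hb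
        refine XM_nineS hG1 hGμ (fst9_anti hv) h1 ha hb ?_
        rw [← hsum]
        exact hS.le.trans (Nat.le_add_right _ _)

end Pool.Agent.K6.H83.HN
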