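import Pool.Agent.K6.H83.HN.MainS
import Pool.Agent.K6.H83.HN.ThinX
import Pool.Agent.W609.T.Five

/-! The expected dimension: nine arbitrary multiplicities, Cremona reduced, arbitrary bounded
multiplicities, without a window: degrees of quadratic (or cubic) order in the bound. -/

set_option autoImplicit false

namespace Pool.Agent.K6.H83.HN.U

open Finset Pool.Agent.TH176.Nag Pool.Agent.TH603.Sur Pool.Agent.TH641.UM Pool.Agent.TH2.NU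
  Pool.Agent.H932R3 Pool.Agent.Y205.FW Pool.Agent.K6.H83.QH Pool.Agent.K6.H83.HX

/-- the self-intersection of a standard class -/
theorem std_num {d v0 v1 v2 v3 v4 v5 v6 v7 v8 Q : ℤ} (o1 : v1 ≤ v0) (o2 : v2 ≤ v1)
    (o3 : v3 ≤ v2) (o4 : v4 ≤ v3) (o5 : v5 ≤ v4) (o6 : v6 ≤ v5) (o7 : v7 ≤ v6) (o8 : v8 ≤ v7)
    (o9 : 0 ≤ v8) (_hQ : 0 ≤ Q) (h1 : v0 + v1 + v2 ≤ d) (h2 : v0 + Q ≤ d)
    (h3 : v0 + v1 + v2 + v3 + v4 + v5 + v6 + v7 + v8 + Q ≤ 3 * d) :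
    Q * d + 3 * (v0 * v0 + v1 * v1 + v2 * v2 + v3 * v3 + v4 * v4 + v5 * v5 + v6 * v6 +
      v7 * v7 + v8 * v8) ≤ 3 * (d * d) := by
  have p0 : 0 ≤ (d - v0 - v1 - v2) * (3 * d - Q) :=
    mul_nonneg (by linarith) (by linarith)
  have p1 : 0 ≤ (v0 - v1) * (3 * (d - v0) - Q) := mul_nonneg (by linarith) (by linarith)
  have p2 : 0 ≤ (v1 - v2) * (3 * (2 * d - v0 - v1) - 2 * Q) :=
    mul_nonneg (by linarith) (by linarith)
  have p3 : 0 ≤ (v2 - v3) * (3 * (3 * d - v0 - v1 - v2) - 3 * Q) :=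
    mul_nonneg (by linarith) (by linarith)
  have p4 : 0 ≤ (v3 - v4) * (3 * (3 * d - v0 - v1 - v2 - v3) - 3 * Q) :=
    mul_nonneg (by linarith) (by linarith)
  have p5 : 0 ≤ (v4 - v5) * (3 * (3 * d - v0 - v1 - v2 - v3 - v4) - 3 * Q) :=
    mul_nonneg (by linarith) (by linarith)
  have p6 : 0 ≤ (v5 - v6) * (3 * (3 * d - v0 - v1 - v2 - v3 - v4 - v5) - 3 * Q) :=
    mul_nonneg (by linarith) (by linarith)
  have p7 : 0 ≤ (v6 - v7) * (3 * (3 * d - v0 - v1 - v2 - v3 - v4 - v5 - v6) - 3 * Q) :=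
    mul_nonneg (by linarith) (by linarith)
  have p8 : 0 ≤ (v7 - v8) * (3 * (3 * d - v0 - v1 - v2 - v3 - v4 - v5 - v6 - v7) - 3 * Q) :=
    mul_nonneg (by linarith) (by linarith)
  have p9 : 0 ≤ v8 * (3 * (3 * d - v0 - v1 - v2 - v3 - v4 - v5 - v6 - v7 - v8) - 3 * Q) :=
    mul_nonneg o9 (by linarith)
  linarith

/-- away from the boundary of the cone the difference is large, so that there is no window -/
theorem window {G : Multiset ℕ} {u : Fin 9 → ℕ} {d m : ℕ} (hm : 1 ≤ m)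
    (hG : ∀ x ∈ G, x + 1 ≤ m) (hu : Antitone u) (h1 : u 0 + u 1 + u 2 ≤ d)
    (h2 : u 0 + 2 ^ 16 * m ≤ d) (h3 : u 1 + u 2 + u 7 + 2 ^ 16 * m ≤ d)
    (h4 : 2 ^ 19 * m ^ 2 ≤ d) :
    2 ^ 32 * m ^ 2 ≤ G.sum + 2 * (((d + 2).choose 2 - cM (ms u + G)) +
      (cM (ms u + G) - (d + 2).choose 2)) := by
  by_contra hcon
  push Not at hcon
  have hGs : G.sum < 2 ^ 32 * m ^ 2 := lt_of_le_of_lt (Nat.le_add_right _ _) hcon
  obtain ⟨o1, o2, o3, o4, o5, o6, o7, o8⟩ := anti9 hu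
  have hcE : 2 * cM (ms u) = ∑ i, u i * (u i + 1) := by
    rw [← cond_eq]
    unfold Pool.Agent.TH603.Sur.cond
    rw [mul_sum]
    exact sum_congr rfl fun i _ => Pool.Agent.TH2.NU.two_choose _
  rw [sum9] at hcE
  have hG2 := twoc_le (m := m) (G := G) hG
  have hCG : cM (ms u + G) = cM (ms u) + cM G := cM_add _ _
  obtain ⟨N, hN⟩ : ∃ N, N = (d + 2).choose 2 := ⟨_, rfl⟩
  have hN2 : 2 * N = (d + 1) * (d + 2) := by
    rw [hN]
    exact Pool.Agent.TH2.NU.two_choose (d + 1)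
  rw [← hN, hCG] at hcon
  have key := std_num (d := d) (v0 := u 0) (v1 := u 1) (v2 := u 2) (v3 := u 3) (v4 := u 4)
    (v5 := u 5) (v6 := u 6) (v7 := u 7) (v8 := u 8) (Q := 65536 * m)
    (by exact_mod_cast o1) (by exact_mod_cast o2) (by exact_mod_cast o3)
    (by exact_mod_cast o4) (by exact_mod_cast o5) (by exact_mod_cast o6)
    (by exact_mod_cast o7) (by exact_mod_cast o8) (by positivity) (by positivity)
    (by exact_mod_cast h1) (by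
      have : u 0 + 65536 * m ≤ d := by omega
      exact_mod_cast this) (by
      have : u 0 + u 1 + u 2 + u 3 + u 4 + u 5 + u 6 + u 7 + u 8 + 65536 * m ≤ 3 * d := by omega
      exact_mod_cast this)
  have e1 : (2 * cM (ms u) : ℤ) = u 0 * (u 0 + 1) + u 1 * (u 1 + 1) + u 2 * (u 2 + 1) +
      u 3 * (u 3 + 1) + u 4 * (u 4 + 1) + u 5 * (u 5 + 1) + u 6 * (u 6 + 1) +
      u 7 * (u 7 + 1) + u 8 * (u 8 + 1) := by exact_mod_cast hcE
  have e2 : (2 * N : ℤ) = (d + 1) * (d + 2) := by exact_mod_cast hN2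
  obtain ⟨S, hS⟩ : ∃ S, S = G.sum := ⟨_, rfl⟩
  rw [← hS] at hG2 hGs hcon
  have e3 : (2 * cM G : ℤ) ≤ m * S := by exact_mod_cast hG2
  have e4 : (S : ℤ) ≤ 4294967296 * m ^ 2 := by
    have : S ≤ 2 ^ 32 * m ^ 2 := hGs.le
    have h := (Nat.cast_le (α := ℤ)).2 this
    push_cast at h
    linarith
  have e5 : (N : ℤ) - (cM (ms u) + cM G) ≤ 2147483648 * m ^ 2 := by
    have h6 : 2 * (N - (cM (ms u) + cM G)) < 2 ^ 32 * m ^ 2 := by omega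
    have h7 : 2 * N ≤ 2 * (cM (ms u) + cM G) + 2 ^ 32 * m ^ 2 := by omega
    have h8 : ((2 * N : ℕ) : ℤ) ≤ ((2 * (cM (ms u) + cM G) + 2 ^ 32 * m ^ 2 : ℕ) : ℤ) := by
      exact_mod_cast h7
    push_cast at h8
    linarith
  have e6 : (524288 : ℤ) * m ^ 2 ≤ d := by
    have h := (Nat.cast_le (α := ℤ)).2 h4
    push_cast at h
    linarith
  have hmZ : (1 : ℤ) ≤ m := by exact_mod_cast hm
  have e7 : (m : ℤ) * (524288 * m ^ 2) ≤ m * d := mul_le_mul_of_nonneg_left e6 (by linarith)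
  have e8 : (m : ℤ) * S ≤ m * (4294967296 * m ^ 2) :=
    mul_le_mul_of_nonneg_left e4 (by linarith)
  have e9 : (u 0 : ℤ) + u 1 + u 2 + u 3 + u 4 + u 5 + u 6 + u 7 + u 8 ≤ 3 * d := by
    have : u 0 + u 1 + u 2 + u 3 + u 4 + u 5 + u 6 + u 7 + u 8 ≤ 3 * d := by omega
    exact_mod_cast this
  have e10 : (m : ℤ) ^ 2 ≤ m * m ^ 2 := le_mul_of_one_le_left (sq_nonneg _) hmZ
  linarith

/-- the first point is very large -/
theorem three_num {d m v0 v1 v2 v3 : ℕ} (_h10 : v1 ≤ v0) (h21 : v2 ≤ v1) (h32 : v3 ≤ v2)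
    (hm : 1 ≤ m) (h1 : v0 + v1 + v2 ≤ d) (h2 : d < v0 + 2 ^ 16 * m) (h3 : 2 ^ 61 * m ^ 3 ≤ d) :
    131072 * (v3 + 1) ^ 4 + (v0 * (v0 + 1) + v1 * (v1 + 1) + v2 * (v2 + 1)) ≤
      (d + 1) * (d + 2) := by
  have a1 : v3 + 1 ≤ 2 ^ 15 * m := by omega
  have a2 : (v3 + 1) ^ 3 ≤ 2 ^ 45 * m ^ 3 := by
    calc (v3 + 1) ^ 3 ≤ (2 ^ 15 * m) ^ 3 := Nat.pow_le_pow_left a1 3
      _ = 2 ^ 45 * m ^ 3 := by ring
  have a3 : 65536 * (v3 + 1) ^ 3 ≤ d := by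
    refine le_trans ?_ h3
    calc 65536 * (v3 + 1) ^ 3 ≤ 65536 * (2 ^ 45 * m ^ 3) := Nat.mul_le_mul_left _ a2
      _ = 2 ^ 61 * m ^ 3 := by ring
  have a4 : 131072 * (v3 + 1) ^ 4 ≤ 2 * d * (v3 + 1) := by
    calc 131072 * (v3 + 1) ^ 4 = 2 * (65536 * (v3 + 1) ^ 3) * (v3 + 1) := by ring
      _ ≤ 2 * d * (v3 + 1) := Nat.mul_le_mul_right _ (Nat.mul_le_mul_left _ a3)
  have a5 : 2 ^ 61 * m ≤ d := by
    refine le_trans ?_ h3
    refine Nat.mul_le_mul_left _ ?_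
    calc m = m ^ 1 := (pow_one m).symm
      _ ≤ m ^ 3 := Nat.pow_le_pow_right hm (by norm_num)
  have a6 : d ≤ 2 * v0 := by omega
  obtain ⟨k, hk⟩ : ∃ k, d = v0 + v1 + v2 + k := ⟨d - (v0 + v1 + v2), by omega⟩
  have a7 : 2 * d * (v3 + 1) ≤ 2 * d + 2 * v0 * v1 + 2 * v0 * v2 := by
    have b1 : d * v3 ≤ v0 * (v1 + v2) := by
      calc d * v3 ≤ 2 * v0 * v3 := Nat.mul_le_mul_right _ a6
        _ = v0 * (v3 + v3) := by ring
        _ ≤ v0 * (v1 + v2) := Nat.mul_le_mul_left _ (by omega)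
    nlinarith
  have a8 : 2 * d + 2 * v0 * v1 + 2 * v0 * v2 +
      (v0 * (v0 + 1) + v1 * (v1 + 1) + v2 * (v2 + 1)) ≤ (d + 1) * (d + 2) := by
    rw [hk]
    have e : (v0 + v1 + v2 + k + 1) * (v0 + v1 + v2 + k + 2) =
        2 * (v0 + v1 + v2 + k) + 2 * v0 * v1 + 2 * v0 * v2 +
          (v0 * (v0 + 1) + v1 * (v1 + 1) + v2 * (v2 + 1)) +
          (2 * v1 * v2 + 2 * (v0 + v1 + v2) * k + k * k + k + 2) := by
      ring
    rw [e]
    exact Nat.le_add_right _ _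
  omega

/-- from exactness to the expected dimension, all degrees with a property -/
theorem engineU {r : ℕ} {v : Fin (r + 10) → ℕ} (hv : Antitone v) (p : ℕ → Prop)
    (hX : ∀ G : Multiset ℕ, (∀ x ∈ G, 1 ≤ x) → (∀ x ∈ G, x ≤ v 9) → ∀ d, p d →
      XM (TF d) (ms (fst9 v) + G)) :
    ∃ F : MvPolynomial (Fin (r + 10) × Fin 2) ℚ, F ≠ 0 ∧ ∀ P : Fin (r + 10) → Fin 2 → ℂ,
      MvPolynomial.aeval (fun ij : Fin (r + 10) × Fin 2 => P ij.1 ij.2) F ≠ 0 →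
        ∀ d : ℕ, p d → Pool.Agent.H932R3.ExpDim ℂ v P d := by
  obtain ⟨G, t, hG1, hGμ, hms, hsum, hcond⟩ := decomp hv
  obtain ⟨C, hC⟩ : ∃ C, C = Pool.Agent.TH603.Sur.cond v := ⟨_, rfl⟩
  obtain ⟨F, hF, h⟩ := expDim_two (w := v)
    (A := fun d => p d ∧ (d + 2).choose 2 ≤ C)
    (B := fun d => p d ∧ C ≤ (d + 2).choose 2) C (fun d hd => by
      have h1 : (d + 2).choose 2 = (d + 1) * (d + 2) / 2 := by
        rw [Nat.choose_two_right]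
        congr 1
        rw [mul_comm]
        rfl
      have h2 : d ≤ (d + 1) * (d + 2) / 2 := by
        rw [Nat.le_div_iff_mul_le (by norm_num)]
        nlinarith
      have h3 := hd.2
      omega)
    (fun d hd => (of_XM hms (hX G hG1 hGμ d hd.1)).1 (by rw [← hC]; exact hd.2))
    (fun d hd => (of_XM hms (hX G hG1 hGμ d hd.1)).2 (by rw [← hC]; exact hd.2))
  refine ⟨F, hF, fun P hP d hd => h P hP d ?_⟩
  rcases le_total ((d + 2).choose 2) C with h4 | h4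
  · exact Or.inl ⟨hd, h4⟩
  · exact Or.inr ⟨hd, h4⟩

/-- **Nine arbitrary multiplicities, Cremona reduced, no window.** -/
theorem mainU {r : ℕ} {v : Fin (r + 10) → ℕ} (hv : Antitone v) :
    ∃ F : MvPolynomial (Fin (r + 10) × Fin 2) ℚ, F ≠ 0 ∧ ∀ P : Fin (r + 10) → Fin 2 → ℂ,
      MvPolynomial.aeval (fun ij : Fin (r + 10) × Fin 2 => P ij.1 ij.2) F ≠ 0 →
        ∀ d : ℕ, v 0 + v 1 + v 2 ≤ d →
          ((v 0 + 2 ^ 16 * (v 9 + 1) ≤ d ∧ v 1 + v 2 + v 7 + 2 ^ 16 * (v 9 + 1) ≤ d ∧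
              2 ^ 19 * (v 9 + 1) ^ 2 ≤ d) ∨
            (v 0 + 2 ^ 16 * (v 9 + 1) ≤ d ∧ 2 ^ 40 * (v 9 + 1) ≤ d ∧
              (∑ i : Fin (r + 10), if (i : ℕ) < 9 then v i else 0) +
                2 ^ 27 * (v 9 + 1) ^ 2 ≤ 3 * d) ∨
            (d < v 0 + 2 ^ 16 * (v 9 + 1) ∧ 2 ^ 61 * (v 9 + 1) ^ 3 ≤ d)) →
          Pool.Agent.H932R3.ExpDim ℂ v P d := by
  classical
  have hm1 : 1 ≤ v 9 + 1 := Nat.le_add_left _ _
  have n3 : ((3 : Fin (r + 10)) : ℕ) = 3 := rfl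
  have n1 : ((1 : Fin (r + 10)) : ℕ) = 1 := rfl
  have n2 : ((2 : Fin (r + 10)) : ℕ) = 2 := rfl
  have hfst : (∑ i : Fin (r + 10), if (i : ℕ) < 9 then v i else 0) = ∑ i, fst9 v i := by
    rw [sum_nine, add_comm, Finset.sum_eq_zero, zero_add]
    · refine Finset.sum_congr rfl fun i _ => if_pos ?_
      exact i.2
    · intro i _
      refine if_neg ?_
      show ¬ (i : ℕ) + 9 < 9
      omega
  -- the first point is very large
  obtain ⟨F1, hF1, h1⟩ : ∃ F : MvPolynomial (Fin (r + 10) × Fin 2) ℚ, F ≠ 0 ∧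
      ∀ P : Fin (r + 10) → Fin 2 → ℂ,
      MvPolynomial.aeval (fun ij : Fin (r + 10) × Fin 2 => P ij.1 ij.2) F ≠ 0 →
        ∀ d : ℕ, v 0 + v 1 + v 2 ≤ d → d < v 0 + 2 ^ 16 * (v 9 + 1) →
          2 ^ 61 * (v 9 + 1) ^ 3 ≤ d → Pool.Agent.H932R3.ExpDim ℂ v P d := by
    rcases Nat.eq_zero_or_pos (v 3) with h0 | h0
    · obtain ⟨F, hF, hF'⟩ := Pool.Agent.W609.T.big_three ℂ (r := r + 6) (v := v) hv h0
      exact ⟨F, hF, fun P hP d hd _ _ => hF' P hP d hd⟩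
    · obtain ⟨F, hF, hF'⟩ := Pool.Agent.W609.T.big3' ℂ (r := r + 6) (v := v) hv h0
      refine ⟨F, hF, fun P hP d hd h2 h3 => hF' P hP d hd (Or.inl ?_)⟩
      exact three_num (hv (by rw [Fin.le_def, n1]; exact Nat.zero_le _))
        (hv (by rw [Fin.le_def, n1, n2]; omega)) (hv (by rw [Fin.le_def, n2, n3]; omega))
        hm1 hd h2 h3
  obtain ⟨F2, hF2, h2⟩ := engineU hv (fun d => v 0 + v 1 + v 2 ≤ d ∧
      v 0 + 2 ^ 16 * (v 9 + 1) ≤ d ∧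
      ((v 1 + v 2 + v 7 + 2 ^ 16 * (v 9 + 1) ≤ d ∧ 2 ^ 19 * (v 9 + 1) ^ 2 ≤ d) ∨
        (2 ^ 40 * (v 9 + 1) ≤ d ∧
          (∑ i : Fin (r + 10), if (i : ℕ) < 9 then v i else 0) +
            2 ^ 27 * (v 9 + 1) ^ 2 ≤ 3 * d))) (by
    rintro G hG1 hGμ d ⟨g1, g2, g3⟩
    have key : v 1 + v 2 + v 7 + 2 ^ 16 * (v 9 + 1) ≤ d → 2 ^ 19 * (v 9 + 1) ^ 2 ≤ d →
        XM (TF d) (ms (fst9 v) + G) := fun k1 k2 =>
      XM_nineS hG1 hGμ (fst9_anti hv) g1 g2 k1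
        (window hm1 (fun x hx => Nat.succ_le_succ (hGμ x hx)) (fst9_anti hv) g1 g2 k1 k2)
    rcases g3 with ⟨g3, g4⟩ | ⟨g3, g4⟩
    · exact key g3 g4
    · rcases lt_or_ge d (v 1 + v 2 + v 7 + 2 ^ 16 * (v 9 + 1)) with hb | hb
      · exact XM_thin hG1 hGμ (fst9_anti hv) g1 hb (by rw [← hfst]; exact g4) g3
      · refine key hb ?_
        generalize (v 9 + 1) ^ 2 = A at g4 ⊢
        omega)
  refine ⟨F1 * F2, mul_ne_zero hF1 hF2, fun P hP d hd h => ?_⟩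
  rw [map_mul] at hP
  have hP1 := left_ne_zero_of_mul hP
  have hP2 := right_ne_zero_of_mul hP
  rcases h with ⟨a1, a2, a3⟩ | ⟨a1, a2, a3⟩ | ⟨a1, a2⟩
  · exact h2 P hP2 d ⟨hd, a1, Or.inl ⟨a2, a3⟩⟩
  · exact h2 P hP2 d ⟨hd, a1, Or.inr ⟨a2, a3⟩⟩
  · exact h1 P hP1 d hd a1 a2

end Pool.Agent.K6.H83.HN.U
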