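import Pool.Agent.K6.H83.HN.ShelfX

/-! The expected dimension: nine arbitrary multiplicities and `K` shelves of five arbitrary
multiplicities, arbitrary bounded multiplicities. -/

set_option autoImplicit false

namespace Pool.Agent.K6.H83.HN.V

open Finset Pool.Agent.TH176.Nag Pool.Agent.TH603.Sur Pool.Agent.TH641.UM Pool.Agent.TH2.NU
  Pool.Agent.H932R3 Pool.Agent.Y205.FW Pool.Agent.K6.H83.QH Pool.Agent.K6.H83.HX

/-- the decomposition of the multiplicities: the first ones, the other positive ones, zeros -/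
theorem decompV {v : ℕ → ℕ} (hv : Antitone v) {s n : ℕ} (hs : s ≤ n) :
    ∃ (G : Multiset ℕ) (t : ℕ), (∀ x ∈ G, 1 ≤ x) ∧ (∀ x ∈ G, x ≤ v s) ∧
      ms (fun i : Fin n => v i) = ((Multiset.range s).map v + G) + 0 • {1} + t • {0} ∧
      (∑ i ∈ Finset.Ico s n, v i) = G.sum ∧
      Pool.Agent.TH603.Sur.cond (fun i : Fin n => v i) = cM ((Multiset.range s).map v + G) := by
  classical
  obtain ⟨q, rfl⟩ := Nat.exists_eq_add_of_le hs
  obtain ⟨W, hW⟩ : ∃ W : Multiset ℕ, W = (Multiset.range q).map fun j => v (s + j) := ⟨_, rfl⟩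
  have hmv : ms (fun i : Fin (s + q) => v i) = (Multiset.range s).map v + W := by
    rw [ms_range, Multiset.range_add, Multiset.map_add, Multiset.map_map, hW]
    rfl
  have hWs : (∑ i ∈ Finset.Ico s (s + q), v i) = W.sum := by
    rw [Finset.sum_Ico_eq_sum_range, Nat.add_sub_cancel_left, hW]
    rfl
  obtain ⟨G, hG⟩ : ∃ G : Multiset ℕ, G = W.filter fun x => 1 ≤ x := ⟨_, rfl⟩
  obtain ⟨t, ht⟩ : ∃ t : ℕ, W.filter (fun x => ¬ 1 ≤ x) = t • ({0} : Multiset ℕ) := by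
    refine ⟨(W.filter (fun x => ¬ 1 ≤ x)).card, ?_⟩
    rw [Multiset.nsmul_singleton]
    refine Multiset.eq_replicate_card.2 fun x hx => ?_
    have := (Multiset.mem_filter.1 hx).2
    omega
  have hmw : W = G + t • {0} := by
    rw [hG, ← ht]
    exact (Multiset.filter_add_not _ _).symm
  have hms : ms (fun i : Fin (s + q) => v i) =
      ((Multiset.range s).map v + G) + 0 • {1} + t • {0} := by
    rw [hmv, hmw, zero_smul]
    abel
  refine ⟨G, t, fun x hx => ?_, fun x hx => ?_, hms, ?_, ?_⟩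
  · rw [hG] at hx
    exact (Multiset.mem_filter.1 hx).2
  · rw [hG, hW] at hx
    obtain ⟨j, -, hj⟩ := Multiset.mem_map.1 (Multiset.mem_filter.1 hx).1
    rw [← hj]
    exact hv (Nat.le_add_right _ _)
  · rw [hWs, hmw, Multiset.sum_add, Multiset.sum_nsmul]
    simp
  · rw [cond_eq, hms, cM_add, cM_add, cM_smul, cM_smul]
    simp

/-- exactness of the multiset without zeros gives emptiness and independence -/
theorem of_XMV {n : ℕ} {w : Fin n → ℕ} {M : Multiset ℕ} {t d : ℕ}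
    (hms : ms w = M + 0 • {1} + t • {0}) (h : XM (TF d) M) :
    ((d + 2).choose 2 ≤ Pool.Agent.TH603.Sur.cond w → Emp w (TZ d)) ∧
      (Pool.Agent.TH603.Sur.cond w ≤ (d + 2).choose 2 → Sur w (TZ d)) := by
  have h1 : XM (TF d) (M + 0 • {1} + t • {0}) := XM_ones h
  unfold XM at h1
  rw [coe_TF, card_TF, ← hms, ← cond_eq, EM_iff rfl, SM_iff rfl] at h1
  exact h1

/-- from exactness to the expected dimension, all degrees with a property and those below a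
degree with the property in which there are enough conditions -/
theorem engineV {n : ℕ} {w : Fin n → ℕ} {M : Multiset ℕ} {t : ℕ}
    (hms : ms w = M + 0 • {1} + t • {0}) (p : ℕ → Prop) (hX : ∀ d, p d → XM (TF d) M) :
    ∃ F : MvPolynomial (Fin n × Fin 2) ℚ, F ≠ 0 ∧ ∀ P : Fin n → Fin 2 → ℂ,
      MvPolynomial.aeval (fun ij : Fin n × Fin 2 => P ij.1 ij.2) F ≠ 0 →
        ∀ d : ℕ, (p d ∨ ∃ D, d ≤ D ∧ p D ∧
          (D + 2).choose 2 ≤ Pool.Agent.TH603.Sur.cond w) →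
          Pool.Agent.H932R3.ExpDim ℂ w P d := by
  obtain ⟨C, hC⟩ : ∃ C, C = Pool.Agent.TH603.Sur.cond w := ⟨_, rfl⟩
  obtain ⟨F, hF, h⟩ := expDim_two (w := w)
    (A := fun d => ∃ D, d ≤ D ∧ p D ∧ (D + 2).choose 2 ≤ C)
    (B := fun d => p d ∧ C ≤ (d + 2).choose 2) C (fun d hd => by
      obtain ⟨D, g1, g2, g3⟩ := hd
      have h1 : (D + 2).choose 2 = (D + 1) * (D + 2) / 2 := by
        rw [Nat.choose_two_right]
        congr 1
        rw [mul_comm]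
        rfl
      have h2 : D ≤ (D + 1) * (D + 2) / 2 := by
        rw [Nat.le_div_iff_mul_le (by norm_num)]
        nlinarith
      omega)
    (fun d hd => by
      obtain ⟨D, g1, g2, g3⟩ := hd
      exact Emp.mono ((of_XMV hms (hX D g2)).1 (by rw [← hC]; exact g3))
        (Pool.Agent.TH745.MN.TZ_mono g1))
    (fun d hd => (of_XMV hms (hX d hd.1)).2 (by rw [← hC]; exact hd.2))
  refine ⟨F, hF, fun P hP d hd => h P hP d ?_⟩
  rw [← hC] at hd
  rcases hd with hd | hd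
  · rcases le_total ((d + 2).choose 2) C with h4 | h4
    · exact Or.inl ⟨d, le_rfl, hd, h4⟩
    · exact Or.inr ⟨hd, h4⟩
  · exact Or.inl hd

/-- **Nine arbitrary multiplicities and `K` shelves, one `K`.** -/
theorem mainK {n K : ℕ} {v : ℕ → ℕ} (hv : Antitone v) (hn : 9 + 5 * K < n) :
    ∃ F : MvPolynomial (Fin n × Fin 2) ℚ, F ≠ 0 ∧ ∀ P : Fin n → Fin 2 → ℂ,
      MvPolynomial.aeval (fun ij : Fin n × Fin 2 => P ij.1 ij.2) F ≠ 0 →
        ∀ D : ℕ, v 0 + v 1 + v 2 +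
            (∑ k ∈ Finset.range K, (v (9 + 5 * k) + 2 ^ 13 * (v (9 + 5 * K) + 1))) ≤ D →
          v 0 + 2 ^ 16 * (v (9 + 5 * K) + 1) +
            (∑ k ∈ Finset.range K, (v (9 + 5 * k) + 2 ^ 13 * (v (9 + 5 * K) + 1))) ≤ D →
          v 1 + v 2 + v 7 + 2 ^ 16 * (v (9 + 5 * K) + 1) +
            (∑ k ∈ Finset.range K, (v (9 + 5 * k) + 2 ^ 13 * (v (9 + 5 * K) + 1))) ≤ D →
          (2 ^ 19 * (K + 1) * (v (9 + 5 * K) + 1) ^ 2 +
            (∑ k ∈ Finset.range K, (v (9 + 5 * k) + 2 ^ 13 * (v (9 + 5 * K) + 1))) ≤ D ∨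
            2 ^ 32 * (K + 1) * (v (9 + 5 * K) + 1) ^ 2 ≤ (∑ i ∈ Finset.Ico (9 + 5 * K) n, v i) +
              2 * (((D + 2).choose 2 - ∑ i ∈ Finset.range n, (v i + 1).choose 2) +
              ((∑ i ∈ Finset.range n, (v i + 1).choose 2) - (D + 2).choose 2))) →
          ∀ d : ℕ, (d = D ∨ (d ≤ D ∧ (D + 2).choose 2 ≤
            ∑ i ∈ Finset.range n, (v i + 1).choose 2)) →
          Pool.Agent.H932R3.ExpDim ℂ (fun i : Fin n => v i) P d := by
  obtain ⟨G, t, hG1, hGμ, hms, hsum, hcond⟩ := decompV hv hn.le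
  obtain ⟨s, hs⟩ : ∃ s, s = 9 + 5 * K := ⟨_, rfl⟩
  obtain ⟨Sg, hSg⟩ : ∃ x, x =
    ∑ k ∈ Finset.range K, (v (9 + 5 * k) + 2 ^ 13 * (v (9 + 5 * K) + 1)) := ⟨_, rfl⟩
  have hC : ∑ i ∈ Finset.range n, (v i + 1).choose 2 =
      Pool.Agent.TH603.Sur.cond (fun i : Fin n => v i) := by
    unfold Pool.Agent.TH603.Sur.cond
    exact (Fin.sum_univ_eq_sum_range (fun i => (v i + 1).choose 2) n).symm
  rw [← hSg, hC, hsum]
  obtain ⟨F, hF, h⟩ := engineV hms (fun D => v 0 + v 1 + v 2 + Sg ≤ D ∧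
      v 0 + 2 ^ 16 * (v (9 + 5 * K) + 1) + Sg ≤ D ∧
      v 1 + v 2 + v 7 + 2 ^ 16 * (v (9 + 5 * K) + 1) + Sg ≤ D ∧
      (2 ^ 19 * (K + 1) * (v (9 + 5 * K) + 1) ^ 2 + Sg ≤ D ∨
        2 ^ 32 * (K + 1) * (v (9 + 5 * K) + 1) ^ 2 ≤ G.sum +
          2 * (((D + 2).choose 2 - cM ((Multiset.range (9 + 5 * K)).map v + G)) +
            (cM ((Multiset.range (9 + 5 * K)).map v + G) - (D + 2).choose 2))))
    (by
      rintro D ⟨g1, g2, g3, g4⟩
      obtain ⟨e, rfl⟩ : ∃ e, D = e + Sg := ⟨D - Sg, by omega⟩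
      refine XM_shelf (K := K) (d := e + Sg) (e := e) (m := v (9 + 5 * K) + 1) (Nat.succ_pos _)
        (fun x hx => ⟨hG1 x hx, Nat.succ_le_succ (hGμ x hx)⟩) hv (by omega) (by omega)
        (by omega) (by rw [hSg]) ?_
      rcases g4 with g4 | g4
      · left
        omega
      · exact Or.inr g4)
  refine ⟨F, hF, fun P hP D g1 g2 g3 g4 d hd => h P hP d ?_⟩
  rw [← hcond]
  rcases hd with rfl | ⟨hd, hd'⟩
  · exact Or.inl ⟨g1, g2, g3, g4⟩
  · exact Or.inr ⟨D, hd, ⟨g1, g2, g3, g4⟩, hd'⟩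

/-- **Nine arbitrary multiplicities and shelves of five.** -/
theorem mainV {n : ℕ} {v : ℕ → ℕ} (hv : Antitone v) :
    ∃ F : MvPolynomial (Fin n × Fin 2) ℚ, F ≠ 0 ∧ ∀ P : Fin n → Fin 2 → ℂ,
      MvPolynomial.aeval (fun ij : Fin n × Fin 2 => P ij.1 ij.2) F ≠ 0 →
        ∀ K : ℕ, 9 + 5 * K < n → ∀ D : ℕ, v 0 + v 1 + v 2 +
            (∑ k ∈ Finset.range K, (v (9 + 5 * k) + 2 ^ 13 * (v (9 + 5 * K) + 1))) ≤ D →
          v 0 + 2 ^ 16 * (v (9 + 5 * K) + 1) +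
            (∑ k ∈ Finset.range K, (v (9 + 5 * k) + 2 ^ 13 * (v (9 + 5 * K) + 1))) ≤ D →
          v 1 + v 2 + v 7 + 2 ^ 16 * (v (9 + 5 * K) + 1) +
            (∑ k ∈ Finset.range K, (v (9 + 5 * k) + 2 ^ 13 * (v (9 + 5 * K) + 1))) ≤ D →
          (2 ^ 19 * (K + 1) * (v (9 + 5 * K) + 1) ^ 2 +
            (∑ k ∈ Finset.range K, (v (9 + 5 * k) + 2 ^ 13 * (v (9 + 5 * K) + 1))) ≤ D ∨
            2 ^ 32 * (K + 1) * (v (9 + 5 * K) + 1) ^ 2 ≤ (∑ i ∈ Finset.Ico (9 + 5 * K) n, v i) +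
              2 * (((D + 2).choose 2 - ∑ i ∈ Finset.range n, (v i + 1).choose 2) +
              ((∑ i ∈ Finset.range n, (v i + 1).choose 2) - (D + 2).choose 2))) →
          ∀ d : ℕ, (d = D ∨ (d ≤ D ∧ (D + 2).choose 2 ≤
            ∑ i ∈ Finset.range n, (v i + 1).choose 2)) →
          Pool.Agent.H932R3.ExpDim ℂ (fun i : Fin n => v i) P d := by
  choose F hF h using fun K : ℕ => fun hK : 9 + 5 * K < n => mainK (K := K) hv hK
  refine ⟨∏ K ∈ (Finset.range n).attach, if hK : 9 + 5 * K.1 < n then F K.1 hK else 1,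
    ?_, fun P hP K hK => ?_⟩
  · refine Finset.prod_ne_zero_iff.2 fun K _ => ?_
    split_ifs with hK
    · exact hF _ _
    · exact one_ne_zero
  · have hKn : K ∈ Finset.range n := Finset.mem_range.2 (by omega)
    rw [map_prod] at hP
    have h1 := Finset.prod_ne_zero_iff.1 hP ⟨K, hKn⟩ (Finset.mem_attach _ _)
    rw [dif_pos hK] at h1
    exact h K hK P h1

end Pool.Agent.K6.H83.HN.V
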