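import Pool.Agent.K6.H83.HN.MainV

/-! The expected dimension: nine arbitrary multiplicities and shelves of `5 + 2 p` arbitrary
multiplicities, arbitrary bounded multiplicities. The exactness `S_SHELFW` is a hypothesis here. -/

set_option autoImplicit false

namespace Pool.Agent.K6.H83.HN.W

open Finset Pool.Agent.TH176.Nag Pool.Agent.TH603.Sur Pool.Agent.TH641.UM Pool.Agent.TH2.NU
  Pool.Agent.H932R3 Pool.Agent.Y205.FW Pool.Agent.K6.H83.QH Pool.Agent.K6.H83.HX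
  Pool.Agent.K6.H83.HN.V

/-- exactness for nine points, shelves of `5 + 2 p` points and bounded multiplicities -/
def S_SHELFW : Prop := ∀ (G : Multiset ℕ) (f s p D : ℕ → ℕ) (K m : ℕ), 1 ≤ m →
  (∀ x ∈ G, 1 ≤ x ∧ x + 1 ≤ m) → Antitone f → s 0 = 9 →
  (∀ k, k < K → s (k + 1) = s k + 5 + 2 * p k) → f 0 + f 1 + f 2 ≤ D 0 →
  f 0 + 2 ^ 16 * m ≤ D 0 → f 1 + f 2 + f 7 + 2 ^ 16 * m ≤ D 0 →
  (∀ k, k < K → D (k + 1) = D k + f (s k) + 2 ^ 13 * m) →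
  (∀ k, k < K → (p k + 2) * (f (s k) + 2 ^ 13 * m) ≤ D k) →
  (2 ^ 19 * ((∑ k ∈ Finset.range K, (p k + 1)) + 1) * m ^ 2 ≤ D 0 ∨
    2 ^ 32 * ((∑ k ∈ Finset.range K, (p k + 1)) + 1) * m ^ 2 ≤ G.sum +
      2 * (((D K + 2).choose 2 - cM ((Multiset.range (s K)).map f + G)) +
        (cM ((Multiset.range (s K)).map f + G) - (D K + 2).choose 2))) →
  XM (TF (D K)) ((Multiset.range (s K)).map f + G)

/-- the conditions on the shelves and the degrees -/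
structure Sh (v : ℕ → ℕ) (K m : ℕ) (p s D : ℕ → ℕ) : Prop where
  s0 : s 0 = 9
  ss : ∀ k, k < K → s (k + 1) = s k + 5 + 2 * p k
  d1 : v 0 + v 1 + v 2 ≤ D 0
  d2 : v 0 + 2 ^ 16 * m ≤ D 0
  d3 : v 1 + v 2 + v 7 + 2 ^ 16 * m ≤ D 0
  dd : ∀ k, k < K → D (k + 1) = D k + v (s k) + 2 ^ 13 * m
  dp : ∀ k, k < K → (p k + 2) * (v (s k) + 2 ^ 13 * m) ≤ D k

/-- **Nine arbitrary multiplicities and shelves, one number of points on the shelves.** -/
theorem mainσ (hX : S_SHELFW) {n σ : ℕ} {v : ℕ → ℕ} (hv : Antitone v) (hn : σ < n) :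
    ∃ F : MvPolynomial (Fin n × Fin 2) ℚ, F ≠ 0 ∧ ∀ P : Fin n → Fin 2 → ℂ,
      MvPolynomial.aeval (fun ij : Fin n × Fin 2 => P ij.1 ij.2) F ≠ 0 →
        ∀ (K : ℕ) (p s D : ℕ → ℕ), s K = σ → Sh v K (v σ + 1) p s D →
          (2 ^ 19 * ((∑ k ∈ Finset.range K, (p k + 1)) + 1) * (v σ + 1) ^ 2 ≤ D 0 ∨
            2 ^ 32 * ((∑ k ∈ Finset.range K, (p k + 1)) + 1) * (v σ + 1) ^ 2 ≤
              (∑ i ∈ Finset.Ico σ n, v i) +
              2 * (((D K + 2).choose 2 - ∑ i ∈ Finset.range n, (v i + 1).choose 2) +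
              ((∑ i ∈ Finset.range n, (v i + 1).choose 2) - (D K + 2).choose 2))) →
          ∀ d : ℕ, (d = D K ∨ (d ≤ D K ∧ (D K + 2).choose 2 ≤
            ∑ i ∈ Finset.range n, (v i + 1).choose 2)) →
          Pool.Agent.H932R3.ExpDim ℂ (fun i : Fin n => v i) P d := by
  obtain ⟨G, t, hG1, hGμ, hms, hsum, hcond⟩ := decompV hv hn.le
  have hC : ∑ i ∈ Finset.range n, (v i + 1).choose 2 =
      Pool.Agent.TH603.Sur.cond (fun i : Fin n => v i) := by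
    unfold Pool.Agent.TH603.Sur.cond
    exact (Fin.sum_univ_eq_sum_range (fun i => (v i + 1).choose 2) n).symm
  rw [hC, hsum]
  obtain ⟨F, hF, h⟩ := engineV hms (fun D' => ∃ (K : ℕ) (p s D : ℕ → ℕ), s K = σ ∧ D K = D' ∧
      Sh v K (v σ + 1) p s D ∧
      (2 ^ 19 * ((∑ k ∈ Finset.range K, (p k + 1)) + 1) * (v σ + 1) ^ 2 ≤ D 0 ∨
        2 ^ 32 * ((∑ k ∈ Finset.range K, (p k + 1)) + 1) * (v σ + 1) ^ 2 ≤ G.sum +
          2 * (((D' + 2).choose 2 - cM ((Multiset.range σ).map v + G)) +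
            (cM ((Multiset.range σ).map v + G) - (D' + 2).choose 2))))
    (by
      rintro D' ⟨K, p, s, D, hs, rfl, hSh, g4⟩
      have h5 := hX G v s p D K (v σ + 1) (Nat.succ_pos _)
        (fun x hx => ⟨hG1 x hx, Nat.succ_le_succ (hGμ x hx)⟩) hv hSh.s0 hSh.ss hSh.d1 hSh.d2
        hSh.d3 hSh.dd hSh.dp (by rw [hs]; exact g4)
      rwa [hs] at h5)
  refine ⟨F, hF, fun P hP K p s D hs hSh g4 d hd => h P hP d ?_⟩
  rw [← hcond]
  rcases hd with rfl | ⟨hd, hd'⟩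
  · exact Or.inl ⟨K, p, s, D, hs, rfl, hSh, g4⟩
  · exact Or.inr ⟨D K, hd, ⟨K, p, s, D, hs, rfl, hSh, g4⟩, hd'⟩

/-- **Nine arbitrary multiplicities and shelves of `5 + 2 p` points.** -/
theorem mainW (hX : S_SHELFW) {n : ℕ} {v : ℕ → ℕ} (hv : Antitone v) :
    ∃ F : MvPolynomial (Fin n × Fin 2) ℚ, F ≠ 0 ∧ ∀ P : Fin n → Fin 2 → ℂ,
      MvPolynomial.aeval (fun ij : Fin n × Fin 2 => P ij.1 ij.2) F ≠ 0 →
        ∀ (K : ℕ) (p s D : ℕ → ℕ), s K < n → Sh v K (v (s K) + 1) p s D →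
          (2 ^ 19 * ((∑ k ∈ Finset.range K, (p k + 1)) + 1) * (v (s K) + 1) ^ 2 ≤ D 0 ∨
            2 ^ 32 * ((∑ k ∈ Finset.range K, (p k + 1)) + 1) * (v (s K) + 1) ^ 2 ≤
              (∑ i ∈ Finset.Ico (s K) n, v i) +
              2 * (((D K + 2).choose 2 - ∑ i ∈ Finset.range n, (v i + 1).choose 2) +
              ((∑ i ∈ Finset.range n, (v i + 1).choose 2) - (D K + 2).choose 2))) →
          ∀ d : ℕ, (d = D K ∨ (d ≤ D K ∧ (D K + 2).choose 2 ≤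
            ∑ i ∈ Finset.range n, (v i + 1).choose 2)) →
          Pool.Agent.H932R3.ExpDim ℂ (fun i : Fin n => v i) P d := by
  choose F hF h using fun σ : ℕ => fun hσ : σ < n => mainσ hX (σ := σ) hv hσ
  refine ⟨∏ σ ∈ (Finset.range n).attach, F σ.1 (Finset.mem_range.1 σ.2),
    ?_, fun P hP K p s D hK => ?_⟩
  · exact Finset.prod_ne_zero_iff.2 fun σ _ => hF _ _
  · have hKn : s K ∈ Finset.range n := Finset.mem_range.2 hK
    rw [map_prod] at hP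
    have h1 := Finset.prod_ne_zero_iff.1 hP ⟨s K, hKn⟩ (Finset.mem_attach _ _)
    exact h (s K) hK P h1 K p s D rfl

end Pool.Agent.K6.H83.HN.W
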