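import Pool.Agent.K6.H83.HN.WideC

/-! Nine points and wide shelves. -/

set_option autoImplicit false

namespace Pool.Agent.K6.H83.HN.W

open Finset Pool.Agent.TH176.Nag Pool.Agent.TH603.Sur Pool.Agent.TH641.UM Pool.Agent.TH2.NU
  Pool.Agent.H932R3 Pool.Agent.Y205.FW Pool.Agent.K6.H83.QH Pool.Agent.K6.H83.HX
  Pool.Agent.Y205.AV

theorem range_sh (f : ℕ → ℕ) (n p : ℕ) : (Multiset.range (n + 5 + 2 * p)).map f =
    (Multiset.range n).map f + Shm (fun i => f (n + i)) p := by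
  induction p with
  | zero =>
    rw [mul_zero, add_zero, range_five]
    unfold Shm
    rw [Finset.sum_range_zero, add_zero]
    rfl
  | succ p ih =>
    have h : n + 5 + 2 * (p + 1) = n + 5 + 2 * p + 1 + 1 := by ring
    rw [h, Multiset.range_succ, Multiset.range_succ, Multiset.map_cons, Multiset.map_cons,
      ← Multiset.singleton_add, ← Multiset.singleton_add, ih]
    unfold Shm
    rw [Finset.sum_range_succ]
    have e1 : n + 5 + 2 * p = n + (5 + 2 * p) := by ring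
    have e2 : n + (5 + 2 * p) + 1 = n + (6 + 2 * p) := by ring
    simp only [e1, e2]
    abel

theorem Dl_le {E : Multiset ℕ} {m d p : ℕ} {g : ℕ → ℕ} (hm : 1 ≤ m) (hg : Antitone g)
    (h : (p + 2) * (g 0 + 8192 * m) ≤ d) :
    Dl E d ≤ Dl (E + Shm g p) (d + (g 0 + 8192 * m)) := by
  have o1 : g 1 ≤ g 0 := hg (by norm_num)
  have o2 : g 2 ≤ g 1 := hg (by norm_num)
  have o3 : g 3 ≤ g 2 := hg (by norm_num)
  have o4 : g 4 ≤ g 3 := hg (by norm_num)
  obtain ⟨d0, hd0⟩ : ∃ d0, d = d0 + p * (g 0 + 8192 * m) :=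
    ⟨d - p * (g 0 + 8192 * m), by rw [add_mul] at h; omega⟩
  have hd02 : 2 * (g 0 + 8192 * m) ≤ d0 := by rw [add_mul] at h; omega
  have hgd := good_trap (Q := 0) (d := d0) hm le_rfl (by positivity) o1 o2 o3 o4 (by omega)
  have hDl := Dl_wide (E := E) (m := m) hg hd0
  obtain ⟨N, hN⟩ : ∃ N, N = g 0 + 8192 * m := ⟨_, rfl⟩
  rw [← hN] at hgd hDl hd0 hd02 ⊢
  have hF := hgd.F_nonneg (Fp_zero (by omega) (by omega) (by omega) (by omega) (by omega))
    (by omega)
  have hX : (0 : ℝ) ≤ ∑ i ∈ Finset.range p, (2 * ((N : ℤ) : ℝ) * ((N : ℤ) : ℝ) -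
      g (5 + 2 * i) * (g (5 + 2 * i) + 1) - g (6 + 2 * i) * (g (6 + 2 * i) + 1) : ℝ) :=
    Finset.sum_nonneg fun i _ => par_num (q := 1) (by norm_num) (hg (by omega)) (by
      have : g (5 + 2 * i) ≤ g 0 := hg (Nat.zero_le _)
      omega)
  rw [hDl]
  linarith

/-- **Nine points and `K` wide shelves.** -/
theorem shelvesW {f s p D : ℕ → ℕ} {m : ℕ} (hm : 1 ≤ m) (hf : Antitone f) (hs0 : s 0 = 9)
    (h1 : f 0 + f 1 + f 2 ≤ D 0) (h2 : f 0 + 2 ^ 16 * m ≤ D 0)
    (h3 : f 1 + f 2 + f 7 + 2 ^ 16 * m ≤ D 0) (K : ℕ)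
    (hs : ∀ k, k < K → s (k + 1) = s k + 5 + 2 * p k)
    (hD : ∀ k, k < K → D (k + 1) = D k + f (s k) + 2 ^ 13 * m)
    (hp : ∀ k, k < K → (p k + 2) * (f (s k) + 2 ^ 13 * m) ≤ D k) :
    IS m ((Multiset.range (s K)).map f) (D K)
        (400000001 + (∑ k ∈ Finset.range K, (p k + 1)) * 115480768) ∧
      IE m ((Multiset.range (s K)).map f) (D K)
        (76816 + (∑ k ∈ Finset.range K, (p k + 1)) * 18723) ∧
      65536 * (m : ℝ) * (D 0 : ℕ) ≤ 3 * Dl ((Multiset.range (s K)).map f) (D K) := by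
  induction K with
  | zero =>
    have hu : Antitone (fun i : Fin 9 => f i) := fun i j hij => hf (by exact_mod_cast hij)
    have key := base_all (u := fun i : Fin 9 => f i) hm hu h1 h2 h3
    rw [ms_range] at key
    rw [hs0, Finset.sum_range_zero, zero_mul, add_zero, zero_mul, add_zero]
    exact key
  | succ K ih =>
    obtain ⟨g1, g2, g3⟩ := ih (fun k hk => hs k (by omega)) (fun k hk => hD k (by omega))
      (fun k hk => hp k (by omega))
    have a1 := hs K (by omega)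
    have a2 := hD K (by omega)
    have a3 := hp K (by omega)
    have e13 : (2 : ℕ) ^ 13 = 8192 := by norm_num
    rw [e13] at a2 a3
    obtain ⟨g, hg⟩ : ∃ g : ℕ → ℕ, g = fun i => f (s K + i) := ⟨_, rfl⟩
    have hga : Antitone g := by
      rw [hg]
      exact fun i j hij => hf (by omega)
    have hg0 : g 0 = f (s K) := by rw [hg]; rfl
    have e2 : D (K + 1) = D K + (g 0 + 8192 * m) := by rw [a2, hg0]; ring
    rw [← hg0] at a3
    rw [a1, range_sh, ← hg, e2, Finset.sum_range_succ]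
    have hDl0 : 0 ≤ Dl ((Multiset.range (s K)).map f) (D K) := by
      have : (0 : ℝ) ≤ 65536 * (m : ℝ) * (D 0 : ℕ) := by positivity
      linarith
    have s1 := IS_stepW hm hga a3 g1
    have s2 := IE_stepW hm hga a3 hDl0 g2
    have s3 := Dl_le (E := (Multiset.range (s K)).map f) hm hga a3
    have c1 : 400000001 + (∑ k ∈ Finset.range K, (p k + 1) + (p K + 1)) * 115480768 =
        400000001 + (∑ k ∈ Finset.range K, (p k + 1)) * 115480768 + (p K + 1) * 115480768 := by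
      ring
    have c2 : 76816 + (∑ k ∈ Finset.range K, (p k + 1) + (p K + 1)) * 18723 =
        76816 + (∑ k ∈ Finset.range K, (p k + 1)) * 18723 + (p K + 1) * 18723 := by ring
    rw [c1, c2]
    exact ⟨s1, s2, by linarith⟩

/-- exactness from full independence and emptiness of the large points -/
theorem XM_core {G E : Multiset ℕ} {J d e m : ℕ} (hJ : 1 ≤ J) (hm : 1 ≤ m)
    (hG : ∀ x ∈ G, 1 ≤ x ∧ x + 1 ≤ m) (g1 : IS m E d (400000001 + J * 115480768))
    (g2 : IE m E d (76816 + J * 18723)) (g3 : 65536 * (m : ℝ) * e ≤ 3 * Dl E d)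
    (h4 : 2 ^ 19 * (J + 1) * m ^ 2 ≤ e ∨ 2 ^ 32 * (J + 1) * m ^ 2 ≤ G.sum +
      2 * (((d + 2).choose 2 - cM (E + G)) + (cM (E + G) - (d + 2).choose 2))) :
    XM (TF d) (E + G) := by
  have hmR : (1 : ℝ) ≤ m := by exact_mod_cast hm
  have hm2 : 1 ≤ m ^ 2 := Nat.one_le_pow _ _ hm
  have hDl0 : 65536 * (m : ℝ) * e ≤ 3 * (((d : ℝ) + 1) * (d + 2) - 2 * (cM E : ℝ)) := g3
  have kN : 65536 * m * e + 3 * (2 * cM E) ≤ 3 * ((d + 1) * (d + 2)) := by
    have : ((65536 * m * e + 3 * (2 * cM E) : ℕ) : ℝ) ≤ ((3 * ((d + 1) * (d + 2)) : ℕ) : ℝ) := by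
      push_cast
      linarith
    exact_mod_cast this
  obtain ⟨Δ, hΔ⟩ : ∃ Δ, Δ + 2 * cM E = (d + 1) * (d + 2) :=
    ⟨(d + 1) * (d + 2) - 2 * cM E, by omega⟩
  have hDl : Dl E d = Δ := by
    unfold Dl
    have : ((Δ + 2 * cM E : ℕ) : ℝ) = (((d + 1) * (d + 2) : ℕ) : ℝ) := by rw [hΔ]
    push_cast at this
    linarith
  have hΔe : 65536 * m * e ≤ 3 * Δ := by omega
  have hcomm : cM (E + G) = cM (G + E) := by rw [add_comm]
  obtain ⟨C, hC⟩ : ∃ C, C = cM (E + G) := ⟨_, rfl⟩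
  obtain ⟨N, hN⟩ : ∃ N, N = (d + 2).choose 2 := ⟨_, rfl⟩
  have hN2 : 2 * N = (d + 1) * (d + 2) := by
    rw [hN]
    exact Pool.Agent.TH2.NU.two_choose (d + 1)
  have hGm := twoc_le (m := m) (G := G) fun x hx => (hG x hx).2
  have hCG : C = cM E + cM G := by rw [hC, cM_add]
  rw [← hC, ← hN] at h4
  obtain ⟨δ, hδ⟩ : ∃ δ, δ = 2 * ((N - C) + (C - N)) := ⟨_, rfl⟩
  rw [← hδ] at h4
  obtain ⟨P, hP⟩ : ∃ P, P = (J + 1) * m ^ 2 := ⟨_, rfl⟩
  have hPm : m ^ 2 ≤ P := by
    rw [hP]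
    exact Nat.le_mul_of_pos_left _ (by omega)
  have e20 : 2 ^ 19 * (J + 1) * m ^ 2 = 524288 * P := by rw [hP]; ring
  have e33 : 2 ^ 32 * (J + 1) * m ^ 2 = 4294967296 * P := by rw [hP]; ring
  rw [e20, e33] at h4
  have hbig : 4294967296 * P ≤ G.sum + δ := by
    rcases h4 with h4 | h4
    · by_contra hcon
      push Not at hcon
      obtain ⟨S, hS⟩ : ∃ S, S = G.sum := ⟨_, rfl⟩
      rw [← hS] at hcon hGm
      have c1 : m * S ≤ m * (4294967296 * P) := Nat.mul_le_mul_left _ (by omega)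
      have c2 : 65536 * m * (524288 * P) ≤ 65536 * m * e := Nat.mul_le_mul_left _ h4
      have c3 : P ≤ m * P := Nat.le_mul_of_pos_left _ (by omega)
      have c4 : 65536 * m * (524288 * P) = 34359738368 * (m * P) := by ring
      have c5 : m * (4294967296 * P) = 4294967296 * (m * P) := by ring
      rw [c4] at c2
      rw [c5] at c1
      generalize m * P = R at *
      generalize m * S = T at *
      generalize 65536 * m * e = V at *
      omega
    · exact h4
  have hΛ : 268435456 * P * 16 = 4294967296 * P := by ring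
  have hJP : (J + 1) * m ^ 2 = P := hP.symm
  have key := coreG (G := G) (E := E) (m := m) (d := d) (Δ := Δ) (Λ := 268435456 * P)
    (δ := δ) hm hΔ hG
    (fun M' hM' hs => by
      refine g1 M' hM' (Or.inr ?_)
      rw [hDl]
      have g5 : ((sq1 M' + 268435456 * P + Δ / (256 * m) + 1 : ℕ) : ℝ) ≤ Δ := by
        exact_mod_cast hs
      push_cast at g5
      have g6 : (Δ : ℝ) / (256 * m) ≤ ((Δ / (256 * m) : ℕ) : ℝ) + 1 := by
        have h3 := Nat.lt_div_mul_add (a := Δ) (b := 256 * m) (by omega)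
        have h4 : Δ ≤ (Δ / (256 * m) + 1) * (256 * m) := by
          rw [add_mul, one_mul]
          omega
        rw [div_le_iff₀ (by positivity)]
        exact_mod_cast h4
      have g7 : (400000001 + J * 115480768) * m ^ 2 ≤ 268435456 * P := by
        rw [hP]
        have : (400000001 + J * 115480768) * m ^ 2 ≤ (268435456 * (J + 1)) * m ^ 2 :=
          Nat.mul_le_mul_right _ (by omega)
        linarith
      have g8 : (((400000001 + J * 115480768) * m ^ 2 : ℕ) : ℝ) ≤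
          ((268435456 * P : ℕ) : ℝ) := by exact_mod_cast g7
      push_cast at g8 ⊢
      linarith)
    (fun M' hM' hs => by
      refine g2 M' hM' ?_
      rw [hDl]
      have g5 : ((Δ + 268435456 * P : ℕ) : ℝ) < (S2 M' : ℝ) := by exact_mod_cast hs
      push_cast at g5
      have g7 : (76816 + J * 18723) * (64 * m ^ 2) ≤ 268435456 * P := by
        rw [hP]
        have : (76816 + J * 18723) * (64 * m ^ 2) = (64 * (76816 + J * 18723)) * m ^ 2 := by ring
        rw [this]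
        have : (64 * (76816 + J * 18723)) * m ^ 2 ≤ (268435456 * (J + 1)) * m ^ 2 :=
          Nat.mul_le_mul_right _ (by omega)
        linarith
      have g8 : (((76816 + J * 18723) * (64 * m ^ 2) : ℕ) : ℝ) ≤
          ((268435456 * P : ℕ) : ℝ) := by exact_mod_cast g7
      push_cast at g8 ⊢
      have e4 : (8 * (m : ℝ)) ^ 2 = 64 * m ^ 2 := by ring
      rw [e4]
      linarith)
    (by rw [card_TF, ← hcomm, ← hC, ← hN]; omega)
    (by
      have : 2 ^ 24 * m ^ 2 ≤ 2 ^ 24 * P := Nat.mul_le_mul_left _ hPm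
      omega)
    (by omega)
  rw [← hcomm] at key
  have hEx : Ex (TF d) (fam (E + G)) := by
    unfold Ex
    rw [cond_eq, ms_fam]
    exact key
  exact ⟨fun hc => Emp_of_Ex hEx (by rw [cond_eq, ms_fam]; exact hc),
    fun hc => Sur_of_Ex hEx (by rw [cond_eq, ms_fam]; exact hc)⟩

/-- exactness for nine points, wide shelves and arbitrary bounded multiplicities -/
theorem XM_shelfW {G : Multiset ℕ} {f s p D : ℕ → ℕ} {K m : ℕ} (hm : 1 ≤ m)
    (hG : ∀ x ∈ G, 1 ≤ x ∧ x + 1 ≤ m) (hf : Antitone f) (hs0 : s 0 = 9)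
    (hs : ∀ k, k < K → s (k + 1) = s k + 5 + 2 * p k)
    (h1 : f 0 + f 1 + f 2 ≤ D 0) (h2 : f 0 + 2 ^ 16 * m ≤ D 0)
    (h3 : f 1 + f 2 + f 7 + 2 ^ 16 * m ≤ D 0)
    (hD : ∀ k, k < K → D (k + 1) = D k + f (s k) + 2 ^ 13 * m)
    (hp : ∀ k, k < K → (p k + 2) * (f (s k) + 2 ^ 13 * m) ≤ D k)
    (h4 : 2 ^ 19 * ((∑ k ∈ Finset.range K, (p k + 1)) + 1) * m ^ 2 ≤ D 0 ∨
      2 ^ 32 * ((∑ k ∈ Finset.range K, (p k + 1)) + 1) * m ^ 2 ≤ G.sum +
        2 * (((D K + 2).choose 2 - cM ((Multiset.range (s K)).map f + G)) +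
          (cM ((Multiset.range (s K)).map f + G) - (D K + 2).choose 2))) :
    XM (TF (D K)) ((Multiset.range (s K)).map f + G) := by
  rcases Nat.eq_zero_or_pos K with hK | hK
  · subst hK
    obtain ⟨μ, rfl⟩ : ∃ μ, m = μ + 1 := ⟨m - 1, by omega⟩
    have hu : Antitone (fun i : Fin 9 => f i) := fun i j hij => hf (by exact_mod_cast hij)
    rw [hs0, ← ms_range f 9] at h4 ⊢
    rw [Finset.sum_range_zero, zero_add, mul_one, mul_one] at h4
    refine XM_nineS (u := fun i : Fin 9 => f i) (fun x hx => (hG x hx).1)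
      (fun x hx => Nat.le_of_succ_le_succ (hG x hx).2) hu h1 h2 h3 ?_
    rcases h4 with h4 | h4
    · exact U.window (u := fun i : Fin 9 => f i) (Nat.succ_pos _) (fun x hx => (hG x hx).2) hu
        h1 h2 h3 h4
    · exact h4
  · obtain ⟨g1, g2, g3⟩ := shelvesW hm hf hs0 h1 h2 h3 K hs hD hp
    refine XM_core (J := ∑ k ∈ Finset.range K, (p k + 1)) (e := D 0) ?_ hm hG g1 g2 g3 h4
    have h5 : (1 : ℕ) ≤ ∑ k ∈ Finset.range 1, (p k + 1) := by
      rw [Finset.sum_range_one]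
      omega
    exact h5.trans (Finset.sum_le_sum_of_subset (Finset.range_subset_range.2 hK))

end Pool.Agent.K6.H83.HN.W
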