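import Pool.Agent.K6.H83.HN.ResultW
import Pool.Agent.K6.H83.HN.WideD

/-! The expected dimension: nine arbitrary multiplicities and wide shelves, with any bound for
the other multiplicities. -/

set_option autoImplicit false

namespace Pool.Agent.K6.H83.HN.W

open Finset Pool.Agent.TH176.Nag Pool.Agent.TH603.Sur Pool.Agent.TH641.UM Pool.Agent.TH2.NU
  Pool.Agent.H932R3 Pool.Agent.Y205.FW Pool.Agent.K6.H83.QH Pool.Agent.K6.H83.HX
  Pool.Agent.K6.H83.HN.V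

/-- one number of points on the shelves -/
theorem mainσX {n σ : ℕ} {v : ℕ → ℕ} (hv : Antitone v) (hn : σ < n) :
    ∃ F : MvPolynomial (Fin n × Fin 2) ℚ, F ≠ 0 ∧ ∀ P : Fin n → Fin 2 → ℂ,
      MvPolynomial.aeval (fun ij : Fin n × Fin 2 => P ij.1 ij.2) F ≠ 0 →
        ∀ (K m : ℕ) (p s D : ℕ → ℕ), s K = σ → v σ + 1 ≤ m → Sh v K m p s D →
          (2 ^ 19 * ((∑ k ∈ Finset.range K, (p k + 1)) + 1) * m ^ 2 ≤ D 0 ∨
            2 ^ 32 * ((∑ k ∈ Finset.range K, (p k + 1)) + 1) * m ^ 2 ≤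
              (∑ i ∈ Finset.Ico σ n, v i) +
              2 * (((D K + 2).choose 2 - ∑ i ∈ Finset.range n, (v i + 1).choose 2) +
              ((∑ i ∈ Finset.range n, (v i + 1).choose 2) - (D K + 2).choose 2))) →
          ∀ d : ℕ, (d = D K ∨ (d ≤ D K ∧ (D K + 2).choose 2 ≤
            ∑ i ∈ Finset.range n, (v i + 1).choose 2)) →
          Pool.Agent.H932R3.ExpDim ℂ (fun i : Fin n => v i) P d := by
  obtain ⟨G, t, hG1, hGμ, hms, hsum, hcond⟩ := decompV hv hn.le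
  have hC : ∑ i ∈ Finset.range n, (v i + 1).choose 2 =
      Pool.Agent.TH603.Sur.cond (fun i : Fin n => v i) := by
    unfold Pool.Agent.TH603.Sur.cond
    exact (Fin.sum_univ_eq_sum_range (fun i => (v i + 1).choose 2) n).symm
  rw [hC, hsum]
  obtain ⟨F, hF, h⟩ := engineV hms (fun D' => ∃ (K m : ℕ) (p s D : ℕ → ℕ), s K = σ ∧ D K = D' ∧
      v σ + 1 ≤ m ∧ Sh v K m p s D ∧
      (2 ^ 19 * ((∑ k ∈ Finset.range K, (p k + 1)) + 1) * m ^ 2 ≤ D 0 ∨
        2 ^ 32 * ((∑ k ∈ Finset.range K, (p k + 1)) + 1) * m ^ 2 ≤ G.sum +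
          2 * (((D' + 2).choose 2 - cM ((Multiset.range σ).map v + G)) +
            (cM ((Multiset.range σ).map v + G) - (D' + 2).choose 2))))
    (by
      rintro D' ⟨K, m, p, s, D, hs, rfl, hm, hSh, g4⟩
      have h5 := XM_shelfW (G := G) (f := v) (s := s) (p := p) (D := D) (K := K) (m := m)
        (by omega) (fun x hx => ⟨hG1 x hx, (Nat.succ_le_succ (hGμ x hx)).trans hm⟩) hv hSh.s0
        hSh.ss hSh.d1 hSh.d2 hSh.d3 hSh.dd hSh.dp (by rw [hs]; exact g4)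
      rwa [hs] at h5)
  refine ⟨F, hF, fun P hP K m p s D hs hm hSh g4 d hd => h P hP d ?_⟩
  rw [← hcond]
  rcases hd with rfl | ⟨hd, hd'⟩
  · exact Or.inl ⟨K, m, p, s, D, hs, rfl, hm, hSh, g4⟩
  · exact Or.inr ⟨D K, hd, ⟨K, m, p, s, D, hs, rfl, hm, hSh, g4⟩, hd'⟩

/-- **Nine arbitrary multiplicities and wide shelves.** -/
theorem mainX {n : ℕ} {v : ℕ → ℕ} (hv : Antitone v) :
    ∃ F : MvPolynomial (Fin n × Fin 2) ℚ, F ≠ 0 ∧ ∀ P : Fin n → Fin 2 → ℂ,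
      MvPolynomial.aeval (fun ij : Fin n × Fin 2 => P ij.1 ij.2) F ≠ 0 →
        ∀ (K m J : ℕ) (p s D : ℕ → ℕ), s K < n → v (s K) + 1 ≤ m → Sh v K m p s D →
          J = (∑ k ∈ Finset.range K, (p k + 1)) + 1 →
          ∀ d : ℕ,
          ((D K ≤ d ∧ (2 ^ 19 * J * m ^ 2 + D K ≤ d + D 0 ∨
              2 ^ 32 * J * m ^ 2 ≤ (∑ i ∈ Finset.Ico (s K) n, v i) +
                2 * (((d + 2).choose 2 - ∑ i : Fin n, (v i + 1).choose 2) +
                  ((∑ i : Fin n, (v i + 1).choose 2) - (d + 2).choose 2)))) ∨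
            (2 ^ 32 * J * m ^ 2 ≤ (∑ i ∈ Finset.Ico (s K) n, v i) ∧
              (D K + 2).choose 2 ≤ ∑ i : Fin n, (v i + 1).choose 2)) →
          Pool.Agent.H932R3.ExpDim ℂ (fun i : Fin n => v i) P d := by
  choose F hF h using fun σ : ℕ => fun hσ : σ < n => mainσX (σ := σ) hv hσ
  refine ⟨∏ σ ∈ (Finset.range n).attach, F σ.1 (Finset.mem_range.1 σ.2),
    ?_, fun P hP K m J p s D hK hm hSh hJ d hd => ?_⟩
  · exact Finset.prod_ne_zero_iff.2 fun σ _ => hF _ _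
  have hKn : s K ∈ Finset.range n := Finset.mem_range.2 hK
  rw [map_prod] at hP
  have h1 := Finset.prod_ne_zero_iff.1 hP ⟨s K, hKn⟩ (Finset.mem_attach _ _)
  have hF' := h (s K) hK P h1
  have hC : ∑ i ∈ Finset.range n, (v i + 1).choose 2 = ∑ i : Fin n, (v i + 1).choose 2 :=
    (Fin.sum_univ_eq_sum_range (fun i => (v i + 1).choose 2) n).symm
  rw [hC] at hF'
  -- degrees from `D K` on
  have up : ∀ d, D K ≤ d → (2 ^ 19 * J * m ^ 2 + D K ≤ d + D 0 ∨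
      2 ^ 32 * J * m ^ 2 ≤ (∑ i ∈ Finset.Ico (s K) n, v i) +
        2 * (((d + 2).choose 2 - ∑ i : Fin n, (v i + 1).choose 2) +
          ((∑ i : Fin n, (v i + 1).choose 2) - (d + 2).choose 2))) →
      H932R3.ExpDim ℂ (fun i : Fin n => v i) P d := by
    intro d hd g
    obtain ⟨δ, rfl⟩ := Nat.exists_eq_add_of_le hd
    refine hF' K m p s (fun k => D k + δ) rfl hm (hSh.shift δ) ?_ _ (Or.inl rfl)
    rw [← hJ]
    rcases g with g | g
    · left
      show 2 ^ 19 * J * m ^ 2 ≤ D 0 + δ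
      omega
    · exact Or.inr g
  rcases hd with ⟨g1, g2⟩ | ⟨g1, g2⟩
  · exact up d g1 g2
  · rcases le_total d (D K) with h4 | h4
    · refine hF' K m p s D rfl hm hSh (Or.inr ?_) d (Or.inr ⟨h4, g2⟩)
      rw [← hJ]
      exact g1.trans (Nat.le_add_right _ _)
    · exact up d h4 (Or.inr (g1.trans (Nat.le_add_right _ _)))

end Pool.Agent.K6.H83.HN.W
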