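import Pool.Agent.K6.H83.HN.Pieces

/-! Nine arbitrary multiplicities: independence and emptiness. -/

set_option autoImplicit false

namespace Pool.Agent.K6.H83.HN

open Finset Pool.Agent.TH176.Nag Pool.Agent.TH603.Sur Pool.Agent.TH641.UM Pool.Agent.K6.H83.QH
  Pool.Agent.Y205.AV Pool.Agent.K6.H83.HX

theorem pr_zero {c b1 b2 b3 t1 t2 N : ℤ} (h1 : 0 ≤ b1) (h2 : 0 ≤ b2) (h3 : 0 ≤ b3)
    (h4 : t1 ≤ N - 1) (h5 : t2 ≤ N - 1) : pr c b1 b2 b3 t1 t2 N 0 = c - b1 - b2 - b3 := by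
  unfold pr A5
  rw [ps_of_nonneg (z := b1 - 0) (by omega), ps_of_nonneg (z := b2 - 0) (by omega),
    ps_of_nonneg (z := b3 - 0) (by omega), ps_of_nonpos (z := t1 - (N - 1 - 0)) (by omega),
    ps_of_nonpos (z := t2 - (N - 1 - 0)) (by omega)]
  ring

theorem pr_last {c b1 b2 b3 t1 t2 N : ℤ} (h1 : b1 ≤ N - 1) (h2 : b2 ≤ N - 1) (h3 : b3 ≤ N - 1)
    (h4 : 0 ≤ t1) (h5 : 0 ≤ t2) :
    pr c b1 b2 b3 t1 t2 N (N - 1) = c - (N - 1) - t1 - t2 := by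
  unfold pr A5
  rw [ps_of_nonpos (z := b1 - (N - 1)) (by omega), ps_of_nonpos (z := b2 - (N - 1)) (by omega),
    ps_of_nonpos (z := b3 - (N - 1)) (by omega),
    ps_of_nonneg (z := t1 - (N - 1 - (N - 1))) (by omega),
    ps_of_nonneg (z := t2 - (N - 1 - (N - 1))) (by omega)]
  ring

/-- the profile near the top -/
theorem pr_near {c b1 b2 t1 N R : ℤ} (h1 : b1 ≤ N - 1 - R) (h2 : b2 ≤ N - 1 - R)
    (hR : 0 ≤ R) (hR' : R ≤ N - 1) :
    pr c b1 b2 0 t1 0 N (N - R - 1) = c - (N - R - 1) - ps (t1 - R) := by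
  unfold pr A5
  have e : N - 1 - (N - R - 1) = R := by ring
  rw [e, ps_of_nonpos (z := b1 - (N - R - 1)) (by omega),
    ps_of_nonpos (z := b2 - (N - R - 1)) (by omega),
    ps_of_nonpos (z := 0 - (N - R - 1)) (by omega),
    ps_of_nonpos (z := 0 - R) (by omega)]
  ring

theorem Fp_near {c b1 b2 t1 N R v : ℤ} (h1 : b1 ≤ N - R) (h2 : b2 ≤ N - R) (ht : 0 ≤ t1)
    (hR : 0 ≤ R) (hR' : R ≤ N) (hv : c = N + v) :
    Fp c b1 b2 0 t1 0 N N - Fp c b1 b2 0 t1 0 N (N - R) =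
      R * (2 * v + 1 + R) - (t1 * (t1 + 1) - ps (t1 - R) * (ps (t1 - R) + 1)) := by
  unfold Fp
  have e : t1 - N + (N - R) = t1 - R := by ring
  have e' : 0 - N + (N - R) = - R := by ring
  rw [e, e', ps_of_nonpos (z := b1 - N) (by omega), ps_of_nonpos (z := b2 - N) (by omega),
    ps_of_nonpos (z := 0 - N) (by omega), ps_of_nonneg (z := t1 - N + N) (by omega),
    ps_of_nonneg (z := 0 - N + N) (by omega), ps_of_nonpos (z := b1 - (N - R)) (by omega),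
    ps_of_nonpos (z := b2 - (N - R)) (by omega), ps_of_nonpos (z := 0 - (N - R)) (by omega),
    ps_of_nonpos (z := - R) (by omega), hv]
  ring

theorem loss_le {t v R s : ℤ} (ht : 0 ≤ t) (htv : t ≤ v) (hv : v ≤ t + s) (_hs : 0 ≤ s)
    (hR : 0 ≤ R) :
    R * (2 * v + 1 + R) - (t * (t + 1) - ps (t - R) * (ps (t - R) + 1)) ≤
      R * (2 * s + 2 * R) := by
  rcases le_total R t with h | h
  · rw [ps_of_nonneg (z := t - R) (by omega)]
    have h1 : R * (v - t) ≤ R * s := mul_le_mul_of_nonneg_left (by omega) hR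
    nlinarith
  · rw [ps_of_nonpos (z := t - R) (by omega)]
    have h1 : R * (v - t) ≤ R * s := mul_le_mul_of_nonneg_left (by omega) hR
    have h2 : 0 ≤ (R - t) * (R - t - 1) ∨ R = t := by
      rcases h.lt_or_eq with h3 | h3
      · exact Or.inl (mul_nonneg (by omega) (by omega))
      · exact Or.inr h3.symm
    rcases h2 with h2 | h2
    · nlinarith
    · subst h2
      nlinarith

/-- **Independence with nine arbitrary multiplicities** -/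
theorem SM9n {M : Multiset ℕ} {m d Δ v0 v1 v2 v3 v4 v5 v6 v7 v8 : ℕ} (hm : 1 ≤ m)
    (hM : ∀ x ∈ M, x + 1 ≤ 8 * m) (o1 : v1 ≤ v0) (o2 : v2 ≤ v1) (o3 : v3 ≤ v2) (o4 : v4 ≤ v3)
    (o5 : v5 ≤ v4) (o6 : v6 ≤ v5) (o7 : v7 ≤ v6) (o8 : v8 ≤ v7)
    (h1 : v0 + v1 + v6 + 8192 * m ≤ d) (h2 : v1 + v2 + v3 + 8192 * m ≤ d)
    (hΔ : Δ + (v0 * (v0 + 1) + v1 * (v1 + 1) + v2 * (v2 + 1) + v3 * (v3 + 1) + v4 * (v4 + 1) +
      v5 * (v5 + 1) + v6 * (v6 + 1) + v7 * (v7 + 1) + v8 * (v8 + 1)) = (d + 1) * (d + 2))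
    (h : sq1 M + 204000000 * m ^ 2 + Δ / (256 * m) + 1 ≤ Δ) :
    SM ({v0} + ((({v1} + ({v2} + ({v3} + ({v4} + {v5})))) + ({v6} + ({v7} + {v8}))) + M))
      (TZ d) := by
  have hmR : (1 : ℝ) ≤ m := by exact_mod_cast hm
  obtain ⟨Q, hQ⟩ : ∃ Q : ℤ, Q = 1280 * m := ⟨_, rfl⟩
  have hQ0 : 1280 ≤ Q := by omega
  obtain ⟨N1, hN1⟩ : ∃ N1 : ℤ, N1 = v1 + Q := ⟨_, rfl⟩
  obtain ⟨N2, hN2⟩ : ∃ N2 : ℤ, N2 = d - v0 + 1 - N1 := ⟨_, rfl⟩
  obtain ⟨c, hc⟩ : ∃ c : ℤ, c = (d : ℤ) - N1 + 1 := ⟨_, rfl⟩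
  -- the lower rows
  have a0 : Q + 2 ≤ pr ((d : ℤ) + 1) v1 v2 v3 v4 v5 N1 0 := by
    rw [pr_zero (by omega) (by omega) (by omega) (by omega) (by omega)]
    omega
  have a1 : Q + 2 ≤ pr ((d : ℤ) + 1) v1 v2 v3 v4 v5 N1 (N1 - 1) := by
    rw [pr_last (by omega) (by omega) (by omega) (by omega) (by omega)]
    omega
  have aF := Fp_zero (c := (d : ℤ) + 1) (b1 := v1) (b2 := v2) (b3 := v3) (t1 := v4) (t2 := v5)
    (N := N1) (by omega) (by omega) (by omega) (by omega) (by omega)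
  have aT := Fp_top (c := (d : ℤ) + 1) (b1 := v1) (b2 := v2) (b3 := v3) (t1 := v4) (t2 := v5)
    (N := N1) (by omega) (by omega) (by omega) (by omega) (by omega)
  have P1 : PS ({v1} + ({v2} + ({v3} + ({v4} + {v5})))) m 7346304
      (Gr (fun _ => 0) (fun y => (d : ℤ) - y) N1)
      (κ m * ((Fp ((d : ℤ) + 1) v1 v2 v3 v4 v5 N1 N1 : ℝ) - 54 * Q ^ 2)) := by
    intro M' hM' hM1
    have := SM5 (M := M') (d := d) (N := N1) (b1 := v1) (b2 := v2) (b3 := v3) (t1 := v4)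
      (t2 := v5) (by omega) (by omega) (by omega) (by omega) (by omega)
      (conc_min (fun y _ _ => pr_conc _ _ _ _ _ _ _ y) (by omega) (by omega))
      (SM_pr hm hQ (by omega) le_rfl a0 a1 aF hM' hM1)
    simpa only [add_assoc] using this
  -- the upper rows
  have b0 : Q + 2 ≤ pr c v6 v7 0 v8 0 N2 0 := by
    rw [pr_zero (by omega) (by omega) (by omega) (by omega) (by omega)]
    omega
  have bl : pr c v6 v7 0 v8 0 N2 (N2 - 1) = v0 + 1 - v8 := by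
    rw [pr_last (by omega) (by omega) (by omega) (by omega) (by omega)]
    omega
  have bF := Fp_zero (c := c) (b1 := v6) (b2 := v7) (b3 := 0) (t1 := v8) (t2 := 0)
    (N := N2) (by omega) (by omega) (by omega) (by omega) (by omega)
  have bT := Fp_top (c := c) (b1 := v6) (b2 := v7) (b3 := 0) (t1 := v8) (t2 := 0)
    (N := N2) (by omega) (by omega) (by omega) (by omega) (by omega)
  obtain ⟨N', hN'1, hN'2, hN'3, hN'4⟩ : ∃ N' : ℤ, N' ≤ N2 ∧ Q ≤ N' ∧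
      Q + 2 ≤ pr c v6 v7 0 v8 0 N2 (N' - 1) ∧
      Fp c v6 v7 0 v8 0 N2 N2 - Fp c v6 v7 0 v8 0 N2 N' ≤ 5 * Q ^ 2 := by
    rcases le_or_gt ((v8 : ℤ) + Q + 1) v0 with hh | hh
    · refine ⟨N2, le_rfl, by omega, by rw [bl]; omega, ?_⟩
      have : 0 ≤ Q ^ 2 := by positivity
      omega
    · refine ⟨N2 - (Q + 1), by omega, by omega, ?_, ?_⟩
      · rw [pr_near (by omega) (by omega) (by omega) (by omega)]
        have := ps_le (z := (v8 : ℤ) - (Q + 1)) (w := v8) (by omega) (by omega)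
        omega
      · rw [Fp_near (v := v0) (by omega) (by omega) (by omega) (by omega) (by omega) (by omega)]
        refine (loss_le (t := v8) (v := v0) (R := Q + 1) (s := Q) (by omega) (by omega) (by omega)
          (by omega) (by omega)).trans ?_
        nlinarith
  have P2 : PS ({v6} + ({v7} + {v8})) m 7346304 (Gu d N1 N2)
      (κ m * ((Fp c v6 v7 0 v8 0 N2 N' : ℝ) - 54 * Q ^ 2)) := by
    refine PS.up ?_
    intro M' hM' hM1
    have := SM5z (M := M') (d := (d : ℤ) - N1) (N := N2) (b1 := v6) (b2 := v7)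
      (t1 := v8) (by omega) (by omega) (by omega)
      (conc_min (fun y _ _ => pr_conc _ _ _ _ _ _ _ y) (by rw [← hc]; omega)
        (by rw [← hc]; omega))
      (by
        rw [← hc]
        exact SM_pr hm hQ (by omega) hN'1 b0 hN'3 bF hM' hM1)
    simpa only [add_assoc] using this
  have G := PS.glue P1 P2 (fun p hp => ⟨hp.2.2.1, hp.1⟩) (fun p hp => ⟨hp.1, by
    have := hp.2.1
    omega⟩) 0 1 (by
      intro p hp r hr
      have h1 := hp.2.1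
      have h2 := hr.2.1
      omega)
  have hsum : (Δ : ℤ) = Fp ((d : ℤ) + 1) v1 v2 v3 v4 v5 N1 N1 + Fp c v6 v7 0 v8 0 N2 N2 := by
    have e : ((Δ + (v0 * (v0 + 1) + v1 * (v1 + 1) + v2 * (v2 + 1) + v3 * (v3 + 1) +
      v4 * (v4 + 1) + v5 * (v5 + 1) + v6 * (v6 + 1) + v7 * (v7 + 1) + v8 * (v8 + 1)) : ℕ) : ℤ) =
      (((d + 1) * (d + 2) : ℕ) : ℤ) := by rw [hΔ]
    push_cast at e
    rw [aT, bT, hc, hN2]
    linarith
  refine SM_top (by omega) (SM_monoS (G M hM (Or.inr ?_)) ?_)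
  · have hQR : (Q : ℝ) = 1280 * m := by rw [hQ]; push_cast; ring
    have hcap : (sq1 M : ℝ) + 14692672 * (m : ℝ) ^ 2 ≤
        κ m * ((Δ : ℝ) - 113 * (1280 * m) ^ 2) := by
      have h1 : ((sq1 M + 204000000 * m ^ 2 + Δ / (256 * m) + 1 : ℕ) : ℝ) ≤ Δ := by
        exact_mod_cast h
      push_cast at h1
      have h2 : (Δ : ℝ) / (256 * m) ≤ ((Δ / (256 * m) : ℕ) : ℝ) + 1 := by
        have h3 := Nat.lt_div_mul_add (a := Δ) (b := 256 * m) (by omega)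
        have h4 : Δ ≤ (Δ / (256 * m) + 1) * (256 * m) := by
          rw [add_mul, one_mul]
          omega
        rw [div_le_iff₀ (by positivity)]
        exact_mod_cast h4
      have h0 : (0 : ℝ) ≤ ((Δ / (256 * m) : ℕ) : ℝ) := Nat.cast_nonneg _
      have h0' : (0 : ℝ) ≤ (sq1 M : ℝ) := Nat.cast_nonneg _
      have h5 : (0 : ℝ) ≤ (m : ℝ) ^ 2 := by positivity
      have h6 := κ_ge hm (D := (Δ : ℝ) - 113 * (1280 * m) ^ 2) (by nlinarith)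
      have h7 : ((Δ : ℝ) - 113 * (1280 * m) ^ 2) / (256 * m) ≤ (Δ : ℝ) / (256 * m) :=
        div_le_div_of_nonneg_right (by
          have : (0 : ℝ) ≤ 113 * (1280 * (m : ℝ)) ^ 2 := by positivity
          linarith) (by positivity)
      have h8 : 113 * (1280 * (m : ℝ)) ^ 2 = 185139200 * (m : ℝ) ^ 2 := by ring
      rw [h8] at h6 h7 ⊢
      linarith
    rw [← mul_add]
    have h9 : (Δ : ℝ) - 113 * (1280 * m) ^ 2 ≤
        (Fp ((d : ℤ) + 1) v1 v2 v3 v4 v5 N1 N1 : ℝ) - 54 * Q ^ 2 +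
          ((Fp c v6 v7 0 v8 0 N2 N' : ℝ) - 54 * Q ^ 2) := by
      have e1 : (Δ : ℝ) = (Fp ((d : ℤ) + 1) v1 v2 v3 v4 v5 N1 N1 : ℝ) +
        (Fp c v6 v7 0 v8 0 N2 N2 : ℝ) := by exact_mod_cast hsum
      have e2 : (Fp c v6 v7 0 v8 0 N2 N2 : ℝ) - (Fp c v6 v7 0 v8 0 N2 N' : ℝ) ≤ 5 * (Q : ℝ) ^ 2 := by
        exact_mod_cast hN'4
      rw [← hQR]
      linarith
    have h10 : κ m * ((Δ : ℝ) - 113 * (1280 * m) ^ 2) ≤ κ m *
        ((Fp ((d : ℤ) + 1) v1 v2 v3 v4 v5 N1 N1 : ℝ) - 54 * Q ^ 2 +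
          ((Fp c v6 v7 0 v8 0 N2 N' : ℝ) - 54 * Q ^ 2)) :=
      mul_le_mul_of_nonneg_left h9 (by unfold κ; positivity)
    refine le_trans ?_ h10
    refine le_trans (le_of_eq ?_) hcap
    norm_num
  · rintro ⟨x, y⟩ (⟨g1, g2, g3, g4⟩ | ⟨g1, g2, g3, g4⟩)
    · simp only at g1 g2 g3 g4
      exact ⟨g1, by simp only; omega, g3, g4⟩
    · simp only at g1 g2 g3 g4
      exact ⟨by simp only; omega, by simp only; omega, g1, by simp only; omega⟩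

/-- **Emptiness with nine arbitrary multiplicities** -/
theorem EM9n {M : Multiset ℕ} {m d Δ v0 v1 v2 v3 v4 v5 v6 v7 v8 : ℕ} (hm : 1 ≤ m)
    (hM : ∀ x ∈ M, 1 ≤ x ∧ x ≤ 8 * m) (o1 : v1 ≤ v0) (o2 : v2 ≤ v1) (o3 : v3 ≤ v2)
    (o4 : v4 ≤ v3) (o5 : v5 ≤ v4) (o6 : v6 ≤ v5) (o7 : v7 ≤ v6) (o8 : v8 ≤ v7)
    (h1 : v0 + v1 + v6 + 8192 * m ≤ d) (h2 : v1 + v2 + v3 + 8192 * m ≤ d)
    (hΔ : Δ + (v0 * (v0 + 1) + v1 * (v1 + 1) + v2 * (v2 + 1) + v3 * (v3 + 1) + v4 * (v4 + 1) +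
      v5 * (v5 + 1) + v6 * (v6 + 1) + v7 * (v7 + 1) + v8 * (v8 + 1)) = (d + 1) * (d + 2))
    (h : Δ + 4916224 * m ^ 2 < S2 M) :
    EM ({v0} + ((({v1} + ({v2} + ({v3} + ({v4} + {v5})))) + ({v6} + ({v7} + {v8}))) + M))
      (TZ d) := by
  have hmR : (1 : ℝ) ≤ m := by exact_mod_cast hm
  obtain ⟨B, hB⟩ : ∃ B : ℕ, B = 8 * m := ⟨_, rfl⟩
  obtain ⟨q, hq⟩ : ∃ q : ℤ, q = 12 * B + 1 := ⟨_, rfl⟩
  have hq0 : q = 96 * m + 1 := by omega
  obtain ⟨N1, hN1⟩ : ∃ N1 : ℤ, N1 = v1 + q := ⟨_, rfl⟩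
  obtain ⟨N2, hN2⟩ : ∃ N2 : ℤ, N2 = d - v0 + 1 - N1 := ⟨_, rfl⟩
  obtain ⟨c, hc⟩ : ∃ c : ℤ, c = (d : ℤ) - N1 + 1 := ⟨_, rfl⟩
  rw [← hB] at hM
  -- the lower rows
  have a0 : q + 3 ≤ pr ((d : ℤ) + 1) v1 v2 v3 v4 v5 N1 0 := by
    rw [pr_zero (by omega) (by omega) (by omega) (by omega) (by omega)]
    omega
  have a1 : q + 3 ≤ pr ((d : ℤ) + 1) v1 v2 v3 v4 v5 N1 (N1 - 1) := by
    rw [pr_last (by omega) (by omega) (by omega) (by omega) (by omega)]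
    omega
  have aF := Fp_zero (c := (d : ℤ) + 1) (b1 := v1) (b2 := v2) (b3 := v3) (t1 := v4) (t2 := v5)
    (N := N1) (by omega) (by omega) (by omega) (by omega) (by omega)
  have aT := Fp_top (c := (d : ℤ) + 1) (b1 := v1) (b2 := v2) (b3 := v3) (t1 := v4) (t2 := v5)
    (N := N1) (by omega) (by omega) (by omega) (by omega) (by omega)
  have P1 : PE ({v1} + ({v2} + ({v3} + ({v4} + {v5})))) B 238
      (Gr (fun _ => 0) (fun y => (d : ℤ) - y) N1)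
      ((Fp ((d : ℤ) + 1) v1 v2 v3 v4 v5 N1 N1 : ℝ) + 108 * q ^ 2) := by
    intro M' hM' hM1
    have := EM5 (M := M') (d := d) (N := N1) (b1 := v1) (b2 := v2) (b3 := v3) (t1 := v4)
      (t2 := v5) (EM_pr (by omega) hq (by omega) a0 a1 aF hM' hM1)
    simpa only [add_assoc] using this
  have aF0 : (0 : ℝ) ≤ (Fp ((d : ℤ) + 1) v1 v2 v3 v4 v5 N1 N1 : ℝ) := by
    have := (Pf_pr (a := 0) (b := N1) a0 a1).F_le (by omega) (by omega)
    rw [aF] at this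
    exact_mod_cast this
  -- the upper rows
  have b0 : q + 3 ≤ pr c v6 v7 0 v8 0 N2 0 := by
    rw [pr_zero (by omega) (by omega) (by omega) (by omega) (by omega)]
    omega
  have bl : pr c v6 v7 0 v8 0 N2 (N2 - 1) = v0 + 1 - v8 := by
    rw [pr_last (by omega) (by omega) (by omega) (by omega) (by omega)]
    omega
  have bF := Fp_zero (c := c) (b1 := v6) (b2 := v7) (b3 := 0) (t1 := v8) (t2 := 0)
    (N := N2) (by omega) (by omega) (by omega) (by omega) (by omega)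
  have bT := Fp_top (c := c) (b1 := v6) (b2 := v7) (b3 := 0) (t1 := v8) (t2 := 0)
    (N := N2) (by omega) (by omega) (by omega) (by omega) (by omega)
  have bpf := Pf_pr (c := c) (b1 := v6) (b2 := v7) (b3 := 0) (t1 := v8) (t2 := 0)
    (N := N2) (a := 0) (b := N2) (q := 0) (by omega) (by omega)
  have bF0 : (0 : ℝ) ≤ (Fp c v6 v7 0 v8 0 N2 N2 : ℝ) := by
    have := bpf.F_le le_rfl (by omega)
    rw [bF] at this
    exact_mod_cast this
  have hqR : (0 : ℝ) < q := by exact_mod_cast (by omega : (0 : ℤ) < q)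
  have P2 : PE ({v6} + ({v7} + {v8})) B 272 (Gu d N1 N2)
      ((Fp c v6 v7 0 v8 0 N2 N2 : ℝ) + 108 * q ^ 2 + 2 * (3 * q + 4) * (q + 2)) := by
    refine PE.up ?_
    intro M' hM' hM1
    have key : EM M' {p : ℤ × ℤ | 0 ≤ p.1 ∧ 0 ≤ p.2 ∧ p.2 < N2 ∧
        p.1 < pr c v6 v7 0 v8 0 N2 p.2} := by
      rcases le_or_gt ((v8 : ℤ) + q + 2) v0 with hh | hh
      · refine EM_pr (B := B) (by omega) hq (by omega) b0 (by rw [bl]; omega) bF hM' ?_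
        push_cast at hM1 ⊢
        have e1 : (0 : ℝ) ≤ 2 * (3 * q + 4) * (q + 2) := by positivity
        have e2 : (238 : ℝ) * (B : ℝ) ^ 2 ≤ 272 * (B : ℝ) ^ 2 :=
          mul_le_mul_of_nonneg_right (by norm_num) (by positivity)
        linarith
      · have hFle : Fp c v6 v7 0 v8 0 N2 (N2 - (q + 2)) ≤ Fp c v6 v7 0 v8 0 N2 N2 := by
          have g : Pf (pr c v6 v7 0 v8 0 N2) (Fp c v6 v7 0 v8 0 N2)
            {(v6 : ℤ), (v7 : ℤ), 0, N2 - 1 - v8, N2 - 1 - 0} (N2 - (q + 2)) N2 0 :=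
            Pf_pr (bpf.low _ (by omega) (by omega)) (by omega)
          exact g.F_le le_rfl (by omega)
        refine EM_pr2 (B := B) (N' := N2 - (q + 2)) (U := 3 * q + 4) (by omega) hq (by omega)
          (by omega) b0 ?_ bF (by omega) ?_ hM' ?_
        · rw [pr_near (by omega) (by omega) (by omega) (by omega)]
          have := ps_le (z := (v8 : ℤ) - (q + 2)) (w := v8) (by omega) (by omega)
          omega
        · intro y y0 y1
          unfold pr A5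
          have p1 := ps_nonneg ((v6 : ℤ) - y)
          have p2 := ps_nonneg ((v7 : ℤ) - y)
          have p3 := ps_nonneg (0 - y)
          have p4 := ps_ge ((v8 : ℤ) - (N2 - 1 - y))
          have p5 := ps_nonneg (0 - (N2 - 1 - y))
          omega
        · push_cast at hM1 ⊢
          have e1 : (Fp c v6 v7 0 v8 0 N2 (N2 - (q + 2)) : ℝ) ≤ (Fp c v6 v7 0 v8 0 N2 N2 : ℝ) := by
            exact_mod_cast hFle
          have e2 : (N2 : ℝ) - (N2 - (q + 2)) = q + 2 := by ring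
          rw [e2]
          linarith
    have := EM5z (M := M') (d := (d : ℤ) - N1) (N := N2) (b1 := v6) (b2 := v7)
      (t1 := v8) (by rw [← hc]; exact key)
    simpa only [add_assoc] using this
  have G := PE.glue P1 P2 (Gr_finite 0 d (fun y _ _ => le_rfl) (fun y hy _ => by omega)) (by
      refine Set.Finite.subset ((Set.finite_Icc (0 : ℤ) d).prod (Set.finite_Icc N1 (N1 + N2))) ?_
      rintro ⟨x, y⟩ ⟨g1, g2, g3, g4⟩
      simp only at g1 g2 g3 g4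
      exact ⟨⟨g1, by simp only; omega⟩, ⟨g2, by simp only; omega⟩⟩)
    (fun p hp => ⟨hp.2.2.1, hp.1⟩) (fun p hp => ⟨hp.1, by
      have := hp.2.1
      omega⟩) (by positivity) (by positivity) 0 1 (by
      intro p hp r hr
      have h1 := hp.2.1
      have h2 := hr.2.1
      omega)
  have hsum : (Δ : ℤ) = Fp ((d : ℤ) + 1) v1 v2 v3 v4 v5 N1 N1 + Fp c v6 v7 0 v8 0 N2 N2 := by
    have e : ((Δ + (v0 * (v0 + 1) + v1 * (v1 + 1) + v2 * (v2 + 1) + v3 * (v3 + 1) +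
      v4 * (v4 + 1) + v5 * (v5 + 1) + v6 * (v6 + 1) + v7 * (v7 + 1) + v8 * (v8 + 1)) : ℕ) : ℤ) =
      (((d + 1) * (d + 2) : ℕ) : ℤ) := by rw [hΔ]
    push_cast at e
    rw [aT, bT, hc, hN2]
    linarith
  refine EM_top (Emp.mono (G M hM ?_) ?_)
  · have e1 : (Δ : ℝ) = (Fp ((d : ℤ) + 1) v1 v2 v3 v4 v5 N1 N1 : ℝ) +
      (Fp c v6 v7 0 v8 0 N2 N2 : ℝ) := by exact_mod_cast hsum
    have e2 : ((Δ + 4916224 * m ^ 2 : ℕ) : ℝ) < S2 M := by exact_mod_cast h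
    push_cast at e2
    have e3 : (q : ℝ) = 96 * m + 1 := by rw [hq0]; push_cast; ring
    have e4 : (B : ℝ) = 8 * m := by rw [hB]; push_cast; ring
    rw [e3, e4]
    push_cast
    nlinarith
  · rintro ⟨x, y⟩ ⟨g1, g2, g3, g4⟩
    simp only at g1 g2 g3 g4
    rcases lt_or_ge y N1 with hy | hy
    · exact Or.inl ⟨g1, hy, g3, g4⟩
    · exact Or.inr ⟨g3, hy, by simp only; omega, by simp only; omega⟩

theorem ms9 (u : Fin 9 → ℕ) : ms u = {u 0} + (({u 1} + ({u 2} + ({u 3} + ({u 4} + {u 5})))) +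
    ({u 6} + ({u 7} + {u 8}))) := by
  unfold ms
  rw [Fin.sum_univ_succ, Fin.sum_univ_eight]
  change {u 0} + ({u 1} + {u 2} + {u 3} + {u 4} + {u 5} + {u 6} + {u 7} + {u 8}) = _
  abel

theorem sum9 (f : Fin 9 → ℕ) : ∑ i, f i = f 0 + f 1 + f 2 + f 3 + f 4 + f 5 + f 6 + f 7 + f 8 := by
  rw [Fin.sum_univ_succ, Fin.sum_univ_eight]
  change f 0 + (f 1 + f 2 + f 3 + f 4 + f 5 + f 6 + f 7 + f 8) = _
  ring

theorem anti9 {u : Fin 9 → ℕ} (hu : Antitone u) : u 1 ≤ u 0 ∧ u 2 ≤ u 1 ∧ u 3 ≤ u 2 ∧ u 4 ≤ u 3 ∧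
    u 5 ≤ u 4 ∧ u 6 ≤ u 5 ∧ u 7 ≤ u 6 ∧ u 8 ≤ u 7 :=
  ⟨hu (by decide), hu (by decide), hu (by decide), hu (by decide), hu (by decide),
    hu (by decide), hu (by decide), hu (by decide)⟩

theorem SM9 {M : Multiset ℕ} {m d Δ : ℕ} {u : Fin 9 → ℕ} (hm : 1 ≤ m)
    (hM : ∀ x ∈ M, x + 1 ≤ 8 * m) (hu : Antitone u) (h1 : u 0 + u 1 + u 6 + 8192 * m ≤ d)
    (h2 : u 1 + u 2 + u 3 + 8192 * m ≤ d) (hΔ : Δ + ∑ i, u i * (u i + 1) = (d + 1) * (d + 2))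
    (h : sq1 M + 204000000 * m ^ 2 + Δ / (256 * m) + 1 ≤ Δ) : SM (ms u + M) (TZ d) := by
  obtain ⟨o1, o2, o3, o4, o5, o6, o7, o8⟩ := anti9 hu
  rw [sum9] at hΔ
  rw [ms9, add_assoc]
  exact SM9n hm hM o1 o2 o3 o4 o5 o6 o7 o8 h1 h2 hΔ h

theorem EM9 {M : Multiset ℕ} {m d Δ : ℕ} {u : Fin 9 → ℕ} (hm : 1 ≤ m)
    (hM : ∀ x ∈ M, 1 ≤ x ∧ x ≤ 8 * m) (hu : Antitone u) (h1 : u 0 + u 1 + u 6 + 8192 * m ≤ d)
    (h2 : u 1 + u 2 + u 3 + 8192 * m ≤ d) (hΔ : Δ + ∑ i, u i * (u i + 1) = (d + 1) * (d + 2))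
    (h : Δ + 4916224 * m ^ 2 < S2 M) : EM (ms u + M) (TZ d) := by
  obtain ⟨o1, o2, o3, o4, o5, o6, o7, o8⟩ := anti9 hu
  rw [sum9] at hΔ
  rw [ms9, add_assoc]
  exact EM9n hm hM o1 o2 o3 o4 o5 o6 o7 o8 h1 h2 hΔ h

end Pool.Agent.K6.H83.HN
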