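import Pool.Agent.K6.H83.HN.Pr

/-! Independence and emptiness with large points on a stack of rows, and gluing. -/

set_option autoImplicit false

namespace Pool.Agent.K6.H83.HN

open Finset Pool.Agent.TH176.Nag Pool.Agent.TH603.Sur Pool.Agent.TH641.UM Pool.Agent.K6.H83.QH
  Pool.Agent.Y205.AV Pool.Agent.K6.H83.HX

/-- independence of the points `V` and of all bounded multisets of cost at most `c` -/
def PS (V : Multiset ℕ) (m l : ℕ) (S : Set (ℤ × ℤ)) (c : ℝ) : Prop :=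
  ∀ M : Multiset ℕ, (∀ x ∈ M, x + 1 ≤ 8 * m) → (M = 0 ∨ (sq1 M : ℝ) + l * (m : ℝ) ^ 2 ≤ c) →
    SM (V + M) S

/-- emptiness for the points `V` and all bounded multisets with sum of squares more than `D` -/
def PE (V : Multiset ℕ) (B k : ℕ) (S : Set (ℤ × ℤ)) (D : ℝ) : Prop :=
  ∀ M : Multiset ℕ, (∀ x ∈ M, 1 ≤ x ∧ x ≤ B) → D + k * (B : ℝ) ^ 2 < S2 M → EM (V + M) S

theorem PS.glue {V1 V2 : Multiset ℕ} {m l1 l2 : ℕ} {S U : Set (ℤ × ℤ)} {c1 c2 : ℝ}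
    (h1 : PS V1 m l1 S c1) (h2 : PS V2 m l2 U c2) (hS0 : ∀ p ∈ S, 0 ≤ p.1 ∧ 0 ≤ p.2)
    (hU0 : ∀ p ∈ U, 0 ≤ p.1 ∧ 0 ≤ p.2)
    (a b : ℤ) (hcut : ∀ p ∈ S, ∀ q ∈ U, a * p.1 + b * p.2 < a * q.1 + b * q.2) :
    PS (V1 + V2) m (l1 + l2 + 64) (S ∪ U) (c1 + c2) := by
  intro M hM h
  obtain ⟨M1, M2, e, g1, g2⟩ : ∃ M1 M2 : Multiset ℕ, M = M1 + M2 ∧
      (M1 = 0 ∨ (sq1 M1 : ℝ) + l1 * (m : ℝ) ^ 2 ≤ c1) ∧
      (M2 = 0 ∨ (sq1 M2 : ℝ) + l2 * (m : ℝ) ^ 2 ≤ c2) := by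
    rcases h with h | h
    · exact ⟨0, 0, by rw [h, add_zero], Or.inl rfl, Or.inl rfl⟩
    · push_cast at h
      obtain ⟨M1, M2, e, g1, g2⟩ := split_sq1 (b := 8 * m) M (c1 := c1 - l1 * (m : ℝ) ^ 2)
        (c2 := c2 - l2 * (m : ℝ) ^ 2) hM (by
          push_cast
          have : (8 * (m : ℝ)) ^ 2 = 64 * m ^ 2 := by ring
          linarith)
      refine ⟨M1, M2, e, ?_, ?_⟩
      · rcases g1 with g1 | g1
        · exact Or.inl g1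
        · exact Or.inr (by linarith)
      · rcases g2 with g2 | g2
        · exact Or.inl g2
        · exact Or.inr (by linarith)
  have k1 := h1 M1 (fun x hx => hM x (by rw [e]; exact Multiset.mem_add.2 (Or.inl hx))) g1
  have k2 := h2 M2 (fun x hx => hM x (by rw [e]; exact Multiset.mem_add.2 (Or.inr hx))) g2
  have k3 := Sur_cut hS0 hU0 a b hcut k1 k2
  exact (SM_iff (by rw [ms_sum, ms_fam, ms_fam, e]; abel)).2 k3

theorem PE.glue {V1 V2 : Multiset ℕ} {B k1 k2 : ℕ} {S U : Set (ℤ × ℤ)} {D1 D2 : ℝ}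
    (h1 : PE V1 B k1 S D1) (h2 : PE V2 B k2 U D2) (hSf : S.Finite) (hUf : U.Finite)
    (hS0 : ∀ p ∈ S, 0 ≤ p.1 ∧ 0 ≤ p.2) (hU0 : ∀ p ∈ U, 0 ≤ p.1 ∧ 0 ≤ p.2)
    (hD1 : 0 ≤ D1) (hD2 : 0 ≤ D2)
    (a b : ℤ) (hcut : ∀ p ∈ S, ∀ q ∈ U, a * p.1 + b * p.2 < a * q.1 + b * q.2) :
    PE (V1 + V2) B (k1 + k2 + 1) (S ∪ U) (D1 + D2) := by
  intro M hM h
  push_cast at h
  obtain ⟨M1, M2, e, g1, g2⟩ := split_S2 (b := B) M (c1 := D1 + k1 * (B : ℝ) ^ 2)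
    (c2 := D2 + k2 * (B : ℝ) ^ 2) (fun x hx => (hM x hx).2) (by
      have : (0 : ℝ) ≤ k1 * (B : ℝ) ^ 2 := by positivity
      have : (0 : ℝ) ≤ (B : ℝ) ^ 2 := by positivity
      linarith) (by positivity) (by linarith)
  have k1 := h1 M1 (fun x hx => hM x (by rw [e]; exact Multiset.mem_add.2 (Or.inl hx))) g1
  have k2 := h2 M2 (fun x hx => hM x (by rw [e]; exact Multiset.mem_add.2 (Or.inr hx))) g2
  have k3 := Pool.Agent.TH698.NagT3.Emp_cut hSf hUf hS0 hU0 a b hcut k1 k2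
  exact (EM_iff (by rw [ms_sum, ms_fam, ms_fam, e]; abel)).2 k3

/-- the shift upwards -/
def Gu (d h N : ℤ) : Set (ℤ × ℤ) := {p | 0 ≤ p.1 ∧ h ≤ p.2 ∧ p.2 < h + N ∧ p.1 + p.2 ≤ d}

theorem PS.up {V : Multiset ℕ} {m l : ℕ} {d h N : ℤ} {c : ℝ}
    (g : PS V m l (Gr (fun _ => 0) (fun y => (d - h) - y) N) c) : PS V m l (Gu d h N) c := by
  intro M hM hM1
  refine SM_comap (g M hM hM1) 1 0 0 1 0 (-h) (by norm_num) ?_
  rintro ⟨x, y⟩ ⟨g1, g2, g3, g4⟩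
  simp only at g1 g2 g3 g4
  refine ⟨(x, y + h), ⟨g3, by simp only; omega, by simp only; omega, by simp only; omega⟩, ?_⟩
  ext
  · simp only; ring
  · simp only; ring

theorem PE.up {V : Multiset ℕ} {B k : ℕ} {d h N : ℤ} {D : ℝ}
    (g : PE V B k (Gr (fun _ => 0) (fun y => (d - h) - y) N) D) : PE V B k (Gu d h N) D := by
  intro M hM hM1
  refine EM_comap (g M hM hM1) 1 0 0 1 0 (-h) (by norm_num) ?_
  rintro ⟨x, y⟩ ⟨g1, g2, g3, g4⟩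
  simp only at g1 g2 g3 g4
  exact ⟨by simp only; omega, by simp only; omega, by simp only; omega, by simp only; omega⟩

/-- the region below the profile: independence -/
theorem SM_pr {M : Multiset ℕ} {m : ℕ} {c b1 b2 b3 t1 t2 N N' Q : ℤ} (hm : 1 ≤ m)
    (hQ : Q = 1280 * m) (hN : Q ≤ N') (hN' : N' ≤ N) (h0 : Q + 2 ≤ pr c b1 b2 b3 t1 t2 N 0)
    (h1 : Q + 2 ≤ pr c b1 b2 b3 t1 t2 N (N' - 1)) (hF : Fp c b1 b2 b3 t1 t2 N 0 = 0)
    (hM : ∀ x ∈ M, x + 1 ≤ 8 * m) (h : M = 0 ∨ (sq1 M : ℝ) + (7346304 : ℕ) * (m : ℝ) ^ 2 ≤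
      κ m * ((Fp c b1 b2 b3 t1 t2 N N' : ℝ) - 54 * Q ^ 2)) :
    SM M {p : ℤ × ℤ | 0 ≤ p.1 ∧ 0 ≤ p.2 ∧ p.2 < N ∧ p.1 < pr c b1 b2 b3 t1 t2 N p.2} := by
  rcases h with h | h
  · rw [h]; exact SM_empty
  · have k := FS_prof (m := m) hm hQ 5 (a := 0) (b := N') le_rfl (by omega)
      (Pf_pr (c := c) (b1 := b1) (b2 := b2) (b3 := b3) (t1 := t1) (t2 := t2) (N := N) h0 h1)
      (card5 _ _ _ _ _ _) M hM (by
        rw [hF]
        push_cast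
        push_cast at h
        have e : (6 * 5 + 24 : ℝ) = 54 := by norm_num
        rw [e]
        linarith)
    refine SM_monoS k ?_
    rintro ⟨x, y⟩ ⟨g1, g2, g3, g4⟩
    exact ⟨g1, g2, lt_of_lt_of_le g3 hN', g4⟩

/-- the region below the profile: emptiness -/
theorem EM_pr {M : Multiset ℕ} {B : ℕ} {c b1 b2 b3 t1 t2 N q : ℤ} (hB : 1 ≤ B)
    (hq : q = 12 * B + 1) (hN : q ≤ N) (h0 : q + 3 ≤ pr c b1 b2 b3 t1 t2 N 0)
    (h1 : q + 3 ≤ pr c b1 b2 b3 t1 t2 N (N - 1)) (hF : Fp c b1 b2 b3 t1 t2 N 0 = 0)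
    (hM : ∀ x ∈ M, 1 ≤ x ∧ x ≤ B) (h : (Fp c b1 b2 b3 t1 t2 N N : ℝ) + 108 * q ^ 2 +
      (238 : ℕ) * (B : ℝ) ^ 2 < S2 M) :
    EM M {p : ℤ × ℤ | 0 ≤ p.1 ∧ 0 ≤ p.2 ∧ p.2 < N ∧ p.1 < pr c b1 b2 b3 t1 t2 N p.2} := by
  exact FE_prof (B := B) hB hq 5 (a := 0) (b := N) le_rfl (by omega)
      (Pf_pr (c := c) (b1 := b1) (b2 := b2) (b3 := b3) (t1 := t1) (t2 := t2) (N := N) h0 h1)
      (card5 _ _ _ _ _ _) M hM (by
        rw [hF]
        push_cast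
        push_cast at h
        have e : (12 * 5 + 48 : ℝ) = 108 := by norm_num
        rw [e]
        linarith)

/-- the region below the profile: emptiness, with a thin end -/
theorem EM_pr2 {M : Multiset ℕ} {B : ℕ} {c b1 b2 b3 t1 t2 N N' q U : ℤ} (hB : 1 ≤ B)
    (hq : q = 12 * B + 1) (hN : q ≤ N') (hN' : q + N' ≤ N)
    (h0 : q + 3 ≤ pr c b1 b2 b3 t1 t2 N 0)
    (h1 : q + 3 ≤ pr c b1 b2 b3 t1 t2 N (N' - 1)) (hF : Fp c b1 b2 b3 t1 t2 N 0 = 0)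
    (hU : 12 * (B : ℤ) ≤ U) (hn : ∀ y, N' ≤ y → y < N → pr c b1 b2 b3 t1 t2 N y ≤ U)
    (hM : ∀ x ∈ M, 1 ≤ x ∧ x ≤ B) (h : (Fp c b1 b2 b3 t1 t2 N N' : ℝ) + 108 * q ^ 2 +
      2 * U * (N - N') + (272 : ℕ) * (B : ℝ) ^ 2 < S2 M) :
    EM M {p : ℤ × ℤ | 0 ≤ p.1 ∧ 0 ≤ p.2 ∧ p.2 < N ∧ p.1 < pr c b1 b2 b3 t1 t2 N p.2} := by
  have hpf := Pf_pr (c := c) (b1 := b1) (b2 := b2) (b3 := b3) (t1 := t1) (t2 := t2) (N := N)
    (a := 0) (b := N') h0 h1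
  have hF0 : (0 : ℝ) ≤ (Fp c b1 b2 b3 t1 t2 N N' : ℝ) := by
    have := hpf.F_le (by omega) (by omega)
    rw [hF] at this
    exact_mod_cast this
  have k1 := FE_prof (B := B) hB hq 5 (a := 0) (b := N') le_rfl (by omega) hpf
      (card5 _ _ _ _ _ _)
  have k2 := FE_thin (B := B) (n := pr c b1 b2 b3 t1 t2 N) (a := N') (b := N) (U := U) hB
    (by omega) (by omega) hU hn
  have hfin : ∀ a b : ℤ, 0 ≤ a → (Rp (pr c b1 b2 b3 t1 t2 N) a b).Finite := by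
    intro a b ha
    refine Set.Finite.subset ((Set.finite_Icc (0 : ℤ) c).prod (Set.finite_Icc a b)) ?_
    rintro ⟨x, y⟩ ⟨g1, g2, g3, g4⟩
    simp only [pr, A5] at g1 g2 g3 g4
    have p1 := ps_nonneg (b1 - y)
    have p2 := ps_nonneg (b2 - y)
    have p3 := ps_nonneg (b3 - y)
    have p4 := ps_nonneg (t1 - (N - 1 - y))
    have p5 := ps_nonneg (t2 - (N - 1 - y))
    exact ⟨⟨g1, by simp only; omega⟩, ⟨g2, by simp only; omega⟩⟩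
  have hUR : (0 : ℝ) ≤ 2 * U * (N - N') := by
    have : (0 : ℤ) ≤ 2 * U * (N - N') := mul_nonneg (by omega) (by omega)
    exact_mod_cast this
  have key := FE.glue k1 k2 (hfin _ _ le_rfl) (hfin _ _ (by omega)) (fun p hp => ⟨hp.1, hp.2.1⟩)
    (fun p hp => ⟨hp.1, le_trans (by omega) hp.2.1⟩) (by
      rw [hF]
      push_cast
      positivity) hUR 0 1 (by
      intro p hp r hr
      have h1 := hp.2.2.1
      have h2 := hr.2.1
      omega)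
  refine Emp.mono (key M hM ?_) ?_
  · rw [hF]
    push_cast
    push_cast at h
    have e : (12 * 5 + 48 : ℝ) = 108 := by norm_num
    rw [e]
    norm_num
    linarith
  · rintro ⟨x, y⟩ ⟨g1, g2, g3, g4⟩
    simp only at g1 g2 g3 g4
    rcases lt_or_ge y N' with hy | hy
    · exact Or.inl ⟨g1, g2, hy, g4⟩
    · exact Or.inr ⟨g1, hy, g3, g4⟩

/-- **independence** with three large points on a stack of rows -/
theorem SM5z {M : Multiset ℕ} {d N : ℤ} {b1 b2 t1 : ℕ} (h1 : (b1 : ℤ) ≤ N)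
    (h2 : (b2 : ℤ) ≤ N) (h4 : (t1 : ℤ) ≤ N)
    (hp : ∀ y, 0 ≤ y → y < N → 0 ≤ pr (d + 1) b1 b2 0 t1 0 N y)
    (h : SM M {p : ℤ × ℤ | 0 ≤ p.1 ∧ 0 ≤ p.2 ∧ p.2 < N ∧
      p.1 < pr (d + 1) b1 b2 0 t1 0 N p.2}) :
    SM ({b1} + ({b2} + ({t1} + M))) (Gr (fun _ => 0) (fun y => d - y) N) := by
  have s0 : SM M (Gr (fun y => A5 b1 b2 0 t1 0 N y) (fun y => d - y) N) := by
    refine SM_comap h (-1) (-1) 0 1 d 0 (by norm_num) ?_
    rintro ⟨x, y⟩ ⟨g1, g2, g3, g4⟩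
    simp only [pr] at g1 g2 g3 g4
    refine ⟨(d - y - x, y), ⟨g2, g3, by simp only; omega, by simp only; omega⟩, ?_⟩
    ext
    · simp only; ring
    · simp only; ring
  refine SM_absL b1 _ _ N h1 ?_ ?_
  · intro y y0 y1
    have g := hp y y0 (by omega)
    unfold pr A5 at g
    rw [ps_of_nonneg (z := (b1 : ℤ) - y) (by omega)] at g
    have p2 := ps_nonneg ((b2 : ℤ) - y)
    have p3 := ps_nonneg (0 - y)
    have p4 := ps_nonneg ((t1 : ℤ) - (N - 1 - y))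
    have p5 := ps_nonneg (0 - (N - 1 - y))
    omega
  refine SM_absL b2 _ _ N h2 ?_ ?_
  · intro y y0 y1
    have g := hp y y0 (by omega)
    unfold pr A5 at g
    rw [ps_of_nonneg (z := (b2 : ℤ) - y) (by omega)] at g
    have p3 := ps_nonneg (0 - y)
    have p4 := ps_nonneg ((t1 : ℤ) - (N - 1 - y))
    have p5 := ps_nonneg (0 - (N - 1 - y))
    omega
  refine SM_absR t1 _ _ N h4 ?_ ?_
  · intro y y0 y1
    have g := hp (N - 1 - y) (by omega) (by omega)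
    unfold pr A5 at g
    have e : N - 1 - (N - 1 - y) = y := by ring
    rw [e, ps_of_nonneg (z := (t1 : ℤ) - y) (by omega)] at g
    have p3 := ps_nonneg (0 - (N - 1 - y))
    have p5 := ps_nonneg (0 - y)
    omega
  refine SM_monoS s0 ?_
  rintro ⟨x, y⟩ ⟨g1, g2, g3, g4⟩
  simp only [A5] at g1 g2 g3 g4
  rw [ps_of_nonpos (z := 0 - y) (by omega), ps_of_nonpos (z := 0 - (N - 1 - y)) (by omega)] at g3
  exact ⟨g1, g2, by simp only; omega, g4⟩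

/-- **emptiness** with three large points on a stack of rows -/
theorem EM5z {M : Multiset ℕ} {d N : ℤ} {b1 b2 t1 : ℕ}
    (h : EM M {p : ℤ × ℤ | 0 ≤ p.1 ∧ 0 ≤ p.2 ∧ p.2 < N ∧
      p.1 < pr (d + 1) b1 b2 0 t1 0 N p.2}) :
    EM ({b1} + ({b2} + ({t1} + M))) (Gr (fun _ => 0) (fun y => d - y) N) := by
  have s0 : EM M (Gr (fun y => A5 b1 b2 0 t1 0 N y) (fun y => d - y) N) := by
    refine EM_comap h (-1) (-1) 0 1 d 0 (by norm_num) ?_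
    rintro ⟨x, y⟩ ⟨g1, g2, g3, g4⟩
    simp only at g1 g2 g3 g4
    have e1 : 0 * x + 1 * y + 0 = y := by ring
    refine ⟨by simp only; omega, by simp only; omega, by simp only; omega, ?_⟩
    simp only [e1, pr]
    omega
  have hfin : ∀ A : ℤ → ℤ, (∀ y, 0 ≤ A y) → (Gr A (fun y => d - y) N).Finite := fun A hA =>
    Gr_finite 0 d (fun y _ _ => hA y) (fun y hy _ => by omega)
  refine EM_absL b1 _ _ N (hfin _ fun y => le_rfl) ?_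
  refine EM_absL b2 _ _ N (hfin _ fun y => ?_) ?_
  · have p1 := ps_nonneg ((b1 : ℤ) - y)
    omega
  refine EM_absR t1 _ _ N (hfin _ fun y => ?_) ?_
  · have p1 := ps_nonneg ((b1 : ℤ) - y)
    have p2 := ps_nonneg ((b2 : ℤ) - y)
    omega
  refine Emp.mono s0 ?_
  rintro ⟨x, y⟩ ⟨g1, g2, g3, g4⟩
  simp only at g1 g2 g3 g4
  refine ⟨g1, g2, ?_, g4⟩
  simp only [A5]
  rw [ps_of_nonpos (z := 0 - y) (by omega), ps_of_nonpos (z := 0 - (N - 1 - y)) (by omega)]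
  omega

end Pool.Agent.K6.H83.HN
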