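import Pool.Agent.K6.H83.HN.Prof
import Pool.Agent.K6.H83.HN.Abs

/-! The profile left by five large points. -/

set_option autoImplicit false

namespace Pool.Agent.K6.H83.HN

open Finset Pool.Agent.TH176.Nag Pool.Agent.TH603.Sur Pool.Agent.TH641.UM Pool.Agent.K6.H83.QH
  Pool.Agent.Y205.AV Pool.Agent.K6.H83.HX

theorem ps_conv (z : ℤ) : 2 * ps z ≤ ps (z + 1) + ps (z - 1) := by
  unfold ps
  rcases max_cases z 0 with ⟨c1, c2⟩ | ⟨c1, c2⟩ <;>
    rcases max_cases (z + 1) 0 with ⟨c3, c4⟩ | ⟨c3, c4⟩ <;>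
    rcases max_cases (z - 1) 0 with ⟨c5, c6⟩ | ⟨c5, c6⟩ <;> rw [c1, c3, c5] <;> omega

theorem ps_aff {z : ℤ} (h : z ≠ 0) : 2 * ps z = ps (z + 1) + ps (z - 1) := by
  unfold ps
  rcases max_cases z 0 with ⟨c1, c2⟩ | ⟨c1, c2⟩ <;>
    rcases max_cases (z + 1) 0 with ⟨c3, c4⟩ | ⟨c3, c4⟩ <;>
    rcases max_cases (z - 1) 0 with ⟨c5, c6⟩ | ⟨c5, c6⟩ <;> rw [c1, c3, c5] <;> omega

theorem ps_mono (z : ℤ) : ps z ≤ ps (z + 1) ∧ ps (z + 1) ≤ ps z + 1 := by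
  unfold ps
  rcases max_cases z 0 with ⟨c1, c2⟩ | ⟨c1, c2⟩ <;>
    rcases max_cases (z + 1) 0 with ⟨c3, c4⟩ | ⟨c3, c4⟩ <;> rw [c1, c3] <;> omega

theorem ps_sum (z : ℤ) : ps z * (ps z + 1) = ps (z - 1) * (ps (z - 1) + 1) + 2 * ps z := by
  rcases le_or_gt z 0 with h | h
  · rw [ps_of_nonpos h, ps_of_nonpos (z := z - 1) (by omega)]
    norm_num
  · rw [ps_of_nonneg h.le, ps_of_nonneg (z := z - 1) (by omega)]
    ring

/-- the summation of the profile -/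
def Fp (c b1 b2 b3 t1 t2 N y : ℤ) : ℤ :=
  y * (2 * c - y + 1) - (b1 * (b1 + 1) - ps (b1 - y) * (ps (b1 - y) + 1)) -
    (b2 * (b2 + 1) - ps (b2 - y) * (ps (b2 - y) + 1)) -
    (b3 * (b3 + 1) - ps (b3 - y) * (ps (b3 - y) + 1)) -
    ps (t1 - N + y) * (ps (t1 - N + y) + 1) - ps (t2 - N + y) * (ps (t2 - N + y) + 1)

theorem Fp_zero {c b1 b2 b3 t1 t2 N : ℤ} (h1 : 0 ≤ b1) (h2 : 0 ≤ b2) (h3 : 0 ≤ b3)
    (h4 : t1 ≤ N) (h5 : t2 ≤ N) : Fp c b1 b2 b3 t1 t2 N 0 = 0 := by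
  unfold Fp
  rw [ps_of_nonneg (z := b1 - 0) (by omega), ps_of_nonneg (z := b2 - 0) (by omega),
    ps_of_nonneg (z := b3 - 0) (by omega), ps_of_nonpos (z := t1 - N + 0) (by omega),
    ps_of_nonpos (z := t2 - N + 0) (by omega)]
  ring

theorem Fp_top {c b1 b2 b3 t1 t2 N : ℤ} (h1 : b1 ≤ N) (h2 : b2 ≤ N) (h3 : b3 ≤ N)
    (h4 : 0 ≤ t1) (h5 : 0 ≤ t2) : Fp c b1 b2 b3 t1 t2 N N =
      N * (2 * c - N + 1) - b1 * (b1 + 1) - b2 * (b2 + 1) - b3 * (b3 + 1) - t1 * (t1 + 1) -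
        t2 * (t2 + 1) := by
  unfold Fp
  rw [ps_of_nonpos (z := b1 - N) (by omega), ps_of_nonpos (z := b2 - N) (by omega),
    ps_of_nonpos (z := b3 - N) (by omega), ps_of_nonneg (z := t1 - N + N) (by omega),
    ps_of_nonneg (z := t2 - N + N) (by omega)]
  ring

theorem pr_conc (c b1 b2 b3 t1 t2 N y : ℤ) :
    pr c b1 b2 b3 t1 t2 N y + pr c b1 b2 b3 t1 t2 N (y + 2) ≤
      2 * pr c b1 b2 b3 t1 t2 N (y + 1) := by
  have e1 := ps_conv (b1 - (y + 1))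
  have e2 := ps_conv (b2 - (y + 1))
  have e3 := ps_conv (b3 - (y + 1))
  have e4 := ps_conv (t1 - (N - 1 - (y + 1)))
  have e5 := ps_conv (t2 - (N - 1 - (y + 1)))
  have r : ∀ b : ℤ, b - (y + 1) + 1 = b - y ∧ b - (y + 1) - 1 = b - (y + 2) := fun b =>
    ⟨by ring, by ring⟩
  have s : ∀ t : ℤ, t - (N - 1 - (y + 1)) + 1 = t - (N - 1 - (y + 2)) ∧
    t - (N - 1 - (y + 1)) - 1 = t - (N - 1 - y) := fun t => ⟨by ring, by ring⟩
  rw [(r b1).1, (r b1).2] at e1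
  rw [(r b2).1, (r b2).2] at e2
  rw [(r b3).1, (r b3).2] at e3
  rw [(s t1).1, (s t1).2] at e4
  rw [(s t2).1, (s t2).2] at e5
  unfold pr A5
  linarith

theorem Pf_pr {c b1 b2 b3 t1 t2 N a b q : ℤ} (h0 : q ≤ pr c b1 b2 b3 t1 t2 N a)
    (h1 : q ≤ pr c b1 b2 b3 t1 t2 N (b - 1)) :
    Pf (pr c b1 b2 b3 t1 t2 N) (Fp c b1 b2 b3 t1 t2 N) {b1, b2, b3, N - 1 - t1, N - 1 - t2} a b
      q := by
  have conc : ∀ y, a ≤ y → y + 2 < b → pr c b1 b2 b3 t1 t2 N y + pr c b1 b2 b3 t1 t2 N (y + 2) ≤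
      2 * pr c b1 b2 b3 t1 t2 N (y + 1) := fun y _ _ => pr_conc c b1 b2 b3 t1 t2 N y
  refine ⟨conc, ?_, ?_, ?_, ?_, conc_min conc h0 h1⟩
  · intro y _ _ hy
    simp only [mem_insert, mem_singleton, not_or] at hy
    obtain ⟨y1, y2, y3, y4, y5⟩ := hy
    have e1 := ps_aff (z := b1 - (y + 1)) (by omega)
    have e2 := ps_aff (z := b2 - (y + 1)) (by omega)
    have e3 := ps_aff (z := b3 - (y + 1)) (by omega)
    have e4 := ps_aff (z := t1 - (N - 1 - (y + 1))) (by omega)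
    have e5 := ps_aff (z := t2 - (N - 1 - (y + 1))) (by omega)
    have r : ∀ b : ℤ, b - (y + 1) + 1 = b - y ∧ b - (y + 1) - 1 = b - (y + 2) := fun b =>
      ⟨by ring, by ring⟩
    have s : ∀ t : ℤ, t - (N - 1 - (y + 1)) + 1 = t - (N - 1 - (y + 2)) ∧
      t - (N - 1 - (y + 1)) - 1 = t - (N - 1 - y) := fun t => ⟨by ring, by ring⟩
    rw [(r b1).1, (r b1).2] at e1
    rw [(r b2).1, (r b2).2] at e2
    rw [(r b3).1, (r b3).2] at e3
    rw [(s t1).1, (s t1).2] at e4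
    rw [(s t2).1, (s t2).2] at e5
    unfold pr A5
    linarith
  · intro y _ _
    have e1 := ps_mono (b1 - (y + 1))
    have e2 := ps_mono (b2 - (y + 1))
    have e3 := ps_mono (b3 - (y + 1))
    have e4 := ps_mono (t1 - (N - 1 - y))
    have e5 := ps_mono (t2 - (N - 1 - y))
    have r : ∀ b : ℤ, b - (y + 1) + 1 = b - y := fun b => by ring
    have s : ∀ t : ℤ, t - (N - 1 - y) + 1 = t - (N - 1 - (y + 1)) := fun t => by ring
    rw [r] at e1 e2 e3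
    rw [s] at e4 e5
    unfold pr A5
    linarith [e1.1, e1.2, e2.1, e2.2, e3.1, e3.2, e4.1, e4.2, e5.1, e5.2]
  · intro y _ _
    have e1 := ps_mono (b1 - (y + 1))
    have e2 := ps_mono (b2 - (y + 1))
    have e3 := ps_mono (b3 - (y + 1))
    have e4 := ps_mono (t1 - (N - 1 - y))
    have e5 := ps_mono (t2 - (N - 1 - y))
    have r : ∀ b : ℤ, b - (y + 1) + 1 = b - y := fun b => by ring
    have s : ∀ t : ℤ, t - (N - 1 - y) + 1 = t - (N - 1 - (y + 1)) := fun t => by ring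
    rw [r] at e1 e2 e3
    rw [s] at e4 e5
    unfold pr A5
    linarith [e1.1, e1.2, e2.1, e2.2, e3.1, e3.2, e4.1, e4.2, e5.1, e5.2]
  · intro y _ _
    have e1 := ps_sum (b1 - y)
    have e2 := ps_sum (b2 - y)
    have e3 := ps_sum (b3 - y)
    have e4 := ps_sum (t1 - N + (y + 1))
    have e5 := ps_sum (t2 - N + (y + 1))
    have r : ∀ b : ℤ, b - y - 1 = b - (y + 1) := fun b => by ring
    have s : ∀ t : ℤ, t - N + (y + 1) - 1 = t - N + y := fun t => by ring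
    have u : ∀ t : ℤ, t - (N - 1 - y) = t - N + (y + 1) := fun t => by ring
    rw [r] at e1 e2 e3
    rw [s] at e4 e5
    unfold Fp pr A5
    rw [u t1, u t2]
    linarith

theorem Pf.F_le {n F : ℤ → ℤ} {P : Finset ℤ} {a b q : ℤ} (h : Pf n F P a b q) (hq : 0 ≤ q)
    (hab : a ≤ b) : F a ≤ F b := by
  have key : ∀ c, a ≤ c → c ≤ b → F a ≤ F c := by
    intro c hc
    induction c, hc using Int.le_induction with
    | base => intro _; exact le_rfl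
    | succ c hc ih =>
      intro hcb
      have h1 := ih (by omega)
      have h2 := h.sum c hc (by omega)
      have h3 := h.low c hc (by omega)
      omega
  exact key b hab le_rfl

theorem card5 (b1 b2 b3 t1 t2 : ℤ) (p : ℤ → Prop) [DecidablePred p] :
    (({b1, b2, b3, t1, t2} : Finset ℤ).filter p).card ≤ 5 :=
  (card_filter_le _ _).trans card_le_five

end Pool.Agent.K6.H83.HN
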