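import Pool.Agent.K6.H83.HX.HexE

/-! Independence and emptiness below a concave piecewise linear profile. -/

set_option autoImplicit false

namespace Pool.Agent.K6.H83.HN

open Finset Pool.Agent.TH176.Nag Pool.Agent.TH603.Sur Pool.Agent.TH641.UM Pool.Agent.K6.H83.QH
  Pool.Agent.Y205.AV Pool.Agent.K6.H83.HX

/-- the rows `a ≤ y < b`, of length `n y` -/
def Rp (n : ℤ → ℤ) (a b : ℤ) : Set (ℤ × ℤ) :=
  {p | 0 ≤ p.1 ∧ a ≤ p.2 ∧ p.2 < b ∧ p.1 < n p.2}

/-- `n` is a concave profile on `[a, b)`, affine off `P`, with slopes at most `3` and values at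
least `q`; `F` is a primitive of `2 n` -/
structure Pf (n F : ℤ → ℤ) (P : Finset ℤ) (a b q : ℤ) : Prop where
  conc : ∀ y, a ≤ y → y + 2 < b → n y + n (y + 2) ≤ 2 * n (y + 1)
  aff : ∀ y, a ≤ y → y + 2 < b → y + 1 ∉ P → n y + n (y + 2) = 2 * n (y + 1)
  up : ∀ y, a ≤ y → y + 1 < b → n (y + 1) ≤ n y + 3
  dn : ∀ y, a ≤ y → y + 1 < b → n y ≤ n (y + 1) + 3
  sum : ∀ y, a ≤ y → y < b → F (y + 1) = F y + 2 * n y
  low : ∀ y, a ≤ y → y < b → q ≤ n y

theorem Pf.restr {n F : ℤ → ℤ} {P : Finset ℤ} {a b q a' b' : ℤ} (h : Pf n F P a b q)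
    (ha : a ≤ a') (hb : b' ≤ b) : Pf n F P a' b' q where
  conc y h1 h2 := h.conc y (by omega) (by omega)
  aff y h1 h2 h3 := h.aff y (by omega) (by omega) h3
  up y h1 h2 := h.up y (by omega) (by omega)
  dn y h1 h2 := h.dn y (by omega) (by omega)
  sum y h1 h2 := h.sum y (by omega) (by omega)
  low y h1 h2 := h.low y (by omega) (by omega)

/-- a concave profile is at least the minimum of its two ends -/
theorem conc_min {n : ℤ → ℤ} {a b : ℤ}
    (hc : ∀ y, a ≤ y → y + 2 < b → n y + n (y + 2) ≤ 2 * n (y + 1)) {q : ℤ} (h0 : q ≤ n a)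
    (h1 : q ≤ n (b - 1)) : ∀ y, a ≤ y → y < b → q ≤ n y := by
  intro y hy hyb
  by_contra hcon
  push Not at hcon
  -- a descending step before `y`
  have hz : ∃ z, a ≤ z ∧ z < y ∧ n (z + 1) < n z := by
    by_contra hne
    push Not at hne
    have key : ∀ w, a ≤ w → w ≤ y → q ≤ n w := by
      intro w hw
      induction w, hw using Int.le_induction with
      | base => intro _; exact h0
      | succ w hw ih =>
        intro hwy
        have e1 := ih (by omega)
        have e2 := hne w hw (by omega)
        omega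
    have := key y hy le_rfl
    omega
  obtain ⟨z, hz1, hz2, hz3⟩ := hz
  -- all later steps descend
  have key : ∀ w, z ≤ w → w + 1 < b → n (w + 1) < n w := by
    intro w hw
    induction w, hw using Int.le_induction with
    | base => intro _; exact hz3
    | succ w hw ih =>
      intro hwy
      have e1 := ih (by omega)
      have e2 := hc w (by omega) (by omega)
      have e3 : w + 1 + 1 = w + 2 := by ring
      rw [e3]
      omega
  have key2 : ∀ w, y ≤ w → w < b → n w ≤ n y := by
    intro w hw
    induction w, hw using Int.le_induction with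
    | base => intro _; exact le_rfl
    | succ w hw ih =>
      intro hwy
      have e1 := ih (by omega)
      have e2 := key w (by omega) (by omega)
      omega
  have := key2 (b - 1) (by omega) (by omega)
  omega

theorem Pf.min {n F : ℤ → ℤ} {P : Finset ℤ} {a b q : ℤ} (h : Pf n F P a b q) :
    ∀ y, a ≤ y → y < b → min (n a) (n (b - 1)) ≤ n y :=
  conc_min h.conc (min_le_left _ _) (min_le_right _ _)

/-- slopes at most three -/
theorem Pf.slope {n F : ℤ → ℤ} {P : Finset ℤ} {a b q : ℤ} (h : Pf n F P a b q) {y : ℤ}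
    (hy : a ≤ y) : ∀ z, y ≤ z → z < b → n y ≤ n z + 3 * (z - y) ∧ n z ≤ n y + 3 * (z - y) := by
  intro z hz
  induction z, hz using Int.le_induction with
  | base => intro _; constructor <;> omega
  | succ z hz ih =>
    intro hzb
    obtain ⟨e1, e2⟩ := ih (by omega)
    have e3 := h.up z (by omega) (by omega)
    have e4 := h.dn z (by omega) (by omega)
    constructor <;> omega

theorem F_up {n F : ℤ → ℤ} {a b U : ℤ} (hF : ∀ y, a ≤ y → y < b → F (y + 1) = F y + 2 * n y)
    (hn : ∀ y, a ≤ y → y < b → n y ≤ U) : ∀ c, a ≤ c → c ≤ b → F c - F a ≤ 2 * U * (c - a) := by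
  intro c hc
  induction c, hc using Int.le_induction with
  | base => intro _; simp
  | succ c hc ih =>
    intro hcb
    have e1 := ih (by omega)
    have e2 := hF c hc (by omega)
    have e3 := hn c hc (by omega)
    rw [e2]
    linarith

theorem F_lo {n F : ℤ → ℤ} {a b L : ℤ} (hF : ∀ y, a ≤ y → y < b → F (y + 1) = F y + 2 * n y)
    (hn : ∀ y, a ≤ y → y < b → L ≤ n y) : ∀ c, a ≤ c → c ≤ b → 2 * L * (c - a) ≤ F c - F a := by
  intro c hc
  induction c, hc using Int.le_induction with
  | base => intro _; simp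
  | succ c hc ih =>
    intro hcb
    have e1 := ih (by omega)
    have e2 := hF c hc (by omega)
    have e3 := hn c hc (by omega)
    rw [e2]
    linarith

theorem F_lin {n F : ℤ → ℤ} {a b β : ℤ} (hF : ∀ y, a ≤ y → y < b → F (y + 1) = F y + 2 * n y)
    (hn : ∀ y, a ≤ y → y < b → n y = n a + β * (y - a)) :
    ∀ c, a ≤ c → c ≤ b → F c - F a = 2 * (c - a) * n a + β * (c - a) * (c - a - 1) := by
  intro c hc
  induction c, hc using Int.le_induction with
  | base => intro _; simp
  | succ c hc ih =>
    intro hcb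
    have e1 := ih (by omega)
    have e2 := hF c hc (by omega)
    have e3 := hn c hc (by omega)
    rw [e2, e3]
    linear_combination e1

/-- without break points the profile is affine -/
theorem Pf.lin {n F : ℤ → ℤ} {P : Finset ℤ} {a b q : ℤ} (h : Pf n F P a b q)
    (hP : ∀ p ∈ P, a < p → b ≤ p) :
    ∀ y, a ≤ y → y < b → n y = n a + (n (a + 1) - n a) * (y - a) := by
  have key : ∀ y, a ≤ y → y + 1 < b → n (y + 1) = n y + (n (a + 1) - n a) := by
    intro y hy
    induction y, hy using Int.le_induction with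
    | base => intro _; ring
    | succ y hy ih =>
      intro hyb
      have e1 := ih (by omega)
      have e2 := h.aff y (by omega) (by omega) (by
        intro hmem
        have := hP _ hmem (by omega)
        omega)
      have e3 : y + 1 + 1 = y + 2 := by ring
      rw [e3]
      linarith
  intro y hy
  induction y, hy using Int.le_induction with
  | base => intro _; ring
  | succ y hy ih =>
    intro hyb
    have e1 := ih (by omega)
    have e2 := key y (by omega) (by omega)
    rw [e2]
    linear_combination e1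

theorem Rp_finite (n : ℤ → ℤ) (a b : ℤ) : (Rp n a b).Finite := by
  refine Set.Finite.subset (Finset.finite_toSet
    ((Finset.Ico a b).biUnion fun y => (Finset.Ico 0 (n y)).image fun x => (x, y))) ?_
  rintro ⟨x, y⟩ ⟨g1, g2, g3, g4⟩
  simp only at g1 g2 g3 g4
  simp only [Finset.coe_biUnion, Set.mem_iUnion, Finset.mem_coe, Finset.mem_Ico,
    Finset.mem_image, exists_prop, Prod.mk.injEq]
  exact ⟨y, ⟨g2, g3⟩, x, ⟨g1, g4⟩, rfl, rfl⟩

theorem Rp_nonneg {n : ℤ → ℤ} {a b : ℤ} (ha : 0 ≤ a) : ∀ p ∈ Rp n a b, 0 ≤ p.1 ∧ 0 ≤ p.2 :=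
  fun _ hp => ⟨hp.1, ha.trans hp.2.1⟩

theorem Rp_sep {n : ℤ → ℤ} {a b c : ℤ} : ∀ p ∈ Rp n a c, ∀ q ∈ Rp n c b,
    (0 : ℤ) * p.1 + 1 * p.2 < 0 * q.1 + 1 * q.2 := by
  intro p hp q hq
  have h1 := hp.2.2.1
  have h2 := hq.2.1
  omega

theorem Rp_union {n : ℤ → ℤ} {a b c : ℤ} (h1 : a ≤ c) (h2 : c ≤ b) :
    Rp n a c ∪ Rp n c b = Rp n a b := by
  ext p
  constructor
  · rintro (hp | hp)
    · exact ⟨hp.1, hp.2.1, lt_of_lt_of_le hp.2.2.1 h2, hp.2.2.2⟩
    · exact ⟨hp.1, h1.trans hp.2.1, hp.2.2.1, hp.2.2.2⟩
  · intro hp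
    rcases lt_or_ge p.2 c with h | h
    · exact Or.inl ⟨hp.1, hp.2.1, h, hp.2.2.2⟩
    · exact Or.inr ⟨hp.1, h, hp.2.2.1, hp.2.2.2⟩

theorem FS.mono_l {m l l' : ℕ} {S : Set (ℤ × ℤ)} {c : ℝ} (h : FS m l S c) (hl : l ≤ l') :
    FS m l' S c := fun M hM hM1 => h M hM (by
  have h1 : (l : ℝ) * (m : ℝ) ^ 2 ≤ l' * (m : ℝ) ^ 2 :=
    mul_le_mul_of_nonneg_right (by exact_mod_cast hl) (by positivity)
  linarith)

theorem κ_nonneg (m : ℕ) : 0 ≤ κ m := by unfold κ; positivity

/-- few rows: independence on a rectangle -/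
theorem FS_thinp {m : ℕ} {n F : ℤ → ℤ} {P : Finset ℤ} {Q : ℤ} (hm : 1 ≤ m)
    (hQ : Q = 1280 * m) {a b : ℤ} (ha : 0 ≤ a) (hab : Q ≤ b - a) (h : Pf n F P a b (Q + 2)) :
    FS m 1049408 (Rp n a b) (κ m * ((F b : ℝ) - F a - 6 * ((b : ℝ) - a) ^ 2)) := by
  have hQ0 : 1280 ≤ Q := by rw [hQ]; omega
  obtain ⟨w, hw⟩ : ∃ w : ℤ, w = min (n a) (n (b - 1)) := ⟨_, rfl⟩
  have hwl : Q + 2 ≤ w := by
    rw [hw]
    exact le_min (h.low a le_rfl (by omega)) (h.low (b - 1) (by omega) (by omega))
  have hmin : ∀ y, a ≤ y → y < b → w ≤ n y := by rw [hw]; exact h.min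
  have hup : ∀ y, a ≤ y → y < b → n y ≤ w + 3 * (b - a) := by
    intro y hy hyb
    have e1 := (h.slope le_rfl y hy hyb).2
    have e2 := (h.slope hy (b - 1) (by omega) (by omega)).1
    rcases min_choice (n a) (n (b - 1)) with e | e <;> rw [hw, e] <;> omega
  have hFb := F_up h.sum hup b (by omega) le_rfl
  have f1 := FS_strip (m := m) (k := a) (N := b - a) (A := w) (A' := w) hm ha (by omega) (by omega)
    (by omega)
  refine FS.mono f1 ?_ ?_
  · rintro ⟨x, y⟩ ⟨g1, g2, g3, g4⟩
    simp only at g1 g2 g3 g4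
    have e1 : x < w := by
      have e2 : (b - a + 1) * x < (b - a + 1) * w := by linarith
      exact lt_of_mul_lt_mul_left e2 (by omega)
    have e3 := hmin y g2 (by omega)
    exact ⟨g1, g2, by simp only; omega, by simp only; omega⟩
  · refine mul_le_mul_of_nonneg_left ?_ (κ_nonneg m)
    have hR : ((F b - F a : ℤ) : ℝ) ≤ ((2 * (w + 3 * (b - a)) * (b - a) : ℤ) : ℝ) := by
      exact_mod_cast hFb
    push_cast at hR ⊢
    have e1 : (0 : ℝ) ≤ w := by exact_mod_cast (by omega : (0 : ℤ) ≤ w)
    have e2 : (0 : ℝ) ≤ (b : ℝ) - a := by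
      have : ((0 : ℤ) : ℝ) ≤ ((b - a : ℤ) : ℝ) := by exact_mod_cast (by omega : (0 : ℤ) ≤ b - a)
      push_cast at this
      exact this
    nlinarith

/-- no break point: independence on a trapezoid -/
theorem FS_linp {m : ℕ} {n F : ℤ → ℤ} {P : Finset ℤ} {Q : ℤ} (hm : 1 ≤ m)
    (hQ : Q = 1280 * m) {a b : ℤ} (ha : 0 ≤ a) (hab : Q ≤ b - a) (h : Pf n F P a b (Q + 2))
    (hP : ∀ p ∈ P, a < p → b ≤ p) :
    FS m 1049408 (Rp n a b) (κ m * ((F b : ℝ) - F a)) := by
  have hQ0 : 1280 ≤ Q := by rw [hQ]; omega
  have hlin := h.lin hP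
  obtain ⟨β, hβ⟩ : ∃ β : ℤ, β = n (a + 1) - n a := ⟨_, rfl⟩
  rw [← hβ] at hlin
  have hβ1 : β ≤ 3 := by
    have := h.up a le_rfl (by omega)
    omega
  have hβ2 : -3 ≤ β := by
    have := h.dn a le_rfl (by omega)
    omega
  have ea := h.low a le_rfl (by omega)
  have eb := h.low (b - 1) (by omega) (by omega)
  have eb' := hlin (b - 1) (by omega) (by omega)
  have hF := F_lin h.sum hlin b (by omega) le_rfl
  have eA' : n a + β * (b - a) = n (b - 1) + β := by rw [eb']; ring
  have f1 := FS_strip (m := m) (k := a) (N := b - a) (A := n a - β) (A' := n a + β * (b - a)) hm ha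
    (by omega) (by omega) (by rw [eA']; omega)
  refine FS.mono f1 ?_ ?_
  · rintro ⟨x, y⟩ ⟨g1, g2, g3, g4⟩
    simp only at g1 g2 g3 g4
    have e3 := hlin y g2 (by omega)
    have e1 : x < n y := by
      have e2 : (b - a + 1) * x < (b - a + 1) * n y := by
        rw [e3]
        calc (b - a + 1) * x < _ := g4
          _ = _ := by ring
      exact lt_of_mul_lt_mul_left e2 (by omega)
    exact ⟨g1, g2, by simp only; omega, e1⟩
  · refine mul_le_mul_of_nonneg_left ?_ (κ_nonneg m)
    have hR : F b - F a ≤ (n a - β + (n a + β * (b - a)) + 1) * (b - a + 1) := by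
      rw [hF]
      have e1 : 0 ≤ n a + n (b - 1) := by omega
      rw [eb'] at e1
      have e2 : 0 ≤ b - a := by omega
      nlinarith
    have hR' : ((F b - F a : ℤ) : ℝ) ≤
      (((n a - β + (n a + β * (b - a)) + 1) * (b - a + 1) : ℤ) : ℝ) := by exact_mod_cast hR
    push_cast at hR' ⊢
    exact hR'

/-- **Independence** below a concave profile with `j` break points -/
theorem FS_prof {m : ℕ} {n F : ℤ → ℤ} {P : Finset ℤ} {Q : ℤ} (hm : 1 ≤ m) (hQ : Q = 1280 * m)
    (j : ℕ) : ∀ {a b : ℤ}, 0 ≤ a → Q ≤ b - a → Pf n F P a b (Q + 2) →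
      (P.filter fun p => a < p ∧ p < b).card ≤ j →
      FS m (1049472 * (j + 2)) (Rp n a b) (κ m * ((F b : ℝ) - F a - (6 * j + 24) * Q ^ 2)) := by
  have hQ0 : 1280 ≤ Q := by rw [hQ]; omega
  have hQR : (0 : ℝ) ≤ Q := by exact_mod_cast (by omega : (0 : ℤ) ≤ Q)
  have hκ := κ_nonneg m
  induction j with
  | zero =>
    intro a b ha hab h hc
    have hP : ∀ p ∈ P, a < p → b ≤ p := by
      intro p hp hap
      by_contra hcon
      push Not at hcon
      have h0 : P.filter (fun p => a < p ∧ p < b) = ∅ := Finset.card_eq_zero.1 (by omega)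
      have : p ∈ P.filter (fun p => a < p ∧ p < b) := Finset.mem_filter.2 ⟨hp, hap, hcon⟩
      rw [h0] at this
      exact absurd this (Finset.notMem_empty p)
    refine FS.mono_l (FS.mono (FS_linp hm hQ ha hab h hP) subset_rfl ?_) (by norm_num)
    refine mul_le_mul_of_nonneg_left ?_ hκ
    push_cast
    nlinarith [sq_nonneg (Q : ℝ)]
  | succ j ih =>
    intro a b ha hab h hc
    rcases lt_or_ge (b - a) (2 * Q) with h2 | h2
    · refine FS.mono_l (FS.mono (FS_thinp hm hQ ha hab h) subset_rfl ?_) (by omega)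
      refine mul_le_mul_of_nonneg_left ?_ hκ
      push_cast
      have e1 : (0 : ℝ) ≤ (b : ℝ) - a := by
        have : ((0 : ℤ) : ℝ) ≤ ((b - a : ℤ) : ℝ) := by exact_mod_cast (by omega : (0 : ℤ) ≤ b - a)
        push_cast at this
        exact this
      have e2 : (b : ℝ) - a ≤ 2 * Q := by
        have : ((b - a : ℤ) : ℝ) ≤ ((2 * Q : ℤ) : ℝ) := by exact_mod_cast h2.le
        push_cast at this
        exact this
      have e3 : ((b : ℝ) - a) ^ 2 ≤ (2 * Q) ^ 2 := pow_le_pow_left₀ e1 e2 2
      have e4 : (0 : ℝ) ≤ 6 * ((j : ℝ) + 1) * (Q : ℝ) ^ 2 := by positivity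
      nlinarith
    · rcases (P.filter fun p => a < p ∧ p < b).eq_empty_or_nonempty with h0 | hne
      · have hP : ∀ p ∈ P, a < p → b ≤ p := by
          intro p hp hap
          by_contra hcon
          push Not at hcon
          have : p ∈ P.filter (fun p => a < p ∧ p < b) := Finset.mem_filter.2 ⟨hp, hap, hcon⟩
          rw [h0] at this
          exact absurd this (Finset.notMem_empty p)
        refine FS.mono_l (FS.mono (FS_linp hm hQ ha hab h hP) subset_rfl ?_) (by omega)
        refine mul_le_mul_of_nonneg_left ?_ hκ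
        push_cast
        have e4 : (0 : ℝ) ≤ (6 * ((j : ℝ) + 1) + 24) * (Q : ℝ) ^ 2 := by positivity
        linarith
      · -- the smallest break point
        obtain ⟨p, hp⟩ : ∃ p, p = (P.filter fun p => a < p ∧ p < b).min' hne := ⟨_, rfl⟩
        have hpm : p ∈ P.filter fun p => a < p ∧ p < b := by rw [hp]; exact Finset.min'_mem _ _
        have hpl : ∀ p' ∈ P, a < p' → p' < b → p ≤ p' := by
          intro p' h1 h2 h3
          rw [hp]
          exact Finset.min'_le _ _ (Finset.mem_filter.2 ⟨h1, h2, h3⟩)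
        obtain ⟨hpP, hpa, hpb⟩ := Finset.mem_filter.1 hpm
        rcases le_or_gt p (b - Q) with h3 | h3
        · obtain ⟨c, hc1⟩ : ∃ c, c = max p (a + Q) := ⟨_, rfl⟩
          have hcp : p ≤ c := by rw [hc1]; exact le_max_left _ _
          have hca : a + Q ≤ c := by rw [hc1]; exact le_max_right _ _
          have hcb : c ≤ b - Q := by rw [hc1]; exact max_le h3 (by omega)
          have hcard : (P.filter fun p => c < p ∧ p < b).card ≤ j := by
            have hss : (P.filter fun p => c < p ∧ p < b) ⊂ (P.filter fun p => a < p ∧ p < b) := by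
              rw [Finset.ssubset_iff_of_subset]
              · refine ⟨p, hpm, ?_⟩
                intro hcon
                have := (Finset.mem_filter.1 hcon).2.1
                omega
              · intro x hx
                obtain ⟨x1, x2, x3⟩ := Finset.mem_filter.1 hx
                exact Finset.mem_filter.2 ⟨x1, by omega, x3⟩
            have := Finset.card_lt_card hss
            omega
          have up := ih (a := c) (b := b) (by omega) (by omega) (h.restr (by omega) le_rfl) hcard
          have lowr : FS m 1049408 (Rp n a c) (κ m * ((F c : ℝ) - F a - 6 * Q ^ 2)) := by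
            rcases max_choice p (a + Q) with e | e
            · have hcp' : c = p := by rw [hc1, e]
              refine FS.mono (FS_linp hm hQ ha (by omega) (h.restr le_rfl (by omega)) ?_)
                subset_rfl ?_
              · intro p' h1 h4
                rcases lt_or_ge p' b with h5 | h5
                · have := hpl p' h1 h4 h5
                  omega
                · omega
              · refine mul_le_mul_of_nonneg_left ?_ hκ
                nlinarith [sq_nonneg (Q : ℝ)]
            · have hcp' : c = a + Q := by rw [hc1, e]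
              refine FS.mono (FS_thinp hm hQ ha (by omega) (h.restr le_rfl (by omega)))
                subset_rfl ?_
              refine mul_le_mul_of_nonneg_left ?_ hκ
              have e5 : (c : ℝ) - a = Q := by rw [hcp']; push_cast; ring
              rw [e5]
          have key := FS.glue lowr up (Rp_nonneg ha) (Rp_nonneg (by omega)) 0 1 Rp_sep
          rw [Rp_union (by omega) (by omega), ← mul_add] at key
          refine FS.mono_l (FS.mono key subset_rfl ?_) (by omega)
          refine mul_le_mul_of_nonneg_left ?_ hκ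
          push_cast
          apply le_of_eq
          ring
        · have lowr := FS_linp hm hQ ha (b := b - Q) (by omega) (h.restr le_rfl (by omega)) (by
            intro p' h1 h4
            rcases lt_or_ge p' b with h5 | h5
            · have := hpl p' h1 h4 h5
              omega
            · omega)
          have up := FS_thinp hm hQ (a := b - Q) (b := b) (by omega) (by omega)
            (h.restr (by omega) le_rfl)
          have key := FS.glue lowr up (Rp_nonneg ha) (Rp_nonneg (by omega)) 0 1 Rp_sep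
          rw [Rp_union (by omega) (by omega), ← mul_add] at key
          refine FS.mono_l (FS.mono key subset_rfl ?_) (by omega)
          refine mul_le_mul_of_nonneg_left ?_ hκ
          push_cast
          have e4 : (0 : ℝ) ≤ (6 * (j : ℝ) + 24) * (Q : ℝ) ^ 2 := by positivity
          nlinarith

/-- few rows: emptiness on a rectangle -/
theorem FE_thin {B : ℕ} {n : ℤ → ℤ} {a b U : ℤ} (hB : 1 ≤ B) (ha : 0 ≤ a)
    (h : 12 * (B : ℤ) + 1 ≤ b - a) (hU : 12 * (B : ℤ) ≤ U)
    (hn : ∀ y, a ≤ y → y < b → n y ≤ U) : FE B 33 (Rp n a b) (2 * U * ((b : ℝ) - a)) := by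
  have f1 := FE_strip (B := B) (k := a) (h := b - a - 1) (A := U) (A' := U) ha (by omega) (by omega)
    (by omega) (by omega) hU hU
  refine FE.mono f1 ?_ ?_
  · rintro ⟨x, y⟩ ⟨g1, g2, g3, g4⟩
    simp only at g1 g2 g3 g4
    have e1 := hn y g2 g3
    refine ⟨g1, g2, by simp only; omega, ?_⟩
    exact line_le (c := U) (by omega) (by simp only; omega) (by simp only; ring)
  · push_cast
    have e1 : (0 : ℝ) ≤ U := by exact_mod_cast (by omega : (0 : ℤ) ≤ U)
    nlinarith

/-- no break point: emptiness on a trapezoid -/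
theorem FE_linp {B : ℕ} {n F : ℤ → ℤ} {P : Finset ℤ} {q : ℤ} (hB : 1 ≤ B)
    (hq : q = 12 * B + 1) {a b : ℤ} (ha : 0 ≤ a) (hab : q ≤ b - a) (h : Pf n F P a b (q + 3))
    (hP : ∀ p ∈ P, a < p → b ≤ p) : FE B 33 (Rp n a b) ((F b : ℝ) - F a) := by
  have hlin := h.lin hP
  obtain ⟨β, hβ⟩ : ∃ β : ℤ, β = n (a + 1) - n a := ⟨_, rfl⟩
  rw [← hβ] at hlin
  have ea := h.low a le_rfl (by omega)
  have eb := h.low (b - 1) (by omega) (by omega)
  have eb' := hlin (b - 1) (by omega) (by omega)
  have hF := F_lin h.sum hlin b (by omega) le_rfl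
  have f1 := FE_strip (B := B) (k := a) (h := b - a - 1) (A := n a - 1) (A' := n (b - 1) - 1) ha
    (by omega) (by omega) (by omega) (by omega) (by omega) (by omega)
  refine FE.mono f1 ?_ ?_
  · rintro ⟨x, y⟩ ⟨g1, g2, g3, g4⟩
    simp only at g1 g2 g3 g4
    refine ⟨g1, g2, by simp only; omega, ?_⟩
    refine line_le (c := n y - 1) (by omega) (by simp only; omega) ?_
    rw [hlin y g2 g3, eb']
    simp only
    ring
  · have hR : (n a - 1 + (n (b - 1) - 1)) * (b - a - 1) ≤ F b - F a := by
      rw [hF]
      have e1 : 0 ≤ n a + n (b - 1) := by omega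
      rw [eb'] at e1 ⊢
      have e2 : 0 ≤ b - a - 1 := by omega
      nlinarith
    have hR' : (((n a - 1 + (n (b - 1) - 1)) * (b - a - 1) : ℤ) : ℝ) ≤ ((F b - F a : ℤ) : ℝ) := by
      exact_mod_cast hR
    push_cast at hR' ⊢
    exact hR'

theorem FE_thinp {B : ℕ} {n F : ℤ → ℤ} {P : Finset ℤ} {q : ℤ} (hB : 1 ≤ B)
    (hq : q = 12 * B + 1) {a b : ℤ} (ha : 0 ≤ a) (hab : q ≤ b - a) (h : Pf n F P a b (q + 3)) :
    FE B 33 (Rp n a b) ((F b : ℝ) - F a + 12 * ((b : ℝ) - a) ^ 2) := by
  have ea := h.low a le_rfl (by omega)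
  have hup : ∀ y, a ≤ y → y < b → n y ≤ n a + 3 * (b - a) := by
    intro y hy hyb
    have e1 := (h.slope le_rfl y hy hyb).2
    omega
  have hlo : ∀ y, a ≤ y → y < b → n a - 3 * (b - a) ≤ n y := by
    intro y hy hyb
    have e1 := (h.slope le_rfl y hy hyb).1
    omega
  have hF := F_lo h.sum hlo b (by omega) le_rfl
  refine FE.mono (FE_thin (U := n a + 3 * (b - a)) hB ha (by omega) (by omega) hup) subset_rfl ?_
  have hR' : ((2 * (n a - 3 * (b - a)) * (b - a) : ℤ) : ℝ) ≤ ((F b - F a : ℤ) : ℝ) := by
    exact_mod_cast hF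
  push_cast at hR' ⊢
  nlinarith

/-- **Emptiness** below a concave profile with `j` break points -/
theorem FE_prof {B : ℕ} {n F : ℤ → ℤ} {P : Finset ℤ} {q : ℤ} (hB : 1 ≤ B) (hq : q = 12 * B + 1)
    (j : ℕ) : ∀ {a b : ℤ}, 0 ≤ a → q ≤ b - a → Pf n F P a b (q + 3) →
      (P.filter fun p => a < p ∧ p < b).card ≤ j →
      FE B (34 * (j + 2)) (Rp n a b) ((F b : ℝ) - F a + (12 * j + 48) * q ^ 2) := by
  have hq0 : 13 ≤ q := by rw [hq]; omega
  have hqR : (0 : ℝ) ≤ q := by exact_mod_cast (by omega : (0 : ℤ) ≤ q)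
  have hpos : ∀ {a b : ℤ}, a ≤ b → Pf n F P a b (q + 3) → (0 : ℝ) ≤ (F b : ℝ) - F a := by
    intro a b hab h
    have h1 := F_lo h.sum h.low b hab le_rfl
    have h2 : 0 ≤ F b - F a := le_trans (mul_nonneg (by omega) (by omega)) h1
    have : ((0 : ℤ) : ℝ) ≤ ((F b - F a : ℤ) : ℝ) := by exact_mod_cast h2
    push_cast at this
    exact this
  induction j with
  | zero =>
    intro a b ha hab h hc
    have hP : ∀ p ∈ P, a < p → b ≤ p := by
      intro p hp hap
      by_contra hcon
      push Not at hcon
      have h0 : P.filter (fun p => a < p ∧ p < b) = ∅ := Finset.card_eq_zero.1 (by omega)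
      have : p ∈ P.filter (fun p => a < p ∧ p < b) := Finset.mem_filter.2 ⟨hp, hap, hcon⟩
      rw [h0] at this
      exact absurd this (Finset.notMem_empty p)
    refine FE.mono_k (FE.mono (FE_linp hB hq ha hab h hP) subset_rfl ?_) (by norm_num)
    push_cast
    nlinarith [sq_nonneg (q : ℝ)]
  | succ j ih =>
    intro a b ha hab h hc
    rcases lt_or_ge (b - a) (2 * q) with h2 | h2
    · refine FE.mono_k (FE.mono (FE_thinp hB hq ha hab h) subset_rfl ?_) (by omega)
      push_cast
      have e1 : (0 : ℝ) ≤ (b : ℝ) - a := by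
        have : ((0 : ℤ) : ℝ) ≤ ((b - a : ℤ) : ℝ) := by exact_mod_cast (by omega : (0 : ℤ) ≤ b - a)
        push_cast at this
        exact this
      have e2 : (b : ℝ) - a ≤ 2 * q := by
        have : ((b - a : ℤ) : ℝ) ≤ ((2 * q : ℤ) : ℝ) := by exact_mod_cast h2.le
        push_cast at this
        exact this
      have e3 : ((b : ℝ) - a) ^ 2 ≤ (2 * q) ^ 2 := pow_le_pow_left₀ e1 e2 2
      have e4 : (0 : ℝ) ≤ 12 * ((j : ℝ) + 1) * (q : ℝ) ^ 2 := by positivity
      nlinarith
    · rcases (P.filter fun p => a < p ∧ p < b).eq_empty_or_nonempty with h0 | hne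
      · have hP : ∀ p ∈ P, a < p → b ≤ p := by
          intro p hp hap
          by_contra hcon
          push Not at hcon
          have : p ∈ P.filter (fun p => a < p ∧ p < b) := Finset.mem_filter.2 ⟨hp, hap, hcon⟩
          rw [h0] at this
          exact absurd this (Finset.notMem_empty p)
        refine FE.mono_k (FE.mono (FE_linp hB hq ha hab h hP) subset_rfl ?_) (by omega)
        push_cast
        have e4 : (0 : ℝ) ≤ (12 * ((j : ℝ) + 1) + 48) * (q : ℝ) ^ 2 := by positivity
        linarith
      · -- the smallest break point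
        obtain ⟨p, hp⟩ : ∃ p, p = (P.filter fun p => a < p ∧ p < b).min' hne := ⟨_, rfl⟩
        have hpm : p ∈ P.filter fun p => a < p ∧ p < b := by rw [hp]; exact Finset.min'_mem _ _
        have hpl : ∀ p' ∈ P, a < p' → p' < b → p ≤ p' := by
          intro p' h1 h2 h3
          rw [hp]
          exact Finset.min'_le _ _ (Finset.mem_filter.2 ⟨h1, h2, h3⟩)
        obtain ⟨hpP, hpa, hpb⟩ := Finset.mem_filter.1 hpm
        rcases le_or_gt p (b - q) with h3 | h3
        · obtain ⟨c, hc1⟩ : ∃ c, c = max p (a + q) := ⟨_, rfl⟩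
          have hcp : p ≤ c := by rw [hc1]; exact le_max_left _ _
          have hca : a + q ≤ c := by rw [hc1]; exact le_max_right _ _
          have hcb : c ≤ b - q := by rw [hc1]; exact max_le h3 (by omega)
          have hcard : (P.filter fun p => c < p ∧ p < b).card ≤ j := by
            have hss : (P.filter fun p => c < p ∧ p < b) ⊂ (P.filter fun p => a < p ∧ p < b) := by
              rw [Finset.ssubset_iff_of_subset]
              · refine ⟨p, hpm, ?_⟩
                intro hcon
                have := (Finset.mem_filter.1 hcon).2.1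
                omega
              · intro x hx
                obtain ⟨x1, x2, x3⟩ := Finset.mem_filter.1 hx
                exact Finset.mem_filter.2 ⟨x1, by omega, x3⟩
            have := Finset.card_lt_card hss
            omega
          have hup := h.restr (a' := c) (b' := b) (by omega) le_rfl
          have hlw := h.restr (a' := a) (b' := c) le_rfl (by omega)
          have up := ih (a := c) (b := b) (by omega) (by omega) hup hcard
          have lowr : FE B 33 (Rp n a c) ((F c : ℝ) - F a + 12 * q ^ 2) := by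
            rcases max_choice p (a + q) with e | e
            · have hcp' : c = p := by rw [hc1, e]
              refine FE.mono (FE_linp hB hq ha (by omega) hlw ?_) subset_rfl ?_
              · intro p' h1 h4
                rcases lt_or_ge p' b with h5 | h5
                · have := hpl p' h1 h4 h5
                  omega
                · omega
              · nlinarith [sq_nonneg (q : ℝ)]
            · have hcp' : c = a + q := by rw [hc1, e]
              refine FE.mono (FE_thinp hB hq ha (by omega) hlw) subset_rfl ?_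
              have e5 : (c : ℝ) - a = q := by rw [hcp']; push_cast; ring
              rw [e5]
          have p1 := hpos (by omega) hup
          have p2 := hpos (by omega) hlw
          have key := FE.glue lowr up (Rp_finite n a c) (Rp_finite n c b) (Rp_nonneg ha)
            (Rp_nonneg (by omega)) (by positivity) (by positivity) 0 1 Rp_sep
          rw [Rp_union (by omega) (by omega)] at key
          refine FE.mono_k (FE.mono key subset_rfl ?_) (by omega)
          push_cast
          apply le_of_eq
          ring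
        · have hup := h.restr (a' := b - q) (b' := b) (by omega) le_rfl
          have hlw := h.restr (a' := a) (b' := b - q) le_rfl (by omega)
          have lowr := FE_linp hB hq ha (b := b - q) (by omega) hlw (by
            intro p' h1 h4
            rcases lt_or_ge p' b with h5 | h5
            · have := hpl p' h1 h4 h5
              omega
            · omega)
          have up := FE_thinp hB hq (a := b - q) (b := b) (by omega) (by omega) hup
          have p1 := hpos (by omega) hup
          have p2 := hpos (by omega) hlw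
          have key := FE.glue lowr up (Rp_finite n a (b - q)) (Rp_finite n (b - q) b)
            (Rp_nonneg ha) (Rp_nonneg (by omega)) p2 (by positivity) 0 1 Rp_sep
          rw [Rp_union (by omega) (by omega)] at key
          refine FE.mono_k (FE.mono key subset_rfl ?_) (by omega)
          push_cast
          have e4 : (0 : ℝ) ≤ (12 * (j : ℝ) + 48) * (q : ℝ) ^ 2 := by positivity
          nlinarith

end Pool.Agent.K6.H83.HN
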