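import Pool.Agent.K6.H83.HN.MainV

/-!
# Any number of arbitrary multiplicities and every vector of smaller ones

Let `v 0 ≥ v 1 ≥ v 2 ≥ ⋯` be any multiplicities at `n` general points of the complex projective
plane, `T` the number of conditions, and `K` with `9 + 5 K < n`.  Let `m = v (9 + 5 K) + 1`,
`S = ∑_{k < K} (v (9 + 5 k) + 2 ^ 13 m)` and
`D = max (v 0 + v 1 + v 2) (max (v 0) (v 1 + v 2 + v 7) + 2 ^ 16 m) + S`.  The linear system of the
curves of degree `d` has the expected dimension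

* if `d ≥ D` and (`d ≥ S + 2 ^ 19 (K + 1) m ^ 2` or
  `∑_{i ≥ 9 + 5 K} v i + 2 |(d + 2).choose 2 - T| ≥ 2 ^ 32 (K + 1) m ^ 2`);
* for EVERY `d` if `∑_{i ≥ 9 + 5 K} v i ≥ 2 ^ 32 (K + 1) m ^ 2` and `T ≥ (D + 2).choose 2`.
-/

set_option autoImplicit false

namespace Pool.Agent.K6.H83.HN.ResultShelf

open Pool.Agent

theorem result (n : ℕ) (v : ℕ → ℕ) (hv : Antitone v) :
    ∃ F : MvPolynomial (Fin n × Fin 2) ℂ, F ≠ 0 ∧
      ∀ P : Fin n → Fin 2 → ℂ,
        MvPolynomial.eval (fun ij : Fin n × Fin 2 => P ij.1 ij.2) F ≠ 0 →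
        ∀ K m S D : ℕ, 9 + 5 * K < n → m = v (9 + 5 * K) + 1 →
          S = ∑ k ∈ Finset.range K, (v (9 + 5 * k) + 2 ^ 13 * m) →
          D = max (v 0 + v 1 + v 2) (max (v 0) (v 1 + v 2 + v 7) + 2 ^ 16 * m) + S →
          ∀ d : ℕ,
          ((D ≤ d ∧ (S + 2 ^ 19 * (K + 1) * m ^ 2 ≤ d ∨
              2 ^ 32 * ((K : ℤ) + 1) * m ^ 2 ≤ (∑ i ∈ Finset.Ico (9 + 5 * K) n, (v i : ℤ)) +
                2 * |((d + 2).choose 2 : ℤ) - ∑ i : Fin n, ((v i + 1).choose 2 : ℤ)|)) ∨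
            (2 ^ 32 * (K + 1) * m ^ 2 ≤ (∑ i ∈ Finset.Ico (9 + 5 * K) n, v i) ∧
              (D + 2).choose 2 ≤ ∑ i : Fin n, (v i + 1).choose 2)) →
          Module.finrank ℂ
            ↥(MvPolynomial.homogeneousSubmodule (Fin 3) ℂ d ⊓
              Submodule.restrictScalars ℂ
                (⨅ i : Fin n,
                  (Ideal.span
                    ({MvPolynomial.X 0 - MvPolynomial.C (P i 0) * MvPolynomial.X 2,
                      MvPolynomial.X 1 - MvPolynomial.C (P i 1) * MvPolynomial.X 2} :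
                      Set (MvPolynomial (Fin 3) ℂ))) ^ (v i)))
          = Nat.choose (d + 2) 2 - ∑ i : Fin n, Nat.choose (v i + 1) 2 := by
  obtain ⟨F, hF, hF'⟩ := K6.H83.HN.V.mainV (n := n) hv
  refine ⟨F.map (algebraMap ℚ ℂ), H932R3.map_ne_zero_of hF, fun P hP K m S D hn hm hS hD d hd => ?_⟩
  rw [MvPolynomial.eval_map] at hP
  have key := hF' P hP K hn
  rw [← hm, ← hS] at key
  have hC : ∑ i ∈ Finset.range n, (v i + 1).choose 2 = ∑ i : Fin n, (v i + 1).choose 2 :=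
    (Fin.sum_univ_eq_sum_range (fun i => (v i + 1).choose 2) n).symm
  rw [hC] at key
  have h1 : v 0 + v 1 + v 2 + S ≤ D := by
    rw [hD]
    exact Nat.add_le_add_right (le_max_left _ _) _
  have h2 : v 0 + 2 ^ 16 * m + S ≤ D := by
    rw [hD]
    exact Nat.add_le_add_right
      ((Nat.add_le_add_right (le_max_left _ _) _).trans (le_max_right _ _)) _
  have h3 : v 1 + v 2 + v 7 + 2 ^ 16 * m + S ≤ D := by
    rw [hD]
    exact Nat.add_le_add_right
      ((Nat.add_le_add_right (le_max_right _ _) _).trans (le_max_right _ _)) _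
  rcases hd with ⟨g1, g2⟩ | ⟨g1, g2⟩
  · refine key d (h1.trans g1) (h2.trans g1) (h3.trans g1) ?_ d (Or.inl rfl)
    rcases g2 with g2 | g2
    · left
      rw [add_comm]
      exact g2
    · right
      obtain ⟨C, hC⟩ : ∃ C, C = ∑ i : Fin n, (v i + 1).choose 2 := ⟨_, rfl⟩
      obtain ⟨N, hN⟩ : ∃ N, N = (d + 2).choose 2 := ⟨_, rfl⟩
      obtain ⟨L, hL⟩ : ∃ L, L = ∑ i ∈ Finset.Ico (9 + 5 * K) n, v i := ⟨_, rfl⟩
      have e1 : ∑ i : Fin n, ((v i + 1).choose 2 : ℤ) = (C : ℤ) := by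
        rw [hC]; push_cast; rfl
      have e2 : ∑ i ∈ Finset.Ico (9 + 5 * K) n, (v i : ℤ) = (L : ℤ) := by
        rw [hL]; push_cast; rfl
      have e3 : 2 ^ 32 * ((K : ℤ) + 1) * m ^ 2 = ((2 ^ 32 * (K + 1) * m ^ 2 : ℕ) : ℤ) := by
        push_cast; rfl
      rw [e1, e2, e3, ← hN] at g2
      rw [← hC, ← hN, ← hL]
      generalize 2 ^ 32 * (K + 1) * m ^ 2 = Q at g2 ⊢
      clear e1 e2 e3 h1 h2 h3 g1
      rcases abs_cases ((N : ℤ) - C) with ⟨h3, h4⟩ | ⟨h3, h4⟩ <;> rw [h3] at g2 <;> omega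
  · have g3 : 2 ^ 32 * (K + 1) * m ^ 2 ≤ (∑ i ∈ Finset.Ico (9 + 5 * K) n, v i) +
        2 * (((D + 2).choose 2 - ∑ i : Fin n, (v i + 1).choose 2) +
          ((∑ i : Fin n, (v i + 1).choose 2) - (D + 2).choose 2)) :=
      g1.trans (Nat.le_add_right _ _)
    rcases le_total d D with h4 | h4
    · exact key D h1 h2 h3 (Or.inr g3) d (Or.inr ⟨h4, g2⟩)
    · exact key d (h1.trans h4) (h2.trans h4) (h3.trans h4)
        (Or.inr (g1.trans (Nat.le_add_right _ _))) d (Or.inl rfl)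

end Pool.Agent.K6.H83.HN.ResultShelf
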