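import Pool.Agent.K6.H83.HN.MainS

/-!
# Nine arbitrary multiplicities, Cremona reduced, and every vector of smaller ones

Let `v 0 ≥ v 1 ≥ v 2 ≥ ⋯` be any multiplicities at general points of the complex projective plane
and `T` the number of conditions, and let
`D = max (v 0 + v 1 + v 2) (max (v 0) (v 1 + v 2 + v 7) + 2 ^ 16 (v 9 + 1))`.  The linear system of
the curves of degree `d` has the expected dimension

* if `d ≥ D` and `∑_{i ≥ 9} v i + 2 |(d + 2).choose 2 - T| ≥ 2 ^ 32 (v 9 + 1) ^ 2`;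
* for EVERY `d` if `∑_{i ≥ 9} v i ≥ 2 ^ 32 (v 9 + 1) ^ 2` and `T ≥ (D + 2).choose 2`.
-/

set_option autoImplicit false

namespace Pool.Agent.K6.H83.HN.ResultStar

open Pool.Agent

theorem result (r : ℕ) (v : Fin (r + 10) → ℕ) (hv : Antitone v) :
    ∃ F : MvPolynomial (Fin (r + 10) × Fin 2) ℂ, F ≠ 0 ∧
      ∀ P : Fin (r + 10) → Fin 2 → ℂ,
        MvPolynomial.eval (fun ij : Fin (r + 10) × Fin 2 => P ij.1 ij.2) F ≠ 0 →
        ∀ d : ℕ,
          ((max (v 0 + v 1 + v 2) (max (v 0) (v 1 + v 2 + v 7) + 2 ^ 16 * (v 9 + 1)) ≤ d ∧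
              2 ^ 32 * ((v 9 : ℤ) + 1) ^ 2 ≤
                (∑ i : Fin (r + 10), if 9 ≤ (i : ℕ) then (v i : ℤ) else 0) +
                2 * |((d + 2).choose 2 : ℤ) - ∑ i, ((v i + 1).choose 2 : ℤ)|) ∨
            (2 ^ 32 * (v 9 + 1) ^ 2 ≤ (∑ i : Fin (r + 10), if 9 ≤ (i : ℕ) then v i else 0) ∧
              (max (v 0 + v 1 + v 2) (max (v 0) (v 1 + v 2 + v 7) + 2 ^ 16 * (v 9 + 1)) +
                2).choose 2 ≤ ∑ i, (v i + 1).choose 2)) →
          Module.finrank ℂ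
            ↥(MvPolynomial.homogeneousSubmodule (Fin 3) ℂ d ⊓
              Submodule.restrictScalars ℂ
                (⨅ i : Fin (r + 10),
                  (Ideal.span
                    ({MvPolynomial.X 0 - MvPolynomial.C (P i 0) * MvPolynomial.X 2,
                      MvPolynomial.X 1 - MvPolynomial.C (P i 1) * MvPolynomial.X 2} :
                      Set (MvPolynomial (Fin 3) ℂ))) ^ (v i)))
          = Nat.choose (d + 2) 2 - ∑ i : Fin (r + 10), Nat.choose (v i + 1) 2 := by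
  obtain ⟨F, hF, hF'⟩ := K6.H83.HN.mainS (r := r) hv
  refine ⟨F.map (algebraMap ℚ ℂ), H932R3.map_ne_zero_of hF, fun P hP d hd => ?_⟩
  rw [MvPolynomial.eval_map] at hP
  refine hF' P hP d ?_
  have hsum : (∑ i : Fin (r + 10), if 9 ≤ (i : ℕ) then v i else 0) =
      ∑ i : Fin (r + 1), v ⟨i + 9, by omega⟩ := by
    rw [K6.H83.HN.sum_nine, Finset.sum_eq_zero, zero_add]
    · refine Finset.sum_congr rfl fun i _ => if_pos ?_
      exact Nat.le_add_left _ _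
    · intro i _
      refine if_neg ?_
      have := i.2
      show ¬ 9 ≤ (i : ℕ)
      omega
  have hsumZ : (∑ i : Fin (r + 10), if 9 ≤ (i : ℕ) then (v i : ℤ) else 0) =
      ((∑ i : Fin (r + 1), v ⟨i + 9, by omega⟩ : ℕ) : ℤ) := by
    rw [← hsum]
    push_cast
    rfl
  rcases hd with ⟨h1, h2⟩ | hd
  · left
    refine ⟨h1, ?_⟩
    rw [hsumZ] at h2
    obtain ⟨C, hC⟩ : ∃ C, C = ∑ i : Fin (r + 10), (v i + 1).choose 2 := ⟨_, rfl⟩
    obtain ⟨N, hN⟩ : ∃ N, N = (d + 2).choose 2 := ⟨_, rfl⟩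
    have e1 : ∑ i : Fin (r + 10), ((v i + 1).choose 2 : ℤ) = (C : ℤ) := by
      rw [hC]; push_cast; rfl
    have e3 : 2 ^ 32 * ((v 9 : ℤ) + 1) ^ 2 = ((2 ^ 32 * (v 9 + 1) ^ 2 : ℕ) : ℤ) := by
      push_cast; rfl
    rw [e1, e3, ← hN] at h2
    rw [← hC, ← hN]
    generalize 2 ^ 32 * (v 9 + 1) ^ 2 = Q at h2 ⊢
    generalize (∑ i : Fin (r + 1), v ⟨i + 9, by omega⟩) = L at h2 ⊢
    clear h1 e3 hsum hsumZ
    rcases abs_cases ((N : ℤ) - C) with ⟨h3, h4⟩ | ⟨h3, h4⟩ <;> rw [h3] at h2 <;> omega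
  · right
    rw [hsum] at hd
    exact hd

end Pool.Agent.K6.H83.HN.ResultStar
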