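import Pool.Agent.K6.H83.HN.MainT

/-!
# Nine arbitrary multiplicities, Cremona reduced, and bounded ones: every system of large degree

Let `v 0 ≥ v 1 ≥ v 2 ≥ ⋯` be multiplicities at general points of the complex projective plane.  The
linear system of the curves of degree `d` has the expected dimension if it is Cremona reduced
(`v 0 + v 1 + v 2 ≤ d`), `d ≥ 2 ^ 156 (v 9 + 1) ^ 8`, and either
`v 1 + v 2 + v 7 + 2 ^ 16 (v 9 + 1) ≤ d` or the anticanonical degree on the first nine points is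
large (`∑_{i < 9} v i + 2 ^ 27 (v 9 + 1) ^ 2 ≤ 3 d`).
-/

set_option autoImplicit false

namespace Pool.Agent.K6.H83.HN.ResultTen

open Pool.Agent

theorem result (r : ℕ) (v : Fin (r + 10) → ℕ) (hv : Antitone v) (d : ℕ)
    (h1 : v 0 + v 1 + v 2 ≤ d)
    (h2 : v 1 + v 2 + v 7 + 2 ^ 16 * (v 9 + 1) ≤ d ∨
      (∑ i : Fin (r + 10), if (i : ℕ) < 9 then v i else 0) + 2 ^ 27 * (v 9 + 1) ^ 2 ≤ 3 * d)
    (h3 : 2 ^ 156 * (v 9 + 1) ^ 8 ≤ d) :
    ∃ F : MvPolynomial (Fin (r + 10) × Fin 2) ℂ, F ≠ 0 ∧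
      ∀ P : Fin (r + 10) → Fin 2 → ℂ,
        MvPolynomial.eval (fun ij : Fin (r + 10) × Fin 2 => P ij.1 ij.2) F ≠ 0 →
          Module.finrank ℂ
            ↥(MvPolynomial.homogeneousSubmodule (Fin 3) ℂ d ⊓
              Submodule.restrictScalars ℂ
                (⨅ i : Fin (r + 10),
                  (Ideal.span
                    ({MvPolynomial.X 0 - MvPolynomial.C (P i 0) * MvPolynomial.X 2,
                      MvPolynomial.X 1 - MvPolynomial.C (P i 1) * MvPolynomial.X 2} :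
                      Set (MvPolynomial (Fin 3) ℂ))) ^ (v i)))
          = Nat.choose (d + 2) 2 - ∑ i : Fin (r + 10), Nat.choose (v i + 1) 2 :=
  K6.H83.HN.mainT hv h1 h2 h3

end Pool.Agent.K6.H83.HN.ResultTen
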