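import Pool.Agent.K6.H83.HN.MainW

/-! The final statement for shelves of `5 + 2 p` points, from the exactness `S_SHELFW`. -/

set_option autoImplicit false

namespace Pool.Agent.K6.H83.HN.W

open Pool.Agent

/-- shelves and degrees can be shifted to larger degrees -/
theorem Sh.shift {v p s D : ℕ → ℕ} {K m : ℕ} (h : Sh v K m p s D) (δ : ℕ) :
    Sh v K m p s (fun k => D k + δ) where
  s0 := h.s0
  ss := h.ss
  d1 := h.d1.trans (Nat.le_add_right _ _)
  d2 := h.d2.trans (Nat.le_add_right _ _)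
  d3 := h.d3.trans (Nat.le_add_right _ _)
  dd := fun k hk => by
    have := h.dd k hk
    show D (k + 1) + δ = D k + δ + v (s k) + 2 ^ 13 * m
    omega
  dp := fun k hk => (h.dp k hk).trans (Nat.le_add_right _ _)

theorem resultW (hX : S_SHELFW) (n : ℕ) (v : ℕ → ℕ) (hv : Antitone v) :
    ∃ F : MvPolynomial (Fin n × Fin 2) ℂ, F ≠ 0 ∧
      ∀ P : Fin n → Fin 2 → ℂ,
        MvPolynomial.eval (fun ij : Fin n × Fin 2 => P ij.1 ij.2) F ≠ 0 →
        ∀ (K m J : ℕ) (p s D : ℕ → ℕ), s 0 = 9 →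
          (∀ k, k < K → s (k + 1) = s k + 5 + 2 * p k) → s K < n → m = v (s K) + 1 →
          v 0 + v 1 + v 2 ≤ D 0 → v 0 + 2 ^ 16 * m ≤ D 0 → v 1 + v 2 + v 7 + 2 ^ 16 * m ≤ D 0 →
          (∀ k, k < K → D (k + 1) = D k + v (s k) + 2 ^ 13 * m) →
          (∀ k, k < K → (p k + 2) * (v (s k) + 2 ^ 13 * m) ≤ D k) →
          J = (∑ k ∈ Finset.range K, (p k + 1)) + 1 →
          ∀ d : ℕ,
          ((D K ≤ d ∧ (2 ^ 19 * J * m ^ 2 + D K ≤ d + D 0 ∨
              2 ^ 32 * (J : ℤ) * m ^ 2 ≤ (∑ i ∈ Finset.Ico (s K) n, (v i : ℤ)) +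
                2 * |((d + 2).choose 2 : ℤ) - ∑ i : Fin n, ((v i + 1).choose 2 : ℤ)|)) ∨
            (2 ^ 32 * J * m ^ 2 ≤ (∑ i ∈ Finset.Ico (s K) n, v i) ∧
              (D K + 2).choose 2 ≤ ∑ i : Fin n, (v i + 1).choose 2)) →
          Module.finrank ℂ
            ↥(MvPolynomial.homogeneousSubmodule (Fin 3) ℂ d ⊓
              Submodule.restrictScalars ℂ
                (⨅ i : Fin n,
                  (Ideal.span
                    ({MvPolynomial.X 0 - MvPolynomial.C (P i 0) * MvPolynomial.X 2,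
                      MvPolynomial.X 1 - MvPolynomial.C (P i 1) * MvPolynomial.X 2} :
                      Set (MvPolynomial (Fin 3) ℂ))) ^ (v i)))
          = Nat.choose (d + 2) 2 - ∑ i : Fin n, Nat.choose (v i + 1) 2 := by
  obtain ⟨F, hF, hF'⟩ := mainW hX (n := n) hv
  refine ⟨F.map (algebraMap ℚ ℂ), H932R3.map_ne_zero_of hF, fun P hP K m J p s D hs0 hss hn hm
    hd1 hd2 hd3 hdd hdp hJ d hd => ?_⟩
  rw [MvPolynomial.eval_map] at hP
  have hSh : Sh v K (v (s K) + 1) p s D := by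
    rw [← hm]
    exact ⟨hs0, hss, hd1, hd2, hd3, hdd, hdp⟩
  have hC : ∑ i ∈ Finset.range n, (v i + 1).choose 2 = ∑ i : Fin n, (v i + 1).choose 2 :=
    (Fin.sum_univ_eq_sum_range (fun i => (v i + 1).choose 2) n).symm
  -- degrees from `D K` on
  have up : ∀ d, D K ≤ d → (2 ^ 19 * J * m ^ 2 + D K ≤ d + D 0 ∨
      2 ^ 32 * J * m ^ 2 ≤ (∑ i ∈ Finset.Ico (s K) n, v i) +
        2 * (((d + 2).choose 2 - ∑ i : Fin n, (v i + 1).choose 2) +
          ((∑ i : Fin n, (v i + 1).choose 2) - (d + 2).choose 2))) →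
      H932R3.ExpDim ℂ (fun i : Fin n => v i) P d := by
    intro d hd g
    obtain ⟨δ, rfl⟩ := Nat.exists_eq_add_of_le hd
    refine hF' P hP K p s (fun k => D k + δ) hn (hSh.shift δ) ?_ _ (Or.inl rfl)
    rw [hC, ← hm, ← hJ]
    rcases g with g | g
    · left
      show 2 ^ 19 * J * m ^ 2 ≤ D 0 + δ
      omega
    · exact Or.inr g
  rcases hd with ⟨g1, g2⟩ | ⟨g1, g2⟩
  · refine up d g1 ?_
    rcases g2 with g2 | g2
    · exact Or.inl g2
    · right
      obtain ⟨C, hC⟩ : ∃ C, C = ∑ i : Fin n, (v i + 1).choose 2 := ⟨_, rfl⟩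
      obtain ⟨N, hN⟩ : ∃ N, N = (d + 2).choose 2 := ⟨_, rfl⟩
      obtain ⟨L, hL⟩ : ∃ L, L = ∑ i ∈ Finset.Ico (s K) n, v i := ⟨_, rfl⟩
      have e1 : ∑ i : Fin n, ((v i + 1).choose 2 : ℤ) = (C : ℤ) := by
        rw [hC]; push_cast; rfl
      have e2 : ∑ i ∈ Finset.Ico (s K) n, (v i : ℤ) = (L : ℤ) := by
        rw [hL]; push_cast; rfl
      have e3 : 2 ^ 32 * (J : ℤ) * m ^ 2 = ((2 ^ 32 * J * m ^ 2 : ℕ) : ℤ) := by
        push_cast; rfl
      rw [e1, e2, e3, ← hN] at g2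
      rw [← hC, ← hN, ← hL]
      generalize 2 ^ 32 * J * m ^ 2 = Q at g2 ⊢
      clear e1 e2 e3 up
      rcases abs_cases ((N : ℤ) - C) with ⟨h3, h4⟩ | ⟨h3, h4⟩ <;> rw [h3] at g2 <;> omega
  · rcases le_total d (D K) with h4 | h4
    · refine hF' P hP K p s D hn hSh (Or.inr ?_) d (Or.inr ⟨h4, by rw [hC]; exact g2⟩)
      rw [← hm, ← hJ]
      exact g1.trans (Nat.le_add_right _ _)
    · exact up d h4 (Or.inr (g1.trans (Nat.le_add_right _ _)))

end Pool.Agent.K6.H83.HN.W
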