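import Pool.Agent.K6.H83.HN.MainU

/-! A shelf of five large points under the triangle. -/

set_option autoImplicit false

namespace Pool.Agent.K6.H83.HN

open Finset Pool.Agent.TH176.Nag Pool.Agent.TH603.Sur Pool.Agent.TH641.UM Pool.Agent.K6.H83.QH
  Pool.Agent.Y205.AV Pool.Agent.K6.H83.HX

/-- twice the number of the conditions left -/
noncomputable def Dl (E : Multiset ℕ) (d : ℕ) : ℝ := ((d : ℝ) + 1) * (d + 2) - 2 * (cM E : ℝ)

/-- independence in the triangle with the error `a m ^ 2` -/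
def IS (m : ℕ) (E : Multiset ℕ) (d a : ℕ) : Prop :=
  PS E m a (TZ d) (Dl E d - Dl E d / (256 * m))

/-- emptiness in the triangle with the error `64 a m ^ 2` -/
def IE (m : ℕ) (E : Multiset ℕ) (d a : ℕ) : Prop := PE E (8 * m) a (TZ d) (Dl E d)

theorem TZ_Gr (d : ℕ) : (TZ d : Set (ℤ × ℤ)) = Gr (fun _ => 0) (fun y => (d : ℤ) - y) (d + 1) := by
  ext ⟨x, y⟩
  constructor
  · rintro ⟨h1, h2, h3⟩
    simp only at h1 h2 h3
    exact ⟨h2, by simp only; omega, h1, by simp only; omega⟩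
  · rintro ⟨h1, h2, h3, h4⟩
    simp only at h1 h2 h3 h4
    exact ⟨h3, h1, by simp only; omega⟩

theorem good_shelf {m d x1 x2 x3 x4 x5 : ℕ} {Q : ℤ} (hm : 1 ≤ m) (hQ : 0 ≤ Q)
    (hQ1 : Q ≤ 1280 * m) (o2 : x2 ≤ x1) (o3 : x3 ≤ x2) (o4 : x4 ≤ x3) (o5 : x5 ≤ x4)
    (h : x1 + x2 + x3 ≤ d) :
    Good (((d + (x1 + 8192 * m) : ℕ) : ℤ) + 1) x1 x2 x3 x4 x5 ((x1 + 8192 * m : ℕ) : ℤ) Q := by
  unfold Good pr A5 ps
  push_cast
  refine ⟨by omega, ?_, ?_, ?_, ?_⟩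
  · omega
  · omega
  · omega
  · omega

theorem Dl_shelf {E : Multiset ℕ} {m d x1 x2 x3 x4 x5 : ℕ} (o2 : x2 ≤ x1) (o3 : x3 ≤ x2)
    (o4 : x4 ≤ x3) (o5 : x5 ≤ x4) :
    Dl (E + ({x1} + ({x2} + ({x3} + ({x4} + {x5}))))) (d + (x1 + 8192 * m)) =
      (Fp (((d + (x1 + 8192 * m) : ℕ) : ℤ) + 1) x1 x2 x3 x4 x5 ((x1 + 8192 * m : ℕ) : ℤ)
        ((x1 + 8192 * m : ℕ) : ℤ) : ℝ) + Dl E d := by
  obtain ⟨N, hN⟩ : ∃ N, N = x1 + 8192 * m := ⟨_, rfl⟩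
  rw [← hN]
  rw [Fp_top (c := (((d + N : ℕ) : ℤ) + 1)) (b1 := x1) (b2 := x2) (b3 := x3) (t1 := x4)
    (t2 := x5) (N := (N : ℤ)) (by omega) (by omega) (by omega) (by omega) (by omega)]
  unfold Dl
  have e : ∀ x : ℕ, (2 * (cM {x} : ℝ)) = x * (x + 1) := fun x => by
    have h := Pool.Agent.TH2.NU.two_choose x
    rw [cM_single]
    exact_mod_cast h
  have e1 := e x1
  have e2 := e x2
  have e3 := e x3
  have e4 := e x4
  have e5 := e x5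
  rw [cM_add, cM_add, cM_add, cM_add, cM_add]
  push_cast
  linarith

theorem IS_step {m d a x1 x2 x3 x4 x5 : ℕ} {E : Multiset ℕ} (hm : 1 ≤ m)
    (o2 : x2 ≤ x1) (o3 : x3 ≤ x2) (o4 : x4 ≤ x3) (o5 : x5 ≤ x4) (h : x1 + x2 + x3 ≤ d)
    (hI : IS m E d a) :
    IS m (E + ({x1} + ({x2} + ({x3} + ({x4} + {x5}))))) (d + (x1 + 8192 * m))
      (a + 115480768) := by
  have hmR : (1 : ℝ) ≤ m := by exact_mod_cast hm
  obtain ⟨Q, hQ⟩ : ∃ Q : ℤ, Q = 1280 * m := ⟨_, rfl⟩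
  have hQR : (Q : ℝ) = 1280 * m := by rw [hQ]; push_cast; ring
  have hg := good_shelf (Q := Q) hm (by omega) (by omega) o2 o3 o4 o5 h
  have hDl := Dl_shelf (E := E) (m := m) (d := d) o2 o3 o4 o5
  obtain ⟨N, hN⟩ : ∃ N, N = x1 + 8192 * m := ⟨_, rfl⟩
  rw [← hN] at hg hDl ⊢
  have hF := hg.F_nonneg (Fp_zero (by omega) (by omega) (by omega) (by omega) (by omega))
    (by omega)
  have P1 := (PSg (d := ((d + N : ℕ) : ℤ)) (N := (N : ℤ)) (β := (x1 : ℤ)) (b2 := x2) (b3 := x3)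
    (t1 := x4) (t2 := x5) hm hQ (by omega) hg (by omega) (by omega) (by omega)
    (by omega)).absL x1 (by omega) (fun y _ _ => by push_cast; omega)
  have hI2 : PS E m a (Gr (fun _ => 0) (fun y => (d : ℤ) - y) (d + 1))
      (Dl E d - Dl E d / (256 * m)) := by
    rw [← TZ_Gr]; exact hI
  have P2 := hI2.ups (N : ℤ)
  have G := PS.glue P1 P2 (fun p hp => ⟨hp.2.2.1, hp.1⟩)
    (fun p hp => ⟨hp.2.2.1, by
      have := hp.1
      omega⟩) 0 1 (by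
      intro p hp r hr
      have h1 := hp.2.1
      have h2 := hr.1
      omega)
  have G2 := G.monoS (S' := TZ (d + N)) (by
    rintro ⟨x, y⟩ (⟨g1, g2, g3, g4⟩ | ⟨g1, g2, g3, g4⟩)
    · simp only at g1 g2 g3 g4
      refine ⟨g3, g1, ?_⟩
      simp only
      push_cast at g4 ⊢
      omega
    · simp only at g1 g2 g3 g4
      refine ⟨g3, by simp only; omega, ?_⟩
      simp only
      push_cast at g4 ⊢
      omega)
  intro M hM hM1
  have e : E + ({x1} + ({x2} + ({x3} + ({x4} + {x5})))) + M =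
      {x1} + ({x2} + ({x3} + ({x4} + {x5}))) + E + M := by abel
  rw [e]
  refine G2 M hM ?_
  rcases hM1 with hM1 | hM1
  · exact Or.inl hM1
  · right
    rw [hDl] at hM1
    obtain ⟨F, hFd⟩ : ∃ F : ℝ, F = (Fp (((d + N : ℕ) : ℤ) + 1) x1 x2 x3 x4 x5 (N : ℤ)
        (N : ℤ) : ℝ) := ⟨_, rfl⟩
    rw [← hFd] at hM1 hF ⊢
    have k1 := κ_ge hm hF
    have k2 : κ m ≤ 1 := by
      unfold κ
      rw [div_le_one (by positivity)]
      linarith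
    have k3 : κ m * (F - 66 * Q ^ 2) = κ m * F - κ m * (66 * Q ^ 2) := by ring
    have k4 : κ m * (66 * (Q : ℝ) ^ 2) ≤ 1 * (66 * Q ^ 2) :=
      mul_le_mul_of_nonneg_right k2 (by positivity)
    have k5 : 66 * (Q : ℝ) ^ 2 = 108134400 * (m : ℝ) ^ 2 := by rw [hQR]; ring
    rw [k3]
    rw [k5] at k4 ⊢
    push_cast at hM1 ⊢
    rw [add_div] at hM1
    linarith

theorem IE_step {m d a x1 x2 x3 x4 x5 : ℕ} {E : Multiset ℕ} (hm : 1 ≤ m)
    (o2 : x2 ≤ x1) (o3 : x3 ≤ x2) (o4 : x4 ≤ x3) (o5 : x5 ≤ x4) (h : x1 + x2 + x3 ≤ d)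
    (hD : 0 ≤ Dl E d) (hI : IE m E d a) :
    IE m (E + ({x1} + ({x2} + ({x3} + ({x4} + {x5}))))) (d + (x1 + 8192 * m))
      (a + 18723) := by
  have hmR : (1 : ℝ) ≤ m := by exact_mod_cast hm
  obtain ⟨q, hq⟩ : ∃ q : ℤ, q = 12 * (8 * m : ℕ) + 1 := ⟨_, rfl⟩
  have hqR : (q : ℝ) = 96 * m + 1 := by rw [hq]; push_cast; ring
  have hg := good_shelf (Q := q) hm (by omega) (by push_cast at hq; omega) o2 o3 o4 o5 h
  have hDl := Dl_shelf (E := E) (m := m) (d := d) o2 o3 o4 o5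
  obtain ⟨N, hN⟩ : ∃ N, N = x1 + 8192 * m := ⟨_, rfl⟩
  rw [← hN] at hg hDl ⊢
  have hF := hg.F_nonneg (Fp_zero (by omega) (by omega) (by omega) (by omega) (by omega))
    (by omega)
  have hfin : (Gr (fun _ => 0) (fun y => ((d + N : ℕ) : ℤ) - y) N).Finite :=
    Gr_finite 0 ((d + N : ℕ) : ℤ) (fun y _ _ => le_rfl) (fun y hy _ => by omega)
  have P1 := (PEg (B := 8 * m) (d := ((d + N : ℕ) : ℤ)) (N := (N : ℤ)) (β := (x1 : ℤ))
    (b2 := x2) (b3 := x3) (t1 := x4) (t2 := x5) (by omega) hq (by omega) hg (by omega)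
    (by omega)).absL x1 hfin
  have hI2 : PE E (8 * m) a (Gr (fun _ => 0) (fun y => (d : ℤ) - y) (d + 1)) (Dl E d) := by
    rw [← TZ_Gr]; exact hI
  have P2 := hI2.ups (N : ℤ)
  have hpos : (0 : ℝ) ≤ 108 * (q : ℝ) ^ 2 + 4 * (4 * q + 14) * (q + 4) := by
    rw [hqR]; positivity
  have hfin2 : (Gs (fun _ => 0) (fun y => (d : ℤ) - y) N (d + 1)).Finite := by
    refine Set.Finite.subset ((Set.finite_Icc (0 : ℤ) d).prod
      (Set.finite_Icc (N : ℤ) (N + (d + 1)))) ?_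
    rintro ⟨x, y⟩ ⟨g1, g2, g3, g4⟩
    simp only at g1 g2 g3 g4
    exact ⟨⟨g3, by simp only; omega⟩, ⟨g1, by simp only; omega⟩⟩
  have G := PE.glue P1 P2 hfin hfin2 (fun p hp => ⟨hp.2.2.1, hp.1⟩)
    (fun p hp => ⟨hp.2.2.1, by
      have := hp.1
      omega⟩) (by linarith) hD 0 1 (by
      intro p hp r hr
      have h1 := hp.2.1
      have h2 := hr.1
      omega)
  have G2 := G.monoS (S' := TZ (d + N)) (by
    rintro ⟨x, y⟩ ⟨g1, g2, g3⟩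
    simp only at g1 g2 g3
    push_cast at g3
    rcases lt_or_ge y (N : ℤ) with hy | hy
    · exact Or.inl ⟨g2, hy, g1, by simp only; push_cast; omega⟩
    · exact Or.inr ⟨hy, by simp only; omega, g1, by simp only; omega⟩)
  intro M hM hM1
  have e : E + ({x1} + ({x2} + ({x3} + ({x4} + {x5})))) + M =
      {x1} + ({x2} + ({x3} + ({x4} + {x5}))) + E + M := by abel
  rw [e]
  refine G2 M hM ?_
  rw [hDl] at hM1
  obtain ⟨F, hFd⟩ : ∃ F : ℝ, F = (Fp (((d + N : ℕ) : ℤ) + 1) x1 x2 x3 x4 x5 (N : ℤ)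
      (N : ℤ) : ℝ) := ⟨_, rfl⟩
  rw [← hFd] at hM1 hF ⊢
  have k1 : 108 * (q : ℝ) ^ 2 + 4 * (4 * q + 14) * (q + 4) ≤ 1178624 * (m : ℝ) ^ 2 := by
    have h1 : (q : ℝ) ≤ 97 * m := by rw [hqR]; linarith
    have h0 : (0 : ℝ) ≤ q := by rw [hqR]; positivity
    have h2 : (q : ℝ) ^ 2 ≤ (97 * (m : ℝ)) ^ 2 := pow_le_pow_left₀ h0 h1 2
    have h3 : (4 * (q : ℝ) + 14) * (q + 4) ≤ (402 * m) * (101 * m) :=
      mul_le_mul (by linarith) (by linarith) (by linarith) (by positivity)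
    nlinarith
  push_cast at hM1 ⊢
  linarith

end Pool.Agent.K6.H83.HN
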