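import Pool.Agent.K6.H83.HN.Shelf

/-! Nine arbitrary multiplicities and `K` shelves of five. -/

set_option autoImplicit false

namespace Pool.Agent.K6.H83.HN

open Finset Pool.Agent.TH176.Nag Pool.Agent.TH603.Sur Pool.Agent.TH641.UM Pool.Agent.TH2.NU
  Pool.Agent.H932R3 Pool.Agent.Y205.FW Pool.Agent.K6.H83.QH Pool.Agent.K6.H83.HX
  Pool.Agent.Y205.AV

theorem ms_range (f : ℕ → ℕ) (n : ℕ) :
    ms (fun i : Fin n => f i) = (Multiset.range n).map f := by
  unfold ms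
  rw [Fin.sum_univ_eq_sum_range (fun i => ({f i} : Multiset ℕ)) n]
  have h : ∑ i ∈ Finset.range n, ({f i} : Multiset ℕ) =
      ((Multiset.range n).map fun i => ({f i} : Multiset ℕ)).sum := rfl
  rw [h]
  have h2 : ((Multiset.range n).map fun i => ({f i} : Multiset ℕ)) =
      ((Multiset.range n).map f).map fun a => ({a} : Multiset ℕ) := by
    rw [Multiset.map_map]
    rfl
  rw [h2, Multiset.sum_map_singleton]

theorem range_five (f : ℕ → ℕ) (n : ℕ) : (Multiset.range (n + 5)).map f =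
    (Multiset.range n).map f +
      ({f n} + ({f (n + 1)} + ({f (n + 2)} + ({f (n + 3)} + {f (n + 4)})))) := by
  have h : n + 5 = n + 1 + 1 + 1 + 1 + 1 := rfl
  rw [h, Multiset.range_succ, Multiset.range_succ, Multiset.range_succ, Multiset.range_succ,
    Multiset.range_succ]
  simp only [Multiset.map_cons]
  rw [← Multiset.singleton_add, ← Multiset.singleton_add, ← Multiset.singleton_add,
    ← Multiset.singleton_add, ← Multiset.singleton_add]
  have e1 : n + 1 + 1 = n + 2 := rfl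
  have e2 : n + 2 + 1 = n + 3 := rfl
  have e3 : n + 3 + 1 = n + 4 := rfl
  rw [e1, e2, e3]
  abel

/-- the nine points -/
theorem base_all {m e : ℕ} {u : Fin 9 → ℕ} (hm : 1 ≤ m) (hu : Antitone u)
    (h1 : u 0 + u 1 + u 2 ≤ e) (h2 : u 0 + 2 ^ 16 * m ≤ e)
    (h3 : u 1 + u 2 + u 7 + 2 ^ 16 * m ≤ e) :
    IS m (ms u) e 400000001 ∧ IE m (ms u) e 76816 ∧
      65536 * (m : ℝ) * e ≤ 3 * Dl (ms u) e := by
  have hmR : (1 : ℝ) ≤ m := by exact_mod_cast hm
  have e16 : (2 : ℕ) ^ 16 = 65536 := by norm_num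
  rw [e16] at h2 h3
  obtain ⟨o1, o2, o3, o4, o5, o6, o7, o8⟩ := anti9 hu
  have hcE : 2 * cM (ms u) = ∑ i, u i * (u i + 1) := by
    rw [← cond_eq]
    unfold Pool.Agent.TH603.Sur.cond
    rw [mul_sum]
    exact sum_congr rfl fun i _ => Pool.Agent.TH2.NU.two_choose _
  have hcE9 := hcE
  rw [sum9] at hcE9
  have key := U.std_num (d := e) (v0 := u 0) (v1 := u 1) (v2 := u 2) (v3 := u 3) (v4 := u 4)
    (v5 := u 5) (v6 := u 6) (v7 := u 7) (v8 := u 8) (Q := 65536 * m)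
    (by exact_mod_cast o1) (by exact_mod_cast o2) (by exact_mod_cast o3)
    (by exact_mod_cast o4) (by exact_mod_cast o5) (by exact_mod_cast o6)
    (by exact_mod_cast o7) (by exact_mod_cast o8) (by positivity) (by positivity)
    (by exact_mod_cast h1) (by
      have : u 0 + 65536 * m ≤ e := by omega
      exact_mod_cast this) (by
      have : u 0 + u 1 + u 2 + u 3 + u 4 + u 5 + u 6 + u 7 + u 8 + 65536 * m ≤ 3 * e := by omega
      exact_mod_cast this)
  have e9 : (u 0 : ℤ) + u 1 + u 2 + u 3 + u 4 + u 5 + u 6 + u 7 + u 8 ≤ 3 * e := by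
    have : u 0 + u 1 + u 2 + u 3 + u 4 + u 5 + u 6 + u 7 + u 8 ≤ 3 * e := by omega
    exact_mod_cast this
  have e1 : (2 * cM (ms u) : ℤ) = u 0 * (u 0 + 1) + u 1 * (u 1 + 1) + u 2 * (u 2 + 1) +
      u 3 * (u 3 + 1) + u 4 * (u 4 + 1) + u 5 * (u 5 + 1) + u 6 * (u 6 + 1) +
      u 7 * (u 7 + 1) + u 8 * (u 8 + 1) := by exact_mod_cast hcE9
  have kZ : 65536 * (m : ℤ) * e + 3 * (2 * cM (ms u)) ≤ 3 * ((e + 1) * (e + 2)) := by
    rw [e1]
    linarith
  have kN : 65536 * m * e + 3 * (2 * cM (ms u)) ≤ 3 * ((e + 1) * (e + 2)) := by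
    exact_mod_cast kZ
  obtain ⟨Δ, hΔ⟩ : ∃ Δ, Δ + 2 * cM (ms u) = (e + 1) * (e + 2) :=
    ⟨(e + 1) * (e + 2) - 2 * cM (ms u), by omega⟩
  have hΔ' : Δ + ∑ i, u i * (u i + 1) = (e + 1) * (e + 2) := by rw [← hcE]; exact hΔ
  have hDl : Dl (ms u) e = Δ := by
    unfold Dl
    have : ((Δ + 2 * cM (ms u) : ℕ) : ℝ) = (((e + 1) * (e + 2) : ℕ) : ℝ) := by rw [hΔ]
    push_cast at this
    linarith
  have hΔe : 65536 * m * e ≤ 3 * Δ := by omega
  have hem : 65536 * m ≤ e := by omega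
  have hΔm : 1431655765 * m ^ 2 ≤ Δ := by
    have : 65536 * m * (65536 * m) ≤ 65536 * m * e := Nat.mul_le_mul_left _ hem
    have e3 : 65536 * m * (65536 * m) = 4294967296 * m ^ 2 := by ring
    omega
  have hm2 : 1 ≤ m ^ 2 := Nat.one_le_pow _ _ hm
  have hdiv : Δ / (256 * m) ≤ Δ / 256 := by
    refine Nat.div_le_div_left ?_ (by norm_num)
    omega
  refine ⟨?_, ?_, ?_⟩
  · intro M hM hM1
    refine SM9s hm hM hu h1 h2 h3 hΔ' ?_
    rcases hM1 with hM1 | hM1
    · subst hM1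
      have : sq1 (0 : Multiset ℕ) = 0 := by simp [sq1]
      rw [this]
      generalize m ^ 2 = A at *
      generalize Δ / (256 * m) = B at *
      omega
    · rw [hDl] at hM1
      have g1 : ((Δ / (256 * m) : ℕ) : ℝ) ≤ (Δ : ℝ) / (256 * m) := by
        have := @Nat.cast_div_le ℝ _ _ _ Δ (256 * m)
        push_cast at this
        exact this
      have g2 : (1 : ℝ) ≤ (m : ℝ) ^ 2 := by exact_mod_cast hm2
      have g3 : ((sq1 M + 400000000 * m ^ 2 + Δ / (256 * m) + 1 : ℕ) : ℝ) ≤ Δ := by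
        push_cast at hM1 ⊢
        linarith
      exact_mod_cast g3
  · intro M hM hM1
    refine EM9s hm hM hu h1 h2 h3 hΔ' ?_
    rw [hDl] at hM1
    have g3 : ((Δ + 4916224 * m ^ 2 : ℕ) : ℝ) < (S2 M : ℝ) := by
      push_cast at hM1 ⊢
      have e4 : (8 * (m : ℝ)) ^ 2 = 64 * m ^ 2 := by ring
      rw [e4] at hM1
      linarith
    exact_mod_cast g3
  · rw [hDl]
    have : ((65536 * m * e : ℕ) : ℝ) ≤ ((3 * Δ : ℕ) : ℝ) := by exact_mod_cast hΔe
    push_cast at this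
    exact this

/-- **Nine points and `K` shelves.** -/
theorem shelves {f : ℕ → ℕ} {m e : ℕ} (hm : 1 ≤ m) (hf : Antitone f)
    (h1 : f 0 + f 1 + f 2 ≤ e) (h2 : f 0 + 2 ^ 16 * m ≤ e)
    (h3 : f 1 + f 2 + f 7 + 2 ^ 16 * m ≤ e) (K : ℕ) :
    ∀ d : ℕ, d = e + ∑ k ∈ Finset.range K, (f (9 + 5 * k) + 2 ^ 13 * m) →
      IS m ((Multiset.range (9 + 5 * K)).map f) d (400000001 + K * 115480768) ∧
      IE m ((Multiset.range (9 + 5 * K)).map f) d (76816 + K * 18723) ∧
      65536 * (m : ℝ) * e ≤ 3 * Dl ((Multiset.range (9 + 5 * K)).map f) d ∧ e ≤ d := by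
  induction K with
  | zero =>
    intro d hd
    rw [Finset.sum_range_zero, add_zero] at hd
    subst hd
    have hu : Antitone (fun i : Fin 9 => f i) := fun i j hij => hf (by exact_mod_cast hij)
    have key := base_all (u := fun i : Fin 9 => f i) hm hu h1 h2 h3
    rw [ms_range] at key
    simpa using key
  | succ K ih =>
    intro d hd
    obtain ⟨g1, g2, g3, g4⟩ := ih _ rfl
    rw [Finset.sum_range_succ, ← add_assoc] at hd
    obtain ⟨d', hd'⟩ : ∃ d', d' = e + ∑ k ∈ Finset.range K, (f (9 + 5 * k) + 2 ^ 13 * m) :=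
      ⟨_, rfl⟩
    rw [← hd'] at g1 g2 g3 g4 hd
    have e13 : (2 : ℕ) ^ 13 = 8192 := by norm_num
    rw [e13] at hd
    have hr : 9 + 5 * (K + 1) = 9 + 5 * K + 5 := by ring
    rw [hr, range_five]
    have a1 : f (9 + 5 * K) ≤ f 0 := hf (Nat.zero_le _)
    have a2 : f (9 + 5 * K + 1) ≤ f 1 := hf (by omega)
    have a3 : f (9 + 5 * K + 2) ≤ f 2 := hf (by omega)
    have o2 : f (9 + 5 * K + 1) ≤ f (9 + 5 * K) := hf (by omega)
    have o3 : f (9 + 5 * K + 2) ≤ f (9 + 5 * K + 1) := hf (by omega)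
    have o4 : f (9 + 5 * K + 3) ≤ f (9 + 5 * K + 2) := hf (by omega)
    have o5 : f (9 + 5 * K + 4) ≤ f (9 + 5 * K + 3) := hf (by omega)
    have hsum : f (9 + 5 * K) + f (9 + 5 * K + 1) + f (9 + 5 * K + 2) ≤ d' := by omega
    have hDl0 : 0 ≤ Dl ((Multiset.range (9 + 5 * K)).map f) d' := by
      have : (0 : ℝ) ≤ 65536 * (m : ℝ) * e := by positivity
      linarith
    have s1 := IS_step hm o2 o3 o4 o5 hsum g1
    have s2 := IE_step hm o2 o3 o4 o5 hsum hDl0 g2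
    have s3 := Dl_shelf (E := (Multiset.range (9 + 5 * K)).map f) (m := m) (d := d') o2 o3 o4 o5
    rw [← hd] at s1 s2 s3
    have c1 : 400000001 + (K + 1) * 115480768 = 400000001 + K * 115480768 + 115480768 := by ring
    have c2 : 76816 + (K + 1) * 18723 = 76816 + K * 18723 + 18723 := by ring
    rw [c1, c2]
    refine ⟨s1, s2, ?_, by omega⟩
    have hg := good_shelf (Q := 0) hm le_rfl (by positivity) o2 o3 o4 o5 hsum
    rw [← hd] at hg
    have hF := hg.F_nonneg (Fp_zero (by omega) (by omega) (by omega) (by omega) (by omega))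
      (by omega)
    rw [s3]
    linarith

/-- exactness for nine points, `K` shelves and arbitrary bounded multiplicities -/
theorem XM_shelf1 {G : Multiset ℕ} {f : ℕ → ℕ} {K d e m : ℕ} (hK : 1 ≤ K) (hm : 1 ≤ m)
    (hG : ∀ x ∈ G, 1 ≤ x ∧ x + 1 ≤ m) (hf : Antitone f) (h1 : f 0 + f 1 + f 2 ≤ e)
    (h2 : f 0 + 2 ^ 16 * m ≤ e) (h3 : f 1 + f 2 + f 7 + 2 ^ 16 * m ≤ e)
    (hd : d = e + ∑ k ∈ Finset.range K, (f (9 + 5 * k) + 2 ^ 13 * m))
    (h4 : 2 ^ 19 * (K + 1) * m ^ 2 ≤ e ∨ 2 ^ 32 * (K + 1) * m ^ 2 ≤ G.sum +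
      2 * (((d + 2).choose 2 - cM ((Multiset.range (9 + 5 * K)).map f + G)) +
        (cM ((Multiset.range (9 + 5 * K)).map f + G) - (d + 2).choose 2))) :
    XM (TF d) ((Multiset.range (9 + 5 * K)).map f + G) := by
  obtain ⟨g1, g2, g3, g4⟩ := shelves hm hf h1 h2 h3 K d hd
  obtain ⟨E, hE⟩ : ∃ E, E = (Multiset.range (9 + 5 * K)).map f := ⟨_, rfl⟩
  rw [← hE] at g1 g2 g3 h4 ⊢
  have hmR : (1 : ℝ) ≤ m := by exact_mod_cast hm
  have hm2 : 1 ≤ m ^ 2 := Nat.one_le_pow _ _ hm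
  have hDl0 : 65536 * (m : ℝ) * e ≤ 3 * (((d : ℝ) + 1) * (d + 2) - 2 * (cM E : ℝ)) := g3
  have kN : 65536 * m * e + 3 * (2 * cM E) ≤ 3 * ((d + 1) * (d + 2)) := by
    have : ((65536 * m * e + 3 * (2 * cM E) : ℕ) : ℝ) ≤ ((3 * ((d + 1) * (d + 2)) : ℕ) : ℝ) := by
      push_cast
      linarith
    exact_mod_cast this
  obtain ⟨Δ, hΔ⟩ : ∃ Δ, Δ + 2 * cM E = (d + 1) * (d + 2) :=
    ⟨(d + 1) * (d + 2) - 2 * cM E, by omega⟩
  have hDl : Dl E d = Δ := by
    unfold Dl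
    have : ((Δ + 2 * cM E : ℕ) : ℝ) = (((d + 1) * (d + 2) : ℕ) : ℝ) := by rw [hΔ]
    push_cast at this
    linarith
  have hΔe : 65536 * m * e ≤ 3 * Δ := by omega
  have hcomm : cM (E + G) = cM (G + E) := by rw [add_comm]
  obtain ⟨C, hC⟩ : ∃ C, C = cM (E + G) := ⟨_, rfl⟩
  obtain ⟨N, hN⟩ : ∃ N, N = (d + 2).choose 2 := ⟨_, rfl⟩
  have hN2 : 2 * N = (d + 1) * (d + 2) := by
    rw [hN]
    exact Pool.Agent.TH2.NU.two_choose (d + 1)
  have hGm := twoc_le (m := m) (G := G) fun x hx => (hG x hx).2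
  have hCG : C = cM E + cM G := by rw [hC, cM_add]
  rw [← hC, ← hN] at h4
  obtain ⟨δ, hδ⟩ : ∃ δ, δ = 2 * ((N - C) + (C - N)) := ⟨_, rfl⟩
  rw [← hδ] at h4
  obtain ⟨P, hP⟩ : ∃ P, P = (K + 1) * m ^ 2 := ⟨_, rfl⟩
  have hPm : m ^ 2 ≤ P := by
    rw [hP]
    exact Nat.le_mul_of_pos_left _ (by omega)
  have e20 : 2 ^ 19 * (K + 1) * m ^ 2 = 524288 * P := by rw [hP]; ring
  have e33 : 2 ^ 32 * (K + 1) * m ^ 2 = 4294967296 * P := by rw [hP]; ring
  rw [e20, e33] at h4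
  have hbig : 4294967296 * P ≤ G.sum + δ := by
    rcases h4 with h4 | h4
    · by_contra hcon
      push Not at hcon
      obtain ⟨S, hS⟩ : ∃ S, S = G.sum := ⟨_, rfl⟩
      rw [← hS] at hcon hGm
      have c1 : m * S ≤ m * (4294967296 * P) := Nat.mul_le_mul_left _ (by omega)
      have c2 : 65536 * m * (524288 * P) ≤ 65536 * m * e := Nat.mul_le_mul_left _ h4
      have c3 : P ≤ m * P := Nat.le_mul_of_pos_left _ (by omega)
      have c4 : 65536 * m * (524288 * P) = 34359738368 * (m * P) := by ring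
      have c5 : m * (4294967296 * P) = 4294967296 * (m * P) := by ring
      rw [c4] at c2
      rw [c5] at c1
      generalize m * P = R at *
      generalize m * S = T at *
      generalize 65536 * m * e = V at *
      omega
    · exact h4
  have hΛ : 268435456 * P * 16 = 4294967296 * P := by ring
  have hKP : (K + 1) * m ^ 2 = P := hP.symm
  have key := coreG (G := G) (E := E) (m := m) (d := d) (Δ := Δ) (Λ := 268435456 * P)
    (δ := δ) hm hΔ hG
    (fun M' hM' hs => by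
      refine g1 M' hM' (Or.inr ?_)
      rw [hDl]
      have g5 : ((sq1 M' + 268435456 * P + Δ / (256 * m) + 1 : ℕ) : ℝ) ≤ Δ := by
        exact_mod_cast hs
      push_cast at g5
      have g6 : (Δ : ℝ) / (256 * m) ≤ ((Δ / (256 * m) : ℕ) : ℝ) + 1 := by
        have h3 := Nat.lt_div_mul_add (a := Δ) (b := 256 * m) (by omega)
        have h4 : Δ ≤ (Δ / (256 * m) + 1) * (256 * m) := by
          rw [add_mul, one_mul]
          omega
        rw [div_le_iff₀ (by positivity)]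
        exact_mod_cast h4
      have g7 : (400000001 + K * 115480768) * m ^ 2 ≤ 268435456 * P := by
        rw [hP]
        have : (400000001 + K * 115480768) * m ^ 2 ≤ (268435456 * (K + 1)) * m ^ 2 :=
          Nat.mul_le_mul_right _ (by omega)
        linarith
      have g8 : (((400000001 + K * 115480768) * m ^ 2 : ℕ) : ℝ) ≤
          ((268435456 * P : ℕ) : ℝ) := by exact_mod_cast g7
      push_cast at g8 ⊢
      linarith)
    (fun M' hM' hs => by
      refine g2 M' hM' ?_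
      rw [hDl]
      have g5 : ((Δ + 268435456 * P : ℕ) : ℝ) < (S2 M' : ℝ) := by exact_mod_cast hs
      push_cast at g5
      have g7 : (76816 + K * 18723) * (64 * m ^ 2) ≤ 268435456 * P := by
        rw [hP]
        have : (76816 + K * 18723) * (64 * m ^ 2) = (64 * (76816 + K * 18723)) * m ^ 2 := by ring
        rw [this]
        have : (64 * (76816 + K * 18723)) * m ^ 2 ≤ (268435456 * (K + 1)) * m ^ 2 :=
          Nat.mul_le_mul_right _ (by omega)
        linarith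
      have g8 : (((76816 + K * 18723) * (64 * m ^ 2) : ℕ) : ℝ) ≤
          ((268435456 * P : ℕ) : ℝ) := by exact_mod_cast g7
      push_cast at g8 ⊢
      have e4 : (8 * (m : ℝ)) ^ 2 = 64 * m ^ 2 := by ring
      rw [e4]
      linarith)
    (by rw [card_TF, ← hcomm, ← hC, ← hN]; omega)
    (by
      have : 2 ^ 24 * m ^ 2 ≤ 2 ^ 24 * P := Nat.mul_le_mul_left _ hPm
      omega)
    (by omega)
  rw [← hcomm] at key
  have hEx : Ex (TF d) (fam (E + G)) := by
    unfold Ex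
    rw [cond_eq, ms_fam]
    exact key
  exact ⟨fun hc => Emp_of_Ex hEx (by rw [cond_eq, ms_fam]; exact hc),
    fun hc => Sur_of_Ex hEx (by rw [cond_eq, ms_fam]; exact hc)⟩

/-- exactness for nine points, `K` shelves and arbitrary bounded multiplicities -/
theorem XM_shelf {G : Multiset ℕ} {f : ℕ → ℕ} {K d e m : ℕ} (hm : 1 ≤ m)
    (hG : ∀ x ∈ G, 1 ≤ x ∧ x + 1 ≤ m) (hf : Antitone f) (h1 : f 0 + f 1 + f 2 ≤ e)
    (h2 : f 0 + 2 ^ 16 * m ≤ e) (h3 : f 1 + f 2 + f 7 + 2 ^ 16 * m ≤ e)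
    (hd : d = e + ∑ k ∈ Finset.range K, (f (9 + 5 * k) + 2 ^ 13 * m))
    (h4 : 2 ^ 19 * (K + 1) * m ^ 2 ≤ e ∨ 2 ^ 32 * (K + 1) * m ^ 2 ≤ G.sum +
      2 * (((d + 2).choose 2 - cM ((Multiset.range (9 + 5 * K)).map f + G)) +
        (cM ((Multiset.range (9 + 5 * K)).map f + G) - (d + 2).choose 2))) :
    XM (TF d) ((Multiset.range (9 + 5 * K)).map f + G) := by
  rcases Nat.eq_zero_or_pos K with hK | hK
  · subst hK
    rw [Finset.sum_range_zero, add_zero] at hd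
    subst hd
    obtain ⟨μ, rfl⟩ : ∃ μ, m = μ + 1 := ⟨m - 1, by omega⟩
    have hu : Antitone (fun i : Fin 9 => f i) := fun i j hij => hf (by exact_mod_cast hij)
    have e9 : 9 + 5 * 0 = 9 := rfl
    rw [e9, ← ms_range f 9] at h4 ⊢
    simp only [zero_add, mul_one] at h4
    refine XM_nineS (u := fun i : Fin 9 => f i) (fun x hx => (hG x hx).1)
      (fun x hx => Nat.le_of_succ_le_succ (hG x hx).2) hu h1 h2 h3 ?_
    rcases h4 with h4 | h4
    · exact U.window (u := fun i : Fin 9 => f i) (Nat.succ_pos _) (fun x hx => (hG x hx).2) hu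
        h1 h2 h3 h4
    · exact h4
  · exact XM_shelf1 hK hm hG hf h1 h2 h3 hd h4

end Pool.Agent.K6.H83.HN
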