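import Pool.Agent.K6.H83.HN.Ends
import Pool.Agent.K6.H83.HN.Nine
import Pool.Agent.K6.H83.HN.Geo

/-! Pieces with possibly thin ends. -/

set_option autoImplicit false

namespace Pool.Agent.K6.H83.HN

open Finset Pool.Agent.TH176.Nag Pool.Agent.TH603.Sur Pool.Agent.TH641.UM Pool.Agent.K6.H83.QH
  Pool.Agent.Y205.AV Pool.Agent.K6.H83.HX

/-- independence with four large points, and a corner of size `β` already removed -/
theorem SMg {M : Multiset ℕ} {d N β : ℤ} {b2 b3 t1 t2 : ℕ}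
    (h2 : (b2 : ℤ) ≤ N) (h3 : (b3 : ℤ) ≤ N) (h4 : (t1 : ℤ) ≤ N) (h5 : (t2 : ℤ) ≤ N)
    (hp : ∀ y, 0 ≤ y → y < N → 0 ≤ pr (d + 1) β b2 b3 t1 t2 N y)
    (h : SM M {p : ℤ × ℤ | 0 ≤ p.1 ∧ 0 ≤ p.2 ∧ p.2 < N ∧
      p.1 < pr (d + 1) β b2 b3 t1 t2 N p.2}) :
    SM ({b2} + ({b3} + ({t1} + ({t2} + M)))) (Gr (fun y => ps (β - y)) (fun y => d - y) N) := by
  have s0 : SM M (Gr (fun y => A5 β b2 b3 t1 t2 N y) (fun y => d - y) N) := by
    refine SM_comap h (-1) (-1) 0 1 d 0 (by norm_num) ?_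
    rintro ⟨x, y⟩ ⟨g1, g2, g3, g4⟩
    simp only [pr] at g1 g2 g3 g4
    refine ⟨(d - y - x, y), ⟨g2, g3, by simp only; omega, by simp only; omega⟩, ?_⟩
    ext
    · simp only; ring
    · simp only; ring
  refine SM_absL b2 _ _ N h2 ?_ ?_
  · intro y y0 y1
    have g := hp y y0 (by omega)
    unfold pr A5 at g
    rw [ps_of_nonneg (z := (b2 : ℤ) - y) (by omega)] at g
    have p3 := ps_nonneg ((b3 : ℤ) - y)
    have p4 := ps_nonneg ((t1 : ℤ) - (N - 1 - y))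
    have p5 := ps_nonneg ((t2 : ℤ) - (N - 1 - y))
    omega
  refine SM_absL b3 _ _ N h3 ?_ ?_
  · intro y y0 y1
    have g := hp y y0 (by omega)
    unfold pr A5 at g
    rw [ps_of_nonneg (z := (b3 : ℤ) - y) (by omega)] at g
    have p4 := ps_nonneg ((t1 : ℤ) - (N - 1 - y))
    have p5 := ps_nonneg ((t2 : ℤ) - (N - 1 - y))
    omega
  refine SM_absR t1 _ _ N h4 ?_ ?_
  · intro y y0 y1
    have g := hp (N - 1 - y) (by omega) (by omega)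
    unfold pr A5 at g
    have e : N - 1 - (N - 1 - y) = y := by ring
    rw [e, ps_of_nonneg (z := (t1 : ℤ) - y) (by omega)] at g
    have p5 := ps_nonneg ((t2 : ℤ) - y)
    omega
  refine SM_absR t2 _ _ N h5 ?_ ?_
  · intro y y0 y1
    have g := hp (N - 1 - y) (by omega) (by omega)
    unfold pr A5 at g
    have e : N - 1 - (N - 1 - y) = y := by ring
    rw [e, ps_of_nonneg (z := (t2 : ℤ) - y) (by omega)] at g
    rw [e]
    omega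
  refine SM_monoS s0 ?_
  rintro ⟨x, y⟩ ⟨g1, g2, g3, g4⟩
  simp only [A5] at g1 g2 g3 g4
  exact ⟨g1, g2, by simp only; omega, g4⟩

/-- independence with three large points, and a corner of size `β` already removed -/
theorem SMgz {M : Multiset ℕ} {d N β : ℤ} {b2 b3 t1 : ℕ}
    (h2 : (b2 : ℤ) ≤ N) (h3 : (b3 : ℤ) ≤ N) (h4 : (t1 : ℤ) ≤ N)
    (hp : ∀ y, 0 ≤ y → y < N → 0 ≤ pr (d + 1) β b2 b3 t1 0 N y)
    (h : SM M {p : ℤ × ℤ | 0 ≤ p.1 ∧ 0 ≤ p.2 ∧ p.2 < N ∧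
      p.1 < pr (d + 1) β b2 b3 t1 0 N p.2}) :
    SM ({b2} + ({b3} + ({t1} + M))) (Gr (fun y => ps (β - y)) (fun y => d - y) N) := by
  have s0 : SM M (Gr (fun y => A5 β b2 b3 t1 0 N y) (fun y => d - y) N) := by
    refine SM_comap h (-1) (-1) 0 1 d 0 (by norm_num) ?_
    rintro ⟨x, y⟩ ⟨g1, g2, g3, g4⟩
    simp only [pr] at g1 g2 g3 g4
    refine ⟨(d - y - x, y), ⟨g2, g3, by simp only; omega, by simp only; omega⟩, ?_⟩
    ext
    · simp only; ring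
    · simp only; ring
  refine SM_absL b2 _ _ N h2 ?_ ?_
  · intro y y0 y1
    have g := hp y y0 (by omega)
    unfold pr A5 at g
    rw [ps_of_nonneg (z := (b2 : ℤ) - y) (by omega)] at g
    have p3 := ps_nonneg ((b3 : ℤ) - y)
    have p4 := ps_nonneg ((t1 : ℤ) - (N - 1 - y))
    have p5 := ps_nonneg (0 - (N - 1 - y))
    omega
  refine SM_absL b3 _ _ N h3 ?_ ?_
  · intro y y0 y1
    have g := hp y y0 (by omega)
    unfold pr A5 at g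
    rw [ps_of_nonneg (z := (b3 : ℤ) - y) (by omega)] at g
    have p4 := ps_nonneg ((t1 : ℤ) - (N - 1 - y))
    have p5 := ps_nonneg (0 - (N - 1 - y))
    omega
  refine SM_absR t1 _ _ N h4 ?_ ?_
  · intro y y0 y1
    have g := hp (N - 1 - y) (by omega) (by omega)
    unfold pr A5 at g
    have e : N - 1 - (N - 1 - y) = y := by ring
    rw [e, ps_of_nonneg (z := (t1 : ℤ) - y) (by omega)] at g
    have p5 := ps_nonneg (0 - y)
    omega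
  refine SM_monoS s0 ?_
  rintro ⟨x, y⟩ ⟨g1, g2, g3, g4⟩
  simp only [A5] at g1 g2 g3 g4
  rw [ps_of_nonpos (z := 0 - (N - 1 - y)) (by omega)] at g3
  exact ⟨g1, g2, by simp only; omega, g4⟩

theorem EMg {M : Multiset ℕ} {d N β : ℤ} {b2 b3 t1 t2 : ℕ}
    (h : EM M {p : ℤ × ℤ | 0 ≤ p.1 ∧ 0 ≤ p.2 ∧ p.2 < N ∧
      p.1 < pr (d + 1) β b2 b3 t1 t2 N p.2}) :
    EM ({b2} + ({b3} + ({t1} + ({t2} + M)))) (Gr (fun y => ps (β - y)) (fun y => d - y) N) := by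
  have s0 : EM M (Gr (fun y => A5 β b2 b3 t1 t2 N y) (fun y => d - y) N) := by
    refine EM_comap h (-1) (-1) 0 1 d 0 (by norm_num) ?_
    rintro ⟨x, y⟩ ⟨g1, g2, g3, g4⟩
    simp only at g1 g2 g3 g4
    have e1 : 0 * x + 1 * y + 0 = y := by ring
    refine ⟨by simp only; omega, by simp only; omega, by simp only; omega, ?_⟩
    simp only [e1, pr]
    omega
  have hfin : ∀ A : ℤ → ℤ, (∀ y, 0 ≤ A y) → (Gr A (fun y => d - y) N).Finite := fun A hA =>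
    Gr_finite 0 d (fun y _ _ => hA y) (fun y hy _ => by omega)
  refine EM_absL b2 _ _ N (hfin _ fun y => ?_) ?_
  · exact ps_nonneg (β - y)
  refine EM_absL b3 _ _ N (hfin _ fun y => ?_) ?_
  · have p1 := ps_nonneg (β - y)
    have p2 := ps_nonneg ((b2 : ℤ) - y)
    omega
  refine EM_absR t1 _ _ N (hfin _ fun y => ?_) ?_
  · have p1 := ps_nonneg (β - y)
    have p2 := ps_nonneg ((b2 : ℤ) - y)
    have p3 := ps_nonneg ((b3 : ℤ) - y)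
    omega
  refine EM_absR t2 _ _ N (hfin _ fun y => ?_) ?_
  · have p1 := ps_nonneg (β - y)
    have p2 := ps_nonneg ((b2 : ℤ) - y)
    have p3 := ps_nonneg ((b3 : ℤ) - y)
    have p4 := ps_nonneg ((t1 : ℤ) - (N - 1 - y))
    omega
  refine Emp.mono s0 ?_
  rintro ⟨x, y⟩ ⟨g1, g2, g3, g4⟩
  simp only at g1 g2 g3 g4
  refine ⟨g1, g2, ?_, g4⟩
  simp only [A5]
  omega

theorem EMgz {M : Multiset ℕ} {d N β : ℤ} {b2 b3 t1 : ℕ}
    (h : EM M {p : ℤ × ℤ | 0 ≤ p.1 ∧ 0 ≤ p.2 ∧ p.2 < N ∧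
      p.1 < pr (d + 1) β b2 b3 t1 0 N p.2}) :
    EM ({b2} + ({b3} + ({t1} + M))) (Gr (fun y => ps (β - y)) (fun y => d - y) N) := by
  have s0 : EM M (Gr (fun y => A5 β b2 b3 t1 0 N y) (fun y => d - y) N) := by
    refine EM_comap h (-1) (-1) 0 1 d 0 (by norm_num) ?_
    rintro ⟨x, y⟩ ⟨g1, g2, g3, g4⟩
    simp only at g1 g2 g3 g4
    have e1 : 0 * x + 1 * y + 0 = y := by ring
    refine ⟨by simp only; omega, by simp only; omega, by simp only; omega, ?_⟩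
    simp only [e1, pr]
    omega
  have hfin : ∀ A : ℤ → ℤ, (∀ y, 0 ≤ A y) → (Gr A (fun y => d - y) N).Finite := fun A hA =>
    Gr_finite 0 d (fun y _ _ => hA y) (fun y hy _ => by omega)
  refine EM_absL b2 _ _ N (hfin _ fun y => ?_) ?_
  · exact ps_nonneg (β - y)
  refine EM_absL b3 _ _ N (hfin _ fun y => ?_) ?_
  · have p1 := ps_nonneg (β - y)
    have p2 := ps_nonneg ((b2 : ℤ) - y)
    omega
  refine EM_absR t1 _ _ N (hfin _ fun y => ?_) ?_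
  · have p1 := ps_nonneg (β - y)
    have p2 := ps_nonneg ((b2 : ℤ) - y)
    have p3 := ps_nonneg ((b3 : ℤ) - y)
    omega
  refine Emp.mono s0 ?_
  rintro ⟨x, y⟩ ⟨g1, g2, g3, g4⟩
  simp only at g1 g2 g3 g4
  refine ⟨g1, g2, ?_, g4⟩
  simp only [A5]
  rw [ps_of_nonpos (z := 0 - (N - 1 - y)) (by omega)]
  omega

/-- the region below a good profile: independence -/
theorem SM_good {M : Multiset ℕ} {m : ℕ} {c b1 b2 b3 t1 t2 N Q : ℤ} (hm : 1 ≤ m)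
    (hQ : Q = 1280 * m) (hg : Good c b1 b2 b3 t1 t2 N Q) (hF : Fp c b1 b2 b3 t1 t2 N 0 = 0)
    (hM : ∀ x ∈ M, x + 1 ≤ 8 * m) (h : M = 0 ∨ (sq1 M : ℝ) + (7346304 : ℕ) * (m : ℝ) ^ 2 ≤
      κ m * ((Fp c b1 b2 b3 t1 t2 N N : ℝ) - 66 * Q ^ 2)) :
    SM M {p : ℤ × ℤ | 0 ≤ p.1 ∧ 0 ≤ p.2 ∧ p.2 < N ∧ p.1 < pr c b1 b2 b3 t1 t2 N p.2} := by
  obtain ⟨g0, g1, g2, g3, g4⟩ := hg
  rcases h with h | h
  · rw [h]; exact SM_empty
  · exact FS_ends (m := m) hm hQ (Pf_pr (c := c) (b1 := b1) (b2 := b2) (b3 := b3) (t1 := t1)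
      (t2 := t2) (N := N) g1 g2) card_le_five g0 (by omega) (by omega) M hM (by
        rw [hF]
        push_cast
        push_cast at h
        linarith)

/-- the region below a good profile: emptiness -/
theorem EM_good {M : Multiset ℕ} {B : ℕ} {c b1 b2 b3 t1 t2 N q : ℤ} (hB : 1 ≤ B)
    (hq : q = 12 * B + 1) (hg : Good c b1 b2 b3 t1 t2 N q) (hF : Fp c b1 b2 b3 t1 t2 N 0 = 0)
    (hM : ∀ x ∈ M, 1 ≤ x ∧ x ≤ B) (h : (Fp c b1 b2 b3 t1 t2 N N : ℝ) + 108 * q ^ 2 +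
      4 * (4 * q + 14) * (q + 4) + (306 : ℕ) * (B : ℝ) ^ 2 < S2 M) :
    EM M {p : ℤ × ℤ | 0 ≤ p.1 ∧ 0 ≤ p.2 ∧ p.2 < N ∧ p.1 < pr c b1 b2 b3 t1 t2 N p.2} := by
  obtain ⟨g0, g1, g2, g3, g4⟩ := hg
  exact FE_ends (B := B) hB hq (Pf_pr (c := c) (b1 := b1) (b2 := b2) (b3 := b3) (t1 := t1)
      (t2 := t2) (N := N) g1 g2) card_le_five g0 g3 g4 M hM (by
        rw [hF]
        push_cast
        push_cast at h
        linarith)

theorem Good.nonneg {c b1 b2 b3 t1 t2 N Q : ℤ} (hg : Good c b1 b2 b3 t1 t2 N Q) :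
    ∀ y, 0 ≤ y → y < N → 0 ≤ pr c b1 b2 b3 t1 t2 N y :=
  conc_min (fun y _ _ => pr_conc _ _ _ _ _ _ _ y) hg.2.1 hg.2.2.1

theorem Good.F_nonneg {c b1 b2 b3 t1 t2 N Q : ℤ} (hg : Good c b1 b2 b3 t1 t2 N Q)
    (hF : Fp c b1 b2 b3 t1 t2 N 0 = 0) (hN : 0 ≤ N) :
    (0 : ℝ) ≤ (Fp c b1 b2 b3 t1 t2 N N : ℝ) := by
  have := (Pf_pr (a := 0) (b := N) hg.2.1 hg.2.2.1).F_le le_rfl hN
  rw [hF] at this
  exact_mod_cast this

theorem PSg {m : ℕ} {d N β Q : ℤ} {b2 b3 t1 t2 : ℕ} (hm : 1 ≤ m) (hQ : Q = 1280 * m)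
    (hβ : 0 ≤ β) (hg : Good (d + 1) β b2 b3 t1 t2 N Q) (h2 : (b2 : ℤ) ≤ N) (h3 : (b3 : ℤ) ≤ N)
    (h4 : (t1 : ℤ) ≤ N) (h5 : (t2 : ℤ) ≤ N) :
    PS ({b2} + ({b3} + ({t1} + {t2}))) m 7346304 (Gr (fun y => ps (β - y)) (fun y => d - y) N)
      (κ m * ((Fp (d + 1) β b2 b3 t1 t2 N N : ℝ) - 66 * Q ^ 2)) := by
  intro M hM hM1
  have := SMg h2 h3 h4 h5 hg.nonneg (SM_good hm hQ hg (Fp_zero hβ (by omega) (by omega) h4 h5)
    hM hM1)
  simpa only [add_assoc] using this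

theorem PSgz {m : ℕ} {d N β Q : ℤ} {b2 b3 t1 : ℕ} (hm : 1 ≤ m) (hQ : Q = 1280 * m)
    (hβ : 0 ≤ β) (hg : Good (d + 1) β b2 b3 t1 0 N Q) (h2 : (b2 : ℤ) ≤ N) (h3 : (b3 : ℤ) ≤ N)
    (h4 : (t1 : ℤ) ≤ N) :
    PS ({b2} + ({b3} + {t1})) m 7346304 (Gr (fun y => ps (β - y)) (fun y => d - y) N)
      (κ m * ((Fp (d + 1) β b2 b3 t1 0 N N : ℝ) - 66 * Q ^ 2)) := by
  intro M hM hM1
  have := SMgz h2 h3 h4 hg.nonneg (SM_good hm hQ hg (Fp_zero hβ (by omega) (by omega) h4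
    (by omega)) hM hM1)
  simpa only [add_assoc] using this

theorem PEg {B : ℕ} {d N β q : ℤ} {b2 b3 t1 t2 : ℕ} (hB : 1 ≤ B) (hq : q = 12 * B + 1)
    (hβ : 0 ≤ β) (hg : Good (d + 1) β b2 b3 t1 t2 N q)
    (h4 : (t1 : ℤ) ≤ N) (h5 : (t2 : ℤ) ≤ N) :
    PE ({b2} + ({b3} + ({t1} + {t2}))) B 306 (Gr (fun y => ps (β - y)) (fun y => d - y) N)
      ((Fp (d + 1) β b2 b3 t1 t2 N N : ℝ) + 108 * q ^ 2 + 4 * (4 * q + 14) * (q + 4)) := by
  intro M hM hM1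
  have := EMg (EM_good hB hq hg (Fp_zero hβ (by omega) (by omega) h4 h5) hM hM1)
  simpa only [add_assoc] using this

theorem PEgz {B : ℕ} {d N β q : ℤ} {b2 b3 t1 : ℕ} (hB : 1 ≤ B) (hq : q = 12 * B + 1)
    (hβ : 0 ≤ β) (hg : Good (d + 1) β b2 b3 t1 0 N q) (h4 : (t1 : ℤ) ≤ N) :
    PE ({b2} + ({b3} + {t1})) B 306 (Gr (fun y => ps (β - y)) (fun y => d - y) N)
      ((Fp (d + 1) β b2 b3 t1 0 N N : ℝ) + 108 * q ^ 2 + 4 * (4 * q + 14) * (q + 4)) := by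
  intro M hM hM1
  have := EMgz (EM_good hB hq hg (Fp_zero hβ (by omega) (by omega) h4 (by
    have := hg.1
    omega)) hM hM1)
  simpa only [add_assoc] using this

/-- the shift upwards -/
def Gs (A C : ℤ → ℤ) (h N : ℤ) : Set (ℤ × ℤ) :=
  {p | h ≤ p.2 ∧ p.2 < h + N ∧ A (p.2 - h) ≤ p.1 ∧ p.1 ≤ C (p.2 - h)}

theorem PS.ups {V : Multiset ℕ} {m l : ℕ} {A C : ℤ → ℤ} {N : ℤ} {c : ℝ} (h : ℤ)
    (g : PS V m l (Gr A C N) c) : PS V m l (Gs A C h N) c := by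
  intro M hM hM1
  refine SM_comap (g M hM hM1) 1 0 0 1 0 (-h) (by norm_num) ?_
  rintro ⟨x, y⟩ ⟨g1, g2, g3, g4⟩
  simp only at g1 g2 g3 g4
  have e : y + h - h = y := by ring
  refine ⟨(x, y + h), ⟨by simp only; omega, by simp only; omega, by simp only [e]; exact g3,
    by simp only [e]; exact g4⟩, ?_⟩
  ext
  · simp only; ring
  · simp only; ring

theorem PE.ups {V : Multiset ℕ} {B k : ℕ} {A C : ℤ → ℤ} {N : ℤ} {D : ℝ} (h : ℤ)
    (g : PE V B k (Gr A C N) D) : PE V B k (Gs A C h N) D := by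
  intro M hM hM1
  refine EM_comap (g M hM hM1) 1 0 0 1 0 (-h) (by norm_num) ?_
  rintro ⟨x, y⟩ ⟨g1, g2, g3, g4⟩
  simp only at g1 g2 g3 g4
  have e1 : 0 * x + 1 * y + -h = y - h := by ring
  have e2 : 1 * x + 0 * y + 0 = x := by ring
  simp only [e1, e2]
  exact ⟨by simp only; omega, by simp only; omega, g3, g4⟩

theorem PS.absL {V : Multiset ℕ} {m l : ℕ} {C : ℤ → ℤ} {N : ℤ} {c : ℝ} (v : ℕ)
    (hv : (v : ℤ) ≤ N) (hrow : ∀ y : ℤ, 0 ≤ y → y < v → v - y ≤ C y + 1)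
    (g : PS V m l (Gr (fun y => ps ((v : ℤ) - y)) C N) c) :
    PS ({v} + V) m l (Gr (fun _ => 0) C N) c := by
  intro M hM hM1
  rw [add_assoc]
  refine SM_absL v _ _ N hv (fun y h0 h1 => by have := hrow y h0 h1; omega) ?_
  simp only [zero_add]
  exact g M hM hM1

theorem PE.absL {V : Multiset ℕ} {B k : ℕ} {C : ℤ → ℤ} {N : ℤ} {D : ℝ} (v : ℕ)
    (hfin : (Gr (fun _ => 0) C N).Finite)
    (g : PE V B k (Gr (fun y => ps ((v : ℤ) - y)) C N) D) :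
    PE ({v} + V) B k (Gr (fun _ => 0) C N) D := by
  intro M hM hM1
  rw [add_assoc]
  refine EM_absL v _ _ N hfin ?_
  simp only [zero_add]
  exact g M hM hM1

theorem PS.monoS {V : Multiset ℕ} {m l : ℕ} {S S' : Set (ℤ × ℤ)} {c : ℝ} (h : PS V m l S c)
    (hS : S ⊆ S') : PS V m l S' c := fun M hM hM1 => SM_monoS (h M hM hM1) hS

theorem PE.monoS {V : Multiset ℕ} {B k : ℕ} {S S' : Set (ℤ × ℤ)} {D : ℝ} (h : PE V B k S D)
    (hS : S' ⊆ S) : PE V B k S' D := fun M hM hM1 => Emp.mono (h M hM hM1) hS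

end Pool.Agent.K6.H83.HN
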