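import Pool.Agent.K6.H83.HN.Star

/-! Nine arbitrary multiplicities, Cremona reduced: independence and emptiness. -/

set_option autoImplicit false

namespace Pool.Agent.K6.H83.HN

open Finset Pool.Agent.TH176.Nag Pool.Agent.TH603.Sur Pool.Agent.TH641.UM Pool.Agent.K6.H83.QH
  Pool.Agent.Y205.AV Pool.Agent.K6.H83.HX

/-- the summation of a profile whose first point is higher than the stack -/
theorem Fp_topB {c b1 b2 b3 t1 t2 N : ℤ} (h1 : N ≤ b1) (h2 : b2 ≤ N) (h3 : b3 ≤ N)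
    (h4 : 0 ≤ t1) (h5 : 0 ≤ t2) : Fp c b1 b2 b3 t1 t2 N N =
      N * (2 * c - N + 1) - (b1 * (b1 + 1) - (b1 - N) * (b1 - N + 1)) - b2 * (b2 + 1) -
        b3 * (b3 + 1) - t1 * (t1 + 1) - t2 * (t2 + 1) := by
  unfold Fp
  rw [ps_of_nonneg (z := b1 - N) (by omega), ps_of_nonpos (z := b2 - N) (by omega),
    ps_of_nonpos (z := b3 - N) (by omega), ps_of_nonneg (z := t1 - N + N) (by omega),
    ps_of_nonneg (z := t2 - N + N) (by omega)]
  ring

theorem capS {M : Multiset ℕ} {m Δ : ℕ} (hm : 1 ≤ m)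
    (h : sq1 M + 400000000 * m ^ 2 + Δ / (256 * m) + 1 ≤ Δ) :
    (sq1 M : ℝ) + 14692672 * (m : ℝ) ^ 2 ≤ κ m * ((Δ : ℝ) - 132 * (1280 * m) ^ 2) := by
  have hmR : (1 : ℝ) ≤ m := by exact_mod_cast hm
  have h1 : ((sq1 M + 400000000 * m ^ 2 + Δ / (256 * m) + 1 : ℕ) : ℝ) ≤ Δ := by
    exact_mod_cast h
  push_cast at h1
  have h2 : (Δ : ℝ) / (256 * m) ≤ ((Δ / (256 * m) : ℕ) : ℝ) + 1 := by
    have h3 := Nat.lt_div_mul_add (a := Δ) (b := 256 * m) (by omega)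
    have h4 : Δ ≤ (Δ / (256 * m) + 1) * (256 * m) := by
      rw [add_mul, one_mul]
      omega
    rw [div_le_iff₀ (by positivity)]
    exact_mod_cast h4
  have h0 : (0 : ℝ) ≤ ((Δ / (256 * m) : ℕ) : ℝ) := Nat.cast_nonneg _
  have h0' : (0 : ℝ) ≤ (sq1 M : ℝ) := Nat.cast_nonneg _
  have h5 : (0 : ℝ) ≤ (m : ℝ) ^ 2 := by positivity
  have h6 := κ_ge hm (D := (Δ : ℝ) - 132 * (1280 * m) ^ 2) (by nlinarith)
  have h7 : ((Δ : ℝ) - 132 * (1280 * m) ^ 2) / (256 * m) ≤ (Δ : ℝ) / (256 * m) :=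
    div_le_div_of_nonneg_right (by
      have : (0 : ℝ) ≤ 132 * (1280 * (m : ℝ)) ^ 2 := by positivity
      linarith) (by positivity)
  have h8 : 132 * (1280 * (m : ℝ)) ^ 2 = 216268800 * (m : ℝ) ^ 2 := by ring
  rw [h8] at h6 h7 ⊢
  linarith

/-- **Independence, nine arbitrary multiplicities, Cremona reduced** -/
theorem SMs {M : Multiset ℕ} {m d Δ v0 v1 v2 v3 v4 v5 v6 v7 v8 : ℕ} (hm : 1 ≤ m)
    (hM : ∀ x ∈ M, x + 1 ≤ 8 * m) (o1 : v1 ≤ v0) (o2 : v2 ≤ v1) (o3 : v3 ≤ v2) (o4 : v4 ≤ v3)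
    (o5 : v5 ≤ v4) (o6 : v6 ≤ v5) (o7 : v7 ≤ v6) (o8 : v8 ≤ v7)
    (h1 : v0 + v1 + v2 ≤ d) (h2 : v0 + 65536 * m ≤ d) (h3 : v1 + v2 + v7 + 65536 * m ≤ d)
    (hΔ : Δ + (v0 * (v0 + 1) + v1 * (v1 + 1) + v2 * (v2 + 1) + v3 * (v3 + 1) + v4 * (v4 + 1) +
      v5 * (v5 + 1) + v6 * (v6 + 1) + v7 * (v7 + 1) + v8 * (v8 + 1)) = (d + 1) * (d + 2))
    (h : sq1 M + 400000000 * m ^ 2 + Δ / (256 * m) + 1 ≤ Δ) :
    SM ({v0} + ({v1} + ({v2} + ({v3} + ({v4} + ({v5} + ({v6} + ({v7} + ({v8} + M)))))))))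
      (TZ d) := by
  obtain ⟨Q, hQ⟩ : ∃ Q : ℤ, Q = 1280 * m := ⟨_, rfl⟩
  have hQ0 : 1280 ≤ Q := by omega
  have hQR : (Q : ℝ) = 1280 * m := by rw [hQ]; push_cast; ring
  have hcap := capS hm h
  rw [← hQR] at hcap
  have hΔZ : (Δ : ℤ) + (v0 * (v0 + 1) + v1 * (v1 + 1) + v2 * (v2 + 1) + v3 * (v3 + 1) +
      v4 * (v4 + 1) + v5 * (v5 + 1) + v6 * (v6 + 1) + v7 * (v7 + 1) + v8 * (v8 + 1)) =
      (d + 1) * (d + 2) := by exact_mod_cast hΔ
  by_cases hB : 4 * Q < v1 ∧ (d : ℤ) + 1 < v0 + v1 + 4 * Q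
  · -- the second and the other corners are small
    obtain ⟨H, hH⟩ : ∃ H : ℤ, H = 4 * Q := ⟨_, rfl⟩
    obtain ⟨N2, hN2⟩ : ∃ N2 : ℤ, N2 = d - v0 + 1 - H := ⟨_, rfl⟩
    have g1 : Good ((d : ℤ) + 1) v1 v2 v3 v4 v5 H Q :=
      geoB_low (v0 := v0) (by omega) (by omega) (by omega) (by omega) (by omega) (by omega)
        (by omega) (by omega) (by omega) (by omega) hH
    have g2 : Good ((d : ℤ) - H + 1) ((v1 : ℤ) - H) v6 v7 v8 0 N2 Q :=
      geoB_up (v0 := v0) (v2 := v2) (by omega) (by omega) (by omega) (by omega) (by omega)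
        (by omega) (by omega) (by omega) (by omega) (by omega) hH hN2
    have P1 := PSg (d := (d : ℤ)) (N := H) (β := (v1 : ℤ)) (b2 := v2) (b3 := v3) (t1 := v4)
      (t2 := v5) hm hQ (by omega) g1 (by omega) (by omega) (by omega) (by omega)
    have P2 := (PSgz (d := (d : ℤ) - H) (N := N2) (β := (v1 : ℤ) - H) (b2 := v6) (b3 := v7)
      (t1 := v8) hm hQ (by omega) g2 (by omega) (by omega) (by omega)).ups H
    have t1 := Fp_topB (c := (d : ℤ) + 1) (b1 := v1) (b2 := v2) (b3 := v3) (t1 := v4) (t2 := v5)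
      (N := H) (by omega) (by omega) (by omega) (by omega) (by omega)
    have t2 := Fp_top (c := (d : ℤ) - H + 1) (b1 := (v1 : ℤ) - H) (b2 := v6) (b3 := v7)
      (t1 := v8) (t2 := 0) (N := N2) (by omega) (by omega) (by omega) (by omega) (by omega)
    have G := PS.glue P1 P2 (fun p hp => ⟨(ps_nonneg _).trans hp.2.2.1, hp.1⟩)
      (fun p hp => ⟨(ps_nonneg _).trans hp.2.2.1, by
        have := hp.1
        omega⟩) 0 1 (by
        intro p hp r hr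
        have h1 := hp.2.1
        have h2 := hr.1
        omega)
    have hsum : (Δ : ℤ) = Fp ((d : ℤ) + 1) v1 v2 v3 v4 v5 H H +
        Fp ((d : ℤ) - H + 1) ((v1 : ℤ) - H) v6 v7 v8 0 N2 N2 := by
      rw [t1, t2, hN2]
      linarith
    have G2 := (G.monoS (S' := Gr (fun y => ps ((v1 : ℤ) - y)) (fun y => (d : ℤ) - y)
      ((d : ℤ) - v0 + 1)) (by
        rintro ⟨x, y⟩ (⟨g1, g2, g3, g4⟩ | ⟨g1, g2, g3, g4⟩)
        · simp only at g1 g2 g3 g4
          exact ⟨g1, by simp only; omega, g3, g4⟩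
        · simp only at g1 g2 g3 g4
          have e : (v1 : ℤ) - H - (y - H) = v1 - y := by ring
          rw [e] at g3
          exact ⟨by simp only; omega, by simp only; omega, g3, by simp only; omega⟩)).absL v1
      (by omega) (fun y _ _ => by omega)
    have G3 := G2 M hM (Or.inr (by
      have e1 : (Δ : ℝ) = (Fp ((d : ℤ) + 1) v1 v2 v3 v4 v5 H H : ℝ) +
        (Fp ((d : ℤ) - H + 1) ((v1 : ℤ) - H) v6 v7 v8 0 N2 N2 : ℝ) := by exact_mod_cast hsum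
      rw [← mul_add]
      refine le_trans (le_of_eq ?_) (hcap.trans (le_of_eq ?_))
      · norm_num
      · rw [e1]; ring))
    have e : {v0} + ({v1} + ({v2} + ({v3} + ({v4} + ({v5} + ({v6} + ({v7} + ({v8} + M)))))))) =
      {v0} + ({v1} + (({v2} + ({v3} + ({v4} + {v5}))) + ({v6} + ({v7} + {v8}))) + M) := by abel
    rw [e]
    exact SM_top (by omega) G3
  · obtain ⟨H, hH⟩ : ∃ H : ℤ, (H = v1 ∧ 4 * Q ≤ v1 ∧ (v0 : ℤ) + v1 + 4 * Q ≤ d + 1) ∨
        (H = 4 * Q ∧ v1 ≤ 4 * Q) := by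
      rcases le_or_gt (v1 : ℤ) (4 * Q) with hh | hh
      · exact ⟨4 * Q, Or.inr ⟨rfl, hh⟩⟩
      · exact ⟨v1, Or.inl ⟨rfl, hh.le, by
          by_contra hcon
          exact hB ⟨hh, by omega⟩⟩⟩
    obtain ⟨N2, hN2⟩ : ∃ N2 : ℤ, N2 = d - v0 + 1 - H := ⟨_, rfl⟩
    have g1 : Good ((d : ℤ) + 1) v1 v2 v3 v4 v8 H Q :=
      geo_low (v0 := v0) (v7 := v7) (by omega) (by omega) (by omega) (by omega) (by omega)
        (by omega) (by omega) (by omega) (by omega) (by omega) (by omega) (by omega)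
    have g2 : Good ((d : ℤ) - H + 1) 0 v5 v6 v7 0 N2 Q :=
      geo_up (v0 := v0) (v1 := v1) (v2 := v2) (by omega) (by omega) (by omega) (by omega)
        (by omega) (by omega) (by omega) (by omega) (by omega) (by omega) hH hN2
    have P1 := (PSg (d := (d : ℤ)) (N := H) (β := (v1 : ℤ)) (b2 := v2) (b3 := v3) (t1 := v4)
      (t2 := v8) hm hQ (by omega) g1 (by omega) (by omega) (by omega) (by omega)).absL v1
      (by omega) (fun y _ _ => by omega)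
    have P2 := (PSgz (d := (d : ℤ) - H) (N := N2) (β := 0) (b2 := v5) (b3 := v6)
      (t1 := v7) hm hQ (by omega) g2 (by omega) (by omega) (by omega)).ups H
    have t1 := Fp_top (c := (d : ℤ) + 1) (b1 := v1) (b2 := v2) (b3 := v3) (t1 := v4) (t2 := v8)
      (N := H) (by omega) (by omega) (by omega) (by omega) (by omega)
    have t2 := Fp_top (c := (d : ℤ) - H + 1) (b1 := 0) (b2 := v5) (b3 := v6)
      (t1 := v7) (t2 := 0) (N := N2) (by omega) (by omega) (by omega) (by omega) (by omega)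
    have G := PS.glue P1 P2 (fun p hp => ⟨hp.2.2.1, hp.1⟩)
      (fun p hp => ⟨(ps_nonneg _).trans hp.2.2.1, by
        have := hp.1
        omega⟩) 0 1 (by
        intro p hp r hr
        have h1 := hp.2.1
        have h2 := hr.1
        omega)
    have hsum : (Δ : ℤ) = Fp ((d : ℤ) + 1) v1 v2 v3 v4 v8 H H +
        Fp ((d : ℤ) - H + 1) 0 v5 v6 v7 0 N2 N2 := by
      rw [t1, t2, hN2]
      linarith
    have G2 := G.monoS (S' := Gr (fun _ => 0) (fun y => (d : ℤ) - y)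
      ((d : ℤ) - v0 + 1)) (by
        rintro ⟨x, y⟩ (⟨g1, g2, g3, g4⟩ | ⟨g1, g2, g3, g4⟩)
        · simp only at g1 g2 g3 g4
          exact ⟨g1, by simp only; omega, g3, g4⟩
        · simp only at g1 g2 g3 g4
          have e := ps_nonneg (0 - (y - H))
          exact ⟨by simp only; omega, by simp only; omega, by simp only; omega,
            by simp only; omega⟩)
    have G3 := G2 M hM (Or.inr (by
      have e1 : (Δ : ℝ) = (Fp ((d : ℤ) + 1) v1 v2 v3 v4 v8 H H : ℝ) +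
        (Fp ((d : ℤ) - H + 1) 0 v5 v6 v7 0 N2 N2 : ℝ) := by exact_mod_cast hsum
      rw [← mul_add]
      refine le_trans (le_of_eq ?_) (hcap.trans (le_of_eq ?_))
      · norm_num
      · rw [e1]; ring))
    have e : {v0} + ({v1} + ({v2} + ({v3} + ({v4} + ({v5} + ({v6} + ({v7} + ({v8} + M)))))))) =
      {v0} + (({v1} + ({v2} + ({v3} + ({v4} + {v8})))) + ({v5} + ({v6} + {v7})) + M) := by abel
    rw [e]
    exact SM_top (by omega) G3

theorem capE {m S2M : ℕ} {Δ q : ℝ} (hm : 1 ≤ m) (hq : q = 96 * m + 1)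
    (h : Δ + 4916224 * (m : ℝ) ^ 2 < S2M) :
    Δ + 216 * q ^ 2 + 8 * (4 * q + 14) * (q + 4) + 613 * (8 * (m : ℝ)) ^ 2 < S2M := by
  have hmR : (1 : ℝ) ≤ m := by exact_mod_cast hm
  rw [hq]
  nlinarith

/-- **Emptiness, nine arbitrary multiplicities, Cremona reduced** -/
theorem EMs {M : Multiset ℕ} {m d Δ v0 v1 v2 v3 v4 v5 v6 v7 v8 : ℕ} (hm : 1 ≤ m)
    (hM : ∀ x ∈ M, 1 ≤ x ∧ x ≤ 8 * m) (o1 : v1 ≤ v0) (o2 : v2 ≤ v1) (o3 : v3 ≤ v2)
    (o4 : v4 ≤ v3) (o5 : v5 ≤ v4) (o6 : v6 ≤ v5) (o7 : v7 ≤ v6) (o8 : v8 ≤ v7)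
    (h1 : v0 + v1 + v2 ≤ d) (h2 : v0 + 65536 * m ≤ d) (h3 : v1 + v2 + v7 + 65536 * m ≤ d)
    (hΔ : Δ + (v0 * (v0 + 1) + v1 * (v1 + 1) + v2 * (v2 + 1) + v3 * (v3 + 1) + v4 * (v4 + 1) +
      v5 * (v5 + 1) + v6 * (v6 + 1) + v7 * (v7 + 1) + v8 * (v8 + 1)) = (d + 1) * (d + 2))
    (h : Δ + 4916224 * m ^ 2 < S2 M) :
    EM ({v0} + ({v1} + ({v2} + ({v3} + ({v4} + ({v5} + ({v6} + ({v7} + ({v8} + M)))))))))
      (TZ d) := by
  obtain ⟨B, hB8⟩ : ∃ B : ℕ, B = 8 * m := ⟨_, rfl⟩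
  obtain ⟨q, hq⟩ : ∃ q : ℤ, q = 12 * B + 1 := ⟨_, rfl⟩
  have hq0 : q = 96 * m + 1 := by omega
  rw [← hB8] at hM
  have hB1 : 1 ≤ B := by omega
  have hqR : (q : ℝ) = 96 * m + 1 := by rw [hq0]; push_cast; ring
  have hBR : (B : ℝ) = 8 * m := by rw [hB8]; push_cast; ring
  have hcap := capE (Δ := (Δ : ℝ)) hm hqR (S2M := S2 M) (by exact_mod_cast h)
  rw [← hBR] at hcap
  have hΔZ : (Δ : ℤ) + (v0 * (v0 + 1) + v1 * (v1 + 1) + v2 * (v2 + 1) + v3 * (v3 + 1) +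
      v4 * (v4 + 1) + v5 * (v5 + 1) + v6 * (v6 + 1) + v7 * (v7 + 1) + v8 * (v8 + 1)) =
      (d + 1) * (d + 2) := by exact_mod_cast hΔ
  have hq1 : (0 : ℝ) < q := by exact_mod_cast (by omega : (0 : ℤ) < q)
  have hpos : (0 : ℝ) ≤ 108 * (q : ℝ) ^ 2 + 4 * (4 * q + 14) * (q + 4) := by positivity
  by_cases hB : 4 * q < v1 ∧ (d : ℤ) + 1 < v0 + v1 + 4 * q
  · obtain ⟨H, hH⟩ : ∃ H : ℤ, H = 4 * q := ⟨_, rfl⟩
    obtain ⟨N2, hN2⟩ : ∃ N2 : ℤ, N2 = d - v0 + 1 - H := ⟨_, rfl⟩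
    have g1 : Good ((d : ℤ) + 1) v1 v2 v3 v4 v5 H q :=
      geoB_low (v0 := v0) (by omega) (by omega) (by omega) (by omega) (by omega) (by omega)
        (by omega) (by omega) (by omega) (by omega) hH
    have g2 : Good ((d : ℤ) - H + 1) ((v1 : ℤ) - H) v6 v7 v8 0 N2 q :=
      geoB_up (v0 := v0) (v2 := v2) (by omega) (by omega) (by omega) (by omega) (by omega)
        (by omega) (by omega) (by omega) (by omega) (by omega) hH hN2
    have P1 := PEg (d := (d : ℤ)) (N := H) (β := (v1 : ℤ)) (b2 := v2) (b3 := v3) (t1 := v4)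
      (t2 := v5) hB1 hq (by omega) g1 (by omega) (by omega)
    have P2 := (PEgz (d := (d : ℤ) - H) (N := N2) (β := (v1 : ℤ) - H) (b2 := v6) (b3 := v7)
      (t1 := v8) hB1 hq (by omega) g2 (by omega)).ups H
    have t1 := Fp_topB (c := (d : ℤ) + 1) (b1 := v1) (b2 := v2) (b3 := v3) (t1 := v4) (t2 := v5)
      (N := H) (by omega) (by omega) (by omega) (by omega) (by omega)
    have t2 := Fp_top (c := (d : ℤ) - H + 1) (b1 := (v1 : ℤ) - H) (b2 := v6) (b3 := v7)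
      (t1 := v8) (t2 := 0) (N := N2) (by omega) (by omega) (by omega) (by omega) (by omega)
    have n1 := g1.F_nonneg (Fp_zero (by omega) (by omega) (by omega) (by omega) (by omega))
      (by omega)
    have n2 := g2.F_nonneg (Fp_zero (by omega) (by omega) (by omega) (by omega) (by omega))
      (by omega)
    have G := PE.glue P1 P2 (Gr_finite 0 d (fun y _ _ => ps_nonneg _) (fun y hy _ => by omega))
      (by
        refine Set.Finite.subset ((Set.finite_Icc (0 : ℤ) d).prod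
          (Set.finite_Icc H (H + N2))) ?_
        rintro ⟨x, y⟩ ⟨g1, g2, g3, g4⟩
        simp only at g1 g2 g3 g4
        have := ps_nonneg ((v1 : ℤ) - H - (y - H))
        exact ⟨⟨by simp only; omega, by simp only; omega⟩, ⟨g1, by simp only; omega⟩⟩)
      (fun p hp => ⟨(ps_nonneg _).trans hp.2.2.1, hp.1⟩)
      (fun p hp => ⟨(ps_nonneg _).trans hp.2.2.1, by
        have := hp.1
        omega⟩) (by linarith) (by linarith) 0 1 (by
        intro p hp r hr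
        have h1 := hp.2.1
        have h2 := hr.1
        omega)
    have hsum : (Δ : ℤ) = Fp ((d : ℤ) + 1) v1 v2 v3 v4 v5 H H +
        Fp ((d : ℤ) - H + 1) ((v1 : ℤ) - H) v6 v7 v8 0 N2 N2 := by
      rw [t1, t2, hN2]
      linarith
    have G2 := (G.monoS (S' := Gr (fun y => ps ((v1 : ℤ) - y)) (fun y => (d : ℤ) - y)
      ((d : ℤ) - v0 + 1)) (by
        rintro ⟨x, y⟩ ⟨g1, g2, g3, g4⟩
        simp only at g1 g2 g3 g4
        rcases lt_or_ge y H with hy | hy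
        · exact Or.inl ⟨g1, hy, g3, g4⟩
        · have e : (v1 : ℤ) - H - (y - H) = v1 - y := by ring
          exact Or.inr ⟨hy, by simp only; omega, by simp only [e]; exact g3,
            by simp only; omega⟩)).absL v1
      (Gr_finite 0 d (fun y _ _ => le_rfl) (fun y hy _ => by omega))
    have G3 := G2 M hM (by
      have e1 : (Δ : ℝ) = (Fp ((d : ℤ) + 1) v1 v2 v3 v4 v5 H H : ℝ) +
        (Fp ((d : ℤ) - H + 1) ((v1 : ℤ) - H) v6 v7 v8 0 N2 N2 : ℝ) := by exact_mod_cast hsum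
      rw [e1] at hcap
      refine lt_of_le_of_lt (le_of_eq ?_) hcap
      push_cast
      ring)
    have e : {v0} + ({v1} + ({v2} + ({v3} + ({v4} + ({v5} + ({v6} + ({v7} + ({v8} + M)))))))) =
      {v0} + ({v1} + (({v2} + ({v3} + ({v4} + {v5}))) + ({v6} + ({v7} + {v8}))) + M) := by abel
    rw [e]
    exact EM_top G3
  · obtain ⟨H, hH⟩ : ∃ H : ℤ, (H = v1 ∧ 4 * q ≤ v1 ∧ (v0 : ℤ) + v1 + 4 * q ≤ d + 1) ∨
        (H = 4 * q ∧ v1 ≤ 4 * q) := by
      rcases le_or_gt (v1 : ℤ) (4 * q) with hh | hh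
      · exact ⟨4 * q, Or.inr ⟨rfl, hh⟩⟩
      · exact ⟨v1, Or.inl ⟨rfl, hh.le, by
          by_contra hcon
          exact hB ⟨hh, by omega⟩⟩⟩
    obtain ⟨N2, hN2⟩ : ∃ N2 : ℤ, N2 = d - v0 + 1 - H := ⟨_, rfl⟩
    have g1 : Good ((d : ℤ) + 1) v1 v2 v3 v4 v8 H q :=
      geo_low (v0 := v0) (v7 := v7) (by omega) (by omega) (by omega) (by omega) (by omega)
        (by omega) (by omega) (by omega) (by omega) (by omega) (by omega) (by omega)
    have g2 : Good ((d : ℤ) - H + 1) 0 v5 v6 v7 0 N2 q :=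
      geo_up (v0 := v0) (v1 := v1) (v2 := v2) (by omega) (by omega) (by omega) (by omega)
        (by omega) (by omega) (by omega) (by omega) (by omega) (by omega) hH hN2
    have P1 := (PEg (d := (d : ℤ)) (N := H) (β := (v1 : ℤ)) (b2 := v2) (b3 := v3) (t1 := v4)
      (t2 := v8) hB1 hq (by omega) g1 (by omega) (by omega)).absL v1
      (Gr_finite 0 d (fun y _ _ => le_rfl) (fun y hy _ => by omega))
    have P2 := (PEgz (d := (d : ℤ) - H) (N := N2) (β := 0) (b2 := v5) (b3 := v6)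
      (t1 := v7) hB1 hq (by omega) g2 (by omega)).ups H
    have t1 := Fp_top (c := (d : ℤ) + 1) (b1 := v1) (b2 := v2) (b3 := v3) (t1 := v4) (t2 := v8)
      (N := H) (by omega) (by omega) (by omega) (by omega) (by omega)
    have t2 := Fp_top (c := (d : ℤ) - H + 1) (b1 := 0) (b2 := v5) (b3 := v6)
      (t1 := v7) (t2 := 0) (N := N2) (by omega) (by omega) (by omega) (by omega) (by omega)
    have n1 := g1.F_nonneg (Fp_zero (by omega) (by omega) (by omega) (by omega) (by omega))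
      (by omega)
    have n2 := g2.F_nonneg (Fp_zero (by omega) (by omega) (by omega) (by omega) (by omega))
      (by omega)
    have G := PE.glue P1 P2 (Gr_finite 0 d (fun y _ _ => le_rfl) (fun y hy _ => by omega))
      (by
        refine Set.Finite.subset ((Set.finite_Icc (0 : ℤ) d).prod
          (Set.finite_Icc H (H + N2))) ?_
        rintro ⟨x, y⟩ ⟨g1, g2, g3, g4⟩
        simp only at g1 g2 g3 g4
        have := ps_nonneg (0 - (y - H))
        exact ⟨⟨by simp only; omega, by simp only; omega⟩, ⟨g1, by simp only; omega⟩⟩)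
      (fun p hp => ⟨hp.2.2.1, hp.1⟩)
      (fun p hp => ⟨(ps_nonneg _).trans hp.2.2.1, by
        have := hp.1
        omega⟩) (by linarith) (by linarith) 0 1 (by
        intro p hp r hr
        have h1 := hp.2.1
        have h2 := hr.1
        omega)
    have hsum : (Δ : ℤ) = Fp ((d : ℤ) + 1) v1 v2 v3 v4 v8 H H +
        Fp ((d : ℤ) - H + 1) 0 v5 v6 v7 0 N2 N2 := by
      rw [t1, t2, hN2]
      linarith
    have G2 := G.monoS (S' := Gr (fun _ => 0) (fun y => (d : ℤ) - y)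
      ((d : ℤ) - v0 + 1)) (by
        rintro ⟨x, y⟩ ⟨g1, g2, g3, g4⟩
        simp only at g1 g2 g3 g4
        rcases lt_or_ge y H with hy | hy
        · exact Or.inl ⟨g1, hy, g3, g4⟩
        · refine Or.inr ⟨hy, by simp only; omega, ?_, by simp only; omega⟩
          simp only
          rw [ps_of_nonpos (z := 0 - (y - H)) (by omega)]
          exact g3)
    have G3 := G2 M hM (by
      have e1 : (Δ : ℝ) = (Fp ((d : ℤ) + 1) v1 v2 v3 v4 v8 H H : ℝ) +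
        (Fp ((d : ℤ) - H + 1) 0 v5 v6 v7 0 N2 N2 : ℝ) := by exact_mod_cast hsum
      rw [e1] at hcap
      refine lt_of_le_of_lt (le_of_eq ?_) hcap
      push_cast
      ring)
    have e : {v0} + ({v1} + ({v2} + ({v3} + ({v4} + ({v5} + ({v6} + ({v7} + ({v8} + M)))))))) =
      {v0} + (({v1} + ({v2} + ({v3} + ({v4} + {v8})))) + ({v5} + ({v6} + {v7})) + M) := by abel
    rw [e]
    exact EM_top G3

theorem ms9' (u : Fin 9 → ℕ) (M : Multiset ℕ) : ms u + M = {u 0} + ({u 1} + ({u 2} + ({u 3} +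
    ({u 4} + ({u 5} + ({u 6} + ({u 7} + ({u 8} + M)))))))) := by
  rw [ms9]
  abel

theorem SM9s {M : Multiset ℕ} {m d Δ : ℕ} {u : Fin 9 → ℕ} (hm : 1 ≤ m)
    (hM : ∀ x ∈ M, x + 1 ≤ 8 * m) (hu : Antitone u) (h1 : u 0 + u 1 + u 2 ≤ d)
    (h2 : u 0 + 65536 * m ≤ d) (h3 : u 1 + u 2 + u 7 + 65536 * m ≤ d)
    (hΔ : Δ + ∑ i, u i * (u i + 1) = (d + 1) * (d + 2))
    (h : sq1 M + 400000000 * m ^ 2 + Δ / (256 * m) + 1 ≤ Δ) : SM (ms u + M) (TZ d) := by
  obtain ⟨o1, o2, o3, o4, o5, o6, o7, o8⟩ := anti9 hu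
  rw [sum9] at hΔ
  rw [ms9']
  exact SMs hm hM o1 o2 o3 o4 o5 o6 o7 o8 h1 h2 h3 hΔ h

theorem EM9s {M : Multiset ℕ} {m d Δ : ℕ} {u : Fin 9 → ℕ} (hm : 1 ≤ m)
    (hM : ∀ x ∈ M, 1 ≤ x ∧ x ≤ 8 * m) (hu : Antitone u) (h1 : u 0 + u 1 + u 2 ≤ d)
    (h2 : u 0 + 65536 * m ≤ d) (h3 : u 1 + u 2 + u 7 + 65536 * m ≤ d)
    (hΔ : Δ + ∑ i, u i * (u i + 1) = (d + 1) * (d + 2))
    (h : Δ + 4916224 * m ^ 2 < S2 M) : EM (ms u + M) (TZ d) := by
  obtain ⟨o1, o2, o3, o4, o5, o6, o7, o8⟩ := anti9 hu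
  rw [sum9] at hΔ
  rw [ms9']
  exact EMs hm hM o1 o2 o3 o4 o5 o6 o7 o8 h1 h2 h3 hΔ h

end Pool.Agent.K6.H83.HN
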