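import Pool.Agent.K6.H83.HN.Star9
import Pool.Agent.K6.H83.HN.CoreG
import Pool.Agent.K6.H83.QH.MainD

/-! Near the multiples of the anticanonical class of the first eight points. -/

set_option autoImplicit false

namespace Pool.Agent.K6.H83.HN

open Finset Pool.Agent.TH176.Nag Pool.Agent.TH603.Sur Pool.Agent.TH641.UM Pool.Agent.K6.H83.QH
  Pool.Agent.Y205.AV Pool.Agent.K6.H83.HX

theorem sq1_pos {M : Multiset ℕ} (h : sq1 M ≤ 0) : M = 0 := by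
  induction M using Multiset.induction_on with
  | empty => rfl
  | cons a M _ =>
    exfalso
    rw [sq1_cons] at h
    have : 0 < (a + 1) ^ 2 := by positivity
    omega

theorem PSthin {m : ℕ} {d N : ℤ} {b2 b3 t1 : ℕ} (h2 : (b2 : ℤ) ≤ N) (h3 : (b3 : ℤ) ≤ N)
    (h4 : (t1 : ℤ) ≤ N) (hp : ∀ y, 0 ≤ y → y < N → 0 ≤ pr (d + 1) 0 b2 b3 t1 0 N y) :
    PS ({b2} + ({b3} + {t1})) m 0 (Gr (fun y => ps (0 - y)) (fun y => d - y) N) 0 := by
  intro M hM hM1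
  have hM0 : M = 0 := by
    rcases hM1 with h | h
    · exact h
    · refine sq1_pos ?_
      have h5 : (sq1 M : ℝ) ≤ ((0 : ℕ) : ℝ) := by
        push_cast at h ⊢
        linarith
      exact_mod_cast h5
  subst hM0
  have := SMgz (M := 0) (d := d) (N := N) (β := 0) h2 h3 h4 hp SM_empty
  simpa only [add_assoc] using this

theorem PEthin {B : ℕ} {d N U : ℤ} {b2 b3 t1 : ℕ} (hB : 1 ≤ B) (hN : 12 * (B : ℤ) + 1 ≤ N)
    (hU : 12 * (B : ℤ) ≤ U) (hp : ∀ y, 0 ≤ y → y < N → pr (d + 1) 0 b2 b3 t1 0 N y ≤ U) :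
    PE ({b2} + ({b3} + {t1})) B 33 (Gr (fun y => ps (0 - y)) (fun y => d - y) N)
      (2 * U * N) := by
  intro M hM hM1
  have k := FE_thin (B := B) (n := pr (d + 1) 0 b2 b3 t1 0 N) (a := 0) (b := N) (U := U) hB
    le_rfl (by omega) hU hp M hM (by
      push_cast
      push_cast at hM1
      linarith)
  have := EMgz (M := M) (d := d) (N := N) (β := 0) (b2 := b2) (b3 := b3) (t1 := t1) k
  simpa only [add_assoc] using this

/-- the numbers near the multiples of the anticanonical class -/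
theorem thin_num {d v0 v1 v2 v3 v4 v5 v6 v7 v8 g : ℤ} (_hg : 0 ≤ g) (o1 : v1 ≤ v0) (o2 : v2 ≤ v1)
    (_o3 : v3 ≤ v2) (_o4 : v4 ≤ v3) (_o5 : v5 ≤ v4) (o6 : v6 ≤ v5) (o7 : v7 ≤ v6) (_o8 : v8 ≤ v7)
    (_o9 : 0 ≤ v8) (h1 : v0 + v1 + v2 ≤ d) (h2 : d < v1 + v2 + v7 + g) :
    ∀ y, 0 ≤ y → y < d - v0 + 1 - v1 →
      pr (d - v1 + 1) 0 v5 v6 v7 0 (d - v0 + 1 - v1) y ≤ 3 * g + 1 := by
  intro y y0 y1
  unfold pr A5
  have p1 := ps_nonneg (0 - y)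
  have p2 := ps_ge (v5 - y)
  have p3 := ps_ge (v6 - y)
  have p4 := ps_ge (v7 - (d - v0 + 1 - v1 - 1 - y))
  have p5 := ps_nonneg (0 - (d - v0 + 1 - v1 - 1 - y))
  omega

theorem thin_low {d v0 v1 v2 v3 v4 v8 Q : ℤ} (hQ : 64 ≤ Q) (o1 : v1 ≤ v0) (o2 : v2 ≤ v1)
    (o3 : v3 ≤ v2) (o4 : v4 ≤ v3) (o8 : v8 ≤ v4) (o9 : 0 ≤ v8)
    (e1 : v0 + v1 + v2 ≤ d) (e2 : v0 + 32 * Q ≤ d) (e3 : v1 + v4 + v8 + 4 * Q ≤ d)
    (hh : 4 * Q ≤ v1) :
    Good (d + 1) v1 v2 v3 v4 v8 v1 Q := by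
  unfold Good pr A5 ps
  refine ⟨by omega, ?_, ?_, ?_, ?_⟩
  · omega
  · omega
  · omega
  · omega

/-- **Independence near the multiples of the anticanonical class** -/
theorem SMc {M : Multiset ℕ} {m d Δ v0 v1 v2 v3 v4 v5 v6 v7 v8 : ℕ} (hm : 1 ≤ m)
    (hM : ∀ x ∈ M, x + 1 ≤ 8 * m) (o1 : v1 ≤ v0) (o2 : v2 ≤ v1) (o3 : v3 ≤ v2) (o4 : v4 ≤ v3)
    (o5 : v5 ≤ v4) (o6 : v6 ≤ v5) (o7 : v7 ≤ v6) (o8 : v8 ≤ v7)
    (h1 : v0 + v1 + v2 ≤ d) (h2 : d < v1 + v2 + v7 + 65536 * m) (h3 : v8 + 5120 * m ≤ v7)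
    (h4 : 1000000 * m ≤ v7)
    (hΔ : Δ + (v0 * (v0 + 1) + v1 * (v1 + 1) + v2 * (v2 + 1) + v3 * (v3 + 1) + v4 * (v4 + 1) +
      v5 * (v5 + 1) + v6 * (v6 + 1) + v7 * (v7 + 1) + v8 * (v8 + 1)) = (d + 1) * (d + 2))
    (h : sq1 M + 1048576 * m * d + Δ / (256 * m) + 1 ≤ Δ) :
    SM ({v0} + ({v1} + ({v2} + ({v3} + ({v4} + ({v5} + ({v6} + ({v7} + ({v8} + M)))))))))
      (TZ d) := by
  have hmR : (1 : ℝ) ≤ m := by exact_mod_cast hm
  obtain ⟨Q, hQ⟩ : ∃ Q : ℤ, Q = 1280 * m := ⟨_, rfl⟩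
  have hQ0 : 1280 ≤ Q := by omega
  have hQR : (Q : ℝ) = 1280 * m := by rw [hQ]; push_cast; ring
  have hΔZ : (Δ : ℤ) + (v0 * (v0 + 1) + v1 * (v1 + 1) + v2 * (v2 + 1) + v3 * (v3 + 1) +
      v4 * (v4 + 1) + v5 * (v5 + 1) + v6 * (v6 + 1) + v7 * (v7 + 1) + v8 * (v8 + 1)) =
      (d + 1) * (d + 2) := by exact_mod_cast hΔ
  obtain ⟨H, hH⟩ : ∃ H : ℤ, H = v1 := ⟨_, rfl⟩
  obtain ⟨N2, hN2⟩ : ∃ N2 : ℤ, N2 = d - v0 + 1 - H := ⟨_, rfl⟩
  have g1 : Good ((d : ℤ) + 1) v1 v2 v3 v4 v8 H Q := by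
    rw [hH]
    exact thin_low (v0 := v0) (by omega) (by omega) (by omega) (by omega) (by omega)
      (by omega) (by omega) (by omega) (by omega) (by omega) (by omega)
  have q0 : 0 ≤ pr ((d : ℤ) - H + 1) 0 v5 v6 v7 0 N2 0 := by
    rw [pr_zero (by omega) (by omega) (by omega) (by omega) (by omega)]
    omega
  have q1 : 0 ≤ pr ((d : ℤ) - H + 1) 0 v5 v6 v7 0 N2 (N2 - 1) := by
    rw [pr_last (by omega) (by omega) (by omega) (by omega) (by omega)]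
    omega
  have qU : ∀ y, 0 ≤ y → y < N2 → pr ((d : ℤ) - H + 1) 0 v5 v6 v7 0 N2 y ≤
      3 * (65536 * m) + 1 := by
    rw [hN2, hH]
    exact thin_num (v2 := v2) (v3 := v3) (v4 := v4) (v8 := v8) (by omega) (by omega) (by omega)
      (by omega) (by omega) (by omega) (by omega) (by omega) (by omega) (by omega) (by omega)
      (by omega)
  have qnn : ∀ y, 0 ≤ y → y < N2 → 0 ≤ pr ((d : ℤ) - H + 1) 0 v5 v6 v7 0 N2 y :=
    conc_min (fun y _ _ => pr_conc _ _ _ _ _ _ _ y) q0 q1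
  have P1 := (PSg (d := (d : ℤ)) (N := H) (β := (v1 : ℤ)) (b2 := v2) (b3 := v3) (t1 := v4)
    (t2 := v8) hm hQ (by omega) g1 (by omega) (by omega) (by omega) (by omega)).absL v1
    (by omega) (fun y _ _ => by omega)
  have P2 := (PSthin (m := m) (d := (d : ℤ) - H) (N := N2) (b2 := v5) (b3 := v6)
    (t1 := v7) (by omega) (by omega) (by omega) qnn).ups H
  have t1 := Fp_top (c := (d : ℤ) + 1) (b1 := v1) (b2 := v2) (b3 := v3) (t1 := v4) (t2 := v8)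
    (N := H) (by omega) (by omega) (by omega) (by omega) (by omega)
  have t2 := Fp_top (c := (d : ℤ) - H + 1) (b1 := 0) (b2 := v5) (b3 := v6)
    (t1 := v7) (t2 := 0) (N := N2) (by omega) (by omega) (by omega) (by omega) (by omega)
  have t3 := Fp_zero (c := (d : ℤ) - H + 1) (b1 := 0) (b2 := v5) (b3 := v6)
    (t1 := v7) (t2 := 0) (N := N2) (by omega) (by omega) (by omega) (by omega) (by omega)
  have t4 := F_up (a := 0) (b := N2) (Pf_pr (c := (d : ℤ) - H + 1) (b1 := 0) (b2 := v5) (b3 := v6)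
    (t1 := v7) (t2 := 0) (N := N2) (a := 0) (b := N2) q0 q1).sum qU N2 (by omega) le_rfl
  rw [t3] at t4
  have G := PS.glue P1 P2 (fun p hp => ⟨hp.2.2.1, hp.1⟩)
    (fun p hp => ⟨(ps_nonneg _).trans hp.2.2.1, by
      have := hp.1
      omega⟩) 0 1 (by
      intro p hp r hr
      have h1 := hp.2.1
      have h2 := hr.1
      omega)
  have hsum : (Δ : ℤ) = Fp ((d : ℤ) + 1) v1 v2 v3 v4 v8 H H +
      Fp ((d : ℤ) - H + 1) 0 v5 v6 v7 0 N2 N2 := by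
    rw [t1, t2, hN2]
    linarith
  have G2 := G.monoS (S' := Gr (fun _ => 0) (fun y => (d : ℤ) - y)
    ((d : ℤ) - v0 + 1)) (by
      rintro ⟨x, y⟩ (⟨g1, g2, g3, g4⟩ | ⟨g1, g2, g3, g4⟩)
      · simp only at g1 g2 g3 g4
        exact ⟨g1, by simp only; omega, g3, g4⟩
      · simp only at g1 g2 g3 g4
        have e := ps_nonneg (0 - (y - H))
        exact ⟨by simp only; omega, by simp only; omega, by simp only; omega,
          by simp only; omega⟩)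
  have hcap : (sq1 M : ℝ) + 7346368 * (m : ℝ) ^ 2 ≤
      κ m * ((Fp ((d : ℤ) + 1) v1 v2 v3 v4 v8 H H : ℝ) - 66 * Q ^ 2) := by
    have e1 : (Δ : ℝ) = (Fp ((d : ℤ) + 1) v1 v2 v3 v4 v8 H H : ℝ) +
      (Fp ((d : ℤ) - H + 1) 0 v5 v6 v7 0 N2 N2 : ℝ) := by exact_mod_cast hsum
    have e2 : (Fp ((d : ℤ) - H + 1) 0 v5 v6 v7 0 N2 N2 : ℝ) ≤
        2 * (3 * (65536 * m) + 1) * d := by
      have f1 : Fp ((d : ℤ) - H + 1) 0 v5 v6 v7 0 N2 N2 ≤ 2 * (3 * (65536 * m) + 1) * d := by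
        refine (by linarith : _ ≤ 2 * (3 * (65536 * (m : ℤ)) + 1) * (N2 - 0)).trans ?_
        exact mul_le_mul_of_nonneg_left (by omega) (by positivity)
      exact_mod_cast f1
    have e3 : (0 : ℝ) ≤ (Fp ((d : ℤ) - H + 1) 0 v5 v6 v7 0 N2 N2 : ℝ) := by
      have := (Pf_pr (a := 0) (b := N2) q0 q1).F_le le_rfl (by omega)
      rw [t3] at this
      exact_mod_cast this
    have h1 : ((sq1 M + 1048576 * m * d + Δ / (256 * m) + 1 : ℕ) : ℝ) ≤ Δ := by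
      exact_mod_cast h
    push_cast at h1
    have h2 : (Δ : ℝ) / (256 * m) ≤ ((Δ / (256 * m) : ℕ) : ℝ) + 1 := by
      have h3 := Nat.lt_div_mul_add (a := Δ) (b := 256 * m) (by omega)
      have h4 : Δ ≤ (Δ / (256 * m) + 1) * (256 * m) := by
        rw [add_mul, one_mul]
        omega
      rw [div_le_iff₀ (by positivity)]
      exact_mod_cast h4
    have hd : (1000000 : ℝ) * m ≤ d := by
      have : 1000000 * m ≤ d := by omega
      exact_mod_cast this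
    have hmd : 1000000 * ((m : ℝ) * m) ≤ m * d := by
      have := mul_le_mul_of_nonneg_left hd (by linarith : (0 : ℝ) ≤ m)
      linarith
    have hm1 : (d : ℝ) ≤ m * d := le_mul_of_one_le_left (by positivity) hmR
    have h0 : (0 : ℝ) ≤ ((Δ / (256 * m) : ℕ) : ℝ) := Nat.cast_nonneg _
    have h0' : (0 : ℝ) ≤ (sq1 M : ℝ) := Nat.cast_nonneg _
    have h8 : 66 * (Q : ℝ) ^ 2 = 108134400 * ((m : ℝ) * m) := by rw [hQR]; ring
    have h9 : (0 : ℝ) ≤ (m : ℝ) * m := by positivity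
    have h10 : (0 : ℝ) ≤ (Fp ((d : ℤ) + 1) v1 v2 v3 v4 v8 H H : ℝ) - 66 * Q ^ 2 := by
      rw [h8]
      nlinarith
    have h6 := κ_ge hm (D := (Fp ((d : ℤ) + 1) v1 v2 v3 v4 v8 H H : ℝ) - 66 * Q ^ 2) h10
    have h7 : ((Fp ((d : ℤ) + 1) v1 v2 v3 v4 v8 H H : ℝ) - 66 * Q ^ 2) / (256 * m) ≤
        (Δ : ℝ) / (256 * m) := by
      refine div_le_div_of_nonneg_right ?_ (by positivity)
      rw [h8]
      linarith
    refine le_trans ?_ h6
    rw [h8] at h7 ⊢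
    have h11 : (m : ℝ) ^ 2 = m * m := sq _
    rw [h11]
    nlinarith
  have G3 := G2 M hM (Or.inr (by
    refine le_trans (le_of_eq ?_) (hcap.trans (le_of_eq ?_))
    · norm_num
    · ring))
  have e : {v0} + ({v1} + ({v2} + ({v3} + ({v4} + ({v5} + ({v6} + ({v7} + ({v8} + M)))))))) =
    {v0} + (({v1} + ({v2} + ({v3} + ({v4} + {v8})))) + ({v5} + ({v6} + {v7})) + M) := by abel
  rw [e]
  exact SM_top (by omega) G3

/-- **Emptiness near the multiples of the anticanonical class** -/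
theorem EMc {M : Multiset ℕ} {m d Δ v0 v1 v2 v3 v4 v5 v6 v7 v8 : ℕ} (hm : 1 ≤ m)
    (hM : ∀ x ∈ M, 1 ≤ x ∧ x ≤ 8 * m) (o1 : v1 ≤ v0) (o2 : v2 ≤ v1) (o3 : v3 ≤ v2)
    (o4 : v4 ≤ v3) (o5 : v5 ≤ v4) (o6 : v6 ≤ v5) (o7 : v7 ≤ v6) (o8 : v8 ≤ v7)
    (h1 : v0 + v1 + v2 ≤ d) (h2 : d < v1 + v2 + v7 + 65536 * m) (h3 : v8 + 5120 * m ≤ v7)
    (h4 : 1000000 * m ≤ v7)
    (hΔ : Δ + (v0 * (v0 + 1) + v1 * (v1 + 1) + v2 * (v2 + 1) + v3 * (v3 + 1) + v4 * (v4 + 1) +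
      v5 * (v5 + 1) + v6 * (v6 + 1) + v7 * (v7 + 1) + v8 * (v8 + 1)) = (d + 1) * (d + 2))
    (h : Δ + 1048576 * m * d < S2 M) :
    EM ({v0} + ({v1} + ({v2} + ({v3} + ({v4} + ({v5} + ({v6} + ({v7} + ({v8} + M)))))))))
      (TZ d) := by
  have hmR : (1 : ℝ) ≤ m := by exact_mod_cast hm
  obtain ⟨B, hB8⟩ : ∃ B : ℕ, B = 8 * m := ⟨_, rfl⟩
  obtain ⟨q, hq⟩ : ∃ q : ℤ, q = 12 * B + 1 := ⟨_, rfl⟩
  have hq0 : q = 96 * m + 1 := by omega
  rw [← hB8] at hM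
  have hB1 : 1 ≤ B := by omega
  have hqR : (q : ℝ) = 96 * m + 1 := by rw [hq0]; push_cast; ring
  have hBR : (B : ℝ) = 8 * m := by rw [hB8]; push_cast; ring
  have hΔZ : (Δ : ℤ) + (v0 * (v0 + 1) + v1 * (v1 + 1) + v2 * (v2 + 1) + v3 * (v3 + 1) +
      v4 * (v4 + 1) + v5 * (v5 + 1) + v6 * (v6 + 1) + v7 * (v7 + 1) + v8 * (v8 + 1)) =
      (d + 1) * (d + 2) := by exact_mod_cast hΔ
  have hq1 : (0 : ℝ) < q := by exact_mod_cast (by omega : (0 : ℤ) < q)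
  have hpos : (0 : ℝ) ≤ 108 * (q : ℝ) ^ 2 + 4 * (4 * q + 14) * (q + 4) := by positivity
  obtain ⟨H, hH⟩ : ∃ H : ℤ, H = v1 := ⟨_, rfl⟩
  obtain ⟨N2, hN2⟩ : ∃ N2 : ℤ, N2 = d - v0 + 1 - H := ⟨_, rfl⟩
  have g1 : Good ((d : ℤ) + 1) v1 v2 v3 v4 v8 H q := by
    rw [hH]
    exact thin_low (v0 := v0) (by omega) (by omega) (by omega) (by omega) (by omega)
      (by omega) (by omega) (by omega) (by omega) (by omega) (by omega)
  have q0 : 0 ≤ pr ((d : ℤ) - H + 1) 0 v5 v6 v7 0 N2 0 := by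
    rw [pr_zero (by omega) (by omega) (by omega) (by omega) (by omega)]
    omega
  have q1 : 0 ≤ pr ((d : ℤ) - H + 1) 0 v5 v6 v7 0 N2 (N2 - 1) := by
    rw [pr_last (by omega) (by omega) (by omega) (by omega) (by omega)]
    omega
  have qU : ∀ y, 0 ≤ y → y < N2 → pr ((d : ℤ) - H + 1) 0 v5 v6 v7 0 N2 y ≤
      3 * (65536 * m) + 1 := by
    rw [hN2, hH]
    exact thin_num (v2 := v2) (v3 := v3) (v4 := v4) (v8 := v8) (by omega) (by omega) (by omega)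
      (by omega) (by omega) (by omega) (by omega) (by omega) (by omega) (by omega) (by omega)
      (by omega)
  have P1 := (PEg (d := (d : ℤ)) (N := H) (β := (v1 : ℤ)) (b2 := v2) (b3 := v3) (t1 := v4)
    (t2 := v8) hB1 hq (by omega) g1 (by omega) (by omega)).absL v1
    (Gr_finite 0 d (fun y _ _ => le_rfl) (fun y hy _ => by omega))
  have P2 := (PEthin (B := B) (d := (d : ℤ) - H) (N := N2) (b2 := v5) (b3 := v6)
    (t1 := v7) (U := 3 * (65536 * m) + 1) hB1 (by omega) (by omega) qU).ups H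
  have t1 := Fp_top (c := (d : ℤ) + 1) (b1 := v1) (b2 := v2) (b3 := v3) (t1 := v4) (t2 := v8)
    (N := H) (by omega) (by omega) (by omega) (by omega) (by omega)
  have t2 := Fp_top (c := (d : ℤ) - H + 1) (b1 := 0) (b2 := v5) (b3 := v6)
    (t1 := v7) (t2 := 0) (N := N2) (by omega) (by omega) (by omega) (by omega) (by omega)
  have t3 := Fp_zero (c := (d : ℤ) - H + 1) (b1 := 0) (b2 := v5) (b3 := v6)
    (t1 := v7) (t2 := 0) (N := N2) (by omega) (by omega) (by omega) (by omega) (by omega)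
  have n1 := g1.F_nonneg (Fp_zero (by omega) (by omega) (by omega) (by omega) (by omega))
    (by omega)
  have n2 : (0 : ℝ) ≤ (Fp ((d : ℤ) - H + 1) 0 v5 v6 v7 0 N2 N2 : ℝ) := by
    have := (Pf_pr (a := 0) (b := N2) q0 q1).F_le le_rfl (by omega)
    rw [t3] at this
    exact_mod_cast this
  have n3 : (0 : ℝ) ≤ 2 * ((3 * (65536 * m) + 1 : ℤ) : ℝ) * (N2 : ℝ) := by
    have : (0 : ℤ) ≤ 2 * (3 * (65536 * m) + 1) * N2 := mul_nonneg (by omega) (by omega)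
    exact_mod_cast this
  have G := PE.glue P1 P2 (Gr_finite 0 d (fun y _ _ => le_rfl) (fun y hy _ => by omega))
    (by
      refine Set.Finite.subset ((Set.finite_Icc (0 : ℤ) d).prod
        (Set.finite_Icc H (H + N2))) ?_
      rintro ⟨x, y⟩ ⟨g1, g2, g3, g4⟩
      simp only at g1 g2 g3 g4
      have := ps_nonneg (0 - (y - H))
      exact ⟨⟨by simp only; omega, by simp only; omega⟩, ⟨g1, by simp only; omega⟩⟩)
    (fun p hp => ⟨hp.2.2.1, hp.1⟩)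
    (fun p hp => ⟨(ps_nonneg _).trans hp.2.2.1, by
      have := hp.1
      omega⟩) (by linarith) n3 0 1 (by
      intro p hp r hr
      have h1 := hp.2.1
      have h2 := hr.1
      omega)
  have hsum : (Δ : ℤ) = Fp ((d : ℤ) + 1) v1 v2 v3 v4 v8 H H +
      Fp ((d : ℤ) - H + 1) 0 v5 v6 v7 0 N2 N2 := by
    rw [t1, t2, hN2]
    linarith
  have G2 := G.monoS (S' := Gr (fun _ => 0) (fun y => (d : ℤ) - y)
    ((d : ℤ) - v0 + 1)) (by
      rintro ⟨x, y⟩ ⟨g1, g2, g3, g4⟩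
      simp only at g1 g2 g3 g4
      rcases lt_or_ge y H with hy | hy
      · exact Or.inl ⟨g1, hy, g3, g4⟩
      · refine Or.inr ⟨hy, by simp only; omega, ?_, by simp only; omega⟩
        simp only
        rw [ps_of_nonpos (z := 0 - (y - H)) (by omega)]
        exact g3)
  have G3 := G2 M hM (by
    have e1 : (Δ : ℝ) = (Fp ((d : ℤ) + 1) v1 v2 v3 v4 v8 H H : ℝ) +
      (Fp ((d : ℤ) - H + 1) 0 v5 v6 v7 0 N2 N2 : ℝ) := by exact_mod_cast hsum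
    have e2 : ((Δ + 1048576 * m * d : ℕ) : ℝ) < S2 M := by exact_mod_cast h
    push_cast at e2
    have e3 : 2 * ((3 * (65536 * m) + 1 : ℤ) : ℝ) * (N2 : ℝ) ≤ 2 * (3 * (65536 * m) + 1) * d := by
      have f1 : 2 * (3 * (65536 * (m : ℤ)) + 1) * N2 ≤ 2 * (3 * (65536 * m) + 1) * d :=
        mul_le_mul_of_nonneg_left (by omega) (by positivity)
      exact_mod_cast f1
    have hd : (1000000 : ℝ) * m ≤ d := by
      have : 1000000 * m ≤ d := by omega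
      exact_mod_cast this
    have hmd : 1000000 * ((m : ℝ) * m) ≤ m * d := by
      have := mul_le_mul_of_nonneg_left hd (by linarith : (0 : ℝ) ≤ m)
      linarith
    have hm1 : (d : ℝ) ≤ m * d := le_mul_of_one_le_left (by positivity) hmR
    refine lt_of_le_of_lt ?_ e2
    rw [hqR, hBR]
    push_cast at e3 ⊢
    have h12 : (m : ℝ) ≤ m * m := le_mul_of_one_le_left (by linarith) hmR
    nlinarith)
  have e : {v0} + ({v1} + ({v2} + ({v3} + ({v4} + ({v5} + ({v6} + ({v7} + ({v8} + M)))))))) =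
    {v0} + (({v1} + ({v2} + ({v3} + ({v4} + {v8})))) + ({v5} + ({v6} + {v7})) + M) := by abel
  rw [e]
  exact EM_top G3

end Pool.Agent.K6.H83.HN
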