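import Pool.Agent.K6.H83.HN.ShelfX

/-! Wide shelves: parallelograms with two large points. -/

set_option autoImplicit false

namespace Pool.Agent.K6.H83.HN.W

open Finset Pool.Agent.TH176.Nag Pool.Agent.TH603.Sur Pool.Agent.TH641.UM Pool.Agent.K6.H83.QH
  Pool.Agent.Y205.AV Pool.Agent.K6.H83.HX

theorem LM_zero {K : Type*} [Field K] (f : (ℤ × ℤ) →₀ K) (x y : K) :
    Pool.Agent.TH176.Nag.LM f x y 0 := by
  intro P hP
  have h1 : Pool.Agent.TH176.Nag.PF K 0 ≤ ⊥ :=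
    Pool.Agent.TH176.Nag.PF_le_of_desc (fun a b h => absurd h (by omega))
  have h2 : P = 0 := (Submodule.mem_bot K).1 (h1 hP)
  rw [h2]
  unfold Pool.Agent.TH176.Nag.pr Finsupp.sum
  simp

theorem Emp_drop {ι κ : Type} [Fintype ι] [Fintype κ] {w : ι → ℕ} {S : Set (ℤ × ℤ)}
    (h : Emp (Sum.elim w (fun _ : κ => 0)) S) : Emp w S := by
  obtain ⟨K, i1, i2, x, y, hx, hy, hf⟩ := h
  refine ⟨K, i1, i2, fun i => x (Sum.inl i), fun i => y (Sum.inl i), fun i => hx _,
    fun i => hy _, fun f h1 h2 => hf f h1 ?_⟩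
  rintro (i | i)
  · exact h2 i
  · exact LM_zero f _ _

theorem EM_drop {M : Multiset ℕ} {S : Set (ℤ × ℤ)} (h : EM ({0} + M) S) : EM M S := by
  refine Emp_drop (κ := Fin 1) (w := fam M) ((EM_iff ?_).1 h)
  rw [ms_sum, ms_fam, ms_fin, one_smul, add_comm]

theorem SM_drop {M : Multiset ℕ} {S : Set (ℤ × ℤ)} (h : SM ({0} + M) S) : SM M S := by
  have h1 : Sur (Sum.elim (fam M) (fun _ : Fin 1 => 0)) S :=
    (SM_iff (by rw [ms_sum, ms_fam, ms_fin, one_smul, add_comm])).1 h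
  obtain ⟨T, g1, g2, g3⟩ := h1
  refine ⟨T, g1, ?_, Emp_drop g3⟩
  rw [g2]
  unfold Pool.Agent.TH603.Sur.cond
  rw [Fintype.sum_sum_type]
  simp

theorem PS.drop {V : Multiset ℕ} {m l : ℕ} {S : Set (ℤ × ℤ)} {c : ℝ}
    (h : PS ({0} + V) m l S c) : PS V m l S c := fun M hM hM1 =>
  SM_drop (by have := h M hM hM1; rwa [add_assoc] at this)

theorem PE.drop {V : Multiset ℕ} {B k : ℕ} {S : Set (ℤ × ℤ)} {D : ℝ}
    (h : PE ({0} + V) B k S D) : PE V B k S D := fun M hM hM1 =>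
  EM_drop (by have := h M hM hM1; rwa [add_assoc] at this)

/-- a shift to the right -/
theorem PS.shr {V : Multiset ℕ} {m l : ℕ} {A C : ℤ → ℤ} {N : ℤ} {c : ℝ} (s : ℤ)
    (g : PS V m l (Gr A C N) c) : PS V m l (Gr (fun y => A y + s) (fun y => C y + s) N) c := by
  intro M hM hM1
  refine SM_comap (g M hM hM1) 1 0 0 1 (-s) 0 (by norm_num) ?_
  rintro ⟨x, y⟩ ⟨g1, g2, g3, g4⟩
  simp only at g1 g2 g3 g4
  refine ⟨(x + s, y), ⟨g1, g2, by simp only; omega, by simp only; omega⟩, ?_⟩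
  ext
  · simp only; ring
  · simp only; ring

theorem PE.shr {V : Multiset ℕ} {B k : ℕ} {A C : ℤ → ℤ} {N : ℤ} {D : ℝ} (s : ℤ)
    (g : PE V B k (Gr A C N) D) : PE V B k (Gr (fun y => A y + s) (fun y => C y + s) N) D := by
  intro M hM hM1
  refine EM_comap (g M hM hM1) 1 0 0 1 (-s) 0 (by norm_num) ?_
  rintro ⟨x, y⟩ ⟨g1, g2, g3, g4⟩
  simp only at g1 g2 g3 g4
  have e1 : 0 * x + 1 * y + 0 = y := by ring
  have e2 : 1 * x + 0 * y + -s = x - s := by ring
  simp only [e1, e2]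
  exact ⟨g1, g2, by simp only; omega, by simp only; omega⟩

/-- the profile of a parallelogram with two points is thick -/
theorem good_par {N b t L Q : ℤ} (hQ : 64 ≤ Q) (hb : 0 ≤ b) (htb : t ≤ b) (ht : 0 ≤ t)
    (hN : b + 4 * Q ≤ N) (hL : b + 4 * Q ≤ L) : Good (L + N) N b 0 t 0 N Q := by
  unfold Good pr A5 ps
  refine ⟨by omega, ?_, ?_, ?_, ?_⟩ <;> omega

/-- independence in a parallelogram with two points -/
theorem PS_par {m b t : ℕ} {N W L Q : ℤ} (hm : 1 ≤ m) (hQ : Q = 1280 * m) (htb : t ≤ b)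
    (hN : b + 4 * Q ≤ N) (hL : b + 4 * Q ≤ L) :
    PS ({b} + {t}) m 7346304 (Gr (fun y => W + 1 - y) (fun y => W + L - y) N)
      (κ m * ((2 * N * L - b * (b + 1) - t * (t + 1) : ℝ) - 66 * Q ^ 2)) := by
  have hQ0 : 64 ≤ Q := by rw [hQ]; omega
  have h1 := PSgz (d := L + N - 1) (N := N) (β := N) (Q := Q) (b2 := b) (b3 := 0) (t1 := t) hm hQ
    (by omega) (by
      have := good_par (N := N) (b := b) (t := t) (L := L) hQ0 (by omega) (by omega) (by omega)
        hN hL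
      have e : L + N - 1 + 1 = L + N := by ring
      rw [e]
      exact_mod_cast this) (by omega) (by push_cast; omega) (by omega)
  have e2 : ({b} + ({0} + {t}) : Multiset ℕ) = {0} + ({b} + {t}) := by
    rw [← add_assoc, ← add_assoc, add_comm ({b} : Multiset ℕ) {0}]
  rw [e2] at h1
  have h2 := PS.shr (W + 1 - N) (PS.drop h1)
  have e3 : Fp (L + N - 1 + 1) N b (0 : ℕ) t 0 N N =
      2 * N * L - b * (b + 1) - t * (t + 1) := by
    rw [Fp_top (by omega) (by omega) (by push_cast; omega) (by omega) (by omega)]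
    push_cast
    ring
  rw [e3] at h2
  have h3 : PS ({b} + {t}) m 7346304 (Gr (fun y => W + 1 - y) (fun y => W + L - y) N)
      (κ m * (((2 * N * L - b * (b + 1) - t * (t + 1) : ℤ) : ℝ) - 66 * Q ^ 2)) := by
    refine h2.monoS ?_
    rintro ⟨x, y⟩ ⟨g1, g2, g3, g4⟩
    simp only at g1 g2 g3 g4
    rw [ps_of_nonneg (by omega)] at g3
    exact ⟨g1, g2, by simp only; omega, by simp only; omega⟩
  push_cast at h3
  exact h3

/-- emptiness in a parallelogram with two points -/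
theorem PE_par {B b t : ℕ} {N W L q : ℤ} (hB : 1 ≤ B) (hq : q = 12 * B + 1) (hq0 : 64 ≤ q)
    (htb : t ≤ b) (hN : b + 4 * q ≤ N) (hL : b + 4 * q ≤ L) :
    PE ({b} + {t}) B 306 (Gr (fun y => W + 1 - y) (fun y => W + L - y) N)
      ((2 * N * L - b * (b + 1) - t * (t + 1) : ℝ) + 108 * q ^ 2 +
        4 * (4 * q + 14) * (q + 4)) := by
  have h1 := PEgz (B := B) (d := L + N - 1) (N := N) (β := N) (q := q) (b2 := b) (b3 := 0)
    (t1 := t) hB hq (by omega) (by
      have := good_par (N := N) (b := b) (t := t) (L := L) hq0 (by omega) (by omega) (by omega)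
        hN hL
      have e : L + N - 1 + 1 = L + N := by ring
      rw [e]
      exact_mod_cast this) (by omega)
  have e2 : ({b} + ({0} + {t}) : Multiset ℕ) = {0} + ({b} + {t}) := by
    rw [← add_assoc, ← add_assoc, add_comm ({b} : Multiset ℕ) {0}]
  rw [e2] at h1
  have h2 := PE.shr (W + 1 - N) (PE.drop h1)
  have e3 : Fp (L + N - 1 + 1) N b (0 : ℕ) t 0 N N =
      2 * N * L - b * (b + 1) - t * (t + 1) := by
    rw [Fp_top (by omega) (by omega) (by push_cast; omega) (by omega) (by omega)]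
    push_cast
    ring
  rw [e3] at h2
  have h3 : PE ({b} + {t}) B 306 (Gr (fun y => W + 1 - y) (fun y => W + L - y) N)
      (((2 * N * L - b * (b + 1) - t * (t + 1) : ℤ) : ℝ) + 108 * q ^ 2 +
        4 * (4 * q + 14) * (q + 4)) := by
    refine h2.monoS ?_
    rintro ⟨x, y⟩ ⟨g1, g2, g3, g4⟩
    simp only at g1 g2 g3 g4
    refine ⟨g1, g2, ?_, by simp only; omega⟩
    simp only
    rw [ps_of_nonneg (by omega)]
    omega
  push_cast at h3
  exact h3

end Pool.Agent.K6.H83.HN.W
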