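import Pool.Agent.K6.H83.HN.WideA

/-! Wide shelves: strips of parallelograms. -/

set_option autoImplicit false

namespace Pool.Agent.K6.H83.HN.W

open Finset Pool.Agent.TH176.Nag Pool.Agent.TH603.Sur Pool.Agent.TH641.UM Pool.Agent.K6.H83.QH
  Pool.Agent.Y205.AV Pool.Agent.K6.H83.HX

theorem PS.mono_c {V : Multiset ℕ} {m l : ℕ} {S : Set (ℤ × ℤ)} {c c' : ℝ} (h : PS V m l S c)
    (hc : c' ≤ c) : PS V m l S c' := fun M hM hM1 => h M hM (by
  rcases hM1 with h1 | h1
  · exact Or.inl h1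
  · exact Or.inr (h1.trans hc))

theorem PE.mono_c {V : Multiset ℕ} {B k : ℕ} {S : Set (ℤ × ℤ)} {c c' : ℝ} (h : PE V B k S c)
    (hc : c ≤ c') : PE V B k S c' := fun M hM hM1 => h M hM (by linarith)

/-- the numbers of a parallelogram -/
theorem par_num {b t : ℕ} {N q : ℤ} (hq : 1 ≤ q) (htb : t ≤ b) (hN : b + 4 * q ≤ N) :
    (0 : ℝ) ≤ 2 * N * N - b * (b + 1) - t * (t + 1) := by
  have hb : ((b : ℤ) + 1) * (b + 1) ≤ N * N := mul_le_mul (by omega) (by omega) (by omega)
    (by omega)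
  have ht : ((t : ℤ) + 1) * (t + 1) ≤ (b + 1) * (b + 1) := mul_le_mul (by omega) (by omega)
    (by omega) (by omega)
  have h : 0 ≤ 2 * N * N - b * (b + 1) - t * (t + 1) := by nlinarith
  exact_mod_cast h

/-- independence: a parallelogram at the right end -/
theorem PS_add {m b t l : ℕ} {V : Multiset ℕ} {c : ℝ} {N W Q : ℤ} (hm : 1 ≤ m)
    (hQ : Q = 1280 * m) (htb : t ≤ b) (hN : b + 4 * Q ≤ N) (hW : N ≤ W)
    (h : PS V m l (Gr (fun _ => 0) (fun y => W - y) N) c) :
    PS (V + ({b} + {t})) m (l + 7346304 + 64) (Gr (fun _ => 0) (fun y => W + N - y) N)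
      (c + ((2 * N * N - b * (b + 1) - t * (t + 1) : ℝ) -
        (2 * N * N - b * (b + 1) - t * (t + 1) : ℝ) / (256 * m) - 66 * Q ^ 2)) := by
  have hQ0 : 64 ≤ Q := by rw [hQ]; omega
  have hmR : (1 : ℝ) ≤ m := by exact_mod_cast hm
  have h1 := PS.glue h (PS_par (W := W) (L := N) hm hQ htb hN hN) (fun p hp => ⟨hp.2.2.1, hp.1⟩)
    (fun p hp => ⟨by
      have h1 := hp.2.2.1
      have h2 := hp.2.1
      simp only at h1
      omega, hp.1⟩) 1 1 (by
      intro p hp r hr
      have h1 := hp.2.2.2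
      have h2 := hr.2.2.1
      simp only at h1 h2
      omega)
  have h2 := h1.monoS (S' := Gr (fun _ => 0) (fun y => W + N - y) N) (by
    rintro ⟨x, y⟩ (⟨g1, g2, g3, g4⟩ | ⟨g1, g2, g3, g4⟩)
    · simp only at g1 g2 g3 g4
      exact ⟨g1, g2, g3, by simp only; omega⟩
    · simp only at g1 g2 g3 g4
      exact ⟨g1, g2, by simp only; omega, by simp only; omega⟩)
  refine PS.mono_c h2 ?_
  have hF := par_num (b := b) (t := t) (N := N) (q := Q) (by omega) htb hN
  have k1 := κ_ge hm hF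
  have k2 : κ m ≤ 1 := by
    unfold κ
    rw [div_le_one (by positivity)]
    linarith
  have k4 : κ m * (66 * (Q : ℝ) ^ 2) ≤ 1 * (66 * Q ^ 2) :=
    mul_le_mul_of_nonneg_right k2 (by positivity)
  rw [mul_sub]
  linarith

/-- independence: a row of parallelograms -/
theorem PS_strip {m l : ℕ} {V : Multiset ℕ} {c : ℝ} {N W Q : ℤ} {b t : ℕ → ℕ} (hm : 1 ≤ m)
    (hQ : Q = 1280 * m) (htb : ∀ i, t i ≤ b i) (hN : ∀ i, b i + 4 * Q ≤ N) (hW : N ≤ W)
    (h : PS V m l (Gr (fun _ => 0) (fun y => W - y) N) c) (p : ℕ) :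
    PS (V + ∑ i ∈ Finset.range p, ({b i} + {t i})) m (l + p * 7346368)
      (Gr (fun _ => 0) (fun y => W + p * N - y) N)
      (c + ((∑ i ∈ Finset.range p, (2 * N * N - b i * (b i + 1) - t i * (t i + 1) : ℝ)) -
        (∑ i ∈ Finset.range p, (2 * N * N - b i * (b i + 1) - t i * (t i + 1) : ℝ)) /
          (256 * m) - p * (66 * Q ^ 2))) := by
  have hN0 : 0 ≤ N := by
    have := hN 0
    omega
  induction p with
  | zero =>
    simp only [Finset.sum_range_zero, add_zero, Nat.cast_zero, zero_mul, zero_div, sub_zero]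
    exact h
  | succ p ih =>
    have h1 := PS_add (b := b p) (t := t p) hm hQ (htb p) (hN p) (W := W + p * N) (by
      have : (0 : ℤ) ≤ p * N := by positivity
      omega) ih
    rw [Finset.sum_range_succ, Finset.sum_range_succ, ← add_assoc]
    have e1 : l + (p + 1) * 7346368 = l + p * 7346368 + 7346304 + 64 := by ring
    have e2 : (fun y : ℤ => W + ((p + 1 : ℕ) : ℤ) * N - y) = fun y => W + p * N + N - y := by
      funext y
      push_cast
      ring
    rw [e1, e2]
    refine PS.mono_c h1 (le_of_eq ?_)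
    push_cast
    ring

/-- emptiness: a parallelogram at the right end -/
theorem PE_add {B b t k : ℕ} {V : Multiset ℕ} {D : ℝ} {N W q : ℤ} (hB : 1 ≤ B)
    (hq : q = 12 * B + 1) (hq0 : 64 ≤ q) (htb : t ≤ b) (hN : b + 4 * q ≤ N) (hW : N ≤ W)
    (hD : 0 ≤ D) (h : PE V B k (Gr (fun _ => 0) (fun y => W - y) N) D) :
    PE (V + ({b} + {t})) B (k + 306 + 1) (Gr (fun _ => 0) (fun y => W + N - y) N)
      (D + ((2 * N * N - b * (b + 1) - t * (t + 1) : ℝ) + 108 * q ^ 2 +
        4 * (4 * q + 14) * (q + 4))) := by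
  have hqR : (64 : ℝ) ≤ q := by exact_mod_cast hq0
  have hF := par_num (b := b) (t := t) (N := N) (q := q) (by omega) htb hN
  have hfin : (Gr (fun _ => 0) (fun y => W - y) N).Finite :=
    Gr_finite 0 W (fun y _ _ => le_rfl) (fun y hy _ => by omega)
  have hfin2 : (Gr (fun y => W + 1 - y) (fun y => W + N - y) N).Finite :=
    Gr_finite 0 (W + N) (fun y _ _ => by omega) (fun y hy _ => by omega)
  have h1 := PE.glue h (PE_par (W := W) (L := N) hB hq hq0 htb hN hN) hfin hfin2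
    (fun p hp => ⟨hp.2.2.1, hp.1⟩)
    (fun p hp => ⟨by
      have h1 := hp.2.2.1
      have h2 := hp.2.1
      simp only at h1
      omega, hp.1⟩) hD (by
      have : (0 : ℝ) ≤ 108 * (q : ℝ) ^ 2 + 4 * (4 * q + 14) * (q + 4) := by positivity
      linarith) 1 1 (by
      intro p hp r hr
      have h1 := hp.2.2.2
      have h2 := hr.2.2.1
      simp only at h1 h2
      omega)
  refine h1.monoS ?_
  rintro ⟨x, y⟩ ⟨g1, g2, g3, g4⟩
  simp only at g1 g2 g3 g4
  rcases le_or_gt x (W - y) with hx | hx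
  · exact Or.inl ⟨g1, g2, g3, hx⟩
  · exact Or.inr ⟨g1, g2, by simp only; omega, g4⟩

/-- emptiness: a row of parallelograms -/
theorem PE_strip {B k : ℕ} {V : Multiset ℕ} {D : ℝ} {N W q : ℤ} {b t : ℕ → ℕ} (hB : 1 ≤ B)
    (hq : q = 12 * B + 1) (hq0 : 64 ≤ q) (htb : ∀ i, t i ≤ b i) (hN : ∀ i, b i + 4 * q ≤ N)
    (hW : N ≤ W) (hD : 0 ≤ D) (h : PE V B k (Gr (fun _ => 0) (fun y => W - y) N) D) (p : ℕ) :
    PE (V + ∑ i ∈ Finset.range p, ({b i} + {t i})) B (k + p * 307)
      (Gr (fun _ => 0) (fun y => W + p * N - y) N)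
      (D + ((∑ i ∈ Finset.range p, (2 * N * N - b i * (b i + 1) - t i * (t i + 1) : ℝ)) +
        p * (108 * q ^ 2 + 4 * (4 * q + 14) * (q + 4)))) := by
  have hqR : (64 : ℝ) ≤ q := by exact_mod_cast hq0
  have hN0 : 0 ≤ N := by
    have := hN 0
    omega
  induction p with
  | zero =>
    simp only [Finset.sum_range_zero, add_zero, Nat.cast_zero, zero_mul]
    exact h
  | succ p ih =>
    have hs : (0 : ℝ) ≤ ∑ i ∈ Finset.range p,
        (2 * N * N - b i * (b i + 1) - t i * (t i + 1) : ℝ) :=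
      Finset.sum_nonneg fun i _ => par_num (by omega) (htb i) (hN i)
    have hs2 : (0 : ℝ) ≤ p * (108 * (q : ℝ) ^ 2 + 4 * (4 * q + 14) * (q + 4)) := by positivity
    have h1 := PE_add (b := b p) (t := t p) hB hq hq0 (htb p) (hN p) (W := W + p * N) (by
      have : (0 : ℤ) ≤ p * N := by positivity
      omega) (by linarith) ih
    rw [Finset.sum_range_succ, Finset.sum_range_succ, ← add_assoc]
    have e1 : k + (p + 1) * 307 = k + p * 307 + 306 + 1 := by ring
    have e2 : (fun y : ℤ => W + ((p + 1 : ℕ) : ℤ) * N - y) = fun y => W + p * N + N - y := by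
      funext y
      push_cast
      ring
    rw [e1, e2]
    refine PE.mono_c h1 (le_of_eq ?_)
    push_cast
    ring

end Pool.Agent.K6.H83.HN.W
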