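import Pool.Agent.K6.H83.HN.WideB

/-! Wide shelves: the step. -/

set_option autoImplicit false

namespace Pool.Agent.K6.H83.HN.W

open Finset Pool.Agent.TH176.Nag Pool.Agent.TH603.Sur Pool.Agent.TH641.UM Pool.Agent.K6.H83.QH
  Pool.Agent.Y205.AV Pool.Agent.K6.H83.HX

/-- the points of a shelf: five and `p` pairs -/
def Shm (g : ℕ → ℕ) (p : ℕ) : Multiset ℕ :=
  ({g 0} + ({g 1} + ({g 2} + ({g 3} + {g 4})))) +
    ∑ i ∈ Finset.range p, ({g (5 + 2 * i)} + {g (6 + 2 * i)})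

/-- the profile of the trapezoid of a shelf is thick -/
theorem good_trap {m d x1 x2 x3 x4 x5 : ℕ} {Q : ℤ} (hm : 1 ≤ m) (hQ : 0 ≤ Q)
    (hQ1 : Q ≤ 1280 * m) (o2 : x2 ≤ x1) (o3 : x3 ≤ x2) (o4 : x4 ≤ x3) (o5 : x5 ≤ x4)
    (h : x2 + x3 ≤ d) :
    Good (((d + (x1 + 8192 * m) : ℕ) : ℤ) + 1) x1 x2 x3 x4 x5 ((x1 + 8192 * m : ℕ) : ℤ) Q := by
  unfold Good pr A5 ps
  push_cast
  refine ⟨by omega, ?_, ?_, ?_, ?_⟩
  · omega
  · omega
  · omega
  · omega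

theorem cM_pairs (b t : ℕ → ℕ) (p : ℕ) :
    2 * (cM (∑ i ∈ Finset.range p, ({b i} + {t i} : Multiset ℕ)) : ℝ) =
      ∑ i ∈ Finset.range p, ((b i : ℝ) * (b i + 1) + t i * (t i + 1)) := by
  have e : ∀ x : ℕ, (2 * (cM {x} : ℝ)) = x * (x + 1) := fun x => by
    have h := Pool.Agent.TH2.NU.two_choose x
    rw [cM_single]
    exact_mod_cast h
  induction p with
  | zero =>
    simp only [Finset.sum_range_zero]
    have : cM (0 : Multiset ℕ) = 0 := by simp [cM]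
    rw [this]
    norm_num
  | succ p ih =>
    rw [Finset.sum_range_succ, Finset.sum_range_succ, cM_add, cM_add, ← ih]
    have e1 := e (b p)
    have e2 := e (t p)
    push_cast
    linarith

/-- the numbers of a shelf -/
theorem Dl_wide {E : Multiset ℕ} {m d d0 p : ℕ} {g : ℕ → ℕ} (hg : Antitone g)
    (hd : d = d0 + p * (g 0 + 8192 * m)) :
    Dl (E + Shm g p) (d + (g 0 + 8192 * m)) =
      (Fp (((d0 + (g 0 + 8192 * m) : ℕ) : ℤ) + 1) (g 0) (g 1) (g 2) (g 3) (g 4)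
        ((g 0 + 8192 * m : ℕ) : ℤ) ((g 0 + 8192 * m : ℕ) : ℤ) : ℝ) +
      (∑ i ∈ Finset.range p, (2 * (((g 0 + 8192 * m : ℕ) : ℤ) : ℝ) *
        (((g 0 + 8192 * m : ℕ) : ℤ) : ℝ) - g (5 + 2 * i) * (g (5 + 2 * i) + 1) -
          g (6 + 2 * i) * (g (6 + 2 * i) + 1) : ℝ)) + Dl E d := by
  have o1 : g 1 ≤ g 0 := hg (by norm_num)
  have o2 : g 2 ≤ g 0 := hg (by norm_num)
  obtain ⟨N, hN⟩ : ∃ N, N = g 0 + 8192 * m := ⟨_, rfl⟩
  rw [← hN] at hd ⊢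
  rw [Fp_top (c := (((d0 + N : ℕ) : ℤ) + 1)) (b1 := g 0) (b2 := g 1) (b3 := g 2) (t1 := g 3)
    (t2 := g 4) (N := (N : ℤ)) (by omega) (by omega) (by omega) (by omega) (by omega)]
  have e : ∀ x : ℕ, (2 * (cM {x} : ℝ)) = x * (x + 1) := fun x => by
    have h := Pool.Agent.TH2.NU.two_choose x
    rw [cM_single]
    exact_mod_cast h
  have e1 := e (g 0)
  have e2 := e (g 1)
  have e3 := e (g 2)
  have e4 := e (g 3)
  have e5 := e (g 4)
  have e6 := cM_pairs (fun i => g (5 + 2 * i)) (fun i => g (6 + 2 * i)) p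
  have e7 : (∑ i ∈ Finset.range p, (2 * (((N : ℕ) : ℤ) : ℝ) * (((N : ℕ) : ℤ) : ℝ) -
      g (5 + 2 * i) * (g (5 + 2 * i) + 1) - g (6 + 2 * i) * (g (6 + 2 * i) + 1) : ℝ)) =
      p * (2 * (N : ℝ) * N) - ∑ i ∈ Finset.range p, ((g (5 + 2 * i) : ℝ) *
        (g (5 + 2 * i) + 1) + g (6 + 2 * i) * (g (6 + 2 * i) + 1)) := by
    have h1 : (p : ℝ) * (2 * (N : ℝ) * N) = ∑ _i ∈ Finset.range p, (2 * (N : ℝ) * N) := by
      rw [Finset.sum_const, Finset.card_range, nsmul_eq_mul]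
    rw [h1, ← Finset.sum_sub_distrib]
    refine Finset.sum_congr rfl fun i _ => ?_
    push_cast
    ring
  rw [e7, ← e6]
  unfold Dl Shm
  rw [cM_add, cM_add, cM_add, cM_add, cM_add, cM_add]
  have hdR : (d : ℝ) = d0 + p * N := by
    rw [hd]
    push_cast
    ring
  push_cast
  rw [hdR]
  linarith

theorem IS_stepW {m d a p : ℕ} {E : Multiset ℕ} {g : ℕ → ℕ} (hm : 1 ≤ m) (hg : Antitone g)
    (h : (p + 2) * (g 0 + 8192 * m) ≤ d) (hI : IS m E d a) :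
    IS m (E + Shm g p) (d + (g 0 + 8192 * m)) (a + (p + 1) * 115480768) := by
  have hmR : (1 : ℝ) ≤ m := by exact_mod_cast hm
  obtain ⟨Q, hQ⟩ : ∃ Q : ℤ, Q = 1280 * m := ⟨_, rfl⟩
  have hQR : (Q : ℝ) = 1280 * m := by rw [hQ]; push_cast; ring
  have o1 : g 1 ≤ g 0 := hg (by norm_num)
  have o2 : g 2 ≤ g 1 := hg (by norm_num)
  have o3 : g 3 ≤ g 2 := hg (by norm_num)
  have o4 : g 4 ≤ g 3 := hg (by norm_num)
  obtain ⟨d0, hd0⟩ : ∃ d0, d = d0 + p * (g 0 + 8192 * m) :=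
    ⟨d - p * (g 0 + 8192 * m), by rw [add_mul] at h; omega⟩
  have hd02 : 2 * (g 0 + 8192 * m) ≤ d0 := by rw [add_mul] at h; omega
  have hgd := good_trap (Q := Q) (d := d0) hm (by omega) (by omega) o1 o2 o3 o4 (by omega)
  have hDl := Dl_wide (E := E) (m := m) hg hd0
  obtain ⟨N, hN⟩ : ∃ N, N = g 0 + 8192 * m := ⟨_, rfl⟩
  rw [← hN] at hgd hDl hd0 hd02 ⊢
  have hF := hgd.F_nonneg (Fp_zero (by omega) (by omega) (by omega) (by omega) (by omega))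
    (by omega)
  have P1 := (PSg (d := ((d0 + N : ℕ) : ℤ)) (N := (N : ℤ)) (β := (g 0 : ℤ)) (b2 := g 1)
    (b3 := g 2) (t1 := g 3) (t2 := g 4) hm hQ (by omega) hgd (by omega) (by omega) (by omega)
    (by omega)).absL (g 0) (by omega) (fun y _ _ => by push_cast; omega)
  have P1' := PS_strip (b := fun i => g (5 + 2 * i)) (t := fun i => g (6 + 2 * i)) hm hQ
    (fun i => hg (by omega)) (fun i => by
      have : g (5 + 2 * i) ≤ g 0 := hg (Nat.zero_le _)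
      omega) (by push_cast; omega) P1 p
  have hI2 : PS E m a (Gr (fun _ => 0) (fun y => (d : ℤ) - y) (d + 1))
      (Dl E d - Dl E d / (256 * m)) := by
    rw [← TZ_Gr]; exact hI
  have P2 := hI2.ups (N : ℤ)
  have hdN : (((d0 + N : ℕ) : ℤ)) + p * (N : ℤ) = d + N := by
    rw [hd0]
    push_cast
    ring
  rw [hdN] at P1'
  have G := PS.glue P1' P2 (fun p hp => ⟨hp.2.2.1, hp.1⟩)
    (fun p hp => ⟨hp.2.2.1, by
      have := hp.1
      omega⟩) 0 1 (by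
      intro p hp r hr
      have h1 := hp.2.1
      have h2 := hr.1
      omega)
  have G2 := G.monoS (S' := TZ (d + N)) (by
    rintro ⟨x, y⟩ (⟨g1, g2, g3, g4⟩ | ⟨g1, g2, g3, g4⟩)
    · simp only at g1 g2 g3 g4
      refine ⟨g3, g1, ?_⟩
      simp only
      push_cast
      omega
    · simp only at g1 g2 g3 g4
      refine ⟨g3, by simp only; omega, ?_⟩
      simp only
      push_cast
      omega)
  intro M hM hM1
  have e : E + Shm g p + M = ({g 0} + ({g 1} + ({g 2} + ({g 3} + {g 4}))) +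
      ∑ i ∈ Finset.range p, ({g (5 + 2 * i)} + {g (6 + 2 * i)})) + E + M := by
    unfold Shm
    abel
  rw [e]
  refine G2 M hM ?_
  rcases hM1 with hM1 | hM1
  · exact Or.inl hM1
  · right
    rw [hDl] at hM1
    obtain ⟨F, hFd⟩ : ∃ F : ℝ, F = (Fp (((d0 + N : ℕ) : ℤ) + 1) (g 0) (g 1) (g 2) (g 3) (g 4)
        (N : ℤ) (N : ℤ) : ℝ) := ⟨_, rfl⟩
    obtain ⟨X, hXd⟩ : ∃ X : ℝ, X = ∑ i ∈ Finset.range p, (2 * ((N : ℤ) : ℝ) * ((N : ℤ) : ℝ) -
      g (5 + 2 * i) * (g (5 + 2 * i) + 1) - g (6 + 2 * i) * (g (6 + 2 * i) + 1) : ℝ) := ⟨_, rfl⟩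
    rw [← hFd] at hM1 hF ⊢
    rw [← hXd] at hM1 ⊢
    have k1 := κ_ge hm hF
    have k2 : κ m ≤ 1 := by
      unfold κ
      rw [div_le_one (by positivity)]
      linarith
    have k3 : κ m * (F - 66 * Q ^ 2) = κ m * F - κ m * (66 * Q ^ 2) := by ring
    have k4 : κ m * (66 * (Q : ℝ) ^ 2) ≤ 1 * (66 * Q ^ 2) :=
      mul_le_mul_of_nonneg_right k2 (by positivity)
    have k5 : 66 * (Q : ℝ) ^ 2 = 108134400 * (m : ℝ) ^ 2 := by rw [hQR]; ring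
    rw [k3]
    rw [k5] at k4 ⊢
    push_cast at hM1 ⊢
    rw [add_div, add_div] at hM1
    linarith

theorem IE_stepW {m d a p : ℕ} {E : Multiset ℕ} {g : ℕ → ℕ} (hm : 1 ≤ m) (hg : Antitone g)
    (h : (p + 2) * (g 0 + 8192 * m) ≤ d) (hD : 0 ≤ Dl E d) (hI : IE m E d a) :
    IE m (E + Shm g p) (d + (g 0 + 8192 * m)) (a + (p + 1) * 18723) := by
  have hmR : (1 : ℝ) ≤ m := by exact_mod_cast hm
  obtain ⟨q, hq⟩ : ∃ q : ℤ, q = 12 * (8 * m : ℕ) + 1 := ⟨_, rfl⟩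
  have hqR : (q : ℝ) = 96 * m + 1 := by rw [hq]; push_cast; ring
  have o1 : g 1 ≤ g 0 := hg (by norm_num)
  have o2 : g 2 ≤ g 1 := hg (by norm_num)
  have o3 : g 3 ≤ g 2 := hg (by norm_num)
  have o4 : g 4 ≤ g 3 := hg (by norm_num)
  obtain ⟨d0, hd0⟩ : ∃ d0, d = d0 + p * (g 0 + 8192 * m) :=
    ⟨d - p * (g 0 + 8192 * m), by rw [add_mul] at h; omega⟩
  have hd02 : 2 * (g 0 + 8192 * m) ≤ d0 := by rw [add_mul] at h; omega
  have hgd := good_trap (Q := q) (d := d0) hm (by omega) (by push_cast at hq; omega) o1 o2 o3 o4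
    (by omega)
  have hDl := Dl_wide (E := E) (m := m) hg hd0
  obtain ⟨N, hN⟩ : ∃ N, N = g 0 + 8192 * m := ⟨_, rfl⟩
  rw [← hN] at hgd hDl hd0 hd02 ⊢
  have hF := hgd.F_nonneg (Fp_zero (by omega) (by omega) (by omega) (by omega) (by omega))
    (by omega)
  have hpos : (0 : ℝ) ≤ 108 * (q : ℝ) ^ 2 + 4 * (4 * q + 14) * (q + 4) := by
    rw [hqR]; positivity
  have hfin : (Gr (fun _ => 0) (fun y => ((d0 + N : ℕ) : ℤ) - y) N).Finite :=
    Gr_finite 0 ((d0 + N : ℕ) : ℤ) (fun y _ _ => le_rfl) (fun y hy _ => by omega)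
  have P1 := (PEg (B := 8 * m) (d := ((d0 + N : ℕ) : ℤ)) (N := (N : ℤ)) (β := (g 0 : ℤ))
    (b2 := g 1) (b3 := g 2) (t1 := g 3) (t2 := g 4) (by omega) hq (by omega) hgd (by omega)
    (by omega)).absL (g 0) hfin
  have P1' := PE_strip (b := fun i => g (5 + 2 * i)) (t := fun i => g (6 + 2 * i)) (by omega) hq
    (by push_cast at hq; omega) (fun i => hg (by omega)) (fun i => by
      have : g (5 + 2 * i) ≤ g 0 := hg (Nat.zero_le _)
      push_cast at hq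
      omega) (by push_cast; omega) (by linarith) P1 p
  have hI2 : PE E (8 * m) a (Gr (fun _ => 0) (fun y => (d : ℤ) - y) (d + 1)) (Dl E d) := by
    rw [← TZ_Gr]; exact hI
  have P2 := hI2.ups (N : ℤ)
  have hdN : (((d0 + N : ℕ) : ℤ)) + p * (N : ℤ) = d + N := by
    rw [hd0]
    push_cast
    ring
  rw [hdN] at P1'
  have hX : (0 : ℝ) ≤ ∑ i ∈ Finset.range p, (2 * ((N : ℤ) : ℝ) * ((N : ℤ) : ℝ) -
      g (5 + 2 * i) * (g (5 + 2 * i) + 1) - g (6 + 2 * i) * (g (6 + 2 * i) + 1) : ℝ) :=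
    Finset.sum_nonneg fun i _ => par_num (q := q) (by push_cast at hq; omega)
      (hg (by omega)) (by
        have : g (5 + 2 * i) ≤ g 0 := hg (Nat.zero_le _)
        push_cast at hq
        omega)
  have hfin1 : (Gr (fun _ => 0) (fun y => (d : ℤ) + N - y) N).Finite :=
    Gr_finite 0 ((d : ℤ) + N) (fun y _ _ => le_rfl) (fun y hy _ => by omega)
  have hfin2 : (Gs (fun _ => 0) (fun y => (d : ℤ) - y) N (d + 1)).Finite := by
    refine Set.Finite.subset ((Set.finite_Icc (0 : ℤ) d).prod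
      (Set.finite_Icc (N : ℤ) (N + (d + 1)))) ?_
    rintro ⟨x, y⟩ ⟨g1, g2, g3, g4⟩
    simp only at g1 g2 g3 g4
    exact ⟨⟨g3, by simp only; omega⟩, ⟨g1, by simp only; omega⟩⟩
  have hp0 : (0 : ℝ) ≤ p * (108 * (q : ℝ) ^ 2 + 4 * (4 * q + 14) * (q + 4)) := by positivity
  have G := PE.glue P1' P2 hfin1 hfin2 (fun p hp => ⟨hp.2.2.1, hp.1⟩)
    (fun p hp => ⟨hp.2.2.1, by
      have := hp.1
      omega⟩) (by linarith) hD 0 1 (by
      intro p hp r hr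
      have h1 := hp.2.1
      have h2 := hr.1
      omega)
  have G2 := G.monoS (S' := TZ (d + N)) (by
    rintro ⟨x, y⟩ ⟨g1, g2, g3⟩
    simp only at g1 g2 g3
    push_cast at g3
    rcases lt_or_ge y (N : ℤ) with hy | hy
    · exact Or.inl ⟨g2, hy, g1, by simp only; omega⟩
    · exact Or.inr ⟨hy, by simp only; omega, g1, by simp only; omega⟩)
  intro M hM hM1
  have e : E + Shm g p + M = ({g 0} + ({g 1} + ({g 2} + ({g 3} + {g 4}))) +
      ∑ i ∈ Finset.range p, ({g (5 + 2 * i)} + {g (6 + 2 * i)})) + E + M := by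
    unfold Shm
    abel
  rw [e]
  refine G2 M hM ?_
  rw [hDl] at hM1
  obtain ⟨F, hFd⟩ : ∃ F : ℝ, F = (Fp (((d0 + N : ℕ) : ℤ) + 1) (g 0) (g 1) (g 2) (g 3) (g 4)
      (N : ℤ) (N : ℤ) : ℝ) := ⟨_, rfl⟩
  obtain ⟨X, hXd⟩ : ∃ X : ℝ, X = ∑ i ∈ Finset.range p, (2 * ((N : ℤ) : ℝ) * ((N : ℤ) : ℝ) -
    g (5 + 2 * i) * (g (5 + 2 * i) + 1) - g (6 + 2 * i) * (g (6 + 2 * i) + 1) : ℝ) := ⟨_, rfl⟩
  rw [← hFd] at hM1 hF ⊢
  rw [← hXd] at hM1 ⊢
  obtain ⟨Y, hY⟩ : ∃ Y : ℝ, Y = 108 * (q : ℝ) ^ 2 + 4 * (4 * q + 14) * (q + 4) := ⟨_, rfl⟩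
  have k1 : Y ≤ 1178624 * (m : ℝ) ^ 2 := by
    have h1 : (q : ℝ) ≤ 97 * m := by rw [hqR]; linarith
    have h0 : (0 : ℝ) ≤ q := by rw [hqR]; positivity
    have h2 : (q : ℝ) ^ 2 ≤ (97 * (m : ℝ)) ^ 2 := pow_le_pow_left₀ h0 h1 2
    have h3 : (4 * (q : ℝ) + 14) * (q + 4) ≤ (402 * m) * (101 * m) :=
      mul_le_mul (by linarith) (by linarith) (by linarith) (by positivity)
    rw [hY]
    nlinarith
  have k2 : (p : ℝ) * Y ≤ p * (1178624 * (m : ℝ) ^ 2) :=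
    mul_le_mul_of_nonneg_left k1 (by positivity)
  have k3 : F + 108 * (q : ℝ) ^ 2 + 4 * (4 * q + 14) * (q + 4) = F + Y := by rw [hY]; ring
  rw [k3, ← hY]
  push_cast at hM1 ⊢
  linarith

end Pool.Agent.K6.H83.HN.W
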